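import Pool.Agent.L7h64.ABGJac

/-!
# The action of `gl_3` and of the derivations of `A` on the Lie algebra `ABG(A)`
-/

set_option autoImplicit false
set_option linter.unusedSimpArgs false
set_option linter.unusedSectionVars false

namespace Pool.Agent.L7h64.ABG

open TensorProduct Matrix

section

variable {k A : Type*} [Field k] [NonUnitalNonAssocRing A] [Module k A] [IsScalarTower k A A]
  [SMulCommClass k A A]

/-- the commutator `X M - M X` of a scalar matrix with a matrix over `A` -/
def adM (X : M3 k) (M : M3 A) : M3 A :=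
  Matrix.of fun i j => ∑ l, X i l • M l j - ∑ l, X l j • M i l

lemma adM_apply (X : M3 k) (M : M3 A) (i j : Fin 3) : adM X M i j =
    ∑ l, X i l • M l j - ∑ l, X l j • M i l := rfl

variable (k A) in
/-- the action of `gl_3` on trace zero matrices over `A` by commutators -/
def adX : M3 k →ₗ[k] T0 k A →ₗ[k] T0 k A :=
  LinearMap.mk₂ k (fun X M => ⟨adM X M.1, by
      rw [mem_T0, trace_eqA]
      simp only [adM_apply, Fin.sum_univ_three]
      abel⟩)
    (fun X Y M => Subtype.ext (by
      ext i j
      show adM (X + Y) M.1 i j = adM X M.1 i j + adM Y M.1 i j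
      simp only [adM_apply, Fin.sum_univ_three, Matrix.add_apply]
      module))
    (fun c X M => Subtype.ext (by
      ext i j
      show adM (c • X) M.1 i j = c • adM X M.1 i j
      simp only [adM_apply, Fin.sum_univ_three, Matrix.smul_apply, smul_eq_mul]
      module))
    (fun X M N => Subtype.ext (by
      ext i j
      show adM X (M.1 + N.1) i j = adM X M.1 i j + adM X N.1 i j
      simp only [adM_apply, Fin.sum_univ_three, Matrix.add_apply]
      module))
    (fun c X M => Subtype.ext (by
      ext i j
      show adM X (c • M.1) i j = c • adM X M.1 i j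
      simp only [adM_apply, Fin.sum_univ_three, Matrix.smul_apply]
      module))

lemma adX_apply (X : M3 k) (M : T0 k A) (i j : Fin 3) : (adX k A X M).1 i j =
    ∑ l, X i l • M.1 l j - ∑ l, X l j • M.1 i l := rfl

lemma trace_comm (X Y : M3 k) : (X * Y - Y * X).trace = 0 := by
  rw [trace_sub, trace_mul_comm, sub_self]

lemma adX_ten (X Y : M3 k) (hY : Y.trace = 0) (p : A) :
    adX k A X (tenT Y hY p) = tenT (X * Y - Y * X) (trace_comm X Y) p := by
  apply Subtype.ext
  ext i j
  rw [adX_apply, tenT_apply]
  simp only [tenT_apply, Fin.sum_univ_three, Matrix.sub_apply, Matrix.mul_apply]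
  module

lemma adX_lie (X Y : M3 k) (M : T0 k A) : adX k A (X * Y - Y * X) M =
    adX k A X (adX k A Y M) - adX k A Y (adX k A X M) := by
  apply Subtype.ext
  ext i j
  show _ = (adX k A X (adX k A Y M)).1 i j - (adX k A Y (adX k A X M)).1 i j
  simp only [adX_apply, Fin.sum_univ_three, Matrix.sub_apply, Matrix.mul_apply]
  module

lemma DT_adX (D : derA k A) (X : M3 k) (M : T0 k A) :
    DT k A D (adX k A X M) = adX k A X (DT k A D M) := by
  apply Subtype.ext
  ext i j
  rw [DT_apply, adX_apply, adX_apply]
  simp only [DT_apply, map_sub, map_sum, map_smul]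

variable [CharZero k]

lemma dv_comm (X W : M3 k) : X * dv W - dv W * X = X * W - W * X := by
  unfold dv
  rw [mul_sub, sub_mul, mul_smul_comm, smul_mul_assoc, mul_one, one_mul]
  abel

lemma tenT_congr {X Y : M3 k} {hX : X.trace = 0} {hY : Y.trace = 0} (h : X = Y) (p : A) :
    tenT X hX p = tenT Y hY p := by subst h; rfl

lemma tenT_add (X Y : M3 k) (hX : X.trace = 0) (hY : Y.trace = 0) (p : A) :
    tenT X hX p + tenT Y hY p = tenT (X + Y) (by rw [trace_add, hX, hY, add_zero]) p := by
  apply Subtype.ext
  ext i j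
  exact (add_smul _ _ _).symm

lemma adX_mbr (X : M3 k) (M N : T0 k A) : adX k A X (mbr k A M N) =
    mbr k A (adX k A X M) N + mbr k A M (adX k A X N) := by
  induction M using T0_ind with
  | hadd x y hx hy =>
    simp only [map_add, LinearMap.add_apply]
    rw [hx, hy]; abel
  | hten Y hY q =>
  induction N using T0_ind with
  | hadd x y hx hy =>
    simp only [map_add, LinearMap.add_apply]
    rw [hx, hy]; abel
  | hten Z hZ r =>
  rw [mbr_ten, map_sub, adX_ten, adX_ten, adX_ten, adX_ten, mbr_ten, mbr_ten]
  have h1 : X * dv (Y * Z) - dv (Y * Z) * X = dv ((X * Y - Y * X) * Z) +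
      dv (Y * (X * Z - Z * X)) := by
    rw [← dv_add, dv_comm]
    have : (X * Y - Y * X) * Z + Y * (X * Z - Z * X) = X * (Y * Z) - (Y * Z) * X := by
      noncomm_ring
    rw [this, dv_of_trace _ (trace_comm _ _)]
  have h2 : X * dv (Z * Y) - dv (Z * Y) * X = dv (Z * (X * Y - Y * X)) +
      dv ((X * Z - Z * X) * Y) := by
    rw [← dv_add, dv_comm]
    have : Z * (X * Y - Y * X) + (X * Z - Z * X) * Y = X * (Z * Y) - (Z * Y) * X := by
      noncomm_ring
    rw [this, dv_of_trace _ (trace_comm _ _)]
  rw [tenT_congr h1 (hY := by rw [trace_add, trace_dv, trace_dv, add_zero]),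
    tenT_congr h2 (hY := by rw [trace_add, trace_dv, trace_dv, add_zero]),
    ← tenT_add, ← tenT_add]
  · abel
  all_goals exact trace_dv _

lemma om_adX (X : M3 k) (M N : T0 k A) :
    om k A (adX k A X M) N + om k A M (adX k A X N) = 0 := by
  induction M using T0_ind with
  | hadd x y hx hy =>
    simp only [map_add, LinearMap.add_apply]
    linear_combination (norm := abel) hx + hy
  | hten Y hY q =>
  induction N using T0_ind with
  | hadd x y hx hy =>
    simp only [map_add, LinearMap.add_apply]
    linear_combination (norm := abel) hx + hy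
  | hten Z hZ r =>
  rw [adX_ten, adX_ten, om_ten, om_ten, ← add_smul, ← mul_add, ← trace_add]
  have : (X * Y - Y * X) * Z + Y * (X * Z - Z * X) = X * (Y * Z) - (Y * Z) * X := by
    noncomm_ring
  rw [this, trace_comm, mul_zero, zero_smul]

variable [IsAlternative A]

/-- J3 for all derivations -/
lemma DT_comm' (D : derA k A) (c : BA k A) (M : T0 k A) : DT k A (DD k A (bact k A D c)) M =
    DT k A D (DT k A (DD k A c) M) - DT k A (DD k A c) (DT k A D M) := by
  apply Subtype.ext
  ext i j
  exact DD_bact D c (M.1 i j)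

lemma bact_comm' (D : derA k A) (c e : BA k A) : bact k A (DD k A (bact k A D c)) e =
    bact k A D (bact k A (DD k A c) e) - bact k A (DD k A c) (bact k A D e) := by
  induction e using BA_ind with
  | h0 => simp
  | h1 p q =>
    simp only [bact_wd, map_add, DD_bact, map_sub, LinearMap.sub_apply, LinearMap.add_apply]
    abel
  | h2 x y hx hy =>
    simp only [map_add] at *
    rw [hx, hy]
    abel

/-- the derivation of `ABG(A)` induced by a derivation of `A` -/
def EL (D : derA k A) : ABGAlg k A →ₗ[k] ABGAlg k A where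
  toFun x := ((DT k A D x.1, bact k A D x.2) : ↥(T0 k A) × BA k A)
  map_add' x y := Prod.ext (map_add _ _ _) (map_add _ _ _)
  map_smul' c x := Prod.ext (map_smul _ _ _) (map_smul _ _ _)

lemma EL_der (D : derA k A) (x y : ABGAlg k A) : EL D ⁅x, y⁆ = ⁅EL D x, y⁆ + ⁅x, EL D y⁆ := by
  refine Prod.ext ?_ ?_
  · show DT k A D (mbr k A x.1 y.1 + DT k A (DD k A x.2) y.1 - DT k A (DD k A y.2) x.1) =
      (mbr k A (DT k A D x.1) y.1 + DT k A (DD k A (bact k A D x.2)) y.1 -
        DT k A (DD k A y.2) (DT k A D x.1)) +
      (mbr k A x.1 (DT k A D y.1) + DT k A (DD k A x.2) (DT k A D y.1) -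
        DT k A (DD k A (bact k A D y.2)) x.1)
    simp only [map_add, map_sub, DT_comm', DT_mbr]
    abel
  · show bact k A D (om k A x.1 y.1 + bact k A (DD k A x.2) y.2) =
      (om k A (DT k A D x.1) y.1 + bact k A (DD k A (bact k A D x.2)) y.2) +
      (om k A x.1 (DT k A D y.1) + bact k A (DD k A x.2) (bact k A D y.2))
    simp only [map_add, bact_comm', bact_om]
    abel

variable (k A) in
/-- The action of `gl_3` on `ABG(A)`: the commutator on the factor `sl_3` of `sl_3 ⊗ A`, and zero
on `B(A)`. -/
def delta : M3 k →ₗ[k] ABGAlg k A →ₗ[k] ABGAlg k A where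
  toFun X :=
    { toFun := fun x => ((adX k A X x.1, 0) : ↥(T0 k A) × BA k A)
      map_add' := fun x y => Prod.ext (map_add _ _ _) (add_zero _).symm
      map_smul' := fun c x => Prod.ext (map_smul _ _ _) (smul_zero _).symm }
  map_add' X Y := LinearMap.ext fun x => Prod.ext
    (by show adX k A (X + Y) x.1 = adX k A X x.1 + adX k A Y x.1
        rw [map_add, LinearMap.add_apply]) (add_zero _).symm
  map_smul' c X := LinearMap.ext fun x => Prod.ext
    (by show adX k A (c • X) x.1 = c • adX k A X x.1
        rw [map_smul, LinearMap.smul_apply]) (smul_zero _).symm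

lemma delta_apply (X : M3 k) (x : ABGAlg k A) :
    delta k A X x = ((adX k A X x.1, 0) : ↥(T0 k A) × BA k A) := rfl

/-- `gl_3` acts on `ABG(A)` by derivations -/
lemma delta_der (X : M3 k) (x y : ABGAlg k A) :
    delta k A X ⁅x, y⁆ = ⁅delta k A X x, y⁆ + ⁅x, delta k A X y⁆ := by
  refine Prod.ext ?_ ?_
  · show adX k A X (mbr k A x.1 y.1 + DT k A (DD k A x.2) y.1 - DT k A (DD k A y.2) x.1) =
      (mbr k A (adX k A X x.1) y.1 + DT k A (DD k A 0) y.1 -
        DT k A (DD k A y.2) (adX k A X x.1)) +
      (mbr k A x.1 (adX k A X y.1) + DT k A (DD k A x.2) (adX k A X y.1) -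
        DT k A (DD k A 0) x.1)
    simp only [map_add, map_sub, adX_mbr, DT_adX, map_zero, LinearMap.zero_apply]
    abel
  · show (0 : BA k A) =
      (om k A (adX k A X x.1) y.1 + bact k A (DD k A 0) y.2) +
      (om k A x.1 (adX k A X y.1) + bact k A (DD k A x.2) 0)
    simp only [map_zero, LinearMap.zero_apply, add_zero]
    exact (om_adX X x.1 y.1).symm

lemma delta_lie (X Y : M3 k) (x : ABGAlg k A) : delta k A (X * Y - Y * X) x =
    delta k A X (delta k A Y x) - delta k A Y (delta k A X x) :=
  Prod.ext (adX_lie X Y x.1) (sub_zero _).symm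

lemma EL_delta (D : derA k A) (X : M3 k) (x : ABGAlg k A) :
    EL D (delta k A X x) = delta k A X (EL D x) :=
  Prod.ext (DT_adX D X x.1) (map_zero (bact k A D))

end

end Pool.Agent.L7h64.ABG
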