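import Mathlib

/-!
# Identities in alternative algebras
-/

set_option autoImplicit false
set_option linter.unusedSimpArgs false
set_option linter.unusedSectionVars false

namespace Pool.Agent.L7h64.ABG

/-- alternative algebras: `(p p) q = p (p q)` and `(q p) p = q (p p)` -/
class IsAlternative (A : Type*) [NonUnitalNonAssocRing A] : Prop where
  left : ∀ p q : A, (p * p) * q = p * (p * q)
  right : ∀ p q : A, (q * p) * p = q * (p * p)

variable {A : Type*} [NonUnitalNonAssocRing A]

/-- the associator -/
def as (a b c : A) : A := (a * b) * c - a * (b * c)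

lemma as_add_left (a a' b c : A) : as (a + a') b c = as a b c + as a' b c := by
  simp only [as, add_mul]; abel

lemma as_add_mid (a b b' c : A) : as a (b + b') c = as a b c + as a b' c := by
  simp only [as, add_mul, mul_add]; abel

lemma as_add_right (a b c c' : A) : as a b (c + c') = as a b c + as a b c' := by
  simp only [as, mul_add]; abel

lemma as_sub_left (a a' b c : A) : as (a - a') b c = as a b c - as a' b c := by
  simp only [as, sub_mul]; abel

lemma mul3_right (a b c : A) : a * (b * c) = (a * b) * c - as a b c := by
  simp only [as]; abel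

/-- Teichmüller's identity -/
lemma teich (w x y z : A) : as (w * x) y z - as w (x * y) z + as w x (y * z) - w * as x y z
    - as w x y * z = 0 := by
  simp only [as, mul_sub, sub_mul]; abel

variable [IsAlternative A]

lemma as_self_left (a b : A) : as a a b = 0 := sub_eq_zero.2 (IsAlternative.left a b)
lemma as_self_right (a b : A) : as b a a = 0 := sub_eq_zero.2 (IsAlternative.right a b)

lemma as_swap_left (a b c : A) : as b a c = -as a b c := by
  have h := as_self_left (a + b) c
  rw [as_add_left, as_add_mid, as_add_mid, as_self_left, as_self_left, zero_add, add_zero] at h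
  rw [eq_neg_iff_add_eq_zero, add_comm]; exact h

lemma as_swap_right (a b c : A) : as a c b = -as a b c := by
  have h := as_self_right (b + c) a
  rw [as_add_right, as_add_mid, as_add_mid, as_self_right, as_self_right, zero_add, add_zero] at h
  rw [eq_neg_iff_add_eq_zero, add_comm]
  rw [add_comm]
  exact h

lemma as_rot (a b c : A) : as b c a = as a b c := by
  rw [as_swap_right, as_swap_left, neg_neg]

lemma as_rot' (a b c : A) : as c a b = as a b c := by
  rw [as_rot, as_rot]

lemma as_rev (a b c : A) : as c b a = -as a b c := by
  rw [as_swap_right, as_rot']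

/-- normalized Teichmüller identity: all associators of degree four with the product in front -/
lemma teich' (w x y z : A) : as (w * x) y z + as (x * y) w z + as (y * z) w x - w * as x y z
    - as w x y * z = 0 := by
  have h := teich w x y z
  rw [as_swap_left (x * y) w z, sub_neg_eq_add, ← as_rot' w x (y * z)] at h
  exact h

/-- the key identity behind the derivation property -/
lemma key_der (p q x y : A) : as (p * q) x y - as (q * p) x y + as (x * y) p q - as p q x * y
    - x * as p q y = 0 := by
  have e0 : as p y q = -as p q y := as_swap_right p q y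
  have e1 : as (p * q) y x = -as (p * q) x y := as_swap_right (p * q) x y
  have e2 : as (p * y) x q = -as (p * y) q x := as_swap_right (p * y) q x
  have e3 : as q p y = -as p q y := as_swap_left p q y
  have e4 : as (q * p) y x = -as (q * p) x y := as_swap_right (q * p) x y
  have e5 : as x p q = as p q x := as_rot' p q x
  have e6 : as x p y = -as p x y := as_swap_left p x y
  have e7 : as x q p = -as p q x := as_rev p q x
  have e8 : as x y q = as q x y := as_rot q x y
  have e9 : as (x * p) y q = -as (x * p) q y := as_swap_right (x * p) q y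
  have e10 : as (x * q) y p = -as (x * q) p y := as_swap_right (x * q) p y
  have e11 : as (x * y) q p = -as (x * y) p q := as_swap_right (x * y) p q
  have e12 : as y q p = -as p q y := as_rev p q y
  have e13 : as y x p = -as p x y := as_rev p x y
  have e14 : as y x q = -as q x y := as_rev q x y
  have e15 : as (y * q) x p = -as (y * q) p x := as_swap_right (y * q) p x
  have e16 : as (y * x) q p = -as (y * x) p q := as_swap_right (y * x) p q
  have h0 := teich' x q p y
  have h1 := teich' y x p q
  have h2 := teich' x y q p
  have h3 := teich' x p y q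
  have h4 := teich' y x q p
  simp only [e0, e1, e2, e3, e4, e5, e6, e7, e8, e9, e10, e11, e12, e13, e14, e15, e16, mul_neg,
    neg_mul] at h0 h1 h2 h3 h4 ⊢
  linear_combination (norm := abel) -h0 - h1 - h2 + h3 - h4

/-- the key identity behind `D_{pq,r} + D_{qr,p} + D_{rp,q} = 0` -/
lemma key_cyc (p q x y : A) : as (p * q) x y + as (q * x) p y + as (x * p) q y - as p q x * y
    + y * as p q x = 0 := by
  have e0 : as p x q = -as p q x := as_swap_right p q x
  have e1 : as (p * x) y q = -as (p * x) q y := as_swap_right (p * x) q y
  have e2 : as (q * y) x p = -as (q * y) p x := as_swap_right (q * y) p x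
  have e3 : as x p q = as p q x := as_rot' p q x
  have e4 : as x q y = -as q x y := as_swap_left q x y
  have e5 : as x y p = as p x y := as_rot p x y
  have e6 : as (x * q) y p = -as (x * q) p y := as_swap_right (x * q) p y
  have e7 : as y p q = as p q y := as_rot' p q y
  have e8 : as y p x = as p x y := as_rot' p x y
  have e9 : as (y * p) x q = -as (y * p) q x := as_swap_right (y * p) q x
  have h0 := teich' x y p q
  have h1 := teich' p q x y
  have h2 := teich' p x q y
  have h3 := teich' x p q y
  have h4 := teich' y p x q
  simp only [e0, e1, e2, e3, e4, e5, e6, e7, e8, e9, mul_neg, neg_mul] at h0 h1 h2 h3 h4 ⊢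
  linear_combination (norm := abel) -h0 + h1 + h2 + h3 + h4

/-- `D_{p,q} = [L_p, L_q] + [R_p, R_q] + [L_p, R_q]` -/
def Dop (p q r : A) : A :=
  (p * (q * r) - q * (p * r)) + ((r * q) * p - (r * p) * q) + (p * (r * q) - (p * r) * q)

lemma Dop_eq (p q r : A) :
    Dop p q r = (p * q - q * p) * r - r * (p * q - q * p) - (3 : ℤ) • as p q r := by
  unfold Dop
  have e1 : as q p r = -as p q r := as_swap_left p q r
  have e2 : as p r q = -as p q r := as_swap_right p q r
  have e3 : as r p q = as p q r := as_rot' p q r
  have e4 : as r q p = -as p q r := as_rev p q r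
  have h1 := mul3_right p q r
  have h2 := mul3_right q p r
  have h3 := mul3_right p r q
  have h4 := mul3_right r p q
  have h5 := mul3_right r q p
  rw [e1] at h2
  rw [e2] at h3
  rw [e3] at h4
  rw [e4] at h5
  rw [mul_sub, sub_mul, h1, h2, h3, h4, h5]
  abel

lemma Dop_der (p q x y : A) : Dop p q (x * y) = Dop p q x * y + x * Dop p q y := by
  rw [Dop_eq, Dop_eq, Dop_eq]
  have hk := key_der p q x y
  have g1 : as p q (x * y) = as (x * y) p q := (as_rot' p q (x * y)).symm
  have g2 : ∀ c : A, c * (x * y) = (c * x) * y - as c x y := fun c => mul3_right c x y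
  have g3 : ∀ c : A, (x * y) * c = x * (y * c) + as x y c := fun c => by
    simp only [as]; abel
  have g4 : ∀ c : A, as x y c = as c x y := fun c => as_rot c x y
  have g5 : ∀ c : A, (x * c) * y = x * (c * y) - as c x y := fun c => by
    have : as x c y = -as c x y := as_swap_left c x y
    simp only [as] at this ⊢
    linear_combination (norm := abel) this
  rw [g1, g2, g3, g4]
  simp only [sub_mul, mul_sub, smul_mul_assoc, mul_smul_comm]
  rw [g5 (p * q), g5 (q * p)]
  have g6 : as (p * q - q * p) x y = as (p * q) x y - as (q * p) x y := as_sub_left _ _ _ _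
  rw [g6]
  linear_combination (norm := (simp only [smul_sub, smul_add]; abel)) (-3 : ℤ) • hk


lemma Dop_cyc (p q x y : A) : Dop (p * q) x y + Dop (q * x) p y + Dop (x * p) q y = 0 := by
  rw [Dop_eq, Dop_eq, Dop_eq]
  have hk := key_cyc p q x y
  have h1 : (p * q) * x - x * (p * q) + ((q * x) * p - p * (q * x)) + ((x * p) * q - q * (x * p))
      = (3 : ℤ) • as p q x := by
    have e1 : as x p q = as p q x := as_rot' p q x
    have e2 : as q x p = as p q x := as_rot p q x
    have m1 := mul3_right x p q
    have m2 := mul3_right p q x
    have m3 := mul3_right q x p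
    rw [e1] at m1
    rw [e2] at m3
    rw [m1, m2, m3]
    abel
  have h2 : ((p * q) * x - x * (p * q)) * y + ((q * x) * p - p * (q * x)) * y +
      ((x * p) * q - q * (x * p)) * y = (3 : ℤ) • (as p q x * y) := by
    rw [← add_mul, ← add_mul, h1, smul_mul_assoc]
  have h3 : y * ((p * q) * x - x * (p * q)) + y * ((q * x) * p - p * (q * x)) +
      y * ((x * p) * q - q * (x * p)) = (3 : ℤ) • (y * as p q x) := by
    rw [← mul_add, ← mul_add, h1, mul_smul_comm]
  linear_combination (norm := (simp only [smul_sub, smul_add, smul_zero]; abel)) h2 - h3 - (3 : ℤ) • hk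

lemma Dop_self (p r : A) : Dop p p r = 0 := by
  rw [Dop_eq, as_self_left]
  simp

omit [IsAlternative A] in
lemma Dop_add_left (p p' q r : A) : Dop (p + p') q r = Dop p q r + Dop p' q r := by
  simp only [Dop, add_mul, mul_add]; abel

omit [IsAlternative A] in
lemma Dop_add_mid (p q q' r : A) : Dop p (q + q') r = Dop p q r + Dop p q' r := by
  simp only [Dop, add_mul, mul_add]; abel

omit [IsAlternative A] in
lemma Dop_add_right (p q r r' : A) : Dop p q (r + r') = Dop p q r + Dop p q r' := by
  simp only [Dop, add_mul, mul_add]; abel

/-- the skew symmetry of the bracket of the inner derivations -/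
lemma wedge_skew {k N : Type*} [Field k] [Module k A] [AddCommGroup N] [Module k N]
    (W : A →ₗ[k] A →ₗ[k] N) (hself : ∀ u, W u u = 0)
    (hcyc : ∀ u v w, W (u * v) w + W (v * w) u + W (w * u) v = 0) (p q r s : A) :
    W (Dop p q r) s + W r (Dop p q s) + (W (Dop r s p) q + W p (Dop r s q)) = 0 := by
  have hsw : ∀ u v, W u v = -W v u := by
    intro u v
    have h := hself (u + v)
    rw [map_add, map_add, LinearMap.add_apply, LinearMap.add_apply, hself, hself, zero_add,
      add_zero] at h
    rw [eq_neg_iff_add_eq_zero, add_comm]; exact h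
  rw [hsw r, hsw p, Dop_eq, Dop_eq, Dop_eq, Dop_eq]
  have e0 : as p r q = -as p q r := as_swap_right p q r
  have e1 : as q p r = -as p q r := as_swap_left p q r
  have e2 : as q r p = as p q r := as_rot p q r
  have e3 : as r p q = as p q r := as_rot' p q r
  have e4 : as r q p = -as p q r := as_rev p q r
  have e5 : as p s q = -as p q s := as_swap_right p q s
  have e6 : as q p s = -as p q s := as_swap_left p q s
  have e7 : as q s p = as p q s := as_rot p q s
  have e8 : as s p q = as p q s := as_rot' p q s
  have e9 : as s q p = -as p q s := as_rev p q s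
  have e10 : as p s r = -as p r s := as_swap_right p r s
  have e11 : as r p s = -as p r s := as_swap_left p r s
  have e12 : as r s p = as p r s := as_rot p r s
  have e13 : as s p r = as p r s := as_rot' p r s
  have e14 : as s r p = -as p r s := as_rev p r s
  have e15 : as q s r = -as q r s := as_swap_right q r s
  have e16 : as r q s = -as q r s := as_swap_left q r s
  have e17 : as r s q = as q r s := as_rot q r s
  have e18 : as s q r = as q r s := as_rot' q r s
  have e19 : as s r q = -as q r s := as_rev q r s
  have m0 := mul3_right p q r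
  have m1 := mul3_right p q s
  have m2 := mul3_right p r q
  have m3 := mul3_right p r s
  have m4 := mul3_right p s q
  have m5 := mul3_right p s r
  have m6 := mul3_right q p r
  have m7 := mul3_right q p s
  have m8 := mul3_right q r p
  have m9 := mul3_right q r s
  have m10 := mul3_right q s p
  have m11 := mul3_right q s r
  have m12 := mul3_right r p q
  have m13 := mul3_right r p s
  have m14 := mul3_right r q p
  have m15 := mul3_right r q s
  have m16 := mul3_right r s p
  have m17 := mul3_right r s q
  have m18 := mul3_right s p q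
  have m19 := mul3_right s p r
  have m20 := mul3_right s q p
  have m21 := mul3_right s q r
  have m22 := mul3_right s r p
  have m23 := mul3_right s r q
  simp only [e0, e1, e2, e3, e4, e5, e6, e7, e8, e9, e10, e11, e12, e13, e14, e15, e16, e17, e18, e19] at m0 m1 m2 m3 m4 m5 m6 m7 m8 m9 m10 m11 m12 m13 m14 m15 m16 m17 m18 m19 m20 m21 m22 m23
  have s0 := hsw (q * r) (p * s)
  have s1 := hsw (q * s) (p * r)
  have s2 := hsw (r * p) (q * s)
  have s3 := hsw (r * q) (p * s)
  have s4 := hsw (r * s) (p * q)
  have s5 := hsw (r * s) (q * p)
  have s6 := hsw (s * p) (q * r)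
  have s7 := hsw (s * p) (r * q)
  have s8 := hsw (s * q) (p * r)
  have s9 := hsw (s * q) (r * p)
  have s10 := hsw (s * r) (p * q)
  have s11 := hsw (s * r) (q * p)
  have c0 := hcyc (p * q) r s
  have c1 := hcyc (p * r) s q
  have c2 := hcyc (s * q) p r
  have c3 := hcyc (q * s) r p
  have c4 := hcyc (p * s) r q
  have c5 := hcyc (r * p) q s
  have c6 := hcyc (r * s) p q
  have c7 := hcyc (r * q) p s
  simp only [sub_mul, mul_sub, m0, m1, m2, m3, m4, m5, m6, m7, m8, m9, m10, m11, m12, m13, m14,
    m15, m16, m17, m18, m19, m20, m21, m22, m23] at c0 c1 c2 c3 c4 c5 c6 c7 ⊢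
  simp only [s0, s1, s2, s3, s4, s5, s6, s7, s8, s9, s10, s11] at c0 c1 c2 c3 c4 c5 c6 c7
  simp only [e0, e1, e2, e3, e4, e5, e6, e7, e8, e9, e10, e11, e12, e13, e14, e15, e16, e17, e18,
    e19, map_sub, map_neg, map_zsmul, LinearMap.sub_apply, LinearMap.neg_apply,
    LinearMap.smul_apply] at c0 c1 c2 c3 c4 c5 c6 c7 ⊢
  linear_combination (norm := abel)
    c0 - c1 - c2 - c3 + c4 - c5 + c6 + c7

end Pool.Agent.L7h64.ABG
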