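import Pool.Agent.L7h64.ABGAlt

/-!
# The free alternative algebra, its words and its multidegree derivations
-/

set_option autoImplicit false
set_option linter.unusedSimpArgs false
set_option linter.unusedSectionVars false

namespace Pool.Agent.L7h64.ABG

section Free

variable (k : Type*) [CommRing k] (X : Type*)

/-- The ideal of alternativity: the smallest two-sided ideal of the free nonassociative algebra
which contains all `(a a) b - a (a b)` and all `(b a) a - b (a a)`. -/
noncomputable def altIdeal : Submodule k (FreeNonUnitalNonAssocAlgebra k X) :=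
  sInf {T | (∀ a t : FreeNonUnitalNonAssocAlgebra k X, t ∈ T → a * t ∈ T ∧ t * a ∈ T) ∧
    ∀ a b : FreeNonUnitalNonAssocAlgebra k X,
      (a * a) * b - a * (a * b) ∈ T ∧ (b * a) * a - b * (a * a) ∈ T}

variable {k X}

lemma altIdeal_mul (a : FreeNonUnitalNonAssocAlgebra k X) {t : FreeNonUnitalNonAssocAlgebra k X}
    (ht : t ∈ altIdeal k X) : a * t ∈ altIdeal k X ∧ t * a ∈ altIdeal k X := by
  unfold altIdeal at *
  simp only [Submodule.mem_sInf] at *
  exact ⟨fun T hT => (hT.1 a t (ht T hT)).1, fun T hT => (hT.1 a t (ht T hT)).2⟩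

lemma altIdeal_alt (a b : FreeNonUnitalNonAssocAlgebra k X) :
    (a * a) * b - a * (a * b) ∈ altIdeal k X ∧ (b * a) * a - b * (a * a) ∈ altIdeal k X := by
  unfold altIdeal
  simp only [Submodule.mem_sInf]
  exact ⟨fun T hT => (hT.2 a b).1, fun T hT => (hT.2 a b).2⟩

variable (k X) in
/-- The free non-unital alternative `k`-algebra on the set `X`. -/
def FreeAlt : Type _ := FreeNonUnitalNonAssocAlgebra k X ⧸ altIdeal k X

noncomputable scoped instance : AddCommGroup (FreeAlt k X) :=
  inferInstanceAs (AddCommGroup (FreeNonUnitalNonAssocAlgebra k X ⧸ altIdeal k X))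
noncomputable scoped instance : Module k (FreeAlt k X) :=
  inferInstanceAs (Module k (FreeNonUnitalNonAssocAlgebra k X ⧸ altIdeal k X))

/-- the class of an element of the free nonassociative algebra -/
noncomputable def mkA : FreeNonUnitalNonAssocAlgebra k X →ₗ[k] FreeAlt k X := (altIdeal k X).mkQ

lemma mkA_surj : Function.Surjective (mkA (k := k) (X := X)) := Submodule.mkQ_surjective _

lemma mkA_eq {a b : FreeNonUnitalNonAssocAlgebra k X} : mkA a = mkA b ↔ a - b ∈ altIdeal k X :=
  Submodule.Quotient.eq _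

noncomputable scoped instance : Mul (FreeAlt k X) :=
  ⟨Quotient.map₂ (fun a b : FreeNonUnitalNonAssocAlgebra k X => a * b) (by
    intro a a' ha b b' hb
    have h1 : a - a' ∈ altIdeal k X := (Submodule.quotientRel_def _).mp ha
    have h2 : b - b' ∈ altIdeal k X := (Submodule.quotientRel_def _).mp hb
    refine (Submodule.quotientRel_def _).mpr ?_
    have h3 : a * b - a' * b' = (a - a') * b + a' * (b - b') := by rw [sub_mul, mul_sub]; abel
    rw [h3]
    exact Submodule.add_mem _ (altIdeal_mul b h1).2 (altIdeal_mul a' h2).1)⟩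

lemma mkA_mul (a b : FreeNonUnitalNonAssocAlgebra k X) : mkA (a * b) = mkA a * mkA b := rfl

noncomputable scoped instance : NonUnitalNonAssocRing (FreeAlt k X) where
  left_distrib := by
    intro a b c
    obtain ⟨a, rfl⟩ := mkA_surj a
    obtain ⟨b, rfl⟩ := mkA_surj b
    obtain ⟨c, rfl⟩ := mkA_surj c
    rw [← map_add, ← mkA_mul, ← mkA_mul, ← mkA_mul, mul_add, map_add]
  right_distrib := by
    intro a b c
    obtain ⟨a, rfl⟩ := mkA_surj a
    obtain ⟨b, rfl⟩ := mkA_surj b
    obtain ⟨c, rfl⟩ := mkA_surj c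
    rw [← map_add, ← mkA_mul, ← mkA_mul, ← mkA_mul, add_mul, map_add]
  zero_mul := by
    intro a
    obtain ⟨a, rfl⟩ := mkA_surj a
    rw [← map_zero (mkA (k := k) (X := X)), ← mkA_mul, zero_mul]
  mul_zero := by
    intro a
    obtain ⟨a, rfl⟩ := mkA_surj a
    rw [← map_zero (mkA (k := k) (X := X)), ← mkA_mul, mul_zero]

scoped instance : IsScalarTower k (FreeAlt k X) (FreeAlt k X) := ⟨by
  intro r a b
  obtain ⟨a, rfl⟩ := mkA_surj a
  obtain ⟨b, rfl⟩ := mkA_surj b
  rw [smul_eq_mul, smul_eq_mul, ← map_smul, ← mkA_mul, ← mkA_mul, ← map_smul, smul_mul_assoc]⟩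

scoped instance : SMulCommClass k (FreeAlt k X) (FreeAlt k X) := ⟨by
  intro r a b
  obtain ⟨a, rfl⟩ := mkA_surj a
  obtain ⟨b, rfl⟩ := mkA_surj b
  rw [smul_eq_mul, smul_eq_mul, ← map_smul, ← mkA_mul, ← mkA_mul, ← map_smul, mul_smul_comm]⟩

scoped instance : IsAlternative (FreeAlt k X) where
  left := by
    intro a b
    obtain ⟨a, rfl⟩ := mkA_surj a
    obtain ⟨b, rfl⟩ := mkA_surj b
    rw [← mkA_mul, ← mkA_mul, ← mkA_mul, ← mkA_mul, mkA_eq]
    exact (altIdeal_alt a b).1
  right := by
    intro a b
    obtain ⟨a, rfl⟩ := mkA_surj a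
    obtain ⟨b, rfl⟩ := mkA_surj b
    rw [← mkA_mul, ← mkA_mul, ← mkA_mul, ← mkA_mul, mkA_eq]
    exact (altIdeal_alt a b).2

variable (k) in
/-- the generators -/
noncomputable def gen (x : X) : FreeAlt k X := mkA (FreeNonUnitalNonAssocAlgebra.of k x)

section lift
variable {B : Type*} [NonUnitalNonAssocRing B] [Module k B] [IsScalarTower k B B]
  [SMulCommClass k B B] [IsAlternative B]

lemma lift_aux (f : X → B) :
    altIdeal k X ≤ LinearMap.ker ((FreeNonUnitalNonAssocAlgebra.lift k f :
      FreeNonUnitalNonAssocAlgebra k X →ₙₐ[k] B) : FreeNonUnitalNonAssocAlgebra k X →ₗ[k] B) := by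
  apply sInf_le
  refine ⟨fun a t ht => ?_, fun a b => ?_⟩
  · have ht' : (FreeNonUnitalNonAssocAlgebra.lift k f) t = 0 := ht
    constructor
    · show (FreeNonUnitalNonAssocAlgebra.lift k f) (a * t) = 0
      rw [map_mul, ht', mul_zero]
    · show (FreeNonUnitalNonAssocAlgebra.lift k f) (t * a) = 0
      rw [map_mul, ht', zero_mul]
  · constructor
    · show (FreeNonUnitalNonAssocAlgebra.lift k f) _ = 0
      rw [map_sub, map_mul, map_mul, map_mul, map_mul, IsAlternative.left, sub_self]
    · show (FreeNonUnitalNonAssocAlgebra.lift k f) _ = 0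
      rw [map_sub, map_mul, map_mul, map_mul, map_mul, IsAlternative.right, sub_self]

variable (k) in
/-- the universal property of the free alternative algebra -/
noncomputable def liftA (f : X → B) : FreeAlt k X →ₗ[k] B :=
  (altIdeal k X).liftQ ((FreeNonUnitalNonAssocAlgebra.lift k f :
      FreeNonUnitalNonAssocAlgebra k X →ₙₐ[k] B) : FreeNonUnitalNonAssocAlgebra k X →ₗ[k] B)
    (lift_aux f)

lemma liftA_mul (f : X → B) (a b : FreeAlt k X) : liftA k f (a * b) = liftA k f a * liftA k f b := by
  obtain ⟨a, rfl⟩ := mkA_surj a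
  obtain ⟨b, rfl⟩ := mkA_surj b
  exact map_mul (FreeNonUnitalNonAssocAlgebra.lift k f) a b

lemma liftA_gen (f : X → B) (x : X) : liftA k f (gen k x) = f x :=
  FreeNonUnitalNonAssocAlgebra.lift_of_apply k f x

end lift

/-! ### words -/

variable (k) in
/-- the value of a nonassociative word in the free alternative algebra -/
noncomputable def mon : FreeMagma X → FreeAlt k X
  | .of x => gen k x
  | .mul a b => mon a * mon b

lemma mon_eq (w : FreeMagma X) : mon k w = mkA (MonoidAlgebra.single w (1 : k)) := by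
  induction w with
  | ih1 x => rfl
  | ih2 a b ha hb =>
    show mon k a * mon k b = _
    rw [ha, hb, ← mkA_mul, MonoidAlgebra.single_mul_single, one_mul]

lemma mon_span : ⊤ ≤ Submodule.span k (Set.range (mon k (X := X))) := by
  intro a _
  obtain ⟨f, rfl⟩ := mkA_surj a
  induction f using MonoidAlgebra.induction_linear with
  | zero => rw [map_zero]; exact Submodule.zero_mem _
  | add f g hf hg => rw [map_add]; exact Submodule.add_mem _ (hf trivial) (hg trivial)
  | single w c =>
    have : MonoidAlgebra.single w c = c • MonoidAlgebra.single w (1 : k) := by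
      rw [MonoidAlgebra.smul_single, smul_eq_mul, mul_one]
    rw [this, map_smul, ← mon_eq]
    exact Submodule.smul_mem _ _ (Submodule.subset_span ⟨w, rfl⟩)

end Free

/-! ### dual numbers -/

section Dual

variable (A : Type*)

/-- the algebra `A[ε]`, `ε² = 0` -/
def Du : Type _ := A × A

variable {A}
variable [NonUnitalNonAssocRing A]

scoped instance : AddCommGroup (Du A) := inferInstanceAs (AddCommGroup (A × A))

scoped instance : Mul (Du A) := ⟨fun x y => ((x.1 * y.1, x.1 * y.2 + x.2 * y.1) : A × A)⟩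

lemma Du_mul (x y : Du A) : x * y = ((x.1 * y.1, x.1 * y.2 + x.2 * y.1) : A × A) := rfl

scoped instance : NonUnitalNonAssocRing (Du A) where
  left_distrib x y z := Prod.ext (mul_add _ _ _) (by
    show x.1 * (y.2 + z.2) + x.2 * (y.1 + z.1) = x.1 * y.2 + x.2 * y.1 + (x.1 * z.2 + x.2 * z.1)
    rw [mul_add, mul_add]; abel)
  right_distrib x y z := Prod.ext (add_mul _ _ _) (by
    show (x.1 + y.1) * z.2 + (x.2 + y.2) * z.1 = x.1 * z.2 + x.2 * z.1 + (y.1 * z.2 + y.2 * z.1)
    rw [add_mul, add_mul]; abel)
  zero_mul x := Prod.ext (zero_mul _) (by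
    show (0 : A) * x.2 + 0 * x.1 = 0
    rw [zero_mul, zero_mul, add_zero])
  mul_zero x := Prod.ext (mul_zero _) (by
    show x.1 * (0 : A) + x.2 * 0 = 0
    rw [mul_zero, mul_zero, add_zero])

scoped instance [IsAlternative A] : IsAlternative (Du A) where
  left x y := Prod.ext (IsAlternative.left _ _) (by
    show (x.1 * x.1) * y.2 + (x.1 * x.2 + x.2 * x.1) * y.1 =
      x.1 * (x.1 * y.2 + x.2 * y.1) + x.2 * (x.1 * y.1)
    have h1 := as_swap_left x.1 x.2 y.1
    have h2 := IsAlternative.left x.1 y.2
    rw [h2, add_mul, mul_add]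
    simp only [as] at h1
    linear_combination (norm := abel) h1)
  right x y := Prod.ext (IsAlternative.right _ _) (by
    show (y.1 * x.1) * x.2 + (y.1 * x.2 + y.2 * x.1) * x.1 =
      y.1 * (x.1 * x.2 + x.2 * x.1) + y.2 * (x.1 * x.1)
    have h1 := as_swap_right y.1 x.1 x.2
    have h2 := IsAlternative.right x.1 y.2
    rw [add_mul, h2, mul_add]
    simp only [as] at h1
    linear_combination (norm := abel) h1)

variable {k : Type*} [CommRing k] [Module k A] [IsScalarTower k A A] [SMulCommClass k A A]

scoped instance : Module k (Du A) := inferInstanceAs (Module k (A × A))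

scoped instance : IsScalarTower k (Du A) (Du A) := ⟨fun c x y => Prod.ext (smul_mul_assoc c x.1 y.1) (by
    show (c • x.1) * y.2 + (c • x.2) * y.1 = c • (x.1 * y.2 + x.2 * y.1)
    rw [smul_mul_assoc, smul_mul_assoc, smul_add])⟩

scoped instance : SMulCommClass k (Du A) (Du A) := ⟨fun c x y => Prod.ext (mul_smul_comm c x.1 y.1).symm
  (by
    show c • (x.1 * y.2 + x.2 * y.1) = x.1 * (c • y.2) + x.2 * (c • y.1)
    rw [mul_smul_comm, mul_smul_comm, smul_add])⟩

end Dual

section Euler

variable {k : Type*} [CommRing k] {X : Type*}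

/-- the number of occurrences of the letters in a word -/
noncomputable def cnt [DecidableEq X] : FreeMagma X → X → ℕ
  | .of x => Pi.single x 1
  | .mul a b => cnt a + cnt b

variable [DecidableEq X]

variable (k) in
/-- the element `x + ε δ_{x,m} x` -/
noncomputable def duG (m : X) (x : X) : Du (FreeAlt k X) :=
  ((gen k x, if x = m then gen k x else 0) : FreeAlt k X × FreeAlt k X)

variable (k) in
/-- the homomorphism `x ↦ x + ε δ_{x,m} x` -/
noncomputable def phiE (m : X) : FreeAlt k X →ₗ[k] Du (FreeAlt k X) := liftA k (duG k m)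

lemma phiE_mon (m : X) (w : FreeMagma X) : phiE k m (mon k w) =
    ((mon k w, cnt w m • mon k w) : FreeAlt k X × FreeAlt k X) := by
  induction w with
  | ih1 x =>
    show phiE k m (gen k x) = _
    unfold phiE
    rw [liftA_gen]
    refine Prod.ext rfl ?_
    show (if x = m then gen k x else 0) = (Pi.single x 1 : X → ℕ) m • gen k x
    by_cases h : x = m
    · subst h; simp
    · rw [if_neg h, Pi.single_apply, if_neg (Ne.symm h), zero_smul]
  | ih2 a b ha hb =>
    show phiE k m (mon k a * mon k b) = _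
    have : phiE k m (mon k a * mon k b) = phiE k m (mon k a) * phiE k m (mon k b) :=
      liftA_mul _ _ _
    rw [this, ha, hb]
    refine Prod.ext rfl ?_
    show mon k a * (cnt b m • mon k b) + (cnt a m • mon k a) * mon k b =
      (cnt a m + cnt b m) • (mon k a * mon k b)
    rw [mul_smul_comm, smul_mul_assoc, add_smul, add_comm]

variable (k) in
/-- the derivation of the free alternative algebra which multiplies a word by the number of
occurrences of the letter `m` -/
noncomputable def EA (m : X) : FreeAlt k X →ₗ[k] FreeAlt k X :=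
  LinearMap.snd k (FreeAlt k X) (FreeAlt k X) ∘ₗ (phiE k m : FreeAlt k X →ₗ[k] _)

lemma EA_mon (m : X) (w : FreeMagma X) : EA k m (mon k w) = cnt w m • mon k w := by
  show (phiE k m (mon k w)).2 = _
  rw [phiE_mon]

lemma phiE_fst (m : X) (a : FreeAlt k X) : (phiE k m a).1 = a := by
  have h : LinearMap.fst k (FreeAlt k X) (FreeAlt k X) ∘ₗ (phiE k m : FreeAlt k X →ₗ[k] _) =
      LinearMap.id := by
    apply LinearMap.ext_on (s := Set.range (mon k (X := X))) (top_le_iff.1 mon_span)
    rintro _ ⟨w, rfl⟩
    show (phiE k m (mon k w)).1 = _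
    rw [phiE_mon]
    rfl
  exact LinearMap.congr_fun h a

lemma EA_der (m : X) (a b : FreeAlt k X) : EA k m (a * b) = EA k m a * b + a * EA k m b := by
  show (phiE k m (a * b)).2 = (phiE k m a).2 * b + a * (phiE k m b).2
  have : phiE k m (a * b) = phiE k m a * phiE k m b := liftA_mul _ _ _
  rw [this]
  show (phiE k m a).1 * (phiE k m b).2 + (phiE k m a).2 * (phiE k m b).1 = _
  rw [phiE_fst, phiE_fst, add_comm]

end Euler

end Pool.Agent.L7h64.ABG
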