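import Pool.Agent.L7h64.ABGEuler
import Pool.Agent.L7h64.ABGAct
import Pool.Agent.L7h64.ABGFree

/-!
# A homogeneous basis of `ABG(Alt(V))`
-/

set_option autoImplicit false
set_option linter.unusedSimpArgs false
set_option linter.unusedSectionVars false

namespace Pool.Agent.L7h64.ABG

open Module Matrix

lemma exists_basis_of_span {k V W : Type*} [Field k] [AddCommGroup V] [Module k V] (g : W → V)
    (hg : ⊤ ≤ Submodule.span k (Set.range g)) :
    ∃ (s : Set V) (bs : Basis s k V) (c : s → W), Function.Injective c ∧ ∀ i, bs i = g (c i) := by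
  have h : ∀ i, ∃ w, g w = Basis.ofSpan hg i := fun i =>
    Basis.ofSpan_subset hg ⟨i, rfl⟩
  choose c hc using h
  refine ⟨_, Basis.ofSpan hg, c, ?_, fun i => (hc i).symm⟩
  intro i j hij
  apply (Basis.ofSpan hg).injective
  rw [← hc i, ← hc j, hij]

section Words

variable {X : Type*}

/-- the length of a word -/
def mlen : FreeMagma X → ℕ
  | .of _ => 1
  | .mul a b => mlen a + mlen b

lemma mlen_pos (w : FreeMagma X) : 1 ≤ mlen w := by
  induction w with
  | ih1 x => exact le_rfl
  | ih2 a b ha hb =>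
    show 1 ≤ mlen a + mlen b
    omega

lemma finite_mlen [Finite X] (n : ℕ) : {w : FreeMagma X | mlen w ≤ n}.Finite := by
  induction n with
  | zero =>
    convert Set.finite_empty
    ext w
    have := mlen_pos w
    simp only [Set.mem_empty_iff_false, iff_false]
    intro h
    have h : mlen w ≤ 0 := h
    omega
  | succ n ih =>
    refine Set.Finite.subset ((Set.finite_range (FreeMagma.of (α := X))).union
      (Set.Finite.image2 (fun a b => FreeMagma.mul a b) ih ih)) ?_
    intro w hw
    have hw : mlen w ≤ n + 1 := hw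
    cases w with
    | of x => exact Or.inl ⟨x, rfl⟩
    | mul a b =>
      have h1 := mlen_pos a
      have h2 := mlen_pos b
      have h3 : mlen a + mlen b ≤ n + 1 := hw
      refine Or.inr ⟨a, ?_, b, ?_, rfl⟩
      · show mlen a ≤ n; omega
      · show mlen b ≤ n; omega

variable [DecidableEq X] [Fintype X]

lemma sum_cnt (w : FreeMagma X) : ∑ m, cnt w m = mlen w := by
  induction w with
  | ih1 x =>
    show ∑ m, (Pi.single x 1 : X → ℕ) m = 1
    simp [Pi.single_apply]
  | ih2 a b ha hb =>
    show ∑ m, (cnt a + cnt b) m = mlen a + mlen b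
    simp only [Pi.add_apply, Finset.sum_add_distrib]
    rw [ha, hb]

lemma finite_cnt (S : X → ℕ) : {w : FreeMagma X | cnt w ≤ S}.Finite := by
  refine (finite_mlen (∑ m, S m)).subset ?_
  intro w hw
  show mlen w ≤ _
  rw [← sum_cnt]
  exact Finset.sum_le_sum fun m _ => hw m

lemma cnt_ne (w : FreeMagma X) : cnt w ≠ 0 := by
  intro h
  have h1 := sum_cnt w
  have h2 := mlen_pos w
  rw [h] at h1
  simp at h1
  omega

end Words

section Sl8

variable {k A : Type*} [Field k] [NonUnitalNonAssocRing A] [Module k A] [IsScalarTower k A A]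
  [SMulCommClass k A A]

variable (k) in
/-- a basis of `sl_3` -/
def Xs : Fin 8 → M3 k :=
  ![Matrix.single 0 1 1, Matrix.single 0 2 1, Matrix.single 1 0 1, Matrix.single 1 2 1,
    Matrix.single 2 0 1, Matrix.single 2 1 1, Matrix.single 0 0 1 - Matrix.single 1 1 1,
    Matrix.single 1 1 1 - Matrix.single 2 2 1]

/-- the weights of the basis -/
def ux : Fin 8 → ℤ := ![1, 1, -1, 0, -1, 0, 0, 0]

/-- the weights of the basis -/
def uy : Fin 8 → ℤ := ![0, 1, 0, 1, -1, -1, 0, 0]

lemma trace_Xs (j : Fin 8) : (Xs k j).trace = 0 := by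
  fin_cases j <;> simp [Xs, trace_eq, Matrix.single_apply]

lemma Xs_weight (i : Fin 2) (j : Fin 8) : hmat k i * Xs k j - Xs k j * hmat k i =
    ((![2 * ux j - uy j, 2 * uy j - ux j] i : ℤ) : k) • Xs k j := by
  fin_cases i <;> fin_cases j <;>
    (ext a b
     fin_cases a <;> fin_cases b <;>
        simp [hmat, Xs, ux, uy, Matrix.mul_apply, Fin.sum_univ_three, Matrix.single_apply] <;>
        norm_num)

variable (k A) in
/-- trace zero matrices over `A` in coordinates -/
def eT : (Fin 8 → A) ≃ₗ[k] T0 k A where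
  toFun f := ⟨!![f 6, f 0, f 1; f 2, f 7 - f 6, f 3; f 4, f 5, -f 7], by
    rw [mem_T0, trace_eqA]; simp⟩
  map_add' f g := Subtype.ext (by
    ext i j
    fin_cases i <;> fin_cases j <;> simp <;> abel)
  map_smul' c f := Subtype.ext (by
    ext i j
    fin_cases i <;> fin_cases j <;> simp [smul_sub])
  invFun M := ![M.1 0 1, M.1 0 2, M.1 1 0, M.1 1 2, M.1 2 0, M.1 2 1, M.1 0 0,
    M.1 0 0 + M.1 1 1]
  left_inv f := by
    funext j
    fin_cases j <;> simp
  right_inv M := by
    have hM : M.1 2 2 = - M.1 0 0 - M.1 1 1 := by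
      have := M.2
      rw [mem_T0, trace_eqA] at this
      rw [eq_sub_iff_add_eq, eq_neg_iff_add_eq_zero]
      rw [← this]; abel
    apply Subtype.ext
    ext i j
    fin_cases i <;> fin_cases j <;> simp [hM]
    abel

lemma eT_single (j : Fin 8) (a : A) : eT k A (Pi.single j a) = tenT (Xs k j) (trace_Xs j) a := by
  apply Subtype.ext
  ext u v
  rw [tenT_apply]
  fin_cases j <;> fin_cases u <;> fin_cases v <;>
    simp [eT, Xs, Matrix.single_apply, Pi.single_apply]

end Sl8

section Bas

variable {k : Type*} [Field k] {X : Type*} {IA IB : Type*}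
  (bA : Basis IA k (FreeAlt k X)) (cA : IA → FreeMagma X)
  (bB : Basis IB k (BA k (FreeAlt k X))) (cB : IB → FreeMagma X × FreeMagma X)

/-- the homogeneous basis of `ABG(Alt(V))` -/
noncomputable def bL : Basis ((Σ _ : Fin 8, IA) ⊕ IB) k (ABGAlg k (FreeAlt k X)) :=
  ((Pi.basis (fun _ : Fin 8 => bA)).map (eT k (FreeAlt k X))).prod bB

lemma bL_inl (p : Σ _ : Fin 8, IA) : bL bA bB (Sum.inl p) =
    ((tenT (Xs k p.1) (trace_Xs p.1) (bA p.2), 0) :
      ↥(T0 k (FreeAlt k X)) × BA k (FreeAlt k X)) := by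
  unfold bL
  refine Prod.ext ?_ ?_
  · refine (Basis.prod_apply_inl_fst _ _ _).trans ?_
    rw [Basis.map_apply, Pi.basis_apply, eT_single]
  · exact Basis.prod_apply_inl_snd _ _ _

lemma bL_inr (i : IB) : bL bA bB (Sum.inr i) =
    ((0, bB i) : ↥(T0 k (FreeAlt k X)) × BA k (FreeAlt k X)) := by
  unfold bL
  exact Prod.ext (Basis.prod_apply_inr_fst _ _ _) (Basis.prod_apply_inr_snd _ _ _)

variable [DecidableEq X]

/-- the degrees of the basis elements -/
noncomputable def dg : (Σ _ : Fin 8, IA) ⊕ IB → X → ℕ :=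
  Sum.elim (fun p => cnt (cA p.2)) (fun i => cnt (cB i).1 + cnt (cB i).2)

/-- the weights of the basis elements -/
def wxL : (Σ _ : Fin 8, IA) ⊕ IB → ℤ := Sum.elim (fun p => ux p.1) (fun _ => 0)

/-- the weights of the basis elements -/
def wyL : (Σ _ : Fin 8, IA) ⊕ IB → ℤ := Sum.elim (fun p => uy p.1) (fun _ => 0)

variable (k X) in
/-- the multidegree derivations of the free alternative algebra -/
noncomputable def DE (m : X) : derA k (FreeAlt k X) := ⟨EA k m, EA_der m⟩

variable [CharZero k]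

omit [DecidableEq X] in
lemma tenT_smul (Y : M3 k) (hY : Y.trace = 0) (c : k) (p : FreeAlt k X)
    (h : (c • Y).trace = 0) : tenT (c • Y) h p = c • tenT Y hY p := by
  apply Subtype.ext
  ext i j
  show (c • Y) i j • p = c • (Y i j • p)
  rw [Matrix.smul_apply, smul_assoc]

omit [DecidableEq X] in
lemma tenT_smul' (Y : M3 k) (hY : Y.trace = 0) (c : k) (p : FreeAlt k X) :
    tenT Y hY (c • p) = c • tenT Y hY p := by
  apply Subtype.ext
  ext i j
  show Y i j • (c • p) = c • (Y i j • p)
  rw [smul_comm]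

variable [Fintype X]

theorem grLie (hcA : Function.Injective cA) (hbA : ∀ i, bA i = mon k (cA i))
    (hcB : Function.Injective cB)
    (hbB : ∀ i, bB i = wd k (FreeAlt k X) (mon k (cB i).1) (mon k (cB i).2)) :
    GrLie (bL bA bB) (dg cA cB) wxL wyL (fun m => EL (DE k X m)) (delta k (FreeAlt k X)) where
  E_der m x y := EL_der _ x y
  act_der X x y := delta_der X x y
  act_lie X Y v := delta_lie X Y v
  E_act m X v := EL_delta _ X v
  E_b m i := by
    rcases i with p | i
    · rw [bL_inl]
      refine Prod.ext ?_ ?_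
      · show DT k _ (DE k X m) (tenT (Xs k p.1) (trace_Xs p.1) (bA p.2)) =
          ((cnt (cA p.2) m : ℕ) : k) • tenT (Xs k p.1) (trace_Xs p.1) (bA p.2)
        rw [DT_ten, ← tenT_smul']
        congr 1
        show EA k m (bA p.2) = _
        rw [hbA, EA_mon, Nat.cast_smul_eq_nsmul]
      · show bact k _ (DE k X m) 0 = _ • (0 : BA k (FreeAlt k X))
        rw [map_zero, smul_zero]
    · rw [bL_inr]
      refine Prod.ext ?_ ?_
      · show DT k _ (DE k X m) 0 = _ • (0 : T0 k (FreeAlt k X))
        rw [map_zero, smul_zero]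
      · show bact k _ (DE k X m) (bB i) = ((cnt (cB i).1 m + cnt (cB i).2 m : ℕ) : k) • bB i
        rw [hbB, bact_wd]
        show wd k _ (EA k m (mon k (cB i).1)) _ + wd k _ _ (EA k m (mon k (cB i).2)) = _
        rw [EA_mon, EA_mon, map_nsmul, map_nsmul, LinearMap.smul_apply, ← add_smul,
          Nat.cast_smul_eq_nsmul]
  h_b j i := by
    rcases i with p | i
    · rw [bL_inl]
      refine Prod.ext ?_ ?_
      · show adX k _ (hmat k j) (tenT (Xs k p.1) (trace_Xs p.1) (bA p.2)) =
          ((![2 * ux p.1 - uy p.1, 2 * uy p.1 - ux p.1] j : ℤ) : k) •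
            tenT (Xs k p.1) (trace_Xs p.1) (bA p.2)
        rw [adX_ten, tenT_congr (Xs_weight j p.1)
          (hY := by rw [Matrix.trace_smul, trace_Xs, smul_zero]), tenT_smul _ (trace_Xs p.1)]
      · show (0 : BA k (FreeAlt k X)) = _ • 0
        rw [smul_zero]
    · rw [bL_inr]
      refine Prod.ext ?_ ?_
      · show adX k _ (hmat k j) 0 = _ • (0 : T0 k (FreeAlt k X))
        rw [map_zero, smul_zero]
      · show (0 : BA k (FreeAlt k X)) = ((![2 * 0 - 0, 2 * 0 - 0] j : ℤ) : k) • bB i
        have : (![(2 * 0 - 0 : ℤ), 2 * 0 - 0] j : ℤ) = 0 := by fin_cases j <;> rfl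
        rw [this, Int.cast_zero, zero_smul]
  deg_ne i := by
    rcases i with p | i
    · exact cnt_ne _
    · intro h
      have h : cnt (cB i).1 + cnt (cB i).2 = 0 := h
      apply cnt_ne (cB i).1
      funext m
      have := congrFun h m
      rw [Pi.add_apply, Pi.zero_apply] at this
      show cnt (cB i).1 m = 0
      omega
  fin S := by
    refine Set.Finite.of_injOn
      (f := (Sum.map (fun p => (p.1, cA p.2)) cB :
        (Σ _ : Fin 8, IA) ⊕ IB → (Fin 8 × FreeMagma X) ⊕ (FreeMagma X × FreeMagma X)))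
      (t := Sum.inl '' (Set.univ ×ˢ {w | cnt w ≤ S}) ∪
        Sum.inr '' ({w | cnt w ≤ S} ×ˢ {w | cnt w ≤ S})) ?_ ?_ ?_
    · rintro (p | i) h
      · exact Or.inl ⟨(p.1, cA p.2), ⟨Set.mem_univ _, h⟩, rfl⟩
      · have h : cnt (cB i).1 + cnt (cB i).2 ≤ S := h
        refine Or.inr ⟨cB i, ⟨?_, ?_⟩, rfl⟩
        · exact le_trans (fun m => Nat.le_add_right _ _) h
        · exact le_trans (fun m => Nat.le_add_left _ _) h
    · apply Function.Injective.injOn
      refine Sum.map_injective.2 ⟨?_, hcB⟩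
      rintro ⟨j, i⟩ ⟨j', i'⟩ h
      simp only [Prod.mk.injEq] at h
      obtain ⟨rfl, h⟩ := h
      rw [hcA h]
    · exact ((Set.finite_univ.prod (finite_cnt S)).image _).union
        (((finite_cnt S).prod (finite_cnt S)).image _)

end Bas

end Pool.Agent.L7h64.ABG
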