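import Mathlib

/-!
# The Chevalley-Eilenberg complex of a Lie algebra
-/

set_option autoImplicit false

namespace Pool.Agent.L7h64.ABG

open ExteriorAlgebra

section Exder

variable {k L : Type*} [CommRing k] [AddCommGroup L] [Module k L]

/-- auxiliary: the recursion step for `exder` -/
noncomputable def exderStep (T : L →ₗ[k] L) :
    L →ₗ[k] ExteriorAlgebra k L × ExteriorAlgebra k L →ₗ[k] ExteriorAlgebra k L :=
  LinearMap.mk₂ k (fun x p => ι k (T x) * p.1 + ι k x * p.2)
    (fun x y p => by simp only [map_add, add_mul]; abel)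
    (fun c x p => by simp only [map_smul, smul_mul_assoc, smul_add])
    (fun x p q => by simp only [Prod.fst_add, Prod.snd_add, mul_add]; abel)
    (fun c x p => by simp only [Prod.smul_fst, Prod.smul_snd, mul_smul_comm, smul_add])

/-- The derivation of the exterior algebra `⋀ L` which extends the linear map `T : L → L`:
`exder T (x ∧ ω) = T x ∧ ω + x ∧ exder T ω` and `exder T 1 = 0`. -/
noncomputable def exder (T : L →ₗ[k] L) : ExteriorAlgebra k L →ₗ[k] ExteriorAlgebra k L :=
  CliffordAlgebra.foldr' (0 : QuadraticForm k L) (exderStep T) (by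
    intro m x fx
    show ι k (T m) * (ι k m * x) + ι k m * (ι k (T m) * x + ι k m * fx) = (0 : k) • fx
    rw [mul_add, ← mul_assoc, ← mul_assoc, ← mul_assoc, ι_sq_zero, zero_mul, add_zero, ← add_mul,
      ι_add_mul_swap, zero_mul, zero_smul]) 0

lemma exder_algebraMap (T : L →ₗ[k] L) (r : k) :
    exder T (algebraMap k (ExteriorAlgebra k L) r) = 0 := by
  unfold exder
  exact (CliffordAlgebra.foldr'_algebraMap _ _ _ _ _).trans (smul_zero r)

lemma exder_one (T : L →ₗ[k] L) : exder T (1 : ExteriorAlgebra k L) = 0 := by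
  have := exder_algebraMap T 1
  rwa [map_one] at this

lemma exder_ι_mul (T : L →ₗ[k] L) (x : L) (ω : ExteriorAlgebra k L) :
    exder T (ι k x * ω) = ι k (T x) * ω + ι k x * exder T ω := by
  unfold exder
  exact CliffordAlgebra.foldr'_ι_mul _ _ _ _ _ _

lemma exder_ι (T : L →ₗ[k] L) (x : L) : exder T (ι k x) = ι k (T x) := by
  have := exder_ι_mul T x 1
  rwa [mul_one, mul_one, exder_one, mul_zero, add_zero] at this

/-- induction principle -/
lemma ext_ind {P : ExteriorAlgebra k L → Prop} (h1 : ∀ r, P (algebraMap k _ r))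
    (hadd : ∀ x y, P x → P y → P (x + y)) (hι : ∀ x m, P x → P (ι k m * x)) : ∀ x, P x :=
  CliffordAlgebra.left_induction (0 : QuadraticForm k L) h1 hadd hι

lemma exder_add (S T : L →ₗ[k] L) (ω : ExteriorAlgebra k L) :
    exder (S + T) ω = exder S ω + exder T ω := by
  induction ω using ext_ind with
  | h1 r => rw [exder_algebraMap, exder_algebraMap, exder_algebraMap, add_zero]
  | hadd x y hx hy => rw [map_add, map_add, map_add, hx, hy]; abel
  | hι x m hx =>
    rw [exder_ι_mul, exder_ι_mul, exder_ι_mul, hx, LinearMap.add_apply, map_add, add_mul, mul_add]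
    abel

lemma exder_smul (c : k) (T : L →ₗ[k] L) (ω : ExteriorAlgebra k L) :
    exder (c • T) ω = c • exder T ω := by
  induction ω using ext_ind with
  | h1 r => rw [exder_algebraMap, exder_algebraMap, smul_zero]
  | hadd x y hx hy => rw [map_add, map_add, hx, hy, smul_add]
  | hι x m hx =>
    rw [exder_ι_mul, exder_ι_mul, hx, LinearMap.smul_apply, map_smul, smul_mul_assoc,
      mul_smul_comm, smul_add]

lemma exder_zero (ω : ExteriorAlgebra k L) : exder (0 : L →ₗ[k] L) ω = 0 := by
  have := exder_smul (0 : k) (0 : L →ₗ[k] L) ω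
  rwa [zero_smul, zero_smul] at this

lemma exder_comm (S T : L →ₗ[k] L) (ω : ExteriorAlgebra k L) :
    exder S (exder T ω) - exder T (exder S ω) = exder (S ∘ₗ T - T ∘ₗ S) ω := by
  induction ω using ext_ind with
  | h1 r => simp only [exder_algebraMap, map_zero, sub_zero]
  | hadd x y hx hy =>
    rw [map_add (exder T), map_add (exder S), map_add (exder S), map_add (exder T),
      map_add (exder (S ∘ₗ T - T ∘ₗ S)), ← hx, ← hy]
    abel
  | hι x m hx =>
    rw [exder_ι_mul T, exder_ι_mul S, map_add, map_add, exder_ι_mul, exder_ι_mul, exder_ι_mul,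
      exder_ι_mul, exder_ι_mul, ← hx, LinearMap.sub_apply, LinearMap.comp_apply,
      LinearMap.comp_apply, map_sub, sub_mul, mul_sub]
    abel

/-- `exder T` preserves the exterior powers -/
lemma exder_mem (T : L →ₗ[k] L) (n : ℕ) (ω : ExteriorAlgebra k L) (h : ω ∈ ⋀[k]^n L) :
    exder T ω ∈ ⋀[k]^n L := by
  induction n generalizing ω with
  | zero =>
    rw [exteriorPower, pow_zero] at h
    obtain ⟨r, rfl⟩ := Submodule.mem_one.1 h
    rw [exder_algebraMap]
    exact Submodule.zero_mem _
  | succ n ih =>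
    rw [exteriorPower, pow_succ'] at h
    induction h using Submodule.mul_induction_on' with
    | mem_mul_mem m hm x hx =>
      obtain ⟨m, rfl⟩ := hm
      rw [exder_ι_mul, exteriorPower, pow_succ']
      exact Submodule.add_mem _ (Submodule.mul_mem_mul ⟨_, rfl⟩ hx)
        (Submodule.mul_mem_mul ⟨_, rfl⟩ (ih x hx))
    | add x hx y hy h1 h2 => rw [map_add]; exact Submodule.add_mem _ h1 h2

/-- `exder T` on a product of eigenvectors -/
lemma exder_ιMulti (T : L →ₗ[k] L) {n : ℕ} (v : Fin n → L) (t : Fin n → k)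
    (h : ∀ i, T (v i) = t i • v i) :
    exder T (ιMulti k n v) = (∑ i, t i) • ιMulti k n v := by
  induction n with
  | zero => rw [ιMulti_zero_apply, exder_one, Fin.sum_univ_zero, zero_smul]
  | succ n ih =>
    rw [ιMulti_succ_apply, exder_ι_mul, h, Fin.sum_univ_succ,
      ih (Matrix.vecTail v) (fun i => t i.succ) (fun i => h i.succ), map_smul, smul_mul_assoc,
      mul_smul_comm, add_smul]

end Exder

section Diff

variable {k L : Type*} [CommRing k] [LieRing L] [LieAlgebra k L]

/-- the linear map `ad x` -/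
noncomputable abbrev adL (x : L) : L →ₗ[k] L := LieAlgebra.ad k L x

/-- auxiliary: the recursion step for `ced` -/
noncomputable def cedStep :
    L →ₗ[k] ExteriorAlgebra k L × ExteriorAlgebra k L →ₗ[k] ExteriorAlgebra k L :=
  LinearMap.mk₂ k (fun x p => exder (LieAlgebra.ad k L x : L →ₗ[k] L) p.1 - ι k x * p.2)
    (fun x y p => by
      have : (LieAlgebra.ad k L (x + y) : L →ₗ[k] L) = LieAlgebra.ad k L x + LieAlgebra.ad k L y :=
        map_add _ _ _
      rw [this, exder_add, map_add, add_mul]; abel)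
    (fun c x p => by
      have : (LieAlgebra.ad k L (c • x) : L →ₗ[k] L) = c • LieAlgebra.ad k L x :=
        map_smul _ _ _
      rw [this, exder_smul, map_smul, smul_mul_assoc, smul_sub])
    (fun x p q => by simp only [Prod.fst_add, Prod.snd_add, mul_add, map_add]; abel)
    (fun c x p => by simp only [Prod.smul_fst, Prod.smul_snd, mul_smul_comm, smul_sub, map_smul])

variable (k L) in
/-- The differential of the Chevalley-Eilenberg complex of the Lie algebra `L` with trivial
coefficients, on the exterior algebra of `L`: `ced 1 = 0` and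
`ced (x ∧ ω) = ad_x ω - x ∧ ced ω`, where `ad_x` acts on `⋀ L` as a derivation. -/
noncomputable def ced : ExteriorAlgebra k L →ₗ[k] ExteriorAlgebra k L :=
  CliffordAlgebra.foldr' (0 : QuadraticForm k L) cedStep (by
    intro m x fx
    show exder (LieAlgebra.ad k L m : L →ₗ[k] L) (ι k m * x) -
      ι k m * (exder (LieAlgebra.ad k L m : L →ₗ[k] L) x - ι k m * fx) = (0 : k) • fx
    rw [exder_ι_mul, mul_sub, ← mul_assoc (ι k m), ι_sq_zero, zero_mul, sub_zero]
    have : (LieAlgebra.ad k L m : L →ₗ[k] L) m = 0 := lie_self m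
    rw [this, map_zero, zero_mul, zero_add, sub_self, zero_smul]) 0

lemma ced_algebraMap (r : k) : ced k L (algebraMap k (ExteriorAlgebra k L) r) = 0 := by
  unfold ced
  exact (CliffordAlgebra.foldr'_algebraMap _ _ _ _ _).trans (smul_zero r)

lemma ced_one : ced k L (1 : ExteriorAlgebra k L) = 0 := by
  have := ced_algebraMap (k := k) (L := L) 1
  rwa [map_one] at this

lemma ced_ι_mul (x : L) (ω : ExteriorAlgebra k L) :
    ced k L (ι k x * ω) = exder (LieAlgebra.ad k L x : L →ₗ[k] L) ω - ι k x * ced k L ω := by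
  unfold ced
  exact CliffordAlgebra.foldr'_ι_mul _ _ _ _ _ _

lemma ced_ι (x : L) : ced k L (ι k x) = 0 := by
  have := ced_ι_mul (k := k) x 1
  rwa [mul_one, exder_one, ced_one, mul_zero, sub_zero] at this

lemma ced_ι_mul_ι (x y : L) : ced k L (ι k x * ι k y) = ι k ⁅x, y⁆ := by
  rw [ced_ι_mul, exder_ι, ced_ι, mul_zero, sub_zero]
  rfl

/-- a derivation of the Lie algebra commutes with the differential -/
lemma ced_exder (T : L →ₗ[k] L) (hT : ∀ x y, T ⁅x, y⁆ = ⁅T x, y⁆ + ⁅x, T y⁆)
    (ω : ExteriorAlgebra k L) : ced k L (exder T ω) = exder T (ced k L ω) := by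
  induction ω using ext_ind with
  | h1 r => rw [exder_algebraMap, ced_algebraMap, map_zero, map_zero]
  | hadd x y hx hy => rw [map_add, map_add, map_add, map_add, hx, hy]
  | hι x m hx =>
    rw [exder_ι_mul, map_add, ced_ι_mul, ced_ι_mul, ced_ι_mul, map_sub, exder_ι_mul, hx]
    have h1 := exder_comm T (LieAlgebra.ad k L m : L →ₗ[k] L) x
    have h2 : T ∘ₗ (LieAlgebra.ad k L m : L →ₗ[k] L) - (LieAlgebra.ad k L m : L →ₗ[k] L) ∘ₗ T =
        (LieAlgebra.ad k L (T m) : L →ₗ[k] L) := by
      ext y
      show T ⁅m, y⁆ - ⁅m, T y⁆ = ⁅T m, y⁆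
      rw [hT, add_sub_cancel_right]
    rw [h2] at h1
    rw [← h1]
    abel

/-- the square of the differential vanishes -/
lemma ced_ced (ω : ExteriorAlgebra k L) : ced k L (ced k L ω) = 0 := by
  induction ω using ext_ind with
  | h1 r => rw [ced_algebraMap, map_zero]
  | hadd x y hx hy => rw [map_add, map_add, hx, hy, add_zero]
  | hι x m hx =>
    rw [ced_ι_mul, map_sub, ced_ι_mul, hx, mul_zero, sub_zero,
      ced_exder _ (fun a b => leibniz_lie m a b), sub_self]

/-- the differential maps `⋀^(n+1)` to `⋀^n` -/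
lemma ced_mem (n : ℕ) (ω : ExteriorAlgebra k L) (h : ω ∈ ⋀[k]^(n + 1) L) :
    ced k L ω ∈ ⋀[k]^n L := by
  induction n generalizing ω with
  | zero =>
    rw [exteriorPower, zero_add, pow_one] at h
    obtain ⟨m, rfl⟩ := h
    rw [ced_ι]
    exact Submodule.zero_mem _
  | succ n ih =>
    rw [exteriorPower, pow_succ'] at h
    induction h using Submodule.mul_induction_on' with
    | mem_mul_mem m hm x hx =>
      obtain ⟨m, rfl⟩ := hm
      rw [ced_ι_mul]
      refine Submodule.sub_mem _ (exder_mem _ _ _ hx) ?_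
      rw [exteriorPower, pow_succ']
      exact Submodule.mul_mem_mul ⟨_, rfl⟩ (ih x hx)
    | add x hx y hy h1 h2 => rw [map_add]; exact Submodule.add_mem _ h1 h2

/-- the cycles of degree `n` -/
noncomputable def cycles (k L : Type*) [CommRing k] [LieRing L] [LieAlgebra k L] (n : ℕ) :
    Submodule k (ExteriorAlgebra k L) :=
  ⋀[k]^n L ⊓ LinearMap.ker (ced k L)

/-- the boundaries of degree `n` -/
noncomputable def boundaries (k L : Type*) [CommRing k] [LieRing L] [LieAlgebra k L] (n : ℕ) :
    Submodule k (ExteriorAlgebra k L) :=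
  (⋀[k]^(n + 1) L).map (ced k L)

lemma boundaries_le (n : ℕ) : boundaries k L n ≤ cycles k L n := by
  rintro _ ⟨ω, hω, rfl⟩
  exact ⟨ced_mem n ω hω, ced_ced ω⟩

/-- The homology `H_n(L, k)` of the Lie algebra `L` with trivial coefficients. -/
abbrev LieHomology (k L : Type*) [CommRing k] [LieRing L] [LieAlgebra k L] (n : ℕ) : Type _ :=
  ↥(cycles k L n) ⧸ (boundaries k L n).submoduleOf (cycles k L n)

variable (T : L →ₗ[k] L) (hT : ∀ x y, T ⁅x, y⁆ = ⁅T x, y⁆ + ⁅x, T y⁆) (n : ℕ)

include hT in
lemma exder_mem_cycles {ω : ExteriorAlgebra k L} (h : ω ∈ cycles k L n) :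
    exder T ω ∈ cycles k L n := by
  refine ⟨exder_mem T n ω h.1, ?_⟩
  have : ced k L ω = 0 := h.2
  show ced k L (exder T ω) = 0
  rw [ced_exder T hT, this, map_zero]

include hT in
lemma exder_mem_boundaries {ω : ExteriorAlgebra k L} (h : ω ∈ boundaries k L n) :
    exder T ω ∈ boundaries k L n := by
  obtain ⟨η, hη, rfl⟩ := h
  exact ⟨exder T η, exder_mem T (n + 1) η hη, ced_exder T hT η⟩

/-- The action on the homology `H_n(L, k)` induced by a derivation `T` of the Lie algebra `L`
(through the derivation `exder T` of the Chevalley-Eilenberg complex). -/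
noncomputable def homAct : LieHomology k L n →ₗ[k] LieHomology k L n :=
  Submodule.mapQ _ _ ((exder T).restrict (fun _ h => exder_mem_cycles T hT n h))
    (fun _ h => exder_mem_boundaries T hT n h)

/-- the homology class of a cycle -/
noncomputable def cls : ↥(cycles k L n) →ₗ[k] LieHomology k L n := Submodule.mkQ _

lemma cls_surj : Function.Surjective (cls (k := k) (L := L) n) := Submodule.mkQ_surjective _

lemma cls_eq_zero {z : ↥(cycles k L n)} :
    cls n z = 0 ↔ (z : ExteriorAlgebra k L) ∈ boundaries k L n :=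
  Submodule.Quotient.mk_eq_zero _

lemma homAct_cls (z : ↥(cycles k L n)) :
    homAct T hT n (cls n z) = cls n ⟨exder T z, exder_mem_cycles T hT n z.2⟩ := rfl

end Diff

end Pool.Agent.L7h64.ABG
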