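import Mathlib

/-!
# Signed counting of multisets of homogeneous indices
-/

set_option autoImplicit false
set_option linter.unusedSimpArgs false
set_option linter.unusedSectionVars false

namespace Pool.Agent.L7h64.ABG

open Finset

variable {I σ : Type*} [DecidableEq I] [DecidableEq σ]

/-- the indicator function of a finite set -/
def ind (T : Finset σ) : σ → ℕ := fun m => if m ∈ T then 1 else 0

lemma ind_apply (T : Finset σ) (m : σ) : ind T m = if m ∈ T then 1 else 0 := rfl

lemma ind_inj {T T' : Finset σ} (h : ind T = ind T') : T = T' := by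
  ext m
  have := congrFun h m
  rw [ind_apply, ind_apply] at this
  by_cases h1 : m ∈ T <;> by_cases h2 : m ∈ T' <;> simp [h1, h2] at this ⊢

lemma ind_empty : ind (∅ : Finset σ) = 0 := by funext m; simp [ind_apply]

/-- the sum over the eight weights of the adjoint representation -/
def Xop (ψ : ℤ → ℤ → ℤ) : ℤ → ℤ → ℤ := fun x y =>
  2 * ψ x y + ψ (x + 1) y + ψ x (y + 1) + ψ (x + 1) (y + 1) + ψ (x - 1) y + ψ x (y - 1)
    + ψ (x - 1) (y - 1)

/-- the alternating sum over the Weyl group, shifted by `(a, b)` -/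
def altf (f : ℤ → ℤ → ℤ) (a b : ℤ) : ℤ :=
  f a b - f (a + 1) b - f a (b + 1) + f (a + 2) (b + 1) + f (a + 1) (b + 2) - f (a + 2) (b + 2)

lemma altf_sum {ι : Type*} (s : Finset ι) (c : ι → ℤ) (f : ι → ℤ → ℤ → ℤ) (a b : ℤ) :
    altf (fun x y => ∑ n ∈ s, c n * f n x y) a b = ∑ n ∈ s, c n * altf (f n) a b := by
  unfold altf
  simp only [← Finset.sum_sub_distrib, ← Finset.sum_add_distrib]
  refine Finset.sum_congr rfl fun n _ => ?_
  ring

/-- combinatorial data: indices with degrees and weights -/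
structure Cnt (deg : I → σ → ℕ) (wx wy : I → ℤ) (JS : (σ → ℕ) → Finset (Finset I))
    (Idx : Finset σ → Finset I) (a b : Finset σ → ℤ) : Prop where
  hJS : ∀ S J, J ∈ JS S ↔ ∑ j ∈ J, deg j = S
  hIdx : ∀ T i, i ∈ Idx T ↔ deg i = ind T
  deg_ne : ∀ i, deg i ≠ 0
  hab : ∀ T (φ : ℤ → ℤ → ℤ), ∑ i ∈ Idx T, φ (wx i) (wy i) = a T * Xop φ 0 0 + b T * φ 0 0

/-- the signed sum over the finite sets of indices of total degree `S` -/
def Fs (wx wy : I → ℤ) (JS : (σ → ℕ) → Finset (Finset I)) (S : σ → ℕ) (ψ : ℤ → ℤ → ℤ) : ℤ :=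
  ∑ J ∈ JS S, (-1) ^ J.card * ψ (∑ j ∈ J, wx j) (∑ j ∈ J, wy j)

namespace Cnt

variable {deg : I → σ → ℕ} {wx wy : I → ℤ} {JS : (σ → ℕ) → Finset (Finset I)}
    {Idx : Finset σ → Finset I} {a b : Finset σ → ℤ} (C : Cnt deg wx wy JS Idx a b)

include C

lemma JS_zero : JS 0 = {∅} := by
  ext J
  rw [C.hJS, Finset.mem_singleton]
  constructor
  · intro h
    by_contra hne
    obtain ⟨j, hj⟩ := Finset.nonempty_iff_ne_empty.2 hne
    apply C.deg_ne j
    have := Finset.single_le_sum (f := deg) (fun _ _ => zero_le) hj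
    rw [h] at this
    exact le_antisymm this zero_le
  · rintro rfl; simp

lemma Fs_empty (ψ : ℤ → ℤ → ℤ) : Fs wx wy JS (ind ∅) ψ = ψ 0 0 := by
  unfold Fs
  rw [ind_empty, C.JS_zero]
  simp

/-- removing the index whose degree contains `m` -/
lemma sum_JS (T : Finset σ) (m : σ) (hm : m ∈ T) (g : Finset I → ℤ) :
    ∑ J ∈ JS (ind T), g J = ∑ T' ∈ T.powerset.filter (fun T' => m ∈ T'),
      ∑ i ∈ Idx T', ∑ J' ∈ JS (ind (T \ T')), g (insert i J') := by
  have key : ∀ T' : Finset σ, m ∈ T' → ∀ i ∈ Idx T', ∀ J' ∈ JS (ind (T \ T')), ∀ j ∈ J', j ≠ i ∧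
      deg j m = 0 := by
    intro T' hT' i hi J' hJ' j hj
    rw [C.hIdx] at hi
    rw [C.hJS] at hJ'
    have h1 : deg j m = 0 := by
      have h2 := Finset.single_le_sum (f := fun j => deg j m) (fun _ _ => Nat.zero_le _) hj
      have h3 : ∑ j ∈ J', deg j m = 0 := by
        have := congrFun hJ' m
        rw [Finset.sum_apply] at this
        rw [this, ind_apply, if_neg]
        simp [hT']
      rw [h3] at h2
      exact Nat.le_zero.1 h2
    refine ⟨?_, h1⟩
    rintro rfl
    rw [hi, ind_apply, if_pos hT'] at h1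
    exact one_ne_zero h1
  have e1 : ∑ T' ∈ T.powerset.filter (fun T' => m ∈ T'),
      ∑ i ∈ Idx T', ∑ J' ∈ JS (ind (T \ T')), g (insert i J') =
      ∑ p ∈ (T.powerset.filter (fun T' => m ∈ T')).sigma
        (fun T' => Idx T' ×ˢ JS (ind (T \ T'))), g (insert p.2.1 p.2.2) := by
    rw [Finset.sum_sigma]
    refine Finset.sum_congr rfl fun T' _ => ?_
    rw [Finset.sum_product]
  rw [e1]
  symm
  refine Finset.sum_bij (fun p _ => insert p.2.1 p.2.2) ?_ ?_ ?_ (fun _ _ => rfl)
  · rintro ⟨T', i, J'⟩ hp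
    simp only [Finset.mem_sigma, Finset.mem_filter, Finset.mem_powerset, Finset.mem_product] at hp
    obtain ⟨⟨h1, h2⟩, h3, h4⟩ := hp
    have h5 : i ∉ J' := fun h => (key T' h2 i h3 J' h4 i h).1 rfl
    simp only
    rw [C.hJS, Finset.sum_insert h5, (C.hIdx _ _).1 h3, (C.hJS _ _).1 h4]
    funext m'
    simp only [Pi.add_apply, ind_apply, Finset.mem_sdiff]
    by_cases h6 : m' ∈ T'
    · simp [h6, h1 h6]
    · simp [h6]
  · rintro ⟨T1, i1, J1⟩ hp1 ⟨T2, i2, J2⟩ hp2 heq
    simp only [Finset.mem_sigma, Finset.mem_filter, Finset.mem_powerset, Finset.mem_product]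
      at hp1 hp2
    simp only at heq
    obtain ⟨⟨-, h2⟩, h3, h4⟩ := hp1
    obtain ⟨⟨-, g2⟩, g3, g4⟩ := hp2
    have h5 : i1 ∉ J1 := fun h => (key T1 h2 i1 h3 J1 h4 i1 h).1 rfl
    have g5 : i2 ∉ J2 := fun h => (key T2 g2 i2 g3 J2 g4 i2 h).1 rfl
    have hi : i1 = i2 := by
      have : i1 ∈ insert i2 J2 := heq ▸ Finset.mem_insert_self i1 J1
      rcases Finset.mem_insert.1 this with h | h
      · exact h
      · have h7 := (key T2 g2 i2 g3 J2 g4 i1 h).2
        rw [(C.hIdx _ _).1 h3, ind_apply, if_pos h2] at h7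
        exact absurd h7 one_ne_zero
    subst hi
    have hJ : J1 = J2 := by
      rw [← Finset.erase_insert h5, heq, Finset.erase_insert g5]
    have hT : T1 = T2 := ind_inj (((C.hIdx _ _).1 h3).symm.trans ((C.hIdx _ _).1 g3))
    subst hJ hT
    rfl
  · intro J hJ
    rw [C.hJS] at hJ
    have h1 : ∑ j ∈ J, deg j m = 1 := by
      have := congrFun hJ m
      rw [Finset.sum_apply] at this
      rw [this, ind_apply, if_pos hm]
    obtain ⟨i, hi, hi2⟩ : ∃ i ∈ J, deg i m ≠ 0 := by
      by_contra hcon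
      push Not at hcon
      rw [Finset.sum_eq_zero hcon] at h1
      exact one_ne_zero h1.symm
    have h2 : deg i ≤ ind T := by
      rw [← hJ]
      exact Finset.single_le_sum (f := deg) (fun _ _ => zero_le) hi
    set T' := T.filter (fun m' => deg i m' ≠ 0) with hT'
    have h3 : deg i = ind T' := by
      funext m'
      rw [ind_apply]
      have h4 : deg i m' ≤ ind T m' := h2 m'
      rw [ind_apply] at h4
      by_cases h5 : m' ∈ T
      · rw [if_pos h5] at h4
        by_cases h6 : deg i m' = 0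
        · rw [if_neg, h6]; simp [hT', h6]
        · rw [if_pos (by simp [hT', h5, h6])]; omega
      · rw [if_neg h5] at h4
        rw [if_neg (by simp [hT', h5])]; omega
    refine ⟨⟨T', i, J.erase i⟩, ?_, Finset.insert_erase hi⟩
    simp only [Finset.mem_sigma, Finset.mem_filter, Finset.mem_powerset, Finset.mem_product]
    refine ⟨⟨Finset.filter_subset _ _, by simp [hT', hm, hi2]⟩, (C.hIdx _ _).2 h3, ?_⟩
    rw [C.hJS]
    have h4 := Finset.add_sum_erase J deg hi
    rw [hJ, h3] at h4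
    funext m'
    have h5 := congrFun h4 m'
    rw [Pi.add_apply, ind_apply, ind_apply] at h5
    rw [ind_apply]
    by_cases h6 : m' ∈ T'
    · have h7 : m' ∈ T := Finset.mem_of_mem_filter m' h6
      rw [if_pos h6, if_pos h7] at h5
      rw [if_neg (by simp [h6])]
      omega
    · rw [if_neg h6] at h5
      by_cases h7 : m' ∈ T
      · rw [if_pos h7] at h5
        rw [if_pos (by simp [h6, h7])]
        omega
      · rw [if_neg h7] at h5
        rw [if_neg (by simp [h7])]
        omega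

/-- the recursion for the signed sums -/
lemma Fs_rec (T : Finset σ) (m : σ) (hm : m ∈ T) (ψ : ℤ → ℤ → ℤ) :
    Fs wx wy JS (ind T) ψ = - ∑ T' ∈ T.powerset.filter (fun T' => m ∈ T'),
      Fs wx wy JS (ind (T \ T')) (fun x y => a T' * Xop ψ x y + b T' * ψ x y) := by
  unfold Fs
  rw [C.sum_JS T m hm, ← Finset.sum_neg_distrib]
  refine Finset.sum_congr rfl fun T' hT' => ?_
  rw [Finset.mem_filter] at hT'
  rw [Finset.sum_comm, ← Finset.sum_neg_distrib]
  refine Finset.sum_congr rfl fun J' hJ' => ?_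
  have h1 : ∀ i ∈ Idx T', i ∉ J' := by
    intro i hi hiJ
    rw [C.hIdx] at hi
    rw [C.hJS] at hJ'
    have h2 := Finset.single_le_sum (f := fun j => deg j m) (fun _ _ => Nat.zero_le _) hiJ
    have h3 : ∑ j ∈ J', deg j m = 0 := by
      have := congrFun hJ' m
      rw [Finset.sum_apply] at this
      rw [this, ind_apply, if_neg]
      simp [hT'.2]
    rw [h3] at h2
    have h4 : deg i m = 1 := by rw [hi, ind_apply, if_pos hT'.2]
    omega
  have h2 : ∀ i ∈ Idx T', (-1 : ℤ) ^ (insert i J').card *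
      ψ (∑ j ∈ insert i J', wx j) (∑ j ∈ insert i J', wy j) =
      -((-1) ^ J'.card * (fun u v => ψ (u + ∑ j ∈ J', wx j) (v + ∑ j ∈ J', wy j)) (wx i) (wy i)) := by
    intro i hi
    rw [Finset.card_insert_of_notMem (h1 i hi), Finset.sum_insert (h1 i hi),
      Finset.sum_insert (h1 i hi), pow_succ]
    ring
  rw [Finset.sum_congr rfl h2, Finset.sum_neg_distrib, ← Finset.mul_sum,
    C.hab T' (fun u v => ψ (u + ∑ j ∈ J', wx j) (v + ∑ j ∈ J', wy j))]
  congr 1
  congr 1
  unfold Xop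
  ring_nf

end Cnt

end Pool.Agent.L7h64.ABG
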