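import Pool.Agent.L7h64.ABGCE

/-!
# The definitions used in the statement on the homology of `ABG(Alt(V))`
-/

set_option autoImplicit false

namespace Pool.Agent.L7h64.ABG

open Matrix

universe u

attribute [local instance 100] LieRing.ofAssociativeRing LieAlgebra.ofAssociativeAlgebra

/-- The Lie algebra `sl_3` of the trace zero matrices of size 3. -/
abbrev Sl3 (k : Type u) [Field k] : Type u := ↥(LieAlgebra.SpecialLinear.sl (Fin 3) k)

section Algebra

variable {k : Type u} [Field k] {A : Type u} [AddCommGroup A] [Module k A]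

/-- The algebra `A` with the product `m` is alternative. -/
def IsAlt (m : A →ₗ[k] A →ₗ[k] A) : Prop :=
  ∀ p q, m (m p p) q = m p (m p q) ∧ m (m q p) p = m q (m p p)

/-- The algebra `A` with the product `m` and the linear map `g : V → A` is the free non-unital
alternative algebra `Alt(V)`: it is alternative, and every linear map from `V` to an alternative
algebra extends uniquely to a homomorphism of algebras. -/
def IsFreeAlt {V : Type u} [AddCommGroup V] [Module k V] (m : A →ₗ[k] A →ₗ[k] A)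
    (g : V →ₗ[k] A) : Prop :=
  IsAlt m ∧ ∀ (B : Type u) [AddCommGroup B] [Module k B] (m' : B →ₗ[k] B →ₗ[k] B)
    (f : V →ₗ[k] B), IsAlt m' →
      ∃! φ : A →ₗ[k] B, (∀ v, φ (g v) = f v) ∧ ∀ x y, φ (m x y) = m' (φ x) (φ y)

/-- `D_{p,q}(r)`, where `D_{p,q} = [L_p, L_q] + [R_p, R_q] + [L_p, R_q]`. -/
def Dpq (m : A →ₗ[k] A →ₗ[k] A) (p q r : A) : A :=
  (m p (m q r) - m q (m p r)) + (m (m r q) p - m (m r p) q) + (m p (m r q) - m (m p r) q)

/-- The bilinear map `w` on `A` is alternating and vanishes on `pq ∧ r + qr ∧ p + rp ∧ q`, that is,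
it comes from a linear map on `B(A) = Λ²(A) / span {pq ∧ r + qr ∧ p + rp ∧ q}`. -/
def IsWedge {M : Type u} [AddCommGroup M] [Module k M] (m : A →ₗ[k] A →ₗ[k] A)
    (w : A →ₗ[k] A →ₗ[k] M) : Prop :=
  (∀ p, w p p = 0) ∧ ∀ p q r, w (m p q) r + w (m q r) p + w (m r p) q = 0

/-- The Lie algebra `L` is `ABG(A) = sl_3 ⊗ A ⊕ B(A)`, where `t X p` stands for `X ⊗ p` and `w p q`
for `p ∧ q`. The second condition says that the vector space `L` is `sl_3 ⊗ A ⊕ B(A)`: the pairs of
a bilinear map on `sl_3 × A` and of a linear map on `B(A)` are the linear maps on `L`. In the third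
condition `Z` is `{X, Y}`. -/
structure IsABG {L : Type u} [LieRing L] [LieAlgebra k L] (m : A →ₗ[k] A →ₗ[k] A)
    (t : Sl3 k →ₗ[k] A →ₗ[k] L) (w : A →ₗ[k] A →ₗ[k] L) : Prop where
  wedge : IsWedge m w
  univ : ∀ (M : Type u) [AddCommGroup M] [Module k M] (t' : Sl3 k →ₗ[k] A →ₗ[k] M)
    (w' : A →ₗ[k] A →ₗ[k] M), IsWedge m w' →
      ∃! φ : L →ₗ[k] M, (∀ X p, φ (t X p) = t' X p) ∧ ∀ p q, φ (w p q) = w' p q
  tt : ∀ X Y Z : Sl3 k, Z.1 = (1 / 2 : k) • (X.1 * Y.1 + Y.1 * X.1) -
      ((1 / 3 : k) * (X.1 * Y.1).trace) • (1 : Matrix (Fin 3) (Fin 3) k) →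
    ∀ p q, ⁅t X p, t Y q⁆ = t ⁅X, Y⁆ ((1 / 2 : k) • (m p q + m q p)) + t Z (m p q - m q p) +
      ((1 / 3 : k) * (X.1 * Y.1).trace) • w p q
  wt : ∀ X p q r, ⁅w p q, t X r⁆ = t X (Dpq m p q r)
  ww : ∀ p q r s, ⁅w p q, w r s⁆ = w (Dpq m p q r) s + w r (Dpq m p q s)

/-- `δ X` is the action of `X` in `sl_3` on `ABG(A)`: the adjoint action on the factor `sl_3` of
`sl_3 ⊗ A`, and zero on `B(A)`. -/
def IsAction {L : Type u} [AddCommGroup L] [Module k L] (t : Sl3 k →ₗ[k] A →ₗ[k] L)
    (w : A →ₗ[k] A →ₗ[k] L) (δ : Sl3 k → L →ₗ[k] L) : Prop :=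
  (∀ X Y p, δ X (t Y p) = t ⁅X, Y⁆ p) ∧ ∀ X p q, δ X (w p q) = 0

end Algebra

section Homology

variable (k : Type u) [Field k] (L : Type u) [LieRing L] [LieAlgebra k L] (n : ℕ)

/-- The homology `H_n(L, k)`: the cycles modulo the boundaries in degree `n` of the
Chevalley-Eilenberg complex. -/
def HL : Type u := ↥(cycles k L n) ⧸ (boundaries k L n).submoduleOf (cycles k L n)

noncomputable instance : AddCommGroup (HL k L n) := Submodule.Quotient.addCommGroup _

noncomputable instance : Module k (HL k L n) := Submodule.Quotient.module _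

/-- the homology class of a cycle -/
noncomputable def toHL : ↥(cycles k L n) →ₗ[k] HL k L n := Submodule.mkQ _

variable {k L n}

/-- `ρ X` is the operator on the homology `H_n(L, k)` induced by the derivation `δ X` of `L`, through
its extension `exder (δ X)` to a derivation of the exterior algebra. -/
def IsInduced (δ : Sl3 k → L →ₗ[k] L) (ρ : Sl3 k → HL k L n →ₗ[k] HL k L n) : Prop :=
  ∀ X (z z' : ↥(cycles k L n)), z'.1 = exder (δ X) z.1 → ρ X (toHL k L n z) = toHL k L n z'

end Homology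

/-- The `sl_3`-module `M` (on which `X` acts by `a X`) has a direct summand isomorphic to the
`sl_3`-module `N` (on which `X` acts by `b X`): there are equivariant linear maps `i : N → M` and
`p : M → N` with `p ∘ i = id`. -/
def HasSummand {k M N : Type u} [Field k] [AddCommGroup M] [Module k M] [AddCommGroup N]
    [Module k N] (a : Sl3 k → M →ₗ[k] M) (b : Sl3 k → N →ₗ[k] N) : Prop :=
  ∃ (i : N →ₗ[k] M) (p : M →ₗ[k] N), (∀ y, p (i y) = y) ∧ (∀ X y, a X (i y) = i (b X y)) ∧
    ∀ X m, p (a X m) = b X (p m)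

end Pool.Agent.L7h64.ABG
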