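import Pool.Agent.L7h64.ABGBasis

/-!
# Dimensions in the free alternative algebra; the derived algebra of `ABG(A)`
-/

set_option autoImplicit false
set_option linter.unusedSimpArgs false
set_option linter.unusedSectionVars false

namespace Pool.Agent.L7h64.ABG

open Module Matrix

scoped instance assocAlt (R : Type*) [NonUnitalRing R] : IsAlternative R where
  left p q := mul_assoc p p q
  right p q := mul_assoc q p p

/-! ### dimensions -/

section Dims

variable {k : Type*} [Field k] {X : Type*}

/-- the associative word of a nonassociative word -/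
def toMon : FreeMagma X → FreeMonoid X
  | .of x => FreeMonoid.of x
  | .mul a b => toMon a * toMon b

variable (k X) in
/-- the map to the free associative algebra -/
noncomputable def toAss : FreeAlt k X →ₗ[k] MonoidAlgebra k (FreeMonoid X) :=
  liftA k (fun x => MonoidAlgebra.single (FreeMonoid.of x) 1)

lemma toAss_mon (w : FreeMagma X) : toAss k X (mon k w) = MonoidAlgebra.single (toMon w) 1 := by
  induction w with
  | ih1 x => exact liftA_gen _ _
  | ih2 a b ha hb =>
    show toAss k X (mon k a * mon k b) = _
    have : toAss k X (mon k a * mon k b) = toAss k X (mon k a) * toAss k X (mon k b) :=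
      liftA_mul _ _ _
    rw [this, ha, hb, MonoidAlgebra.single_mul_single, one_mul]
    rfl

/-- the right-normed word of a nonempty list -/
def lw : X → List X → FreeMagma X
  | x, [] => .of x
  | x, y :: l => .mul (.of x) (lw y l)

lemma toMon_lw (x : X) (l : List X) : toMon (lw x l) = FreeMonoid.ofList (x :: l) := by
  induction l generalizing x with
  | nil => rfl
  | cons y l ih =>
    show FreeMonoid.of x * toMon (lw y l) = _
    rw [ih]
    rfl

variable [DecidableEq X]

lemma cnt_lw (x : X) (l : List X) (m : X) : cnt (lw x l) m = (x :: l).count m := by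
  induction l generalizing x with
  | nil =>
    show (Pi.single x 1 : X → ℕ) m = _
    rw [Pi.single_apply]
    by_cases h : m = x
    · subst h; simp
    · simp [h, Ne.symm h]
  | cons y l ih =>
    show (Pi.single x 1 : X → ℕ) m + cnt (lw y l) m = _
    rw [ih, show (x :: y :: l).count m = (y :: l).count m + if x == m then 1 else 0 from
      List.count_cons, Pi.single_apply, add_comm]
    congr 1
    by_cases h : m = x
    · subst h; simp
    · simp [h, Ne.symm h]

variable [Fintype X] {IA : Type*} (bA : Basis IA k (FreeAlt k X)) (cA : IA → FreeMagma X)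
  (hcA : Function.Injective cA) (hbA : ∀ i, bA i = mon k (cA i))

include hcA in
lemma finA (S : X → ℕ) : {i | cnt (cA i) = S}.Finite :=
  ((finite_cnt S).subset (fun w (hw : cnt w = S) => hw.le)).preimage hcA.injOn

/-- the basis elements of a given degree -/
noncomputable def IdA (S : X → ℕ) : Finset IA := (finA cA hcA S).toFinset

lemma mem_IdA {S : X → ℕ} {i : IA} : i ∈ IdA cA hcA S ↔ cnt (cA i) = S := by
  unfold IdA
  rw [Set.Finite.mem_toFinset]
  rfl

include hbA in
lemma EA_basis (i : IA) (m : X) : EA k m (bA i) = (cnt (cA i) m : k) • bA i := by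
  rw [hbA, EA_mon, Nat.cast_smul_eq_nsmul]

variable [CharZero k]

include hbA in
lemma IdA_card (S : X → ℕ) : finrank k (jeig (EA k (X := X)) (fun m => (S m : k))) =
    (IdA cA hcA S).card := by
  refine jeig_finrank (e := bA) (c := fun i m => (cnt (cA i) m : k))
    (fun i m => EA_basis bA cA hbA i m) (fun i => ?_)
  rw [mem_IdA]
  constructor
  · intro h; funext m; rw [h]
  · intro h; funext m; exact Nat.cast_injective (congrFun h m)

include hbA hcA in
lemma fd_jeigA (S : X → ℕ) : FiniteDimensional k (jeig (EA k (X := X)) (fun m => (S m : k))) := by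
  refine jeig_fd (e := bA) (c := fun i m => (cnt (cA i) m : k)) (s := IdA cA hcA S)
    (fun i m => EA_basis bA cA hbA i m) (fun i => ?_)
  rw [mem_IdA]
  constructor
  · intro h; funext m; rw [h]
  · intro h; funext m; exact Nat.cast_injective (congrFun h m)

lemma mon_mem_jeig (w : FreeMagma X) (S : X → ℕ) (h : cnt w = S) :
    mon k w ∈ jeig (EA k (X := X)) (fun m => (S m : k)) := by
  intro m
  rw [EA_mon, h, Nat.cast_smul_eq_nsmul]

include hbA in
/-- the component of degree one of a letter -/
theorem IdA_one (m : X) : (IdA cA hcA (ind {m})).card = 1 := by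
  apply le_antisymm
  · rw [Finset.card_le_one]
    have h : ∀ i ∈ IdA cA hcA (ind {m}), cA i = FreeMagma.of m := by
      intro i hi
      rw [mem_IdA] at hi
      have h1 : mlen (cA i) = 1 := by
        rw [← sum_cnt, hi]
        simp [ind_apply]
      cases hw : cA i with
      | of x =>
        rw [hw] at hi
        have h2 := congrFun hi m
        rw [ind_apply, if_pos (Finset.mem_singleton_self m)] at h2
        have h2 : (Pi.single x 1 : X → ℕ) m = 1 := h2
        rw [Pi.single_apply] at h2
        split_ifs at h2 with h3
        · rw [h3]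
      | mul a b =>
        rw [hw] at h1
        have h1 : mlen a + mlen b = 1 := h1
        have := mlen_pos a
        have := mlen_pos b
        omega
    intro i hi j hj
    exact hcA ((h i hi).trans (h j hj).symm)
  · rw [← IdA_card bA cA hcA hbA]
    have := fd_jeigA bA cA hcA hbA (ind {m})
    rw [Nat.one_le_iff_ne_zero, ← Nat.pos_iff_ne_zero, Module.finrank_pos_iff_exists_ne_zero]
    refine ⟨⟨mon k (.of m), mon_mem_jeig _ _ ?_⟩, ?_⟩
    · funext m'
      show (Pi.single m 1 : X → ℕ) m' = _
      rw [Pi.single_apply, ind_apply]
      simp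
    · intro h
      have h1 : mon k (.of m) = 0 := congrArg Subtype.val h
      have h2 := toAss_mon (k := k) (.of m)
      rw [h1, map_zero] at h2
      have h3 := (MonoidAlgebra.basis (FreeMonoid X) k).ne_zero (toMon (.of m))
      rw [MonoidAlgebra.basis_apply, ← h2] at h3
      exact h3 rfl

end Dims

/-- the lower bound for the dimension of the multilinear part of degree nine -/
theorem lower_bound {k : Type*} [Field k] [CharZero k] {IA : Type*}
    (bA : Basis IA k (FreeAlt k (Fin 9))) (cA : IA → FreeMagma (Fin 9))
    (hcA : Function.Injective cA) (hbA : ∀ i, bA i = mon k (cA i)) :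
    362880 ≤ (IdA cA hcA (ind Finset.univ)).card := by
  rw [← IdA_card bA cA hcA hbA]
  have := fd_jeigA bA cA hcA hbA (ind Finset.univ)
  let wd : Equiv.Perm (Fin 9) → FreeMagma (Fin 9) := fun s =>
    lw (s 0) (List.ofFn fun i : Fin 8 => s i.succ)
  have hwd : ∀ s : Equiv.Perm (Fin 9), (s 0 :: List.ofFn fun i : Fin 8 => s i.succ) =
      List.ofFn (fun i => s i) := fun s => (List.ofFn_succ (n := 8) (f := fun i => s i)).symm
  have hc : ∀ s, cnt (wd s) = ind Finset.univ := by
    intro s
    funext m
    rw [cnt_lw, hwd, ind_apply, if_pos (Finset.mem_univ m)]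
    apply List.count_eq_one_of_mem
    · exact List.nodup_ofFn.2 s.injective
    · rw [List.mem_ofFn]
      exact s.surjective m
  let v : Equiv.Perm (Fin 9) → ↥(jeig (EA k (X := Fin 9)) (fun m => (ind Finset.univ m : k))) :=
    fun s => ⟨mon k (wd s), mon_mem_jeig _ _ (hc s)⟩
  have hv : LinearIndependent k v := by
    apply LinearIndependent.of_comp (toAss k (Fin 9) ∘ₗ Submodule.subtype _)
    have h1 : ⇑(toAss k (Fin 9) ∘ₗ Submodule.subtype
        (jeig (EA k (X := Fin 9)) (fun m => (ind Finset.univ m : k)))) ∘ v =
        (MonoidAlgebra.basis (FreeMonoid (Fin 9)) k) ∘ (fun s => toMon (wd s)) := by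
      funext s
      show toAss k (Fin 9) (mon k (wd s)) = _
      rw [toAss_mon, Function.comp_apply, MonoidAlgebra.basis_apply]
    rw [h1]
    refine (MonoidAlgebra.basis (FreeMonoid (Fin 9)) k).linearIndependent.comp _ ?_
    intro s t hst
    have hst : toMon (wd s) = toMon (wd t) := hst
    rw [toMon_lw, toMon_lw, hwd, hwd] at hst
    have := List.ofFn_injective (FreeMonoid.ofList.injective hst)
    exact DFunLike.coe_injective this
  have h2 := hv.fintype_card_le_finrank
  rw [Fintype.card_perm, Fintype.card_fin] at h2
  exact h2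


end Pool.Agent.L7h64.ABG
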