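import Pool.Agent.L7h64.ABGLie

/-!
# The Allison-Benkart-Gao Lie algebra: the matrix part
-/

set_option autoImplicit false
set_option linter.unusedSimpArgs false
set_option linter.unusedSectionVars false

namespace Pool.Agent.L7h64.ABG

open TensorProduct Matrix

/-- the notation for matrices of size three -/
abbrev M3 (R : Type*) := Matrix (Fin 3) (Fin 3) R

section Sca
variable {k : Type*} [Field k]

/-- the traceless part of a matrix -/
def dv (X : M3 k) : M3 k := X - ((1 / 3 : k) * X.trace) • (1 : M3 k)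

lemma dv_add (X Y : M3 k) : dv (X + Y) = dv X + dv Y := by
  unfold dv; rw [trace_add, mul_add, add_smul]; abel

lemma dv_sub (X Y : M3 k) : dv (X - Y) = dv X - dv Y := by
  unfold dv; rw [trace_sub, mul_sub, sub_smul]; abel

lemma dv_smul (c : k) (X : M3 k) : dv (c • X) = c • dv X := by
  unfold dv; rw [trace_smul, smul_sub, smul_smul]; congr 2; rw [smul_eq_mul]; ring

lemma dv_of_trace (X : M3 k) (hX : X.trace = 0) : dv X = X := by
  unfold dv; rw [hX, mul_zero, zero_smul, sub_zero]

lemma trace_dv [CharZero k] (X : M3 k) : (dv X).trace = 0 := by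
  unfold dv; rw [trace_sub, trace_smul, trace_one, smul_eq_mul, Fintype.card_fin]; push_cast; ring

lemma dv_mul_dv (X Y : M3 k) (hX : X.trace = 0) :
    dv (X * dv Y) = dv (X * Y) - ((1 / 3 : k) * Y.trace) • X := by
  nth_rewrite 2 [dv]
  rw [mul_sub, dv_sub, mul_smul_comm, mul_one, dv_smul, dv_of_trace X hX]

lemma dv_dv_mul (X Y : M3 k) (hX : X.trace = 0) :
    dv (dv Y * X) = dv (Y * X) - ((1 / 3 : k) * Y.trace) • X := by
  nth_rewrite 2 [dv]
  rw [sub_mul, dv_sub, smul_mul_assoc, one_mul, dv_smul, dv_of_trace X hX]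

lemma trace_eq (X : M3 k) : X.trace = X 0 0 + X 1 1 + X 2 2 := by
  rw [Matrix.trace, Fin.sum_univ_three]; rfl

set_option maxHeartbeats 4000000 in
lemma cayley' (X Y Z : M3 k) (hx : X 2 2 = - X 0 0 - X 1 1) (hy : Y 2 2 = - Y 0 0 - Y 1 1)
    (hz : Z 2 2 = - Z 0 0 - Z 1 1) :
    X * (Y * Z) + X * (Z * Y) + Y * (X * Z) + Y * (Z * X) + Z * (X * Y)
      + Z * (Y * X) = (X * Y).trace • Z + (Y * Z).trace • X + (X * Z).trace • Y
      + ((X * (Y * Z)).trace + (X * (Z * Y)).trace) • (1 : M3 k) := by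
  ext i j
  simp only [trace_eq, Matrix.add_apply, Matrix.smul_apply, Matrix.mul_apply,
    Fin.sum_univ_three, smul_eq_mul]
  fin_cases i <;> fin_cases j <;> simp only [Fin.isValue, Fin.zero_eta, Fin.mk_one,
    Fin.reduceFinMk, hx, hy, hz, Matrix.one_apply_eq, Matrix.one_apply_ne, ne_eq, Fin.reduceEq,
    not_false_eq_true] <;> ring

/-- the polarized Cayley-Hamilton identity for traceless matrices of size three -/
lemma cayley [CharZero k] (X Y Z : M3 k) (hX : X.trace = 0) (hY : Y.trace = 0) (hZ : Z.trace = 0) :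
    dv (X * (Y * Z)) + dv (X * (Z * Y)) + dv (Y * (X * Z)) + dv (Y * (Z * X)) + dv (Z * (X * Y))
      + dv (Z * (Y * X)) = (X * Y).trace • Z + (Y * Z).trace • X + (X * Z).trace • Y := by
  have hx : X 2 2 = - X 0 0 - X 1 1 := by rw [trace_eq] at hX; linear_combination hX
  have hy : Y 2 2 = - Y 0 0 - Y 1 1 := by rw [trace_eq] at hY; linear_combination hY
  have hz : Z 2 2 = - Z 0 0 - Z 1 1 := by rw [trace_eq] at hZ; linear_combination hZ
  have h1 : dv (1 : M3 k) = 0 := by
    unfold dv
    rw [trace_one, Fintype.card_fin]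
    have : (1 / 3 : k) * ((3 : ℕ) : k) = 1 := by push_cast; ring
    rw [this, one_smul, sub_self]
  rw [← dv_add, ← dv_add, ← dv_add, ← dv_add, ← dv_add, cayley' X Y Z hx hy hz, dv_add, dv_add,
    dv_add, dv_smul, dv_smul, dv_smul, dv_smul, h1, smul_zero, add_zero, dv_of_trace X hX,
    dv_of_trace Y hY, dv_of_trace Z hZ]

end Sca

section Mat
variable (k A : Type*) [Field k] [NonUnitalNonAssocRing A] [Module k A] [IsScalarTower k A A]
  [SMulCommClass k A A]

/-- The trace zero matrices of size 3 with entries in `A`; this is `sl_3 ⊗ A`. -/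
def T0 : Submodule k (M3 A) := LinearMap.ker (Matrix.traceLinearMap (Fin 3) k A)

variable {k A}

lemma mem_T0 (M : M3 A) : M ∈ T0 k A ↔ M.trace = 0 := Iff.rfl

/-- the matrix `X ⊗ p`, for `X` a scalar matrix and `p` in `A` -/
def ten (X : M3 k) (p : A) : M3 A := Matrix.of fun i j => X i j • p

lemma ten_apply (X : M3 k) (p : A) (i j : Fin 3) : ten X p i j = X i j • p := rfl

lemma trace_eqA (M : M3 A) : M.trace = M 0 0 + M 1 1 + M 2 2 := by
  rw [Matrix.trace, Fin.sum_univ_three]; rfl

lemma trace_ten (X : M3 k) (p : A) : (ten X p).trace = X.trace • p := by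
  rw [trace_eqA, trace_eq]; simp only [ten_apply, add_smul]

lemma ten_mul (X Y : M3 k) (p q : A) : ten X p * ten Y q = ten (X * Y) (p * q) := by
  ext i j
  simp only [Matrix.mul_apply, Fin.sum_univ_three, ten_apply, smul_mul_assoc, mul_smul_comm,
    smul_smul, add_smul]
  simp only [mul_comm]

variable (k) in
/-- subtract one third of the trace from the diagonal -/
def proj0 : M3 A →ₗ[k] M3 A where
  toFun M := M - Matrix.diagonal fun _ => (1 / 3 : k) • M.trace
  map_add' M N := by
    ext i j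
    simp only [Matrix.sub_apply, Matrix.add_apply, Matrix.diagonal_apply, trace_add, smul_add]
    split_ifs <;> abel
  map_smul' c M := by
    ext i j
    simp only [Matrix.sub_apply, Matrix.smul_apply, Matrix.diagonal_apply, trace_smul,
      RingHom.id_apply]
    split_ifs
    · rw [smul_sub, smul_comm c (1 / 3 : k)]
    · simp

lemma proj0_apply (M : M3 A) : proj0 k M = M - Matrix.diagonal fun _ => (1 / 3 : k) • M.trace := rfl

lemma proj0_mem [CharZero k] (M : M3 A) : proj0 k M ∈ T0 k A := by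
  rw [mem_T0, proj0_apply, trace_sub, trace_diagonal, Finset.sum_const, Finset.card_univ,
    Fintype.card_fin, ← Nat.cast_smul_eq_nsmul k, smul_smul]
  norm_num

lemma proj0_ten (X : M3 k) (p : A) : proj0 k (ten X p) = ten (dv X) p := by
  ext i j
  rw [proj0_apply, Matrix.sub_apply, Matrix.diagonal_apply, ten_apply, ten_apply, trace_ten]
  unfold dv
  rw [Matrix.sub_apply, Matrix.smul_apply, Matrix.one_apply]
  split_ifs <;> simp [sub_smul, smul_smul]

variable [CharZero k]

variable (k A) in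
/-- The bracket `[M, N]₀ = MN - NM - (1/3) tr(MN - NM)` on trace zero matrices over `A`. -/
def mbr : T0 k A →ₗ[k] T0 k A →ₗ[k] T0 k A :=
  LinearMap.mk₂ k (fun M N => ⟨proj0 k (M.1 * N.1 - N.1 * M.1), proj0_mem _⟩)
    (fun M M' N => Subtype.ext (by
      show proj0 k ((M.1 + M'.1) * N.1 - N.1 * (M.1 + M'.1)) =
        proj0 k (M.1 * N.1 - N.1 * M.1) + proj0 k (M'.1 * N.1 - N.1 * M'.1)
      rw [← map_add]; congr 1; rw [add_mul, mul_add]; abel))
    (fun c M N => Subtype.ext (by
      show proj0 k ((c • M.1) * N.1 - N.1 * (c • M.1)) = c • proj0 k (M.1 * N.1 - N.1 * M.1)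
      rw [← map_smul]; congr 1; rw [smul_mul_assoc, mul_smul_comm, smul_sub]))
    (fun M N N' => Subtype.ext (by
      show proj0 k (M.1 * (N.1 + N'.1) - (N.1 + N'.1) * M.1) =
        proj0 k (M.1 * N.1 - N.1 * M.1) + proj0 k (M.1 * N'.1 - N'.1 * M.1)
      rw [← map_add]; congr 1; rw [add_mul, mul_add]; abel))
    (fun c M N => Subtype.ext (by
      show proj0 k (M.1 * (c • N.1) - (c • N.1) * M.1) = c • proj0 k (M.1 * N.1 - N.1 * M.1)
      rw [← map_smul]; congr 1; rw [smul_mul_assoc, mul_smul_comm, smul_sub]))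

lemma mbr_coe (M N : T0 k A) : (mbr k A M N).1 = proj0 k (M.1 * N.1 - N.1 * M.1) := rfl

lemma mbr_self (M : T0 k A) : mbr k A M M = 0 := Subtype.ext (by
  rw [mbr_coe, sub_self, map_zero]; rfl)

lemma mbr_skew (M N : T0 k A) : mbr k A M N = - mbr k A N M := Subtype.ext (by
  show proj0 k (M.1 * N.1 - N.1 * M.1) = - proj0 k (N.1 * M.1 - M.1 * N.1)
  rw [← map_neg, neg_sub])

variable (k A) in
/-- the pairing `(M, N) ↦ (1/3) Σ M_ij ∧ N_ji` -/
def om : T0 k A →ₗ[k] T0 k A →ₗ[k] BA k A :=
  LinearMap.mk₂ k (fun M N => (1 / 3 : k) • ∑ i, ∑ j, wd k A (M.1 i j) (N.1 j i))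
    (fun M M' N => by
      simp only [Submodule.coe_add, Matrix.add_apply, map_add, LinearMap.add_apply,
        Finset.sum_add_distrib, smul_add])
    (fun c M N => by
      simp only [Submodule.coe_smul, Matrix.smul_apply, map_smul, LinearMap.smul_apply,
        ← Finset.smul_sum]
      rw [smul_comm])
    (fun M N N' => by
      simp only [Submodule.coe_add, Matrix.add_apply, map_add, LinearMap.add_apply,
        Finset.sum_add_distrib, smul_add])
    (fun c M N => by
      simp only [Submodule.coe_smul, Matrix.smul_apply, map_smul, LinearMap.smul_apply,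
        ← Finset.smul_sum]
      rw [smul_comm])

lemma om_apply (M N : T0 k A) : om k A M N =
    (1 / 3 : k) • ∑ i, ∑ j, wd k A (M.1 i j) (N.1 j i) := rfl

lemma om_skew (M N : T0 k A) : om k A M N = - om k A N M := by
  rw [om_apply, om_apply, ← smul_neg, Finset.sum_comm, ← Finset.sum_neg_distrib]
  congr 1
  refine Finset.sum_congr rfl fun i _ => ?_
  rw [← Finset.sum_neg_distrib]
  refine Finset.sum_congr rfl fun j _ => ?_
  exact wd_swap _ _

lemma om_self (M : T0 k A) : om k A M M = 0 := by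
  have h := om_skew M M
  have h2 : (2 : k) • om k A M M = 0 := by
    rw [two_smul]; nth_rewrite 2 [h]; rw [add_neg_cancel]
  exact (smul_eq_zero.1 h2).resolve_left (by norm_num)

/-- the pure tensors in `T0` -/
def tenT (X : M3 k) (hX : X.trace = 0) (p : A) : T0 k A :=
  ⟨ten X p, by rw [mem_T0, trace_ten, hX, zero_smul]⟩

lemma om_ten (X Y : M3 k) (hX : X.trace = 0) (hY : Y.trace = 0) (p q : A) :
    om k A (tenT X hX p) (tenT Y hY q) = ((1 / 3 : k) * (X * Y).trace) • wd k A p q := by
  rw [om_apply, mul_smul]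
  congr 1
  simp only [tenT, ten_apply, map_smul, LinearMap.smul_apply, trace_eq, Matrix.mul_apply,
    Fin.sum_univ_three]
  module

lemma mbr_ten (X Y : M3 k) (hX : X.trace = 0) (hY : Y.trace = 0) (p q : A) :
    mbr k A (tenT X hX p) (tenT Y hY q) = tenT (dv (X * Y)) (trace_dv _) (p * q) -
      tenT (dv (Y * X)) (trace_dv _) (q * p) := by
  apply Subtype.ext
  rw [mbr_coe, map_sub]
  show proj0 k (ten X p * ten Y q) - proj0 k (ten Y q * ten X p) = _
  rw [ten_mul, ten_mul, proj0_ten, proj0_ten]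
  rfl

/-- the trace zero matrices are spanned by the pure tensors -/
lemma T0_ind {P : T0 k A → Prop} (hadd : ∀ x y, P x → P y → P (x + y))
    (hten : ∀ (X : M3 k) (hX : X.trace = 0) (p : A), P (tenT X hX p)) (M : T0 k A) : P M := by
  have hM : M.1 2 2 = - M.1 0 0 - M.1 1 1 := by
    have := M.2
    rw [mem_T0, trace_eqA] at this
    rw [eq_sub_iff_add_eq, eq_neg_iff_add_eq_zero]
    rw [← this]; abel
  have e : M = tenT (Matrix.single 0 1 (1 : k)) (by simp [trace_eq, Matrix.single_apply]) (M.1 0 1)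
    + tenT (Matrix.single 0 2 (1 : k)) (by simp [trace_eq, Matrix.single_apply]) (M.1 0 2)
    + tenT (Matrix.single 1 0 (1 : k)) (by simp [trace_eq, Matrix.single_apply]) (M.1 1 0)
    + tenT (Matrix.single 1 2 (1 : k)) (by simp [trace_eq, Matrix.single_apply]) (M.1 1 2)
    + tenT (Matrix.single 2 0 (1 : k)) (by simp [trace_eq, Matrix.single_apply]) (M.1 2 0)
    + tenT (Matrix.single 2 1 (1 : k)) (by simp [trace_eq, Matrix.single_apply]) (M.1 2 1)
    + tenT (Matrix.single 0 0 (1 : k) - Matrix.single 1 1 (1 : k))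
        (by simp [trace_eq, Matrix.single_apply]) (M.1 0 0)
    + tenT (Matrix.single 1 1 (1 : k) - Matrix.single 2 2 (1 : k))
        (by simp [trace_eq, Matrix.single_apply]) (M.1 0 0 + M.1 1 1) := by
    apply Subtype.ext
    ext i j
    simp only [Submodule.coe_add, Matrix.add_apply, tenT, ten_apply, Matrix.sub_apply,
      Matrix.single_apply]
    fin_cases i <;> fin_cases j <;> simp [hM]
    abel
  rw [e]
  exact hadd _ _ (hadd _ _ (hadd _ _ (hadd _ _ (hadd _ _ (hadd _ _ (hadd _ _ (hten _ _ _)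
    (hten _ _ _)) (hten _ _ _)) (hten _ _ _)) (hten _ _ _)) (hten _ _ _)) (hten _ _ _))
    (hten _ _ _)

end Mat

end Pool.Agent.L7h64.ABG
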