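import Pool.Agent.L7h64.ABGEuler
import Pool.Agent.L7h64.ABGMat
import Pool.Agent.L7h64.ABGAct

/-!
# Direct summands generated by highest weight vectors of weight `0` and `α₁ + α₂`
-/

set_option autoImplicit false
set_option linter.unusedSimpArgs false
set_option linter.unusedSectionVars false

namespace Pool.Agent.L7h64.ABG

open Module Matrix

/-- A representation of `gl_3` with projections `π x y` onto finite-dimensional subspaces of weight
`(x, y)`, compatible with the Chevalley generators. -/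
structure Rep3 {k M : Type*} [Field k] [AddCommGroup M] [Module k M]
    (act : M3 k →ₗ[k] (M →ₗ[k] M)) (π : ℤ → ℤ → M →ₗ[k] M) : Prop where
  lie : ∀ X Y v, act (X * Y - Y * X) v = act X (act Y v) - act Y (act X v)
  idem : ∀ x y v, π x y (π x y v) = π x y v
  hw : ∀ j x y v, act (hmat k j) (π x y v) = (![2 * x - y, 2 * y - x] j : ℤ) • π x y v
  hwc : ∀ j x y v, π x y (act (hmat k j) v) = act (hmat k j) (π x y v)
  e1 : ∀ x y v, act (Matrix.single 0 1 1) (π x y v) = π (x + 1) y (act (Matrix.single 0 1 1) v)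
  e2 : ∀ x y v, act (Matrix.single 1 2 1) (π x y v) = π x (y + 1) (act (Matrix.single 1 2 1) v)
  f1 : ∀ x y v, act (Matrix.single 1 0 1) (π x y v) = π (x - 1) y (act (Matrix.single 1 0 1) v)
  f2 : ∀ x y v, act (Matrix.single 2 1 1) (π x y v) = π x (y - 1) (act (Matrix.single 2 1 1) v)
  fd : ∀ x y, FiniteDimensional k (LinearMap.range (π x y))
  bd : ∃ N : ℕ, ∀ x y, (N : ℤ) < |x| ∨ (N : ℤ) < |y| → π x y = 0

namespace Rep3

variable {k M : Type*} [Field k] [AddCommGroup M] [Module k M]
    {act : M3 k →ₗ[k] (M →ₗ[k] M)} {π : ℤ → ℤ → M →ₗ[k] M} (R : Rep3 act π)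

include R

lemma fixed {x y : ℤ} {v : M} (hv : v ∈ LinearMap.range (π x y)) : π x y v = v := by
  obtain ⟨u, rfl⟩ := hv
  exact R.idem x y u

lemma sl3W : Sl3W k (act (Matrix.single 0 1 1))
    (act (Matrix.single 1 2 1)) (act (Matrix.single 0 2 1))
    (act (Matrix.single 1 0 1)) (act (Matrix.single 2 1 1))
    (act (Matrix.single 2 0 1)) (fun x y => LinearMap.range (π x y)) where
  he3 v := by
    rw [← R.lie]; congr 2
    simp [Matrix.single_mul_single_same, Matrix.single_mul_single_of_ne]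
  hf3 v := by
    rw [← R.lie]; congr 2
    simp [Matrix.single_mul_single_same, Matrix.single_mul_single_of_ne]
  e1e3 v := by
    rw [← sub_eq_zero, ← R.lie]
    simp [Matrix.single_mul_single_same, Matrix.single_mul_single_of_ne]
  e2e3 v := by
    rw [← sub_eq_zero, ← R.lie]
    simp [Matrix.single_mul_single_same, Matrix.single_mul_single_of_ne]
  f1f3 v := by
    rw [← sub_eq_zero, ← R.lie]
    simp [Matrix.single_mul_single_same, Matrix.single_mul_single_of_ne]
  f2f3 v := by
    rw [← sub_eq_zero, ← R.lie]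
    simp [Matrix.single_mul_single_same, Matrix.single_mul_single_of_ne]
  e1f2 v := by
    rw [← sub_eq_zero, ← R.lie]
    simp [Matrix.single_mul_single_same, Matrix.single_mul_single_of_ne]
  e2f1 v := by
    rw [← sub_eq_zero, ← R.lie]
    simp [Matrix.single_mul_single_same, Matrix.single_mul_single_of_ne]
  e1f1 x y v hv := by
    rw [← sub_eq_iff_eq_add', ← R.lie]
    have := R.hw 0 x y v
    rw [R.fixed hv] at this
    rw [← show hmat k 0 = Matrix.single 0 1 1 * Matrix.single 1 0 1 -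
      Matrix.single 1 0 1 * Matrix.single 0 1 1 by
        simp [hmat, Matrix.single_mul_single_same, Matrix.single_mul_single_of_ne]]
    exact this
  e2f2 x y v hv := by
    rw [← sub_eq_iff_eq_add', ← R.lie]
    have := R.hw 1 x y v
    rw [R.fixed hv] at this
    rw [← show hmat k 1 = Matrix.single 1 2 1 * Matrix.single 2 1 1 -
      Matrix.single 2 1 1 * Matrix.single 1 2 1 by
        simp [hmat, Matrix.single_mul_single_same, Matrix.single_mul_single_of_ne]]
    exact this
  We1 x y v hv := by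
    rw [← R.fixed hv, R.e1]
    exact ⟨_, rfl⟩
  We2 x y v hv := by
    rw [← R.fixed hv, R.e2]
    exact ⟨_, rfl⟩
  Wf1 x y v hv := by
    rw [← R.fixed hv, R.f1]
    exact ⟨_, rfl⟩
  Wf2 x y v hv := by
    rw [← R.fixed hv, R.f2]
    exact ⟨_, rfl⟩
  fd := R.fd
  bd := by
    obtain ⟨N, hN⟩ := R.bd
    refine ⟨N, fun x y h => ?_⟩
    rw [hN x y h, LinearMap.range_zero]

omit R in
variable (act) in
/-- the dual representation, twisted by the transposition -/
def dact : M3 k →ₗ[k] (Dual k M →ₗ[k] Dual k M) where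
  toFun X := (act Xᵀ).dualMap
  map_add' X Y := by
    ext ξ v
    simp [LinearMap.dualMap_apply]
  map_smul' c X := by
    ext ξ v
    simp [LinearMap.dualMap_apply]

omit R in
lemma dact_apply (X : M3 k) (ξ : Dual k M) (v : M) : dact act X ξ v = ξ (act Xᵀ v) := rfl

omit R in
lemma transpose_hmat (j : Fin 2) : (hmat k j)ᵀ = hmat k j := by
  fin_cases j <;> simp [hmat, Matrix.transpose_single]

/-- the dual of a representation -/
lemma dual : Rep3 (dact act) (fun x y => (π x y).dualMap) where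
  lie X Y ξ := by
    ext v
    rw [dact_apply, LinearMap.sub_apply, dact_apply, dact_apply, dact_apply, dact_apply, ← map_sub,
      Matrix.transpose_sub, Matrix.transpose_mul, Matrix.transpose_mul, R.lie]
  idem x y ξ := by
    ext v
    simp only [LinearMap.dualMap_apply, R.idem]
  hw j x y ξ := by
    ext v
    rw [dact_apply, transpose_hmat, LinearMap.dualMap_apply, R.hwc, R.hw]
    exact map_zsmul ξ _ _
  hwc j x y ξ := by
    ext v
    rw [LinearMap.dualMap_apply, dact_apply, dact_apply, transpose_hmat, LinearMap.dualMap_apply,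
      R.hwc]
  e1 x y ξ := by
    ext v
    rw [dact_apply, LinearMap.dualMap_apply, LinearMap.dualMap_apply, dact_apply,
      Matrix.transpose_single, R.f1, add_sub_cancel_right]
  e2 x y ξ := by
    ext v
    rw [dact_apply, LinearMap.dualMap_apply, LinearMap.dualMap_apply, dact_apply,
      Matrix.transpose_single, R.f2, add_sub_cancel_right]
  f1 x y ξ := by
    ext v
    rw [dact_apply, LinearMap.dualMap_apply, LinearMap.dualMap_apply, dact_apply,
      Matrix.transpose_single, R.e1, sub_add_cancel]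
  f2 x y ξ := by
    ext v
    rw [dact_apply, LinearMap.dualMap_apply, LinearMap.dualMap_apply, dact_apply,
      Matrix.transpose_single, R.e2, sub_add_cancel]
  fd x y := by
    have := R.fd x y
    have h : LinearMap.range (π x y).dualMap ≤ LinearMap.range ((π x y).rangeRestrict.dualMap) := by
      rintro _ ⟨ξ, rfl⟩
      exact ⟨ξ ∘ₗ (LinearMap.range (π x y)).subtype, rfl⟩
    exact Submodule.finiteDimensional_of_le h
  bd := by
    obtain ⟨N, hN⟩ := R.bd
    refine ⟨N, fun x y h => ?_⟩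
    rw [hN x y h]
    ext ξ v
    simp

omit R in
lemma cas_above {a : ℤ} (ha : a = 0 ∨ a = 1) (x y : ℤ) (hx : a ≤ x) (hy : a ≤ y)
    (hxy : cas x y = cas a a) : x = a ∧ y = a := by
  unfold cas at hxy
  rcases ha with rfl | rfl
  · constructor
    · nlinarith [sq_nonneg (x - y), mul_nonneg hx hy]
    · nlinarith [sq_nonneg (x - y), mul_nonneg hx hy]
  · have h3 : 0 ≤ (x - 1) * (y - 1) := mul_nonneg (by omega) (by omega)
    constructor
    · nlinarith [sq_nonneg (x - y)]
    · nlinarith [sq_nonneg (x - y)]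

omit R in
lemma pow_comm {U V : Type*} [AddCommGroup U] [Module k U] [AddCommGroup V] [Module k V]
    (F : U →ₗ[k] V) (S : Module.End k U) (T : Module.End k V) (h : ∀ u, F (S u) = T (F u))
    (N : ℕ) (u : U) : F ((S ^ N) u) = (T ^ N) (F u) := by
  induction N generalizing u with
  | zero => rfl
  | succ N ih => rw [pow_succ, pow_succ, Module.End.mul_apply, Module.End.mul_apply, ih, h]

/-- a functional dual to a highest weight vector -/
lemma exists_functional [CharZero k] {a : ℤ} (ha : a = 0 ∨ a = 1) (v : M)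
    (hv : v ∈ LinearMap.range (π a a)) (h1 : act (Matrix.single 0 1 1) v = 0)
    (h2 : act (Matrix.single 1 2 1) v = 0) (hv0 : v ≠ 0) :
    ∃ ξ : Dual k M, ξ v = 1 ∧ (∀ m, ξ (π a a m) = ξ m) ∧
      (∀ m, ξ (act (Matrix.single 1 0 1) m) = 0) ∧
      (∀ m, ξ (act (Matrix.single 2 1 1) m) = 0) := by
  have H := R.sl3W
  have := R.fd a a
  let T : Module.End k ↥(LinearMap.range (π a a)) :=
    (casOp (act (Matrix.single 0 1 1)) (act (Matrix.single 1 2 1)) (act (Matrix.single 0 2 1))
      (act (Matrix.single 1 0 1)) (act (Matrix.single 2 1 1)) (act (Matrix.single 2 0 1)) 0).restrict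
    (fun u hu => H.casOp_mem 0 a a u hu)
  let v' : ↥(LinearMap.range (π a a)) := ⟨v, hv⟩
  have hTv : T v' = 0 := by
    apply Subtype.ext
    show casOp _ _ _ _ _ _ 0 v = 0
    rw [Sl3W.casOp_apply, H.he3, h1, h2]
    simp
  obtain ⟨N, hN⟩ := Filter.eventually_atTop.1 T.eventually_isCompl_ker_pow_range_pow
  have hcompl := hN (N + 1) (by omega)
  have hker : v' ∈ LinearMap.ker (T ^ (N + 1)) := by
    rw [LinearMap.mem_ker, pow_succ, Module.End.mul_apply, hTv, map_zero]
  have hran : v' ∉ LinearMap.range (T ^ (N + 1)) := by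
    intro hr
    have := Submodule.disjoint_def.1 hcompl.disjoint v' hker hr
    exact hv0 (congrArg Subtype.val this)
  have hq : (LinearMap.range (T ^ (N + 1))).mkQ v' ≠ 0 := by
    rw [Submodule.mkQ_apply, Ne, Submodule.Quotient.mk_eq_zero]
    exact hran
  obtain ⟨f, hf⟩ := Module.Projective.exists_dual_eq_one k hq
  have key : ∀ (x y : ℤ) (hx : a ≤ x) (hy : a ≤ y) (hne : ¬(x = a ∧ y = a)) (F : M →ₗ[k] M)
      (hF : ∀ u ∈ LinearMap.range (π x y), F u ∈ LinearMap.range (π a a))
      (hFc : ∀ u ∈ LinearMap.range (π x y), F (casOp (act (Matrix.single 0 1 1))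
        (act (Matrix.single 1 2 1)) (act (Matrix.single 0 2 1)) (act (Matrix.single 1 0 1))
        (act (Matrix.single 2 1 1)) (act (Matrix.single 2 0 1)) (cas x y - cas a a) u) =
        casOp (act (Matrix.single 0 1 1)) (act (Matrix.single 1 2 1)) (act (Matrix.single 0 2 1))
        (act (Matrix.single 1 0 1)) (act (Matrix.single 2 1 1)) (act (Matrix.single 2 0 1)) 0
        (F u)) (w : M) (hw : w ∈ LinearMap.range (π x y)),
      f ((LinearMap.range (T ^ (N + 1))).mkQ ⟨F w, hF w hw⟩) = 0 := by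
    intro x y hx hy hne F hF hFc w hw
    have := R.fd x y
    let S : Module.End k ↥(LinearMap.range (π x y)) :=
      (casOp (act (Matrix.single 0 1 1)) (act (Matrix.single 1 2 1)) (act (Matrix.single 0 2 1))
        (act (Matrix.single 1 0 1)) (act (Matrix.single 2 1 1)) (act (Matrix.single 2 0 1))
        (cas x y - cas a a)).restrict (fun u hu => H.casOp_mem _ x y u hu)
    have hS : Function.Injective S := by
      rw [← LinearMap.ker_eq_bot, LinearMap.ker_eq_bot']
      intro u hu
      exact Subtype.ext (H.casOp_inj' (cas_above ha) x y hx hy hne u u.2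
        (congrArg Subtype.val hu))
    have hS2 : Function.Surjective (S ^ (N + 1)) := by
      rw [← LinearMap.injective_iff_surjective]
      rw [Module.End.coe_pow]
      exact hS.iterate _
    obtain ⟨w', hw'⟩ := hS2 ⟨w, hw⟩
    have h3 := pow_comm (F.restrict hF) S T (fun u => Subtype.ext (hFc u.1 u.2)) (N + 1) w'
    rw [hw'] at h3
    have h4 : (⟨F w, hF w hw⟩ : ↥(LinearMap.range (π a a))) ∈ LinearMap.range (T ^ (N + 1)) :=
      ⟨_, h3.symm⟩
    rw [Submodule.mkQ_apply, (Submodule.Quotient.mk_eq_zero _).2 h4, map_zero]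
  refine ⟨f ∘ₗ (LinearMap.range (T ^ (N + 1))).mkQ ∘ₗ (π a a).rangeRestrict, ?_, ?_, ?_, ?_⟩
  · have : (π a a).rangeRestrict v = v' := Subtype.ext (R.fixed hv)
    show f ((LinearMap.range (T ^ (N + 1))).mkQ ((π a a).rangeRestrict v)) = 1
    rw [this]
    exact hf
  · intro m
    have : (π a a).rangeRestrict (π a a m) = (π a a).rangeRestrict m := Subtype.ext (R.idem a a m)
    show f ((LinearMap.range (T ^ (N + 1))).mkQ ((π a a).rangeRestrict (π a a m))) =
      f ((LinearMap.range (T ^ (N + 1))).mkQ ((π a a).rangeRestrict m))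
    rw [this]
  · intro m
    have e1 : π a a (act (Matrix.single 1 0 1) m) = act (Matrix.single 1 0 1) (π (a + 1) a m) := by
      rw [R.f1, add_sub_cancel_right]
    have h5 := key (a + 1) a (by omega) le_rfl (by omega) (act (Matrix.single 1 0 1))
      (fun u hu => by have := H.Wf1 _ _ _ hu; rwa [add_sub_cancel_right] at this)
      (fun u hu => by
        rw [H.f1_casOp _ _ _ _ hu]
        congr 1
        unfold cas; ring_nf) (π (a + 1) a m) ⟨m, rfl⟩
    have h6 : (π a a).rangeRestrict (act (Matrix.single 1 0 1) m) =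
        ⟨act (Matrix.single 1 0 1) (π (a + 1) a m), by rw [← e1]; exact ⟨_, rfl⟩⟩ :=
      Subtype.ext e1
    show f ((LinearMap.range (T ^ (N + 1))).mkQ ((π a a).rangeRestrict
      (act (Matrix.single 1 0 1) m))) = 0
    rw [h6]
    exact h5
  · intro m
    have e1 : π a a (act (Matrix.single 2 1 1) m) = act (Matrix.single 2 1 1) (π a (a + 1) m) := by
      rw [R.f2, add_sub_cancel_right]
    have h5 := key a (a + 1) le_rfl (by omega) (by omega) (act (Matrix.single 2 1 1))
      (fun u hu => by have := H.Wf2 _ _ _ hu; rwa [add_sub_cancel_right] at this)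
      (fun u hu => by
        rw [H.f2_casOp _ _ _ _ hu]
        congr 1
        unfold cas; ring_nf) (π a (a + 1) m) ⟨m, rfl⟩
    have h6 : (π a a).rangeRestrict (act (Matrix.single 2 1 1) m) =
        ⟨act (Matrix.single 2 1 1) (π a (a + 1) m), by rw [← e1]; exact ⟨_, rfl⟩⟩ :=
      Subtype.ext e1
    show f ((LinearMap.range (T ^ (N + 1))).mkQ ((π a a).rangeRestrict
      (act (Matrix.single 2 1 1) m))) = 0
    rw [h6]
    exact h5

omit R in
/-- the trace zero matrices are generated by the Chevalley generators -/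
lemma sl3_ind {P : M3 k → Prop} (hadd : ∀ X Y, P X → P Y → P (X + Y))
    (hsmul : ∀ (c : k) X, P X → P (c • X)) (hcomm : ∀ X Y, P X → P Y → P (X * Y - Y * X))
    (g1 : P (Matrix.single 0 1 1)) (g2 : P (Matrix.single 1 2 1)) (g3 : P (Matrix.single 1 0 1))
    (g4 : P (Matrix.single 2 1 1)) (X : M3 k) (hX : X 2 2 = - X 0 0 - X 1 1) : P X := by
  have e : X = X 0 1 • Matrix.single 0 1 1 + X 1 2 • Matrix.single 1 2 1
      + X 1 0 • Matrix.single 1 0 1 + X 2 1 • Matrix.single 2 1 1
      + X 0 2 • (Matrix.single 0 1 1 * Matrix.single 1 2 1 -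
          Matrix.single 1 2 1 * Matrix.single 0 1 1)
      + X 2 0 • (Matrix.single 2 1 1 * Matrix.single 1 0 1 -
          Matrix.single 1 0 1 * Matrix.single 2 1 1)
      + X 0 0 • (Matrix.single 0 1 1 * Matrix.single 1 0 1 -
          Matrix.single 1 0 1 * Matrix.single 0 1 1)
      + (X 0 0 + X 1 1) • (Matrix.single 1 2 1 * Matrix.single 2 1 1 -
          Matrix.single 2 1 1 * Matrix.single 1 2 1) := by
    ext i j
    fin_cases i <;> fin_cases j <;>
      simp [Matrix.single_apply, Matrix.mul_apply, Fin.sum_univ_three, hX]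
    ring
  rw [e]
  exact hadd _ _ (hadd _ _ (hadd _ _ (hadd _ _ (hadd _ _ (hadd _ _ (hadd _ _
      (hsmul _ _ g1) (hsmul _ _ g2)) (hsmul _ _ g3)) (hsmul _ _ g4))
      (hsmul _ _ (hcomm _ _ g1 g2))) (hsmul _ _ (hcomm _ _ g4 g3)))
      (hsmul _ _ (hcomm _ _ g1 g3))) (hsmul _ _ (hcomm _ _ g2 g4))

attribute [local instance 100] LieRing.ofAssociativeRing LieAlgebra.ofAssociativeAlgebra

/-- a highest weight vector of weight `0` spans a trivial direct summand -/
theorem trivial_summand [CharZero k] (v : M)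
    (hv : v ∈ LinearMap.range (π 0 0)) (h1 : act (Matrix.single 0 1 1) v = 0)
    (h2 : act (Matrix.single 1 2 1) v = 0) (hv0 : v ≠ 0) :
    ∃ (i : k →ₗ[k] M) (p : M →ₗ[k] k), (∀ c, p (i c) = c) ∧
      (∀ (X : sl3 k) c, act X.1 (i c) = 0) ∧ (∀ (X : sl3 k) m, p (act X.1 m) = 0) := by
  obtain ⟨ξ, x1, x2, x3, x4⟩ := R.exists_functional (Or.inl rfl) v hv h1 h2 hv0
  obtain ⟨v3, v4⟩ := R.sl3W.hw0 v hv h1 h2
  have hξ : ξ ∈ LinearMap.range ((π 0 0).dualMap) := ⟨ξ, LinearMap.ext x2⟩
  obtain ⟨x5, x6⟩ := R.dual.sl3W.hw0 ξ hξ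
    (by ext m; rw [dact_apply, Matrix.transpose_single]; exact x3 m)
    (by ext m; rw [dact_apply, Matrix.transpose_single]; exact x4 m)
  refine ⟨LinearMap.toSpanSingleton k M v, ξ, ?_, ?_, ?_⟩
  · intro c
    rw [LinearMap.toSpanSingleton_apply, map_smul, x1, smul_eq_mul, mul_one]
  · intro X c
    rw [LinearMap.toSpanSingleton_apply, map_smul]
    have : act X.1 v = 0 := by
      refine sl3_ind (P := fun X => act X v = 0) ?_ ?_ ?_ h1 h2 v3 v4 X.1 (sl3_trace X)
      · intro X Y hX hY
        rw [map_add, LinearMap.add_apply, hX, hY, add_zero]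
      · intro c X hX
        rw [map_smul, LinearMap.smul_apply, hX, smul_zero]
      · intro X Y hX hY
        rw [R.lie, hX, hY, map_zero, map_zero, sub_zero]
    rw [this, smul_zero]
  · intro X
    refine sl3_ind (P := fun X => ∀ m, ξ (act X m) = 0) ?_ ?_ ?_ ?_ ?_ x3 x4 X.1 (sl3_trace X)
    · intro X Y hX hY m
      rw [map_add, LinearMap.add_apply, map_add, hX, hY, add_zero]
    · intro c X hX m
      rw [map_smul, LinearMap.smul_apply, map_smul, hX, smul_zero]
    · intro X Y hX hY m
      rw [R.lie, map_sub, hX, hY, sub_zero]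
    · intro m
      have := LinearMap.congr_fun x5 m
      rwa [dact_apply, Matrix.transpose_single] at this
    · intro m
      have := LinearMap.congr_fun x6 m
      rwa [dact_apply, Matrix.transpose_single] at this

omit R in
/-- the traceless part of a matrix unit, as an element of `sl_3` -/
def dvE (k : Type*) [Field k] [CharZero k] (r s : Fin 3) : sl3 k :=
  ⟨dv (Matrix.single r s (1 : k)), trace_dv _⟩

omit R in
lemma sum_dvE [CharZero k] (Y : sl3 k) : ∑ r, ∑ s, Y.1 r s • dvE k r s = Y := by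
  apply Subtype.ext
  have h : ((∑ r, ∑ s, Y.1 r s • dvE k r s : sl3 k)).1 =
      ∑ r, ∑ s, Y.1 r s • dv (Matrix.single r s (1 : k)) := by
    simp only [AddSubmonoidClass.coe_finsetSum]
    rfl
  rw [h]
  have h2 : ∑ r, ∑ s, Y.1 r s • dv (Matrix.single r s (1 : k)) = dv Y.1 := by
    ext i j
    simp only [Fin.sum_univ_three, dv, trace_eq, Matrix.single_apply, Matrix.add_apply,
      Matrix.smul_apply, Matrix.sub_apply, smul_eq_mul]
    fin_cases i <;> fin_cases j <;> simp <;> ring
  rw [h2, dv_of_trace _ Y.2]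

omit R in
lemma sum_dvE_diag [CharZero k] : ∑ r, dvE k r r = 0 := by
  apply Subtype.ext
  have h : ((∑ r, dvE k r r : sl3 k)).1 = ∑ r, dv (Matrix.single r r (1 : k)) := by
    simp only [AddSubmonoidClass.coe_finsetSum]
    rfl
  rw [h]
  ext i j
  simp only [Fin.sum_univ_three, dv, trace_eq, Matrix.single_apply, Matrix.add_apply,
      Matrix.smul_apply, Matrix.sub_apply, smul_eq_mul]
  fin_cases i <;> fin_cases j <;> simp <;> ring

omit R in
/-- the off-diagonal matrix units in `sl_3` -/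
def uE (k : Type*) [Field k] (r s : Fin 3) (h : r ≠ s) : sl3 k :=
  ⟨Matrix.single r s (1 : k), Matrix.trace_single_eq_of_ne r s 1 h⟩

omit R in
/-- an ideal of `sl_3` which contains `E_13` is everything -/
lemma ideal_top [CharZero k] (K : Submodule k (sl3 k)) (hK : ∀ X Y : sl3 k, Y ∈ K → ⁅X, Y⁆ ∈ K)
    (h0 : uE k 0 2 (by decide) ∈ K) (Y : sl3 k) : Y ∈ K := by
  have hbr : ∀ X Y : sl3 k, (⁅X, Y⁆ : sl3 k).1 = X.1 * Y.1 - Y.1 * X.1 := fun _ _ => rfl
  have e12 : uE k 1 2 (by decide) ∈ K := by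
    have := hK (uE k 1 0 (by decide)) _ h0
    convert this using 1
    apply Subtype.ext
    rw [hbr]
    simp [uE, Matrix.single_mul_single_same, Matrix.single_mul_single_of_ne]
  have e01 : uE k 0 1 (by decide) ∈ K := by
    have := K.neg_mem (hK (uE k 2 1 (by decide)) _ h0)
    convert this using 1
    apply Subtype.ext
    show _ = -(⁅_, _⁆ : sl3 k).1
    rw [hbr]
    simp [uE, Matrix.single_mul_single_same, Matrix.single_mul_single_of_ne]
  have h1 : (⁅uE k 1 0 (by decide), uE k 0 1 (by decide)⁆ : sl3 k) ∈ K := hK _ _ e01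
  have h2 : (⁅uE k 2 1 (by decide), uE k 1 2 (by decide)⁆ : sl3 k) ∈ K := hK _ _ e12
  have e10 : uE k 1 0 (by decide) ∈ K := by
    have := K.smul_mem (-(1 / 2 : k)) (hK (uE k 1 0 (by decide)) _ h1)
    convert this using 1
    apply Subtype.ext
    show _ = -(1 / 2 : k) • (⁅_, _⁆ : sl3 k).1
    rw [hbr, hbr]
    simp only [uE]
    ext i j
    fin_cases i <;> fin_cases j <;> simp [Matrix.single_apply, Matrix.mul_apply,
      Fin.sum_univ_three] <;> norm_num
  have e21 : uE k 2 1 (by decide) ∈ K := by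
    have := K.smul_mem (-(1 / 2 : k)) (hK (uE k 2 1 (by decide)) _ h2)
    convert this using 1
    apply Subtype.ext
    show _ = -(1 / 2 : k) • (⁅_, _⁆ : sl3 k).1
    rw [hbr, hbr]
    simp only [uE]
    ext i j
    fin_cases i <;> fin_cases j <;> simp [Matrix.single_apply, Matrix.mul_apply,
      Fin.sum_univ_three] <;> norm_num
  have e20 : uE k 2 0 (by decide) ∈ K := by
    have := hK (uE k 2 1 (by decide)) _ e10
    convert this using 1
    apply Subtype.ext
    rw [hbr]
    simp [uE, Matrix.single_mul_single_same, Matrix.single_mul_single_of_ne]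
  have e : Y = Y.1 0 1 • uE k 0 1 (by decide) + Y.1 0 2 • uE k 0 2 (by decide)
      + Y.1 1 0 • uE k 1 0 (by decide) + Y.1 1 2 • uE k 1 2 (by decide)
      + Y.1 2 0 • uE k 2 0 (by decide) + Y.1 2 1 • uE k 2 1 (by decide)
      - Y.1 0 0 • ⁅uE k 1 0 (by decide), uE k 0 1 (by decide)⁆
      - (Y.1 0 0 + Y.1 1 1) • ⁅uE k 2 1 (by decide), uE k 1 2 (by decide)⁆ := by
    apply Subtype.ext
    show Y.1 = Y.1 0 1 • (uE k 0 1 (by decide)).1 + Y.1 0 2 • (uE k 0 2 (by decide)).1
      + Y.1 1 0 • (uE k 1 0 (by decide)).1 + Y.1 1 2 • (uE k 1 2 (by decide)).1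
      + Y.1 2 0 • (uE k 2 0 (by decide)).1 + Y.1 2 1 • (uE k 2 1 (by decide)).1
      - Y.1 0 0 • (⁅uE k 1 0 (by decide), uE k 0 1 (by decide)⁆ : sl3 k).1
      - (Y.1 0 0 + Y.1 1 1) • (⁅uE k 2 1 (by decide), uE k 1 2 (by decide)⁆ : sl3 k).1
    rw [hbr, hbr]
    simp only [uE]
    have h22 := sl3_trace Y
    ext i j
    fin_cases i <;> fin_cases j <;>
      simp [Matrix.single_apply, Matrix.mul_apply, Fin.sum_univ_three, h22]
    ring
  rw [e]
  exact K.sub_mem (K.sub_mem (K.add_mem (K.add_mem (K.add_mem (K.add_mem (K.add_mem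
    (K.smul_mem _ e01) (K.smul_mem _ h0)) (K.smul_mem _ e10)) (K.smul_mem _ e12))
    (K.smul_mem _ e20)) (K.smul_mem _ e21)) (K.smul_mem _ h1)) (K.smul_mem _ h2)

/-- a highest weight vector of weight `α₁ + α₂` generates a direct summand isomorphic to `sl_3` -/
theorem adjoint_summand [CharZero k] (v : M)
    (hv : v ∈ LinearMap.range (π 1 1)) (h1 : act (Matrix.single 0 1 1) v = 0)
    (h2 : act (Matrix.single 1 2 1) v = 0) (hv0 : v ≠ 0) :
    ∃ (i : sl3 k →ₗ[k] M) (p : M →ₗ[k] sl3 k), (∀ Y, p (i Y) = Y) ∧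
      (∀ X Y : sl3 k, act X.1 (i Y) = i ⁅X, Y⁆) ∧
      (∀ (X : sl3 k) m, p (act X.1 m) = ⁅X, p m⁆) := by
  obtain ⟨ξ, x1, x2, x3, x4⟩ := R.exists_functional (Or.inr rfl) v hv h1 h2 hv0
  have hξ : ξ ∈ LinearMap.range ((π 1 1).dualMap) := ⟨ξ, LinearMap.ext x2⟩
  have hξ0 : ξ ≠ 0 := by
    rintro rfl
    rw [LinearMap.zero_apply] at x1
    exact zero_ne_one x1
  obtain ⟨i, hi1, hi2, hi3⟩ := exists_emb act R.lie _ R.sl3W v hv h1 h2 hv0
  obtain ⟨j, hj1, hj2, hj3⟩ := exists_emb (dact act) R.dual.lie _ R.dual.sl3W ξ hξ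
    (by ext m; rw [dact_apply, Matrix.transpose_single]; exact x3 m)
    (by ext m; rw [dact_apply, Matrix.transpose_single]; exact x4 m) hξ0
  -- the retraction
  have hjm : ∀ (Y : sl3 k) (m : M), j Y m = ∑ r, ∑ s, Y.1 r s * j (dvE k r s) m := by
    intro Y m
    nth_rewrite 1 [← sum_dvE Y]
    simp only [map_sum, map_smul, LinearMap.sum_apply, LinearMap.smul_apply, smul_eq_mul]
  let p : M →ₗ[k] sl3 k :=
    { toFun := fun m => ⟨Matrix.of fun r s => j (dvE k r s) m, by
        have h0 : ∑ r : Fin 3, j (dvE k r r) m = 0 := by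
          have : ∑ r : Fin 3, j (dvE k r r) m = (j (∑ r : Fin 3, dvE k r r)) m := by
            rw [map_sum, LinearMap.sum_apply]
          rw [this, sum_dvE_diag, map_zero, LinearMap.zero_apply]
        exact h0⟩
      map_add' := fun m m' => Subtype.ext (by ext r s; exact map_add (j (dvE k r s)) m m')
      map_smul' := fun c m => Subtype.ext (by ext r s; exact map_smul (j (dvE k r s)) c m) }
  have hp : ∀ m r s, (p m).1 r s = j (dvE k r s) m := fun m r s => rfl
  have hpe : ∀ (X : sl3 k) m, p (act X.1 m) = ⁅X, p m⁆ := by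
    intro X m
    apply Subtype.ext
    ext r s
    rw [hp]
    have t1 : (X.1ᵀ).trace = 0 := by rw [Matrix.trace_transpose]; exact X.2
    have e1 : j (dvE k r s) (act X.1 m) = j ⁅(⟨X.1ᵀ, t1⟩ : sl3 k), dvE k r s⁆ m := by
      rw [← hj2, dact_apply, Matrix.transpose_transpose]
    have e2 : (⁅(⟨X.1ᵀ, t1⟩ : sl3 k), dvE k r s⁆ : sl3 k).1 =
        X.1ᵀ * Matrix.single r s 1 - Matrix.single r s 1 * X.1ᵀ := by
      rw [← dv_comm X.1ᵀ]
      rfl
    have e3 : (⁅X, p m⁆ : sl3 k).1 = X.1 * (p m).1 - (p m).1 * X.1 := rfl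
    rw [e1, hjm, e2, e3]
    simp only [Matrix.sub_apply, Matrix.mul_apply, hp, Matrix.transpose_apply, Fin.sum_univ_three,
      Matrix.single_apply]
    fin_cases r <;> fin_cases s <;> simp <;> ring
  have hpv : p v = uE k 0 2 (by decide) := by
    have q1 := hpe (uE k 0 1 (by decide)) v
    have q2 := hpe (uE k 1 2 (by decide)) v
    have q1' : (0 : M3 k) = Matrix.single 0 1 1 * (p v).1 - (p v).1 * Matrix.single 0 1 1 := by
      have : act (uE k 0 1 (by decide)).1 v = 0 := h1
      rw [this, map_zero] at q1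
      exact congrArg Subtype.val q1
    have q2' : (0 : M3 k) = Matrix.single 1 2 1 * (p v).1 - (p v).1 * Matrix.single 1 2 1 := by
      have : act (uE k 1 2 (by decide)).1 v = 0 := h2
      rw [this, map_zero] at q2
      exact congrArg Subtype.val q2
    have z02 : (p v).1 0 2 = 1 := by
      rw [hp, hj3 (dvE k 0 2) (dv_of_trace _ (Matrix.trace_single_eq_of_ne 0 2 1 (by decide))), x1]
    have a00 := congrFun (congrFun q1' 0) 0
    have a01 := congrFun (congrFun q1' 0) 1
    have a02 := congrFun (congrFun q1' 0) 2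
    have a21 := congrFun (congrFun q1' 2) 1
    have b02 := congrFun (congrFun q2' 0) 2
    have b10 := congrFun (congrFun q2' 1) 0
    have b11 := congrFun (congrFun q2' 1) 1
    have b12 := congrFun (congrFun q2' 1) 2
    simp [Matrix.mul_apply, Fin.sum_univ_three, Matrix.single_apply] at a00 a01 a02 a21 b02 b10 b11 b12
    have h22 := sl3_trace (p v)
    have a01' : (p v).1 1 1 = (p v).1 0 0 := by linear_combination -a01
    have b12' : (p v).1 2 2 = (p v).1 1 1 := by linear_combination -b12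
    have z00 : (p v).1 0 0 = 0 := by
      have h3 : 3 * (p v).1 0 0 = 0 := by
        linear_combination h22 - b12' - 2 * a01'
      simpa using h3
    rw [z00] at a01'
    rw [a01'] at b12'
    apply Subtype.ext
    ext r s
    fin_cases r <;> fin_cases s <;>
      simp [uE, Matrix.single_apply, z00, a01', b12', z02] <;> first | exact a00 | exact a02 | exact a21 | exact b02 | exact b11 | exact b10 | exact a00.symm | exact a02.symm | exact a21.symm | exact b02.symm | exact b11.symm
  refine ⟨i, p, ?_, hi2, hpe⟩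
  have hK : ∀ Y, Y ∈ LinearMap.ker (p ∘ₗ i - LinearMap.id) := by
    refine ideal_top _ ?_ ?_
    · intro X Y hY
      have hY : p (i Y) - Y = 0 := hY
      show p (i ⁅X, Y⁆) - ⁅X, Y⁆ = 0
      rw [← hi2, hpe, sub_eq_zero.1 hY, sub_self]
    · show p (i (uE k 0 2 (by decide))) - uE k 0 2 (by decide) = 0
      rw [hi3 (uE k 0 2 (by decide)) rfl, hpv, sub_self]
  intro Y
  have : p (i Y) - Y = 0 := hK Y
  exact sub_eq_zero.1 this

end Rep3

end Pool.Agent.L7h64.ABG
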