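import Pool.Agent.L7h64.ABGSl3

/-!
# Highest weight vectors of weight 0 and `α₁ + α₂`
-/

set_option autoImplicit false
set_option linter.unusedSimpArgs false
set_option linter.unusedSectionVars false

namespace Pool.Agent.L7h64.ABG

open Module

/-- a primitive vector of negative weight in a locally finite `sl₂`-module vanishes -/
lemma prim_zero {k M : Type*} [Field k] [CharZero k] [AddCommGroup M] [Module k M]
    (e f : M →ₗ[k] M) (U : ℕ → Submodule k M) (m : ℤ) (hm : m < 0)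
    (hf : ∀ j, ∀ u ∈ U j, f u ∈ U (j + 1))
    (hef : ∀ j : ℕ, ∀ u ∈ U j, e (f u) = f (e u) + (m - 2 * j) • u)
    (hN : ∃ N, U N = ⊥) (u : M) (hu : u ∈ U 0) (he : e u = 0) : u = 0 := by
  obtain ⟨N, hN⟩ := hN
  have h1 : ∀ j : ℕ, (f ^ j) u ∈ U j := by
    intro j
    induction j with
    | zero => exact hu
    | succ j ih => rw [pow_succ']; exact hf j _ ih
  have h2 : ∀ j : ℕ, e ((f ^ (j + 1)) u) = ((j + 1 : ℤ) * (m - j)) • (f ^ j) u := by
    intro j
    induction j with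
    | zero =>
      rw [zero_add, pow_one, hef 0 u hu, he, map_zero, zero_add]
      simp
    | succ j ih =>
      rw [pow_succ' f (j + 1), Module.End.mul_apply, hef _ _ (h1 (j + 1)), ih, map_zsmul]
      have : f ((f ^ j) u) = (f ^ (j + 1)) u := by rw [pow_succ', Module.End.mul_apply]
      rw [this]
      push_cast
      module
  by_contra hu0
  have h3 : ∀ j : ℕ, (f ^ j) u ≠ 0 := by
    intro j
    induction j with
    | zero => exact hu0
    | succ j ih =>
      intro h0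
      have h4 := h2 j
      rw [h0, map_zero] at h4
      refine ih (zsmul_zero (k := k) h4.symm ?_)
      have : (j : ℤ) + 1 ≠ 0 := by positivity
      have : m - j ≠ 0 := by have : (0 : ℤ) ≤ j := by positivity
                             omega
      exact mul_ne_zero (by positivity) this
  refine h3 N ?_
  have := h1 N
  rw [hN] at this
  exact (Submodule.mem_bot k).1 this

namespace Sl3W

variable {k : Type*} {M : Type*} [Field k] [CharZero k] [AddCommGroup M] [Module k M]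
    {e1 e2 e3 f1 f2 f3 : M →ₗ[k] M} {W : ℤ → ℤ → Submodule k M}
    (H : Sl3W k e1 e2 e3 f1 f2 f3 W)

include H

lemma prim1 (x y : ℤ) (hxy : 2 * x - y < 0) (u : M) (hu : u ∈ W x y) (he : e1 u = 0) : u = 0 := by
  obtain ⟨N, hN⟩ := H.bd
  refine prim_zero e1 f1 (fun j => W (x - j) y) (2 * x - y) hxy ?_ ?_ ?_ u (by simpa using hu) he
  · intro j v hv
    have := H.Wf1 _ _ _ hv
    rw [show x - (j : ℤ) - 1 = x - ((j + 1 : ℕ) : ℤ) by push_cast; ring] at this
    exact this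
  · intro j v hv
    rw [H.e1f1 _ _ _ hv]
    module
  · refine ⟨(N + x + 1).toNat, hN _ _ (Or.inl ?_)⟩
    have h1 := Int.self_le_toNat (N + x + 1)
    have h2 := neg_abs_le (x - ((N + x + 1).toNat : ℤ))
    omega

lemma prim2 (x y : ℤ) (hxy : 2 * y - x < 0) (u : M) (hu : u ∈ W x y) (he : e2 u = 0) : u = 0 := by
  obtain ⟨N, hN⟩ := H.bd
  refine prim_zero e2 f2 (fun j => W x (y - j)) (2 * y - x) hxy ?_ ?_ ?_ u (by simpa using hu) he
  · intro j v hv
    have := H.Wf2 _ _ _ hv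
    rw [show y - (j : ℤ) - 1 = y - ((j + 1 : ℕ) : ℤ) by push_cast; ring] at this
    exact this
  · intro j v hv
    rw [H.e2f2 _ _ _ hv]
    module
  · refine ⟨(N + y + 1).toNat, hN _ _ (Or.inr ?_)⟩
    have h1 := Int.self_le_toNat (N + y + 1)
    have h2 := neg_abs_le (y - ((N + y + 1).toNat : ℤ))
    omega

/-- the Casimir operator minus its value at `(a, b)` is injective on the weight spaces strictly
above `(a, b)` -/
lemma casOp_inj' {a b : ℤ} (hab : ∀ x y : ℤ, a ≤ x → b ≤ y → cas x y = cas a b → x = a ∧ y = b)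
    (x y : ℤ) (hx : a ≤ x) (hy : b ≤ y) (hne : ¬(x = a ∧ y = b))
    (v : M) (hv : v ∈ W x y) (h0 : casOp e1 e2 e3 f1 f2 f3 (cas x y - cas a b) v = 0) : v = 0 := by
  obtain ⟨N, hN⟩ := H.bd
  obtain ⟨m, hm⟩ : ∃ m : ℕ, (N - x) + (N - y) < (m : ℤ) := ⟨((N - x) + (N - y) + 1).toNat, by
    have := Int.self_le_toNat ((N - x) + (N - y) + 1)
    omega⟩
  induction m generalizing x y v with
  | zero =>
    have hc : (N : ℤ) < |x| ∨ (N : ℤ) < |y| := by
      by_contra hc
      push Not at hc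
      have h1 := (abs_le.1 hc.1).2
      have h2 := (abs_le.1 hc.2).2
      push_cast at hm
      omega
    rw [hN x y hc] at hv
    exact (Submodule.mem_bot k).1 hv
  | succ m ih =>
    have g1 : e1 v = 0 := by
      refine ih (x + 1) y (by omega) hy (by omega) (e1 v) (H.We1 _ _ _ hv) ?_
        (by push_cast at hm ⊢; omega)
      have := H.e1_casOp _ _ _ _ hv ▸ congrArg e1 h0
      rw [map_zero] at this
      rw [← this]
      congr 1
      unfold cas; ring_nf
    have g2 : e2 v = 0 := by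
      refine ih x (y + 1) hx (by omega) (by omega) (e2 v) (H.We2 _ _ _ hv) ?_
        (by push_cast at hm ⊢; omega)
      have := H.e2_casOp _ _ _ _ hv ▸ congrArg e2 h0
      rw [map_zero] at this
      rw [← this]
      congr 1
      unfold cas; ring_nf
    have g3 : e3 v = 0 := by rw [H.he3, g1, g2, map_zero, map_zero, sub_zero]
    rw [casOp_apply, g1, g2, g3, map_zero, map_zero, map_zero, add_zero, zero_add, zero_add] at h0
    by_contra hv0
    have h3 : cas x y - cas a b = 0 := by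
      by_contra h4
      exact hv0 (zsmul_zero (k := k) h0 h4)
    exact hne (hab x y hx hy (sub_eq_zero.1 h3))

omit [CharZero k] in
lemma f1_casOp (c : ℤ) (x y : ℤ) (v : M) (hv : v ∈ W x y) :
    f1 (casOp e1 e2 e3 f1 f2 f3 c v) = casOp e1 e2 e3 f1 f2 f3 (c - 2 * x + y) (f1 v) := by
  rw [casOp_apply, casOp_apply, map_add, map_add, map_add, H.e1f1 _ _ _ hv, H.e2f1,
    H.e3f1 _ _ _ hv, map_zsmul, map_add, map_sub, map_zsmul, H.f1f3, H.hf3 (e2 v)]
  module

omit [CharZero k] in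
lemma f2_casOp (c : ℤ) (x y : ℤ) (v : M) (hv : v ∈ W x y) :
    f2 (casOp e1 e2 e3 f1 f2 f3 c v) = casOp e1 e2 e3 f1 f2 f3 (c - 2 * y + x) (f2 v) := by
  rw [casOp_apply, casOp_apply, map_add, map_add, map_add, H.e2f2 _ _ _ hv, H.e1f2,
    H.e3f2 _ _ _ hv, map_zsmul, map_add, map_add, map_zsmul, H.f2f3, H.hf3 (e1 v)]
  module

/-- a highest weight vector of weight `0` is killed by the `f_i` -/
lemma hw0 (v : M) (hv : v ∈ W 0 0) (h1 : e1 v = 0) (h2 : e2 v = 0) : f1 v = 0 ∧ f2 v = 0 := by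
  constructor
  · refine H.prim1 (-1) 0 (by norm_num) _ (by simpa using H.Wf1 _ _ _ hv) ?_
    rw [H.e1f1 _ _ _ hv, h1]; simp
  · refine H.prim2 0 (-1) (by norm_num) _ (by simpa using H.Wf2 _ _ _ hv) ?_
    rw [H.e2f2 _ _ _ hv, h2]; simp

/-- a highest weight vector of weight `α₁ + α₂` is killed by the `f_i ^ 2` -/
lemma hw1 (v : M) (hv : v ∈ W 1 1) (h1 : e1 v = 0) (h2 : e2 v = 0) :
    f1 (f1 v) = 0 ∧ f2 (f2 v) = 0 := by
  have m1 := H.Wf1 _ _ _ hv
  have m2 := H.Wf2 _ _ _ hv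
  rw [sub_self] at m1 m2
  constructor
  · refine H.prim1 (-1) 1 (by norm_num) _ (by simpa using H.Wf1 _ _ _ m1) ?_
    rw [H.e1f1 _ _ _ m1, H.e1f1 _ _ _ hv, h1]; simp
  · refine H.prim2 1 (-1) (by norm_num) _ (by simpa using H.Wf2 _ _ _ m2) ?_
    rw [H.e2f2 _ _ _ m2, H.e2f2 _ _ _ hv, h2]; simp

/-- the linear map `sl_3 → M` attached to a highest weight vector `v` of weight `α₁ + α₂` -/
noncomputable def _root_.Pool.Agent.L7h64.ABG.embFun {k : Type*} {M : Type*} [Field k]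
    [AddCommGroup M] [Module k M] (f1 f2 : M →ₗ[k] M) (v : M) :
    Matrix (Fin 3) (Fin 3) k →ₗ[k] M where
  toFun Y := Y 0 2 • v + Y 1 2 • f1 v - Y 0 1 • f2 v + Y 0 0 • f1 (f2 v)
    - (Y 0 0 + Y 1 1) • f2 (f1 v) + (1 / 2 * Y 1 0) • f1 (f1 (f2 v))
    - (1 / 2 * Y 2 1) • f2 (f2 (f1 v)) + (1 / 2 * Y 2 0) • f1 (f2 (f2 (f1 v)))
  map_add' Y Z := by
    simp only [Matrix.add_apply]
    module
  map_smul' c Y := by
    simp only [Matrix.smul_apply, smul_eq_mul, RingHom.id_apply]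
    module

omit H [CharZero k] in
lemma embFun_apply (v : M) (Y : Matrix (Fin 3) (Fin 3) k) : embFun f1 f2 v Y =
    Y 0 2 • v + Y 1 2 • f1 v - Y 0 1 • f2 v + Y 0 0 • f1 (f2 v)
    - (Y 0 0 + Y 1 1) • f2 (f1 v) + (1 / 2 * Y 1 0) • f1 (f1 (f2 v))
    - (1 / 2 * Y 2 1) • f2 (f2 (f1 v)) + (1 / 2 * Y 2 0) • f1 (f2 (f2 (f1 v))) := rfl

omit [CharZero k] in
lemma serre1 (w : M) : f1 (f1 (f2 w)) = (2 : k) • f1 (f2 (f1 w)) - f2 (f1 (f1 w)) := by
  have h := H.f1f3 w
  rw [H.hf3 w, H.hf3 (f1 w), map_sub] at h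
  linear_combination (norm := module) -h

omit [CharZero k] in
lemma serre2 (w : M) : f2 (f2 (f1 w)) = (2 : k) • f2 (f1 (f2 w)) - f1 (f2 (f2 w)) := by
  have h := H.f2f3 w
  rw [H.hf3 w, H.hf3 (f2 w), map_sub] at h
  linear_combination (norm := module) h

/-- the relations between the vectors obtained from a highest weight vector of weight
`α₁ + α₂` -/
lemma emb_facts (v : M) (hv : v ∈ W 1 1) (h1 : e1 v = 0) (h2 : e2 v = 0) :
    f1 (f1 v) = 0 ∧ f2 (f2 v) = 0 ∧
    f1 (f2 (f1 v)) = (1 / 2 : k) • f1 (f1 (f2 v)) ∧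
    f2 (f1 (f2 v)) = (1 / 2 : k) • f2 (f2 (f1 v)) ∧
    f1 (f1 (f1 (f2 v))) = 0 ∧ f2 (f2 (f2 (f1 v))) = 0 ∧
    f2 (f1 (f1 (f2 v))) = f1 (f2 (f2 (f1 v))) ∧
    f1 (f1 (f2 (f2 (f1 v)))) = 0 ∧ f2 (f1 (f2 (f2 (f1 v)))) = 0 ∧
    e1 (f1 v) = v ∧ e1 (f2 v) = 0 ∧ e1 (f1 (f2 v)) = (2 : k) • f2 v ∧ e1 (f2 (f1 v)) = f2 v ∧
    e1 (f1 (f1 (f2 v))) = (2 : k) • f1 (f2 v) ∧ e1 (f2 (f2 (f1 v))) = 0 ∧
    e1 (f1 (f2 (f2 (f1 v)))) = f2 (f2 (f1 v)) ∧
    e2 (f1 v) = 0 ∧ e2 (f2 v) = v ∧ e2 (f1 (f2 v)) = f1 v ∧ e2 (f2 (f1 v)) = (2 : k) • f1 v ∧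
    e2 (f1 (f1 (f2 v))) = 0 ∧ e2 (f2 (f2 (f1 v))) = (2 : k) • f2 (f1 v) ∧
    e2 (f1 (f2 (f2 (f1 v)))) = f1 (f1 (f2 v)) := by
  obtain ⟨F1, F2⟩ := H.hw1 v hv h1 h2
  have wa : f1 v ∈ W 0 1 := by simpa using H.Wf1 _ _ _ hv
  have wb : f2 v ∈ W 1 0 := by simpa using H.Wf2 _ _ _ hv
  have wc : f1 (f2 v) ∈ W 0 0 := by simpa using H.Wf1 _ _ _ wb
  have wd : f2 (f1 v) ∈ W 0 0 := by simpa using H.Wf2 _ _ _ wa
  have wp : f1 (f1 (f2 v)) ∈ W (-1) 0 := by simpa using H.Wf1 _ _ _ wc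
  have wq : f2 (f2 (f1 v)) ∈ W 0 (-1) := by simpa using H.Wf2 _ _ _ wd
  have F3 : f1 (f2 (f1 v)) = (1 / 2 : k) • f1 (f1 (f2 v)) := by
    have := H.serre1 v
    rw [F1, map_zero, sub_zero] at this
    rw [this]; module
  have F4 : f2 (f1 (f2 v)) = (1 / 2 : k) • f2 (f2 (f1 v)) := by
    have := H.serre2 v
    rw [F2, map_zero, sub_zero] at this
    rw [this]; module
  have F5 : f1 (f1 (f1 (f2 v))) = 0 := by
    have := H.serre1 (f1 v)
    rw [F1, map_zero, map_zero, map_zero, smul_zero, sub_zero, F3, map_smul] at this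
    exact (smul_eq_zero.1 this).resolve_left (by norm_num)
  have F6 : f2 (f2 (f2 (f1 v))) = 0 := by
    have := H.serre2 (f2 v)
    rw [F2, map_zero, map_zero, map_zero, smul_zero, sub_zero, F4, map_smul] at this
    exact (smul_eq_zero.1 this).resolve_left (by norm_num)
  have F7 : f2 (f1 (f1 (f2 v))) = f1 (f2 (f2 (f1 v))) := by
    have := H.serre1 (f2 v)
    rw [F2, map_zero, map_zero, F4, map_smul] at this
    linear_combination (norm := module) this
  have F8 : f1 (f1 (f2 (f2 (f1 v)))) = 0 := by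
    have := H.serre1 (f1 (f2 v))
    rw [F4, F5, map_zero, sub_zero, map_smul, map_smul, F7] at this
    have h3 : (3 / 2 : k) • f1 (f1 (f2 (f2 (f1 v)))) = 0 := by
      linear_combination (norm := module) -this
    exact (smul_eq_zero.1 h3).resolve_left (by norm_num)
  have F9 : f2 (f1 (f2 (f2 (f1 v)))) = 0 := by
    have := H.serre2 (f2 (f1 v))
    rw [F3, F6, map_zero, sub_zero, map_smul, map_smul, F7] at this
    have h3 : (3 / 2 : k) • f2 (f1 (f2 (f2 (f1 v)))) = 0 := by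
      linear_combination (norm := module) -this
    exact (smul_eq_zero.1 h3).resolve_left (by norm_num)
  have G1 : e1 (f1 v) = v := by rw [H.e1f1 _ _ _ hv, h1]; simp
  have G2 : e1 (f2 v) = 0 := by rw [H.e1f2, h1, map_zero]
  have G3 : e1 (f1 (f2 v)) = (2 : k) • f2 v := by
    rw [H.e1f1 _ _ _ wb, G2, map_zero]; module
  have G4 : e1 (f2 (f1 v)) = f2 v := by rw [H.e1f2, G1]
  have G5 : e1 (f1 (f1 (f2 v))) = (2 : k) • f1 (f2 v) := by
    rw [H.e1f1 _ _ _ wc, G3, map_smul]; module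
  have G6 : e1 (f2 (f2 (f1 v))) = 0 := by rw [H.e1f2, G4, F2]
  have G7 : e1 (f1 (f2 (f2 (f1 v)))) = f2 (f2 (f1 v)) := by
    rw [H.e1f1 _ _ _ wq, G6, map_zero]; module
  have H1 : e2 (f1 v) = 0 := by rw [H.e2f1, h2, map_zero]
  have H2 : e2 (f2 v) = v := by rw [H.e2f2 _ _ _ hv, h2]; simp
  have H3 : e2 (f1 (f2 v)) = f1 v := by rw [H.e2f1, H2]
  have H4 : e2 (f2 (f1 v)) = (2 : k) • f1 v := by
    rw [H.e2f2 _ _ _ wa, H1, map_zero]; module
  have H5 : e2 (f1 (f1 (f2 v))) = 0 := by rw [H.e2f1, H3, F1]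
  have H6 : e2 (f2 (f2 (f1 v))) = (2 : k) • f2 (f1 v) := by
    rw [H.e2f2 _ _ _ wd, H4, map_smul]; module
  have H7 : e2 (f1 (f2 (f2 (f1 v)))) = f1 (f1 (f2 v)) := by
    rw [H.e2f1, H6, map_smul, F3]; module
  exact ⟨F1, F2, F3, F4, F5, F6, F7, F8, F9, G1, G2, G3, G4, G5, G6, G7, H1, H2, H3, H4, H5, H6,
    H7⟩

/-- the map is equivariant for the four Chevalley generators -/
lemma emb_equiv (v : M) (hv : v ∈ W 1 1) (h1 : e1 v = 0) (h2 : e2 v = 0)
    (Y : Matrix (Fin 3) (Fin 3) k) (hY : Y 2 2 = - Y 0 0 - Y 1 1) :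
    e1 (embFun f1 f2 v Y) = embFun f1 f2 v
      (Matrix.single 0 1 1 * Y - Y * Matrix.single 0 1 1) ∧
    e2 (embFun f1 f2 v Y) = embFun f1 f2 v
      (Matrix.single 1 2 1 * Y - Y * Matrix.single 1 2 1) ∧
    f1 (embFun f1 f2 v Y) = embFun f1 f2 v
      (Matrix.single 1 0 1 * Y - Y * Matrix.single 1 0 1) ∧
    f2 (embFun f1 f2 v Y) = embFun f1 f2 v
      (Matrix.single 2 1 1 * Y - Y * Matrix.single 2 1 1) := by
  obtain ⟨F1, F2, F3, F4, F5, F6, F7, F8, F9, G1, G2, G3, G4, G5, G6, G7, H1, H2, H3, H4, H5, H6,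
    H7⟩ := H.emb_facts v hv h1 h2
  simp only [embFun_apply, Matrix.mul_apply, Fin.sum_univ_three, Matrix.single_apply, map_add, map_sub, map_smul, F1, F2, F3, F4, F5, F6, F7, F8, F9, G1, G2,
    G3, G4, G5, G6, G7, H1, H2, H3, H4, H5, H6, H7, h1, h2, hY]
  refine ⟨?_, ?_, ?_, ?_⟩ <;> simp <;> module

/-- the map is injective on trace zero matrices -/
lemma emb_inj (v : M) (hv : v ∈ W 1 1) (h1 : e1 v = 0) (h2 : e2 v = 0) (hv0 : v ≠ 0)
    (Y : Matrix (Fin 3) (Fin 3) k) (hY : Y 2 2 = - Y 0 0 - Y 1 1)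
    (h0 : embFun f1 f2 v Y = 0) : Y = 0 := by
  obtain ⟨F1, F2, F3, F4, F5, F6, F7, F8, F9, G1, G2, G3, G4, G5, G6, G7, H1, H2, H3, H4, H5, H6,
    H7⟩ := H.emb_facts v hv h1 h2
  rw [embFun_apply] at h0
  have z : ∀ {c : k}, c • v = 0 → c = 0 := fun h => (smul_eq_zero.1 h).resolve_right hv0
  have R1 := congrArg e1 h0
  have R2 := congrArg e2 h0
  simp only [map_add, map_sub, map_smul, G1, G2, G3, G4, G5, G6, G7, h1, map_zero, smul_zero] at R1
  simp only [map_add, map_sub, map_smul, H1, H2, H3, H4, H5, H6, H7, h2, map_zero, smul_zero] at R2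
  have R11 := congrArg e1 R1
  simp only [map_add, map_sub, map_smul, G1, G2, G3, G4, G5, G6, G7, h1, map_zero, smul_zero] at R11
  have R112 := congrArg e2 R11
  simp only [map_add, map_sub, map_smul, H1, H2, H3, H4, H5, H6, H7, h2, map_zero, smul_zero]
    at R112
  have y10 : Y 1 0 = 0 := by
    have : (2 * Y 1 0) • v = 0 := by linear_combination (norm := module) R112
    have := z this
    simpa using this
  have R12 := congrArg e2 R1
  simp only [map_add, map_sub, map_smul, H1, H2, H3, H4, H5, H6, H7, h2, map_zero, smul_zero, y10]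
    at R12
  have R122 := congrArg e2 R12
  simp only [map_add, map_sub, map_smul, H1, H2, H3, H4, H5, H6, H7, h2, map_zero, smul_zero]
    at R122
  have R1221 := congrArg e1 R122
  simp only [map_add, map_sub, map_smul, G1, G2, G3, G4, G5, G6, G7, h1, map_zero, smul_zero]
    at R1221
  have y20 : Y 2 0 = 0 := by
    have : (2 * Y 2 0) • v = 0 := by linear_combination (norm := module) R1221
    have := z this
    simpa using this
  have y01 : Y 0 0 - Y 1 1 = 0 := by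
    rw [y20] at R12
    exact z (by linear_combination (norm := module) R12)
  have R21 := congrArg e1 R2
  simp only [map_add, map_sub, map_smul, G1, G2, G3, G4, G5, G6, G7, h1, map_zero, smul_zero, y20]
    at R21
  have R212 := congrArg e2 R21
  simp only [map_add, map_sub, map_smul, H1, H2, H3, H4, H5, H6, H7, h2, map_zero, smul_zero]
    at R212
  have y21 : Y 2 1 = 0 := by
    have : (-Y 2 1) • v = 0 := by linear_combination (norm := module) R212
    have := z this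
    simpa using this
  have y00 : Y 0 0 = 0 := by
    rw [y21] at R21
    have h3 : (Y 0 0 - 2 * (Y 0 0 + Y 1 1)) • v = 0 := by
      linear_combination (norm := module) R21
    have h4 := z h3
    have h5 : 3 * Y 0 0 = 0 := by linear_combination 2 * y01 - h4
    simpa using h5
  have y11 : Y 1 1 = 0 := by rw [y00] at y01; simpa using y01
  have y12 : Y 1 2 = 0 := by
    rw [y00, y11, y10, y20] at R1
    exact z (by linear_combination (norm := module) R1)
  have y01 : Y 0 1 = 0 := by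
    rw [y00, y11, y21, y20] at R2
    have : (-Y 0 1) • v = 0 := by linear_combination (norm := module) R2
    have := z this
    simpa using this
  have y02 : Y 0 2 = 0 := by
    rw [y00, y11, y21, y20, y10, y12, y01] at h0
    exact z (by linear_combination (norm := module) h0)
  have y22 : Y 2 2 = 0 := by rw [hY, y00, y11]; ring
  ext i j
  fin_cases i <;> fin_cases j <;> simp [y00, y01, y02, y10, y11, y12, y20, y21, y22]

end Sl3W

attribute [local instance 100] LieRing.ofAssociativeRing LieAlgebra.ofAssociativeAlgebra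

/-- the Lie algebra `sl_3` of the trace zero matrices of size 3 -/
abbrev sl3 (k : Type*) [Field k] : Type _ := ↥(LieAlgebra.SpecialLinear.sl (Fin 3) k)

lemma sl3_trace {k : Type*} [Field k] (X : sl3 k) :
    X.1 2 2 = - X.1 0 0 - X.1 1 1 := by
  have h : Matrix.trace X.1 = 0 := X.2
  rw [Matrix.trace, Fin.sum_univ_three] at h
  simp only [Matrix.diag_apply] at h
  linear_combination h

lemma comm_trace {k : Type*} [Field k] (X Y : Matrix (Fin 3) (Fin 3) k) :
    (X * Y - Y * X) 2 2 = - (X * Y - Y * X) 0 0 - (X * Y - Y * X) 1 1 := by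
  simp only [Matrix.sub_apply, Matrix.mul_apply, Fin.sum_univ_three]
  ring

/-- An embedding of the adjoint module from a highest weight vector of weight `α₁ + α₂`. -/
theorem exists_emb {k M : Type*} [Field k] [CharZero k] [AddCommGroup M] [Module k M]
    (act : Matrix (Fin 3) (Fin 3) k →ₗ[k] (M →ₗ[k] M))
    (hact : ∀ X Y v, act (X * Y - Y * X) v = act X (act Y v) - act Y (act X v))
    (W : ℤ → ℤ → Submodule k M)
    (H : Sl3W k (act (Matrix.single 0 1 1)) (act (Matrix.single 1 2 1)) (act (Matrix.single 0 2 1))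
      (act (Matrix.single 1 0 1)) (act (Matrix.single 2 1 1)) (act (Matrix.single 2 0 1)) W)
    (v : M) (hv : v ∈ W 1 1) (h1 : act (Matrix.single 0 1 1) v = 0)
    (h2 : act (Matrix.single 1 2 1) v = 0) (hv0 : v ≠ 0) :
    ∃ i : sl3 k →ₗ[k] M, Function.Injective i ∧
      (∀ X Y : sl3 k, act X.1 (i Y) = i ⁅X, Y⁆) ∧
      ∀ Y : sl3 k, Y.1 = Matrix.single 0 2 1 → i Y = v := by
  set F := embFun (act (Matrix.single 1 0 1)) (act (Matrix.single 2 1 1)) v with hF
  let Good : Matrix (Fin 3) (Fin 3) k → Prop := fun X => ∀ Y : Matrix (Fin 3) (Fin 3) k,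
    Y 2 2 = - Y 0 0 - Y 1 1 → act X (F Y) = F (X * Y - Y * X)
  have gadd : ∀ X X', Good X → Good X' → Good (X + X') := by
    intro X X' h h' Y hY
    rw [map_add, LinearMap.add_apply, h Y hY, h' Y hY, ← map_add]
    congr 1
    rw [add_mul, mul_add]; abel
  have gsmul : ∀ (c : k) X, Good X → Good (c • X) := by
    intro c X h Y hY
    rw [map_smul, LinearMap.smul_apply, h Y hY, ← map_smul]
    congr 1
    rw [smul_mul_assoc, mul_smul_comm, smul_sub]
  have gcomm : ∀ X X', Good X → Good X' → Good (X * X' - X' * X) := by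
    intro X X' h h' Y hY
    rw [hact, h' Y hY, h Y hY, h _ (comm_trace _ _), h' _ (comm_trace _ _), ← map_sub]
    congr 1
    noncomm_ring
  have g1 : Good (Matrix.single 0 1 1) := fun Y hY => (H.emb_equiv v hv h1 h2 Y hY).1
  have g2 : Good (Matrix.single 1 2 1) := fun Y hY => (H.emb_equiv v hv h1 h2 Y hY).2.1
  have g3 : Good (Matrix.single 1 0 1) := fun Y hY => (H.emb_equiv v hv h1 h2 Y hY).2.2.1
  have g4 : Good (Matrix.single 2 1 1) := fun Y hY => (H.emb_equiv v hv h1 h2 Y hY).2.2.2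
  have gall : ∀ X : Matrix (Fin 3) (Fin 3) k, X 2 2 = - X 0 0 - X 1 1 → Good X := by
    intro X hX
    have e : X = X 0 1 • Matrix.single 0 1 1 + X 1 2 • Matrix.single 1 2 1
      + X 1 0 • Matrix.single 1 0 1 + X 2 1 • Matrix.single 2 1 1
      + X 0 2 • (Matrix.single 0 1 1 * Matrix.single 1 2 1 -
          Matrix.single 1 2 1 * Matrix.single 0 1 1)
      + X 2 0 • (Matrix.single 2 1 1 * Matrix.single 1 0 1 -
          Matrix.single 1 0 1 * Matrix.single 2 1 1)
      + X 0 0 • (Matrix.single 0 1 1 * Matrix.single 1 0 1 -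
          Matrix.single 1 0 1 * Matrix.single 0 1 1)
      + (X 0 0 + X 1 1) • (Matrix.single 1 2 1 * Matrix.single 2 1 1 -
          Matrix.single 2 1 1 * Matrix.single 1 2 1) := by
      ext i j
      fin_cases i <;> fin_cases j <;>
        simp [Matrix.single_apply, Matrix.mul_apply, Fin.sum_univ_three, hX] <;> ring
    rw [e]
    exact gadd _ _ (gadd _ _ (gadd _ _ (gadd _ _ (gadd _ _ (gadd _ _ (gadd _ _
      (gsmul _ _ g1) (gsmul _ _ g2)) (gsmul _ _ g3)) (gsmul _ _ g4))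
      (gsmul _ _ (gcomm _ _ g1 g2))) (gsmul _ _ (gcomm _ _ g4 g3)))
      (gsmul _ _ (gcomm _ _ g1 g3))) (gsmul _ _ (gcomm _ _ g2 g4))
  refine ⟨F ∘ₗ (LieAlgebra.SpecialLinear.sl (Fin 3) k).toSubmodule.subtype, ?_, ?_, ?_⟩
  · rw [← LinearMap.ker_eq_bot, LinearMap.ker_eq_bot']
    intro Y hY
    exact Subtype.ext (H.emb_inj v hv h1 h2 hv0 Y.1 (sl3_trace Y) hY)
  · intro X Y
    exact gall X.1 (sl3_trace X) Y.1 (sl3_trace Y)
  · intro Y hY
    show embFun _ _ v Y.1 = v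
    rw [hY, Sl3W.embFun_apply]
    simp [Matrix.single_apply]

end Pool.Agent.L7h64.ABG
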