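import Pool.Agent.L7h64.ABGGrade
import Pool.Agent.L7h64.ABGEmb
import Pool.Agent.L7h64.ABGCount

/-!
# The Euler characteristic of the Chevalley-Eilenberg complex of a graded Lie algebra
-/

set_option autoImplicit false
set_option linter.unusedSimpArgs false
set_option linter.unusedSectionVars false

namespace Pool.Agent.L7h64.ABG

open Module

/-- the diagonal matrices `h_1, h_2` -/
def hmat (k : Type*) [Field k] : Fin 2 → Matrix (Fin 3) (Fin 3) k :=
  ![Matrix.single 0 0 1 - Matrix.single 1 1 1, Matrix.single 1 1 1 - Matrix.single 2 2 1]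

/-- A Lie algebra with an action of `gl_3` by derivations, a multigrading given by derivations
`E m`, and a basis `b` of homogeneous weight vectors; each homogeneous component is
finite-dimensional and the component of degree zero vanishes. -/
structure GrLie {k L I σ : Type*} [Field k] [LieRing L] [LieAlgebra k L] (b : Basis I k L)
    (deg : I → σ → ℕ) (wx wy : I → ℤ) (E : σ → L →ₗ[k] L)
    (act : Matrix (Fin 3) (Fin 3) k →ₗ[k] (L →ₗ[k] L)) : Prop where
  E_der : ∀ m (x y : L), E m ⁅x, y⁆ = ⁅E m x, y⁆ + ⁅x, E m y⁆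
  act_der : ∀ X (x y : L), act X ⁅x, y⁆ = ⁅act X x, y⁆ + ⁅x, act X y⁆
  act_lie : ∀ X Y v, act (X * Y - Y * X) v = act X (act Y v) - act Y (act X v)
  E_act : ∀ m X v, E m (act X v) = act X (E m v)
  E_b : ∀ m i, E m (b i) = (deg i m : k) • b i
  h_b : ∀ j i, act (hmat k j) (b i) =
    ((![2 * wx i - wy i, 2 * wy i - wx i] j : ℤ) : k) • b i
  deg_ne : ∀ i, deg i ≠ 0
  fin : ∀ S : σ → ℕ, {i | deg i ≤ S}.Finite

namespace GrLie

variable {k L I σ : Type*} [Field k] [LieRing L] [LieAlgebra k L] {b : Basis I k L}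
    {deg : I → σ → ℕ} {wx wy : I → ℤ} {E : σ → L →ₗ[k] L}
    {act : Matrix (Fin 3) (Fin 3) k →ₗ[k] (L →ₗ[k] L)} (G : GrLie b deg wx wy E act)

/-- the action of `gl_3` on the homology -/
noncomputable def hact (n : ℕ) :
    Matrix (Fin 3) (Fin 3) k →ₗ[k] (LieHomology k L n →ₗ[k] LieHomology k L n) where
  toFun X := homAct (act X) (G.act_der X) n
  map_add' X Y := by
    refine LinearMap.ext fun v => ?_
    obtain ⟨z, rfl⟩ := cls_surj n v
    rw [LinearMap.add_apply, homAct_cls, homAct_cls, homAct_cls, ← map_add]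
    congr 1
    apply Subtype.ext
    show exder (act (X + Y)) z.1 = exder (act X) z.1 + exder (act Y) z.1
    rw [map_add, exder_add]
  map_smul' c X := by
    refine LinearMap.ext fun v => ?_
    obtain ⟨z, rfl⟩ := cls_surj n v
    rw [RingHom.id_apply, LinearMap.smul_apply, homAct_cls, homAct_cls, ← map_smul]
    congr 1
    apply Subtype.ext
    show exder (act (c • X)) z.1 = c • exder (act X) z.1
    rw [map_smul, exder_smul]

lemma hact_cls (n : ℕ) (X : Matrix (Fin 3) (Fin 3) k) (z : cycles k L n) :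
    G.hact n X (cls n z) = cls n ⟨exder (act X) z.1, exder_mem_cycles _ (G.act_der X) n z.2⟩ := rfl

include G

lemma exder_act_lie (X Y : Matrix (Fin 3) (Fin 3) k) (ω : ExteriorAlgebra k L) :
    exder (act (X * Y - Y * X)) ω =
      exder (act X) (exder (act Y) ω) - exder (act Y) (exder (act X) ω) := by
  rw [exder_comm]
  congr 2
  ext v
  exact G.act_lie X Y v

lemma hact_lie (n : ℕ) (X Y : Matrix (Fin 3) (Fin 3) k) (v : LieHomology k L n) :
    G.hact n (X * Y - Y * X) v = G.hact n X (G.hact n Y v) - G.hact n Y (G.hact n X v) := by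
  obtain ⟨z, rfl⟩ := cls_surj n v
  rw [hact_cls, hact_cls, hact_cls, hact_cls, hact_cls, ← map_sub]
  congr 1
  apply Subtype.ext
  exact G.exder_act_lie X Y z.1

lemma exder_E_act (m : σ) (X : Matrix (Fin 3) (Fin 3) k) (ω : ExteriorAlgebra k L) :
    exder (E m) (exder (act X) ω) = exder (act X) (exder (E m) ω) := by
  rw [← sub_eq_zero, exder_comm]
  have : E m ∘ₗ act X - act X ∘ₗ E m = 0 := by
    ext v
    show E m (act X v) - act X (E m v) = 0
    rw [G.E_act, sub_self]
  rw [this, exder_zero]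

omit G in
variable (E act) in
/-- the grading operators on the exterior algebra -/
noncomputable def ops : σ ⊕ Fin 2 → (ExteriorAlgebra k L →ₗ[k] ExteriorAlgebra k L) :=
  Sum.elim (fun m => exder (E m)) (fun j => exder (act (hmat k j)))

omit G in
/-- the eigenvalues of the grading operators in degree `S` and weight `(x, y)` -/
def chi (k : Type*) [Field k] {σ : Type*} (S : σ → ℕ) (x y : ℤ) : σ ⊕ Fin 2 → k :=
  Sum.elim (fun m => (S m : k)) (fun j => ((![2 * x - y, 2 * y - x] j : ℤ) : k))

lemma chi_inj [CharZero k] {S S' : σ → ℕ} {x y x' y' : ℤ} :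
    chi k S x y = chi k S' x' y' ↔ S = S' ∧ x = x' ∧ y = y' := by
  constructor
  · intro h
    have h1 : ∀ m, S m = S' m := fun m => by
      have := congrFun h (Sum.inl m)
      simpa [chi] using this
    have h2 : 2 * x - y = 2 * x' - y' := by
      have : ((2 * x - y : ℤ) : k) = ((2 * x' - y' : ℤ) : k) := congrFun h (Sum.inr 0)
      exact Int.cast_injective this
    have h3 : 2 * y - x = 2 * y' - x' := by
      have : ((2 * y - x : ℤ) : k) = ((2 * y' - x' : ℤ) : k) := congrFun h (Sum.inr 1)
      exact Int.cast_injective this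
    exact ⟨funext h1, by omega, by omega⟩
  · rintro ⟨rfl, rfl, rfl⟩; rfl

omit G in
variable (E act) in
/-- the component of the exterior algebra of exterior degree `n`, degree `S`, weight `(x, y)` -/
noncomputable def piece (n : ℕ) (S : σ → ℕ) (x y : ℤ) : Submodule k (ExteriorAlgebra k L) :=
  ⋀[k]^n L ⊓ jeig (ops E act) (chi k S x y)

lemma mem_piece {n : ℕ} {S : σ → ℕ} {x y : ℤ} {ω : ExteriorAlgebra k L} :
    ω ∈ piece E act n S x y ↔ ω ∈ ⋀[k]^n L ∧ (∀ m, exder (E m) ω = (S m : k) • ω) ∧
      exder (act (hmat k 0)) ω = ((2 * x - y : ℤ) : k) • ω ∧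
      exder (act (hmat k 1)) ω = ((2 * y - x : ℤ) : k) • ω := by
  constructor
  · rintro ⟨h1, h2⟩
    exact ⟨h1, fun m => h2 (Sum.inl m), h2 (Sum.inr 0), h2 (Sum.inr 1)⟩
  · rintro ⟨h1, h2, h3, h4⟩
    refine ⟨h1, ?_⟩
    rintro (m | j)
    · exact h2 m
    · fin_cases j
      · exact h3
      · exact h4

/-- the differential maps pieces to pieces -/
lemma ced_piece {n : ℕ} {S : σ → ℕ} {x y : ℤ} {ω : ExteriorAlgebra k L}
    (h : ω ∈ piece E act (n + 1) S x y) : ced k L ω ∈ piece E act n S x y := by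
  rw [G.mem_piece] at h ⊢
  obtain ⟨h1, h2, h3, h4⟩ := h
  refine ⟨ced_mem n ω h1, fun m => ?_, ?_, ?_⟩
  · rw [← ced_exder _ (G.E_der m), h2, map_smul]
  · rw [← ced_exder _ (G.act_der _), h3, map_smul]
  · rw [← ced_exder _ (G.act_der _), h4, map_smul]

/-- elements of `gl_3` which are eigenvectors for the `h_j` shift the weights -/
lemma act_piece {n : ℕ} {S : σ → ℕ} {x y a c : ℤ} {X : Matrix (Fin 3) (Fin 3) k}
    (hX1 : hmat k 0 * X - X * hmat k 0 = ((2 * a - c : ℤ) : k) • X)
    (hX2 : hmat k 1 * X - X * hmat k 1 = ((2 * c - a : ℤ) : k) • X)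
    {ω : ExteriorAlgebra k L} (h : ω ∈ piece E act n S x y) :
    exder (act X) ω ∈ piece E act n S (x + a) (y + c) := by
  rw [G.mem_piece] at h ⊢
  obtain ⟨h1, h2, h3, h4⟩ := h
  refine ⟨exder_mem _ n ω h1, fun m => ?_, ?_, ?_⟩
  · rw [G.exder_E_act, h2, map_smul]
  · have e1 := G.exder_act_lie (hmat k 0) X ω
    rw [hX1, map_smul, exder_smul, h3, map_smul] at e1
    rw [eq_add_of_sub_eq e1.symm, ← add_smul]
    congr 1
    push_cast; ring
  · have e1 := G.exder_act_lie (hmat k 1) X ω
    rw [hX2, map_smul, exder_smul, h4, map_smul] at e1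
    rw [eq_add_of_sub_eq e1.symm, ← add_smul]
    congr 1
    push_cast; ring

/-! ### the basis of the exterior algebra -/

omit G in
variable (k deg wx wy) in
/-- the eigenvalues of the grading operators on the basis vector of the finite set `J` -/
noncomputable def chJ (J : Finset I) : σ ⊕ Fin 2 → k :=
  chi k (∑ j ∈ J, deg j) (∑ j ∈ J, wx j) (∑ j ∈ J, wy j)

variable [LinearOrder I]

lemma ops_basis (J : Finset I) (t : σ ⊕ Fin 2) :
    ops E act t (b.ExteriorAlgebra J) = chJ k deg wx wy J t • b.ExteriorAlgebra J := by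
  rcases t with m | j
  · show exder (E m) _ = _
    rw [exder_basis b (E m) (fun i => (deg i m : k)) (fun i => G.E_b m i)]
    congr 1
    simp [chJ, chi, Finset.sum_apply]
  · show exder (act (hmat k j)) _ = _
    rw [exder_basis b (act (hmat k j)) _ (fun i => G.h_b j i)]
    congr 1
    rw [← Int.cast_sum]
    fin_cases j <;> simp [chJ, chi, Finset.sum_sub_distrib, Finset.mul_sum]

variable [CharZero k]

/-- the projection to a component -/
lemma Pj_piece (n : ℕ) (S : σ → ℕ) (x y : ℤ) {ω : ExteriorAlgebra k L} (hω : ω ∈ ⋀[k]^n L) :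
    Pj b.ExteriorAlgebra (chJ k deg wx wy) (chi k S x y) ω ∈ piece E act n S x y := by
  refine ⟨?_, Pj_mem G.ops_basis _ ω⟩
  have h1 : exder (LinearMap.id : L →ₗ[k] L)
      (Pj b.ExteriorAlgebra (chJ k deg wx wy) (chi k S x y) ω) =
      (n : k) • (Pj b.ExteriorAlgebra (chJ k deg wx wy) (chi k S x y) ω) := by
    rw [Pj_comm G.ops_basis (exder LinearMap.id), exder_id_of_mem n ω hω, map_smul]
    rintro (m | j) v
    · rw [← sub_eq_zero]
      show exder LinearMap.id (exder (E m) v) - exder (E m) (exder LinearMap.id v) = 0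
      rw [exder_comm, LinearMap.comp_id, LinearMap.id_comp, sub_self, exder_zero]
    · rw [← sub_eq_zero]
      show exder LinearMap.id (exder (act (hmat k j)) v) -
        exder (act (hmat k j)) (exder LinearMap.id v) = 0
      rw [exder_comm, LinearMap.comp_id, LinearMap.id_comp, sub_self, exder_zero]
  exact mem_ext_of_exder_id b n _ h1

open Classical in
/-- the finite sets of indices of total degree `S` -/
noncomputable def JS (S : σ → ℕ) : Finset (Finset I) :=
  ((G.fin S).toFinset.powerset).filter (fun J => ∑ j ∈ J, deg j = S)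

lemma mem_JS {S : σ → ℕ} {J : Finset I} : J ∈ G.JS S ↔ ∑ j ∈ J, deg j = S := by
  classical
  simp only [JS, Finset.mem_filter, Finset.mem_powerset]
  rw [and_iff_right_iff_imp]
  intro h i hi
  rw [Set.Finite.mem_toFinset]
  show deg i ≤ S
  rw [← h]
  exact Finset.single_le_sum (f := deg) (fun _ _ => zero_le) hi

/-- the basis elements of a piece -/
noncomputable def JP (n : ℕ) (S : σ → ℕ) (x y : ℤ) : Finset (Finset I) :=
  (G.JS S).filter (fun J => J.card = n ∧ ∑ j ∈ J, wx j = x ∧ ∑ j ∈ J, wy j = y)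

lemma mem_JP {n : ℕ} {S : σ → ℕ} {x y : ℤ} {J : Finset I} : J ∈ G.JP n S x y ↔
    J.card = n ∧ ∑ j ∈ J, deg j = S ∧ ∑ j ∈ J, wx j = x ∧ ∑ j ∈ J, wy j = y := by
  unfold JP
  rw [Finset.mem_filter, mem_JS]
  tauto

lemma piece_eq_jeig (n : ℕ) (S : σ → ℕ) (x y : ℤ) : piece E act n S x y =
    jeig (fun t : Option (σ ⊕ Fin 2) => Option.elim t (exder LinearMap.id) (ops E act))
      (fun t => Option.elim t (n : k) (chi k S x y)) := by
  ext ω
  constructor
  · rintro ⟨h1, h2⟩
    rintro (_ | t)
    · exact exder_id_of_mem n ω h1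
    · exact h2 t
  · intro h
    exact ⟨mem_ext_of_exder_id b n ω (h none), fun t => h (some t)⟩

lemma ext_ops_basis (J : Finset I) (t : Option (σ ⊕ Fin 2)) :
    (Option.elim t (exder LinearMap.id) (ops E act) : ExteriorAlgebra k L →ₗ[k] _)
      (b.ExteriorAlgebra J) =
    (Option.elim t (J.card : k) (chJ k deg wx wy J)) • b.ExteriorAlgebra J := by
  rcases t with _ | t
  · exact exder_id_of_mem _ _ (ext_basis_mem b J)
  · exact G.ops_basis J t

lemma JP_spec (n : ℕ) (S : σ → ℕ) (x y : ℤ) (J : Finset I) : J ∈ G.JP n S x y ↔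
    (fun t : Option (σ ⊕ Fin 2) => Option.elim t (J.card : k) (chJ k deg wx wy J)) =
    (fun t => Option.elim t (n : k) (chi k S x y)) := by
  rw [mem_JP]
  constructor
  · rintro ⟨h1, h2, h3, h4⟩
    funext t
    rcases t with _ | t
    · show (J.card : k) = n
      rw [h1]
    · show chJ k deg wx wy J t = chi k S x y t
      unfold chJ
      rw [h2, h3, h4]
  · intro h
    have h1 : (J.card : k) = n := congrFun h none
    have h2 : chJ k deg wx wy J = chi k S x y := funext fun t => congrFun h (some t)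
    exact ⟨Nat.cast_injective h1, G.chi_inj.1 h2⟩

lemma finrank_piece (n : ℕ) (S : σ → ℕ) (x y : ℤ) :
    finrank k (piece E act n S x y) = (G.JP n S x y).card := by
  rw [G.piece_eq_jeig]
  exact jeig_finrank (e := b.ExteriorAlgebra) (fun J t => G.ext_ops_basis J t)
    (fun J => G.JP_spec n S x y J)

lemma fd_piece (n : ℕ) (S : σ → ℕ) (x y : ℤ) :
    FiniteDimensional k (piece E act n S x y) := by
  rw [G.piece_eq_jeig]
  exact jeig_fd (e := b.ExteriorAlgebra) (fun J t => G.ext_ops_basis J t)
    (fun J => G.JP_spec n S x y J)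

lemma piece_eq_bot (n : ℕ) (S : σ → ℕ) (x y : ℤ) (h : G.JP n S x y = ∅) :
    piece E act n S x y = ⊥ := by
  have := G.fd_piece n S x y
  rw [← Submodule.finrank_eq_zero (R := k), G.finrank_piece, h, Finset.card_empty]

/-! ### the components of the homology -/

omit G in
variable (E act) in
/-- the component of degree `S` and weight `(x, y)` of the homology `H_n(L)` -/
noncomputable def HW (n : ℕ) (S : σ → ℕ) (x y : ℤ) : Submodule k (LieHomology k L n) :=
  (Submodule.comap (cycles k L n).subtype (piece E act n S x y)).map (cls n)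

lemma mem_HW {n : ℕ} {S : σ → ℕ} {x y : ℤ} {v : LieHomology k L n} :
    v ∈ HW E act n S x y ↔ ∃ z : cycles k L n, z.1 ∈ piece E act n S x y ∧ cls n z = v := Iff.rfl

/-- boundaries in a piece are boundaries of elements of the corresponding piece -/
lemma boundary_piece (n : ℕ) (S : σ → ℕ) (x y : ℤ) :
    boundaries k L n ⊓ piece E act n S x y = (piece E act (n + 1) S x y).map (ced k L) := by
  apply le_antisymm
  · rintro _ ⟨⟨η, hη, rfl⟩, h⟩
    refine ⟨_, G.Pj_piece (n + 1) S x y hη, ?_⟩
    rw [Pj_comm G.ops_basis (ced k L), Pj_of_mem G.ops_basis h.2]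
    rintro (m | j) v
    · exact ced_exder _ (G.E_der m) v
    · exact ced_exder _ (G.act_der _) v
  · rintro _ ⟨η, hη, rfl⟩
    exact ⟨⟨η, hη.1, rfl⟩, G.ced_piece hη⟩

lemma finrank_HW (n : ℕ) (S : σ → ℕ) (x y : ℤ) :
    finrank k (HW E act n S x y) + finrank k ((piece E act (n + 1) S x y).map (ced k L)) =
      finrank k ↥(piece E act n S x y ⊓ LinearMap.ker (ced k L)) := by
  have := G.fd_piece n S x y
  have h0 : (Submodule.comap (cycles k L n).subtype (piece E act n S x y)).map
      (cycles k L n).subtype = piece E act n S x y ⊓ LinearMap.ker (ced k L) := by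
    ext ω
    constructor
    · rintro ⟨z, hz, rfl⟩
      exact ⟨hz, z.2.2⟩
    · rintro ⟨h1, h2⟩
      exact ⟨⟨ω, h1.1, h2⟩, h1, rfl⟩
  have e1 := Submodule.equivMapOfInjective (cycles k L n).subtype (Submodule.injective_subtype _)
    (Submodule.comap (cycles k L n).subtype (piece E act n S x y))
  rw [h0] at e1
  have : FiniteDimensional k ↥(piece E act n S x y ⊓ LinearMap.ker (ced k L)) :=
    Submodule.finiteDimensional_inf_left _ _
  have : FiniteDimensional k
      ↥(Submodule.comap (cycles k L n).subtype (piece E act n S x y)) :=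
    LinearEquiv.finiteDimensional e1.symm
  have h1 := finrank_map_add (Submodule.comap (cycles k L n).subtype (piece E act n S x y))
    (cls n)
  have h2 : finrank k ↥(Submodule.comap (cycles k L n).subtype (piece E act n S x y) ⊓
      LinearMap.ker (cls n)) = finrank k ((piece E act (n + 1) S x y).map (ced k L)) := by
    have e2 := Submodule.equivMapOfInjective (cycles k L n).subtype
      (Submodule.injective_subtype _)
      (Submodule.comap (cycles k L n).subtype (piece E act n S x y) ⊓ LinearMap.ker (cls n))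
    have h3 : (Submodule.comap (cycles k L n).subtype (piece E act n S x y) ⊓
      LinearMap.ker (cls n)).map (cycles k L n).subtype =
        (piece E act (n + 1) S x y).map (ced k L) := by
      rw [← G.boundary_piece]
      ext ω
      constructor
      · rintro ⟨z, ⟨h1, h2⟩, rfl⟩
        exact ⟨(cls_eq_zero n).1 h2, h1⟩
      · rintro ⟨h1, h2⟩
        exact ⟨⟨ω, boundaries_le n h1⟩, ⟨h2, (cls_eq_zero n).2 h1⟩, rfl⟩
    rw [← h3]
    exact e2.finrank_eq
  rw [h2, e1.finrank_eq] at h1
  exact h1

lemma hact_HW {n : ℕ} {S : σ → ℕ} {x y a c : ℤ} {X : Matrix (Fin 3) (Fin 3) k}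
    (hX1 : hmat k 0 * X - X * hmat k 0 = ((2 * a - c : ℤ) : k) • X)
    (hX2 : hmat k 1 * X - X * hmat k 1 = ((2 * c - a : ℤ) : k) • X)
    {v : LieHomology k L n} (hv : v ∈ HW E act n S x y) :
    G.hact n X v ∈ HW E act n S (x + a) (y + c) := by
  obtain ⟨z, hz, rfl⟩ := hv
  exact ⟨⟨exder (act X) z.1, exder_mem_cycles _ (G.act_der X) n z.2⟩,
    G.act_piece hX1 hX2 hz, rfl⟩

lemma hact_h {n : ℕ} {S : σ → ℕ} {x y : ℤ} {v : LieHomology k L n} (hv : v ∈ HW E act n S x y)
    (j : Fin 2) : G.hact n (hmat k j) v = (![2 * x - y, 2 * y - x] j : ℤ) • v := by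
  obtain ⟨z, hz, rfl⟩ := hv
  rw [hact_cls, ← Int.cast_smul_eq_zsmul k, ← map_smul]
  congr 1
  apply Subtype.ext
  exact hz.2 (Sum.inr j)

lemma fd_HW (n : ℕ) (S : σ → ℕ) (x y : ℤ) : FiniteDimensional k (HW E act n S x y) := by
  have := G.fd_piece n S x y
  have h0 : (Submodule.comap (cycles k L n).subtype (piece E act n S x y)).map
      (cycles k L n).subtype = piece E act n S x y ⊓ LinearMap.ker (ced k L) := by
    ext ω
    constructor
    · rintro ⟨z, hz, rfl⟩
      exact ⟨hz, z.2.2⟩
    · rintro ⟨h1, h2⟩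
      exact ⟨⟨ω, h1.1, h2⟩, h1, rfl⟩
  have e1 := Submodule.equivMapOfInjective (cycles k L n).subtype (Submodule.injective_subtype _)
    (Submodule.comap (cycles k L n).subtype (piece E act n S x y))
  rw [h0] at e1
  have : FiniteDimensional k ↥(piece E act n S x y ⊓ LinearMap.ker (ced k L)) :=
    Submodule.finiteDimensional_inf_left _ _
  have : FiniteDimensional k
      ↥(Submodule.comap (cycles k L n).subtype (piece E act n S x y)) :=
    LinearEquiv.finiteDimensional e1.symm
  unfold HW
  infer_instance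

lemma HW_eq_bot {n : ℕ} {S : σ → ℕ} {x y : ℤ} (h : piece E act n S x y = ⊥) :
    HW E act n S x y = ⊥ := by
  rw [eq_bot_iff]
  rintro _ ⟨z, hz, rfl⟩
  have hz : z.1 ∈ piece E act n S x y := hz
  rw [h, Submodule.mem_bot] at hz
  have : z = 0 := Subtype.ext hz
  rw [this, map_zero]
  exact Submodule.zero_mem _

/-- the homology is a weight module for `sl_3` -/
lemma sl3W (n : ℕ) (S : σ → ℕ) : Sl3W k (G.hact n (Matrix.single 0 1 1))
    (G.hact n (Matrix.single 1 2 1)) (G.hact n (Matrix.single 0 2 1))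
    (G.hact n (Matrix.single 1 0 1)) (G.hact n (Matrix.single 2 1 1))
    (G.hact n (Matrix.single 2 0 1)) (HW E act n S) where
  he3 v := by
    rw [← G.hact_lie]; congr 2
    simp [Matrix.single_mul_single_same, Matrix.single_mul_single_of_ne]
  hf3 v := by
    rw [← G.hact_lie]; congr 2
    simp [Matrix.single_mul_single_same, Matrix.single_mul_single_of_ne]
  e1e3 v := by
    rw [← sub_eq_zero, ← G.hact_lie]
    simp [Matrix.single_mul_single_same, Matrix.single_mul_single_of_ne]
  e2e3 v := by
    rw [← sub_eq_zero, ← G.hact_lie]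
    simp [Matrix.single_mul_single_same, Matrix.single_mul_single_of_ne]
  f1f3 v := by
    rw [← sub_eq_zero, ← G.hact_lie]
    simp [Matrix.single_mul_single_same, Matrix.single_mul_single_of_ne]
  f2f3 v := by
    rw [← sub_eq_zero, ← G.hact_lie]
    simp [Matrix.single_mul_single_same, Matrix.single_mul_single_of_ne]
  e1f2 v := by
    rw [← sub_eq_zero, ← G.hact_lie]
    simp [Matrix.single_mul_single_same, Matrix.single_mul_single_of_ne]
  e2f1 v := by
    rw [← sub_eq_zero, ← G.hact_lie]
    simp [Matrix.single_mul_single_same, Matrix.single_mul_single_of_ne]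
  e1f1 x y v hv := by
    rw [← sub_eq_iff_eq_add', ← G.hact_lie]
    have := G.hact_h hv 0
    rw [← show hmat k 0 = Matrix.single 0 1 1 * Matrix.single 1 0 1 -
      Matrix.single 1 0 1 * Matrix.single 0 1 1 by
        simp [hmat, Matrix.single_mul_single_same, Matrix.single_mul_single_of_ne]]
    exact this
  e2f2 x y v hv := by
    rw [← sub_eq_iff_eq_add', ← G.hact_lie]
    have := G.hact_h hv 1
    rw [← show hmat k 1 = Matrix.single 1 2 1 * Matrix.single 2 1 1 -
      Matrix.single 2 1 1 * Matrix.single 1 2 1 by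
        simp [hmat, Matrix.single_mul_single_same, Matrix.single_mul_single_of_ne]]
    exact this
  We1 x y v hv := by
    have := G.hact_HW (a := 1) (c := 0) (X := Matrix.single 0 1 1) ?_ ?_ hv
    · rwa [add_zero] at this
    all_goals
      ext i j
      fin_cases i <;> fin_cases j <;>
        simp [hmat, Matrix.mul_apply, Fin.sum_univ_three, Matrix.single_apply] <;> norm_num
  We2 x y v hv := by
    have := G.hact_HW (a := 0) (c := 1) (X := Matrix.single 1 2 1) ?_ ?_ hv
    · rwa [add_zero] at this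
    all_goals
      ext i j
      fin_cases i <;> fin_cases j <;>
        simp [hmat, Matrix.mul_apply, Fin.sum_univ_three, Matrix.single_apply] <;> norm_num
  Wf1 x y v hv := by
    have := G.hact_HW (a := -1) (c := 0) (X := Matrix.single 1 0 1) ?_ ?_ hv
    · rwa [add_zero, ← sub_eq_add_neg] at this
    all_goals
      ext i j
      fin_cases i <;> fin_cases j <;>
        simp [hmat, Matrix.mul_apply, Fin.sum_univ_three, Matrix.single_apply] <;> norm_num
  Wf2 x y v hv := by
    have := G.hact_HW (a := 0) (c := -1) (X := Matrix.single 2 1 1) ?_ ?_ hv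
    · rwa [add_zero, ← sub_eq_add_neg] at this
    all_goals
      ext i j
      fin_cases i <;> fin_cases j <;>
        simp [hmat, Matrix.mul_apply, Fin.sum_univ_three, Matrix.single_apply] <;> norm_num
  fd x y := G.fd_HW n S x y
  bd := by
    refine ⟨∑ J ∈ G.JS S, ((∑ j ∈ J, wx j).natAbs + (∑ j ∈ J, wy j).natAbs), ?_⟩
    intro x y hxy
    apply G.HW_eq_bot
    apply G.piece_eq_bot
    rw [Finset.eq_empty_iff_forall_notMem]
    intro J hJ
    rw [mem_JP] at hJ
    obtain ⟨-, h1, rfl, rfl⟩ := hJ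
    have h2 : (∑ j ∈ J, wx j).natAbs + (∑ j ∈ J, wy j).natAbs ≤
      ∑ J ∈ G.JS S, ((∑ j ∈ J, wx j).natAbs + (∑ j ∈ J, wy j).natAbs) :=
      Finset.single_le_sum (f := fun J : Finset I =>
        (∑ j ∈ J, wx j).natAbs + (∑ j ∈ J, wy j).natAbs) (fun _ _ => zero_le) (G.mem_JS.2 h1)
    rw [Int.abs_eq_natAbs, Int.abs_eq_natAbs] at hxy
    omega

/-! ### the Euler characteristic -/

/-- partial Euler characteristics -/
lemma euler_partial (S : σ → ℕ) (x y : ℤ) (N : ℕ) :
    ∑ n ∈ Finset.range (N + 1), (-1 : ℤ) ^ n * (finrank k (HW E act n S x y) : ℤ) =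
      ∑ n ∈ Finset.range (N + 1), (-1 : ℤ) ^ n * ((G.JP n S x y).card : ℤ) -
        (-1) ^ N * (finrank k ((piece E act (N + 1) S x y).map (ced k L)) : ℤ) := by
  induction N with
  | zero =>
    rw [Finset.sum_range_one, Finset.sum_range_one, pow_zero, one_mul, one_mul, one_mul]
    have h1 := G.finrank_HW 0 S x y
    have h2 : piece E act 0 S x y ⊓ LinearMap.ker (ced k L) = piece E act 0 S x y := by
      rw [inf_eq_left]
      rintro ω ⟨hω, -⟩
      rw [ExteriorAlgebra.exteriorPower, pow_zero] at hω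
      obtain ⟨r, rfl⟩ := Submodule.mem_one.1 hω
      exact ced_algebraMap r
    rw [h2, G.finrank_piece] at h1
    omega
  | succ N ih =>
    rw [Finset.sum_range_succ _ (N + 1), ih, Finset.sum_range_succ (fun n => (-1 : ℤ) ^ n *
      ((G.JP n S x y).card : ℤ)) (N + 1)]
    have h1 := G.finrank_HW (N + 1) S x y
    have := G.fd_piece (N + 1) S x y
    have h2 := finrank_map_add (piece E act (N + 1) S x y) (ced k L)
    rw [G.finrank_piece] at h2
    have h3 : (finrank k (HW E act (N + 1) S x y) : ℤ) =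
      (G.JP (N + 1) S x y).card - finrank k ((piece E act (N + 1) S x y).map (ced k L)) -
        finrank k ((piece E act (N + 1 + 1) S x y).map (ced k L)) := by omega
    rw [h3, pow_succ]
    ring

variable [Fintype σ]

lemma JP_empty {n : ℕ} {S : σ → ℕ} {x y : ℤ} (hn : ∑ m, S m < n) : G.JP n S x y = ∅ := by
  rw [Finset.eq_empty_iff_forall_notMem]
  intro J hJ
  rw [mem_JP] at hJ
  obtain ⟨h0, h1, -, -⟩ := hJ
  have h2 : ∑ m, S m = ∑ j ∈ J, ∑ m, deg j m := by
    rw [← h1, Finset.sum_comm]
    simp [Finset.sum_apply]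
  have h3 : J.card ≤ ∑ j ∈ J, ∑ m, deg j m := by
    rw [Finset.card_eq_sum_ones]
    refine Finset.sum_le_sum fun j _ => ?_
    by_contra hlt
    have h4 : ∑ m, deg j m = 0 := by omega
    rw [Finset.sum_eq_zero_iff] at h4
    exact G.deg_ne j (funext fun m => h4 m (Finset.mem_univ m))
  omega

/-- the Euler characteristic of the component of degree `S` and weight `(x, y)` -/
noncomputable def eul (S : σ → ℕ) (x y : ℤ) : ℤ :=
  ∑ n ∈ Finset.range (∑ m, S m + 1), (-1 : ℤ) ^ n * ((G.JP n S x y).card : ℤ)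

lemma eul_eq (S : σ → ℕ) (x y : ℤ) : G.eul S x y =
    ∑ n ∈ Finset.range (∑ m, S m + 1), (-1 : ℤ) ^ n * (finrank k (HW E act n S x y) : ℤ) := by
  rw [G.euler_partial]
  have h1 : piece E act (∑ m, S m + 1) S x y = ⊥ :=
    G.piece_eq_bot _ S x y (G.JP_empty (Nat.lt_succ_self _))
  rw [h1, Submodule.map_bot, finrank_bot, Nat.cast_zero, mul_zero, sub_zero]
  rfl

end GrLie

namespace GrLie

variable {k L I σ : Type*} [Field k] [CharZero k] [LieRing L] [LieAlgebra k L] {b : Basis I k L}
    {deg : I → σ → ℕ} {wx wy : I → ℤ} {E : σ → L →ₗ[k] L}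
    {act : Matrix (Fin 3) (Fin 3) k →ₗ[k] (L →ₗ[k] L)} [LinearOrder I] [Fintype σ]
    (G : GrLie b deg wx wy E act)

/-- If `H_n(L)`, `n ≥ 2`, contains no highest weight vector of weight `(a, a)` in degree `S`,
`a = 0, 1`, and `L` and `[L, L]` agree in degree `S`, then the Euler characteristic satisfies the
corresponding equation. -/
theorem altf_eul (a : ℤ) (ha : a = 0 ∨ a = 1) (S : σ → ℕ) (hS : S ≠ 0)
    (hno : ∀ n, 2 ≤ n → ∀ v ∈ HW E act n S a a, G.hact n (Matrix.single 0 1 1) v = 0 →
      G.hact n (Matrix.single 1 2 1) v = 0 → v = 0)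
    (h1 : ∀ i, deg i = S → b i ∈ Submodule.span k {z : L | ∃ x y : L, ⁅x, y⁆ = z}) :
    altf (G.eul S) a a = 0 := by
  have e : G.eul S = fun x y => ∑ n ∈ Finset.range (∑ m, S m + 1), (-1 : ℤ) ^ n *
      (finrank k (HW E act n S x y) : ℤ) := by
    funext x y; exact G.eul_eq S x y
  rw [e, altf_sum (Finset.range (∑ m, S m + 1)) (fun n => (-1 : ℤ) ^ n)
    (fun n x y => (finrank k (HW E act n S x y) : ℤ))]
  refine Finset.sum_eq_zero fun n _ => ?_
  rcases Nat.lt_or_ge n 2 with hn | hn
  · have hbot : ∀ x y, HW E act n S x y = ⊥ := by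
      intro x y
      interval_cases n
      · apply G.HW_eq_bot
        apply G.piece_eq_bot
        rw [Finset.eq_empty_iff_forall_notMem]
        intro J hJ
        rw [mem_JP] at hJ
        obtain ⟨h2, h3, -, -⟩ := hJ
        rw [Finset.card_eq_zero] at h2
        rw [h2, Finset.sum_empty] at h3
        exact hS h3.symm
      · rw [eq_bot_iff]
        rintro _ ⟨z, hz, rfl⟩
        rw [Submodule.mem_bot, cls_eq_zero]
        have hz : z.1 ∈ piece E act 1 S x y := hz
        have h2 : piece E act 1 S x y ≤ boundaries k L 1 := by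
          rw [G.piece_eq_jeig, jeig_eq_span (e := b.ExteriorAlgebra)
            (fun J t => G.ext_ops_basis J t) (fun J => G.JP_spec 1 S x y J), Submodule.span_le]
          rintro _ ⟨⟨J, hJ⟩, rfl⟩
          rw [mem_JP] at hJ
          obtain ⟨h3, h4, -, -⟩ := hJ
          obtain ⟨i, rfl⟩ := Finset.card_eq_one.1 h3
          rw [Finset.sum_singleton] at h4
          have h5 : b.ExteriorAlgebra {i} = ExteriorAlgebra.ι k (b i) := by
            rw [ext_basis_eq, ExteriorAlgebra.ιMulti_apply]
            simp only [Finset.card_singleton, List.ofFn_succ, List.ofFn_zero, List.prod_cons,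
              List.prod_nil, mul_one]
            congr 2
            exact Finset.mem_singleton.1 (Finset.orderEmbOfFin_mem {i} _ _)
          show b.ExteriorAlgebra {i} ∈ boundaries k L 1
          rw [h5]
          have h6 : Submodule.span k {z : L | ∃ x y : L, ⁅x, y⁆ = z} ≤
              (boundaries k L 1).comap (ExteriorAlgebra.ι k) := by
            rw [Submodule.span_le]
            rintro _ ⟨u, v, rfl⟩
            refine ⟨ExteriorAlgebra.ι k u * ExteriorAlgebra.ι k v, ?_, ced_ι_mul_ι u v⟩
            rw [ExteriorAlgebra.exteriorPower, pow_two]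
            exact Submodule.mul_mem_mul ⟨u, rfl⟩ ⟨v, rfl⟩
          exact h6 (h1 i h4)
        exact h2 hz
    have h0 : ∀ x y, finrank k (HW E act n S x y) = 0 := fun x y => by
      rw [hbot x y]; exact finrank_bot k _
    simp [altf, h0]
  · have h2 := (G.sl3W n S).alt_eq_zero (a := a) (b := a) ?_ (hno n hn)
    · unfold altf
      rw [h2, mul_zero]
    · intro x y hx hy hxy
      unfold cas at hxy
      rcases ha with rfl | rfl
      · constructor
        · nlinarith [sq_nonneg (x - y), mul_nonneg hx hy]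
        · nlinarith [sq_nonneg (x - y), mul_nonneg hx hy]
      · have h3 : 0 ≤ (x - 1) * (y - 1) := mul_nonneg (by omega) (by omega)
        constructor
        · nlinarith [sq_nonneg (x - y)]
        · nlinarith [sq_nonneg (x - y)]

end GrLie

end Pool.Agent.L7h64.ABG
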