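import Pool.Agent.L7h64.ABGMain

/-!
# Highest weight vectors in the homology of `ABG(Alt(V))`, `dim V = 9`
-/

set_option autoImplicit false
set_option linter.unusedSimpArgs false
set_option linter.unusedSectionVars false

namespace Pool.Agent.L7h64.ABG

open Module Matrix GrLie

/-- existence of a highest weight vector of weight `0` or `α₁ + α₂` in degree at least two -/
theorem exists_hw (k : Type*) [Field k] [CharZero k] {IA IB : Type*} [LinearOrder IA]
    [LinearOrder IB] [LinearOrder ((Σ _ : Fin 8, IA) ⊕ IB)]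
    {bA : Basis IA k (FreeAlt k (Fin 9))} {cA : IA → FreeMagma (Fin 9)}
    {bB : Basis IB k (BA k (FreeAlt k (Fin 9)))} {cB : IB → FreeMagma (Fin 9) × FreeMagma (Fin 9)}
    (hcA : Function.Injective cA) (hbA : ∀ i, bA i = mon k (cA i))
    (hcB : Function.Injective cB)
    (hbB : ∀ i, bB i = wd k (FreeAlt k (Fin 9)) (mon k (cB i).1) (mon k (cB i).2))
    (G : GrLie (bL bA bB) (dg cA cB) wxL wyL (fun m => EL (DE k (Fin 9) m))
      (delta k (FreeAlt k (Fin 9)))) :
    ∃ n, 2 ≤ n ∧ ∃ (a : ℤ) (S : Fin 9 → ℕ), (a = 0 ∨ a = 1) ∧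
      ∃ v ∈ HW (fun m => EL (DE k (Fin 9) m)) (delta k (FreeAlt k (Fin 9))) n S a a,
        G.hact n (Matrix.single 0 1 1) v = 0 ∧ G.hact n (Matrix.single 1 2 1) v = 0 ∧ v ≠ 0 := by
  by_contra hcon
  push Not at hcon
  have C := cntData hcA hcB G.JS (fun S J => G.mem_JS) G.deg_ne
  have hspan : ∀ (T : Finset (Fin 9)), 2 ≤ T.card → ∀ i, dg cA cB i = ind T → bL bA bB i ∈
      Submodule.span k {z : ABGAlg k (FreeAlt k (Fin 9)) |
        ∃ x y : ABGAlg k (FreeAlt k (Fin 9)), ⁅x, y⁆ = z} := by
    intro T hT i hi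
    rcases i with ⟨j, i⟩ | i
    · have hi : cnt (cA i) = ind T := hi
      have hlen : 2 ≤ mlen (cA i) := by
        rw [← sum_cnt, hi]
        simpa [ind_apply] using hT
      rw [bL_inl]
      show inT k _ (tenT (Xs k j) (trace_Xs j) (bA i)) ∈ _
      rw [hbA]
      cases hw : cA i with
      | of x =>
        rw [hw] at hlen
        have hlen : 2 ≤ 1 := hlen
        omega
      | mul u v => exact der1_Xs j (mon k u) (mon k v)
    · rw [bL_inr]
      show inB k _ (bB i) ∈ _
      rw [hbB]
      exact der1_wd _ _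
  have hFs : ∀ a : ℤ, a = 0 ∨ a = 1 → ∀ T : Finset (Fin 9), 2 ≤ T.card →
      Fs wxL wyL G.JS (ind T) (psi a) = 0 := by
    intro a ha T hT
    rw [← altf_eul_eq]
    refine G.altf_eul a ha (ind T) ?_ ?_ (hspan T hT)
    · intro h
      rw [← ind_empty] at h
      rw [ind_inj h] at hT
      simp at hT
    · intro n hn v hv h1 h2
      exact hcon n hn a (ind T) ha v hv h1 h2
  have hmain := num_main C
    (fun T hT => by
      obtain ⟨m, rfl⟩ := Finset.card_eq_one.1 hT
      constructor
      · show ((IdA cA hcA (ind {m})).card : ℤ) = 1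
        rw [IdA_one bA cA hcA hbA]
        rfl
      · show ((IdB hcB (ind {m})).card : ℤ) = 0
        have : IdB hcB (ind ({m} : Finset (Fin 9))) = ∅ := by
          rw [Finset.eq_empty_iff_forall_notMem]
          intro i hi
          rw [mem_IdB] at hi
          have h1 : mlen (cB i).1 + mlen (cB i).2 = 1 := by
            rw [← sum_cnt, ← sum_cnt, ← Finset.sum_add_distrib]
            have h3 : ∑ m' : Fin 9, (cnt (cB i).1 m' + cnt (cB i).2 m') =
                ∑ m' : Fin 9, ind {m} m' := Finset.sum_congr rfl (fun m' _ => congrFun hi m')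
            rw [h3]
            simp [ind_apply]
          have := mlen_pos (cB i).1
          have := mlen_pos (cB i).2
          omega
        rw [this]
        rfl)
    (fun T hT => ⟨hFs 0 (Or.inl rfl) T hT, hFs 1 (Or.inr rfl) T hT⟩)
  have hlow := lower_bound bA cA hcA hbA
  have hmain : ((IdA cA hcA (ind Finset.univ)).card : ℤ) = 336364 := hmain
  omega

end Pool.Agent.L7h64.ABG
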