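import Pool.Agent.L7h64.ABGCE

/-!
# Joint eigenspaces of diagonal operators, and the exterior algebra of a graded Lie algebra
-/

set_option autoImplicit false
set_option linter.unusedSimpArgs false
set_option linter.unusedSectionVars false

namespace Pool.Agent.L7h64.ABG

open Module

section Diag

variable {k V 𝒥 τ : Type*} [Field k] [AddCommGroup V] [Module k V]

/-- the joint eigenspace of a family of operators -/
def jeig (O : τ → V →ₗ[k] V) (χ : τ → k) : Submodule k V where
  carrier := {v | ∀ t, O t v = χ t • v}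
  add_mem' := by
    intro v w hv hw t
    rw [map_add, hv t, hw t, smul_add]
  zero_mem' := by intro t; simp
  smul_mem' := by
    intro c v hv t
    rw [map_smul, hv t, smul_comm]

lemma mem_jeig {O : τ → V →ₗ[k] V} {χ : τ → k} {v : V} : v ∈ jeig O χ ↔ ∀ t, O t v = χ t • v :=
  Iff.rfl

variable {e : Basis 𝒥 k V} {O : τ → V →ₗ[k] V} {c : 𝒥 → τ → k}
  (h : ∀ J t, O t (e J) = c J t • e J)

include h

lemma repr_diag (v : V) (J : 𝒥) (t : τ) : e.repr (O t v) J = c J t * e.repr v J := by
  classical
  have h1 : (e.coord J) ∘ₗ (O t) = c J t • e.coord J := by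
    apply e.ext
    intro J'
    rw [LinearMap.comp_apply, h, map_smul, LinearMap.smul_apply, Basis.coord_apply,
      Basis.repr_self, smul_eq_mul, smul_eq_mul]
    by_cases hJ : J' = J
    · rw [hJ]
    · rw [Finsupp.single_apply, if_neg hJ, mul_zero, mul_zero]
  exact LinearMap.congr_fun h1 v

lemma jeig_repr {χ : τ → k} {v : V} (hv : v ∈ jeig O χ) (J : 𝒥) (hJ : c J ≠ χ) :
    e.repr v J = 0 := by
  obtain ⟨t, ht⟩ := Function.ne_iff.1 hJ
  have h1 := repr_diag h v J t
  rw [hv t, map_smul, Finsupp.smul_apply, smul_eq_mul] at h1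
  have h2 : (c J t - χ t) * e.repr v J = 0 := by rw [sub_mul, h1, sub_self]
  exact (mul_eq_zero.1 h2).resolve_left (sub_ne_zero.2 ht)

omit h in
open Classical in
/-- the projection onto a joint eigenspace -/
noncomputable def Pj (e : Basis 𝒥 k V) (c : 𝒥 → τ → k) (χ : τ → k) : V →ₗ[k] V :=
  e.constr k (fun J => if c J = χ then e J else 0)

omit h in
open Classical in
lemma Pj_basis (χ : τ → k) (J : 𝒥) : Pj e c χ (e J) = if c J = χ then e J else 0 := by
  unfold Pj; rw [Basis.constr_basis]

lemma Pj_mem (χ : τ → k) (v : V) : Pj e c χ v ∈ jeig O χ := by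
  classical
  induction e.mem_span v using Submodule.span_induction with
  | mem x hx =>
    obtain ⟨J, rfl⟩ := hx
    rw [Pj_basis]
    split_ifs with hJ
    · intro t; rw [h, hJ]
    · exact Submodule.zero_mem _
  | zero => rw [map_zero]; exact Submodule.zero_mem _
  | add x y _ _ hx hy => rw [map_add]; exact Submodule.add_mem _ hx hy
  | smul a x _ hx => rw [map_smul]; exact Submodule.smul_mem _ _ hx

omit h in
open Classical in
lemma repr_Pj (χ : τ → k) (v : V) (J : 𝒥) :
    e.repr (Pj e c χ v) J = if c J = χ then e.repr v J else 0 := by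
  have h1 : (e.coord J) ∘ₗ (Pj e c χ) = (if c J = χ then (1 : k) else 0) • e.coord J := by
    apply e.ext
    intro J'
    rw [LinearMap.comp_apply, Pj_basis, LinearMap.smul_apply, Basis.coord_apply,
      Basis.coord_apply, Basis.repr_self, smul_eq_mul]
    by_cases hJ : J' = J
    · subst hJ; split_ifs <;> simp
    · split_ifs <;> simp [Finsupp.single_apply, hJ]
  have := LinearMap.congr_fun h1 v
  rw [LinearMap.comp_apply, Basis.coord_apply, LinearMap.smul_apply, Basis.coord_apply] at this
  rw [this]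
  split_ifs <;> simp

lemma Pj_of_mem {χ : τ → k} {v : V} (hv : v ∈ jeig O χ) : Pj e c χ v = v := by
  classical
  apply e.repr.injective
  ext J
  rw [repr_Pj]
  split_ifs with hJ
  · rfl
  · rw [jeig_repr h hv J hJ]

lemma Pj_of_ne {χ χ' : τ → k} (hne : χ' ≠ χ) {v : V} (hv : v ∈ jeig O χ') : Pj e c χ v = 0 := by
  classical
  apply e.repr.injective
  ext J
  rw [repr_Pj, map_zero]
  split_ifs with hJ
  · rw [jeig_repr h hv J (by rw [hJ]; exact hne.symm)]; rfl
  · rfl

/-- the projections commute with the maps which commute with the operators -/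
lemma Pj_comm (f : V →ₗ[k] V) (hf : ∀ t v, f (O t v) = O t (f v)) (χ : τ → k) (v : V) :
    f (Pj e c χ v) = Pj e c χ (f v) := by
  classical
  have h1 : f ∘ₗ Pj e c χ = Pj e c χ ∘ₗ f := by
    apply e.ext
    intro J
    rw [LinearMap.comp_apply, LinearMap.comp_apply, Pj_basis]
    have h2 : f (e J) ∈ jeig O (c J) := by
      intro t
      rw [← hf, h, map_smul]
    split_ifs with hJ
    · rw [Pj_of_mem h (hJ ▸ h2)]
    · rw [map_zero, Pj_of_ne h hJ h2]
  exact LinearMap.congr_fun h1 v

/-- the joint eigenspace is spanned by a finite part of the basis -/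
lemma jeig_eq_span {χ : τ → k} {s : Finset 𝒥} (hs : ∀ J, J ∈ s ↔ c J = χ) :
    jeig O χ = Submodule.span k (Set.range fun j : s => e j) := by
  classical
  apply le_antisymm
  · intro v hv
    have h1 : (e.repr v).support ⊆ s := by
      intro J hJ
      rw [hs]
      by_contra hne
      exact (Finsupp.mem_support_iff.1 hJ) (jeig_repr h hv J hne)
    rw [← e.linearCombination_repr v, Finsupp.linearCombination_apply, Finsupp.sum]
    refine Submodule.sum_mem _ fun J hJ => Submodule.smul_mem _ _ (Submodule.subset_span ?_)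
    exact ⟨⟨J, h1 hJ⟩, rfl⟩
  · rw [Submodule.span_le]
    rintro _ ⟨⟨J, hJ⟩, rfl⟩
    intro t
    rw [h, (hs J).1 hJ]

lemma jeig_finrank {χ : τ → k} {s : Finset 𝒥} (hs : ∀ J, J ∈ s ↔ c J = χ) :
    finrank k (jeig O χ) = s.card := by
  rw [jeig_eq_span h hs, finrank_span_eq_card, Fintype.card_coe]
  exact e.linearIndependent.comp _ Subtype.val_injective

lemma jeig_fd {χ : τ → k} {s : Finset 𝒥} (hs : ∀ J, J ∈ s ↔ c J = χ) :
    FiniteDimensional k (jeig O χ) := by
  rw [jeig_eq_span h hs]
  exact FiniteDimensional.span_of_finite k (Set.finite_range _)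

end Diag

section ExtBasis

variable {k L I : Type*} [Field k] [AddCommGroup L] [Module k L] [LinearOrder I]

open Set.powersetCard

lemma ext_basis_eq (b : Basis I k L) (J : Finset I) :
    b.ExteriorAlgebra J = ExteriorAlgebra.ιMulti k J.card (fun i => b (J.orderEmbOfFin rfl i)) := by
  rw [ExteriorAlgebra.basis_apply]
  rfl

lemma ext_basis_mem (b : Basis I k L) (J : Finset I) :
    b.ExteriorAlgebra J ∈ ⋀[k]^(J.card) L := by
  rw [ext_basis_eq]
  exact ExteriorAlgebra.ιMulti_range k _ (Set.mem_range_self _)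

lemma exder_basis (b : Basis I k L) (T : L →ₗ[k] L) (t : I → k) (h : ∀ i, T (b i) = t i • b i)
    (J : Finset I) : exder T (b.ExteriorAlgebra J) = (∑ j ∈ J, t j) • b.ExteriorAlgebra J := by
  rw [ext_basis_eq, exder_ιMulti T _ (fun i => t (J.orderEmbOfFin rfl i)) (fun i => h _)]
  congr 1
  have := Finset.sum_map Finset.univ (J.orderEmbOfFin rfl).toEmbedding t
  rw [Finset.map_orderEmbOfFin_univ] at this
  exact this.symm

lemma exder_id_of_mem (n : ℕ) (ω : ExteriorAlgebra k L) (h : ω ∈ ⋀[k]^n L) :
    exder (LinearMap.id : L →ₗ[k] L) ω = (n : k) • ω := by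
  induction n generalizing ω with
  | zero =>
    rw [ExteriorAlgebra.exteriorPower, pow_zero] at h
    obtain ⟨r, rfl⟩ := Submodule.mem_one.1 h
    rw [exder_algebraMap, Nat.cast_zero, zero_smul]
  | succ n ih =>
    rw [ExteriorAlgebra.exteriorPower, pow_succ'] at h
    induction h using Submodule.mul_induction_on' with
    | mem_mul_mem m hm x hx =>
      obtain ⟨m, rfl⟩ := hm
      rw [exder_ι_mul, ih x hx, LinearMap.id_apply, mul_smul_comm]
      push_cast
      rw [add_smul, one_smul, add_comm]
    | add x hx y hy h1 h2 => rw [map_add, h1, h2, smul_add]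

lemma mem_ext_of_exder_id [CharZero k] (b : Basis I k L) (n : ℕ) (ω : ExteriorAlgebra k L)
    (h : exder (LinearMap.id : L →ₗ[k] L) ω = (n : k) • ω) : ω ∈ ⋀[k]^n L := by
  have h1 : ∀ (J : Finset I) (t : Unit), (fun _ : Unit => exder (LinearMap.id : L →ₗ[k] L)) t
      (b.ExteriorAlgebra J) = (fun (J : Finset I) (_ : Unit) => (J.card : k)) J t •
        b.ExteriorAlgebra J := fun J _ => exder_id_of_mem _ _ (ext_basis_mem b J)
  have h2 : ω ∈ jeig (fun _ : Unit => exder (LinearMap.id : L →ₗ[k] L)) (fun _ => (n : k)) :=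
    fun _ => h
  rw [← b.ExteriorAlgebra.linearCombination_repr ω, Finsupp.linearCombination_apply, Finsupp.sum]
  refine Submodule.sum_mem _ fun J hJ => Submodule.smul_mem _ _ ?_
  have h3 : (J.card : k) = n := by
    by_contra hne
    refine Finsupp.mem_support_iff.1 hJ (jeig_repr h1 h2 J ?_)
    intro h4
    exact hne (congrFun h4 ())
  rw [← Nat.cast_injective h3]
  exact ext_basis_mem b J

end ExtBasis

end Pool.Agent.L7h64.ABG
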