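import Pool.Agent.L7h64.ABGMat

/-!
# The Allison-Benkart-Gao Lie algebra: the Jacobi identity
-/

set_option autoImplicit false
set_option linter.unusedSimpArgs false
set_option linter.unusedSectionVars false

namespace Pool.Agent.L7h64.ABG

open TensorProduct Matrix

variable (k A : Type*) [Field k] [NonUnitalNonAssocRing A] [Module k A] [IsScalarTower k A A]
  [SMulCommClass k A A]

/-- the entrywise action of the derivations of `A` on the trace zero matrices -/
def DT : derA k A →ₗ[k] T0 k A →ₗ[k] T0 k A :=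
  LinearMap.mk₂ k (fun D M => ⟨M.1.map D.1, by
      have := M.2
      rw [mem_T0, trace_eqA] at this ⊢
      simp only [Matrix.map_apply]
      rw [← map_add, ← map_add, this, map_zero]⟩)
    (fun D E M => Subtype.ext (by ext i j; rfl))
    (fun c D M => Subtype.ext (by ext i j; rfl))
    (fun D M N => Subtype.ext (by ext i j; exact map_add D.1 _ _))
    (fun c D M => Subtype.ext (by ext i j; exact map_smul D.1 _ _))

variable {k A}

lemma DT_apply (D : derA k A) (M : T0 k A) (i j : Fin 3) : (DT k A D M).1 i j = D.1 (M.1 i j) := rfl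

lemma DT_ten (D : derA k A) (X : M3 k) (hX : X.trace = 0) (p : A) :
    DT k A D (tenT X hX p) = tenT X hX (D.1 p) := by
  apply Subtype.ext; ext i j
  exact map_smul D.1 _ _

lemma tenT_apply (X : M3 k) (hX : X.trace = 0) (p : A) (i j : Fin 3) :
    (tenT X hX p).1 i j = X i j • p := rfl

section Char
variable [CharZero k]

/-- J2: derivations of `A` act by derivations on the bracket of matrices -/
lemma DT_mbr (D : derA k A) (M N : T0 k A) : DT k A D (mbr k A M N) =
    mbr k A (DT k A D M) N + mbr k A M (DT k A D N) := by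
  apply Subtype.ext
  have h : ∀ P Q : M3 A, (P * Q).map D.1 = P.map D.1 * Q + P * Q.map D.1 := by
    intro P Q
    ext i j
    simp only [Matrix.map_apply, Matrix.mul_apply, Matrix.add_apply, map_sum, D.2 _ _,
      Finset.sum_add_distrib]
  have h2 : ∀ P : M3 A, (proj0 k P).map D.1 = proj0 k (P.map D.1) := by
    intro P
    ext i j
    simp only [proj0_apply, Matrix.map_apply, Matrix.sub_apply, Matrix.diagonal_apply, map_sub]
    split_ifs
    · rw [map_smul, trace_eqA, trace_eqA, map_add, map_add]; rfl
    · rw [map_zero]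
  show (proj0 k (M.1 * N.1 - N.1 * M.1)).map D.1 = proj0 k (M.1.map D.1 * N.1 - N.1 * M.1.map D.1)
    + proj0 k (M.1 * N.1.map D.1 - N.1.map D.1 * M.1)
  rw [h2, ← map_add]
  congr 1
  have h3 : (M.1 * N.1 - N.1 * M.1).map D.1 = (M.1 * N.1).map D.1 - (N.1 * M.1).map D.1 := by
    ext i j; exact map_sub D.1 _ _
  rw [h3, h, h]
  abel

/-- J5: derivations of `A` act by derivations on the pairing -/
lemma bact_om (D : derA k A) (M N : T0 k A) : bact k A D (om k A M N) =
    om k A (DT k A D M) N + om k A M (DT k A D N) := by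
  rw [om_apply, om_apply, om_apply, map_smul, ← smul_add]
  simp only [map_sum, bact_wd, ← Finset.sum_add_distrib, DT_apply]

/-- J4: the pairing is invariant -/
lemma om_mbr (M N P : T0 k A) : om k A M (mbr k A N P) =
    om k A (mbr k A M N) P + om k A N (mbr k A M P) := by
  induction M using T0_ind with
  | hadd x y hx hy =>
    simp only [map_add, LinearMap.add_apply]
    rw [hx, hy]; abel
  | hten X hX p =>
  induction N using T0_ind with
  | hadd x y hx hy =>
    simp only [map_add, LinearMap.add_apply]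
    rw [hx, hy]; abel
  | hten Y hY q =>
  induction P using T0_ind with
  | hadd x y hx hy =>
    simp only [map_add, LinearMap.add_apply]
    rw [hx, hy]; abel
  | hten Z hZ r =>
  rw [mbr_ten, mbr_ten, mbr_ten, map_sub, map_sub, map_sub, LinearMap.sub_apply, om_ten, om_ten,
    om_ten, om_ten, om_ten, om_ten]
  have t1 : ∀ U V : M3 k, U.trace = 0 → (U * dv V).trace = (U * V).trace := by
    intro U V hU
    unfold dv
    rw [mul_sub, mul_smul_comm, mul_one, trace_sub, trace_smul, hU, smul_zero, sub_zero]
  have t2 : ∀ U V : M3 k, U.trace = 0 → (dv V * U).trace = (U * V).trace := by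
    intro U V hU
    rw [trace_mul_comm, t1 U V hU]
  rw [t1 X _ hX, t1 X _ hX, t2 Z _ hZ, t2 Z _ hZ, t1 Y _ hY, t1 Y _ hY]
  have c1 : (Z * (X * Y)).trace = (X * (Y * Z)).trace := by
    rw [trace_mul_comm, Matrix.mul_assoc]
  have c2 : (Z * (Y * X)).trace = (X * (Z * Y)).trace := by
    rw [← Matrix.mul_assoc, trace_mul_comm]
  have c3 : (Y * (X * Z)).trace = (X * (Z * Y)).trace := by
    rw [trace_mul_comm, Matrix.mul_assoc]
  have c4 : (Y * (Z * X)).trace = (X * (Y * Z)).trace := by
    rw [← Matrix.mul_assoc, trace_mul_comm]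
  rw [c1, c2, c3, c4]
  have w1 := wd_cyc (k := k) p q r
  have w2 := wd_cyc (k := k) r q p
  rw [wd_swap (q * r) p, wd_swap (r * p) q] at w1
  rw [wd_swap (r * q) p, wd_swap (p * r) q] at w2
  have s1 := congrArg (fun t => ((1 / 3 : k) * (X * (Y * Z)).trace) • t) w1
  have s2 := congrArg (fun t => ((1 / 3 : k) * (X * (Z * Y)).trace) • t) w2
  linear_combination (norm := module) s2 - s1

variable [IsAlternative A]

set_option maxHeartbeats 4000000 in
/-- J1: the main part of the Jacobi identity -/
lemma jac_mat (M N P : T0 k A) : mbr k A M (mbr k A N P) - DT k A (DD k A (om k A N P)) M =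
    mbr k A (mbr k A M N) P + DT k A (DD k A (om k A M N)) P +
      (mbr k A N (mbr k A M P) - DT k A (DD k A (om k A M P)) N) := by
  induction M using T0_ind with
  | hadd x y hx hy =>
    simp only [map_add, LinearMap.add_apply]
    linear_combination (norm := abel) hx + hy
  | hten X hX p =>
  induction N using T0_ind with
  | hadd x y hx hy =>
    simp only [map_add, LinearMap.add_apply]
    linear_combination (norm := abel) hx + hy
  | hten Y hY q =>
  induction P using T0_ind with
  | hadd x y hx hy =>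
    simp only [map_add, LinearMap.add_apply]
    linear_combination (norm := abel) hx + hy
  | hten Z hZ r =>
  rw [mbr_ten, mbr_ten, mbr_ten, map_sub, map_sub, map_sub, LinearMap.sub_apply, om_ten, om_ten,
    om_ten, mbr_ten, mbr_ten, mbr_ten, mbr_ten, mbr_ten, mbr_ten]
  apply Subtype.ext
  ext i j
  simp only [map_smul, LinearMap.smul_apply, DT_ten, Submodule.coe_add, Submodule.coe_sub,
    Submodule.coe_smul, Matrix.add_apply, Matrix.sub_apply, Matrix.smul_apply, tenT_apply, DD_wd,
    dv_mul_dv X _ hX, dv_dv_mul X _ hX, dv_mul_dv Y _ hY, dv_dv_mul Y _ hY, dv_mul_dv Z _ hZ,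
    dv_dv_mul Z _ hZ, Matrix.mul_assoc, smul_eq_mul]
  have hC := congrFun (congrFun (cayley X Y Z hX hY hZ) i) j
  simp only [Matrix.add_apply, Matrix.smul_apply, smul_eq_mul] at hC
  rw [trace_mul_comm Z Y, trace_mul_comm Y X, trace_mul_comm Z X]
  rw [Dop_eq, Dop_eq, Dop_eq]
  have e0 : as p r q = -as p q r := as_swap_right p q r
  have e1 : as q p r = -as p q r := as_swap_left p q r
  have e2 : as q r p = as p q r := as_rot p q r
  have e3 : as r p q = as p q r := as_rot' p q r
  have e4 : as r q p = -as p q r := as_rev p q r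
  rw [e0, e2]
  have m1 := mul3_right p q r
  have m2 := mul3_right p r q
  have m3 := mul3_right q p r
  have m4 := mul3_right q r p
  have m5 := mul3_right r p q
  have m6 := mul3_right r q p
  rw [e0] at m2
  rw [e1] at m3
  rw [e2] at m4
  rw [e3] at m5
  rw [e4] at m6
  simp only [sub_mul, mul_sub, m1, m2, m3, m4, m5, m6]
  have hC2 := congrArg (fun t => t • as p q r) hC
  linear_combination (norm := module) -hC2

end Char

/-- The Allison-Benkart-Gao Lie algebra `ABG(A) = sl_3 ⊗ A ⊕ B(A)` of the alternative algebra `A`,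
where `sl_3 ⊗ A` is the space `T0 k A` of trace zero matrices with entries in `A`. -/
def ABGAlg (k A : Type*) [Field k] [NonUnitalNonAssocRing A] [Module k A] [IsScalarTower k A A]
    [SMulCommClass k A A] : Type _ := ↥(T0 k A) × BA k A

section Alg

variable (k A : Type*) [Field k] [NonUnitalNonAssocRing A] [Module k A] [IsScalarTower k A A]
  [SMulCommClass k A A]

scoped instance : AddCommGroup (ABGAlg k A) := inferInstanceAs (AddCommGroup (↥(T0 k A) × BA k A))
scoped instance : Module k (ABGAlg k A) := inferInstanceAs (Module k (↥(T0 k A) × BA k A))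

variable [CharZero k] [IsAlternative A]

/-- The bracket of `ABG(A)`:
`[(M, b), (N, c)] = ([M, N]₀ + D_b N - D_c M, (1/3) Σ M_ij ∧ N_ji + D_b c)`. -/
scoped instance : Bracket (ABGAlg k A) (ABGAlg k A) :=
  ⟨fun x y => (mbr k A x.1 y.1 + DT k A (DD k A x.2) y.1 - DT k A (DD k A y.2) x.1,
    om k A x.1 y.1 + bact k A (DD k A x.2) y.2)⟩

variable {k A}

lemma bracket_def (x y : ABGAlg k A) : ⁅x, y⁆ =
    ((mbr k A x.1 y.1 + DT k A (DD k A x.2) y.1 - DT k A (DD k A y.2) x.1,
    om k A x.1 y.1 + bact k A (DD k A x.2) y.2) : ↥(T0 k A) × BA k A) := rfl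

lemma DT_comm (b c : BA k A) (M : T0 k A) : DT k A (DD k A (bact k A (DD k A b) c)) M =
    DT k A (DD k A b) (DT k A (DD k A c) M) - DT k A (DD k A c) (DT k A (DD k A b) M) := by
  apply Subtype.ext
  ext i j
  exact DD_bact (DD k A b) c (M.1 i j)

lemma bact_comm (b c e : BA k A) : bact k A (DD k A (bact k A (DD k A b) c)) e =
    bact k A (DD k A b) (bact k A (DD k A c) e) - bact k A (DD k A c) (bact k A (DD k A b) e) := by
  induction e using BA_ind with
  | h0 => simp
  | h1 p q =>
    simp only [bact_wd, map_add, DD_bact, map_sub, LinearMap.sub_apply, LinearMap.add_apply]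
    abel
  | h2 x y hx hy =>
    simp only [map_add] at *
    rw [hx, hy]
    abel

scoped instance : LieRing (ABGAlg k A) where
  add_lie x y z := by
    refine Prod.ext ?_ ?_
    · show mbr k A (x.1 + y.1) z.1 + DT k A (DD k A (x.2 + y.2)) z.1
          - DT k A (DD k A z.2) (x.1 + y.1) =
        (mbr k A x.1 z.1 + DT k A (DD k A x.2) z.1 - DT k A (DD k A z.2) x.1) +
        (mbr k A y.1 z.1 + DT k A (DD k A y.2) z.1 - DT k A (DD k A z.2) y.1)
      simp only [map_add, LinearMap.add_apply]; abel
    · show om k A (x.1 + y.1) z.1 + bact k A (DD k A (x.2 + y.2)) z.2 =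
        (om k A x.1 z.1 + bact k A (DD k A x.2) z.2) +
        (om k A y.1 z.1 + bact k A (DD k A y.2) z.2)
      simp only [map_add, LinearMap.add_apply]; abel
  lie_add x y z := by
    refine Prod.ext ?_ ?_
    · show mbr k A x.1 (y.1 + z.1) + DT k A (DD k A x.2) (y.1 + z.1)
          - DT k A (DD k A (y.2 + z.2)) x.1 =
        (mbr k A x.1 y.1 + DT k A (DD k A x.2) y.1 - DT k A (DD k A y.2) x.1) +
        (mbr k A x.1 z.1 + DT k A (DD k A x.2) z.1 - DT k A (DD k A z.2) x.1)
      simp only [map_add, LinearMap.add_apply]; abel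
    · show om k A x.1 (y.1 + z.1) + bact k A (DD k A x.2) (y.2 + z.2) =
        (om k A x.1 y.1 + bact k A (DD k A x.2) y.2) +
        (om k A x.1 z.1 + bact k A (DD k A x.2) z.2)
      simp only [map_add, LinearMap.add_apply]; abel
  lie_self x := by
    refine Prod.ext ?_ ?_
    · show mbr k A x.1 x.1 + DT k A (DD k A x.2) x.1 - DT k A (DD k A x.2) x.1 = 0
      rw [mbr_self, zero_add, sub_self]
    · show om k A x.1 x.1 + bact k A (DD k A x.2) x.2 = 0
      rw [om_self, bact_self, zero_add]
  leibniz_lie x y z := by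
    refine Prod.ext ?_ ?_
    · show mbr k A x.1 (mbr k A y.1 z.1 + DT k A (DD k A y.2) z.1 - DT k A (DD k A z.2) y.1) +
          DT k A (DD k A x.2) (mbr k A y.1 z.1 + DT k A (DD k A y.2) z.1 -
            DT k A (DD k A z.2) y.1) -
          DT k A (DD k A (om k A y.1 z.1 + bact k A (DD k A y.2) z.2)) x.1 =
        (mbr k A (mbr k A x.1 y.1 + DT k A (DD k A x.2) y.1 - DT k A (DD k A y.2) x.1) z.1 +
          DT k A (DD k A (om k A x.1 y.1 + bact k A (DD k A x.2) y.2)) z.1 -
          DT k A (DD k A z.2) (mbr k A x.1 y.1 + DT k A (DD k A x.2) y.1 -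
            DT k A (DD k A y.2) x.1)) +
        (mbr k A y.1 (mbr k A x.1 z.1 + DT k A (DD k A x.2) z.1 - DT k A (DD k A z.2) x.1) +
          DT k A (DD k A y.2) (mbr k A x.1 z.1 + DT k A (DD k A x.2) z.1 -
            DT k A (DD k A z.2) x.1) -
          DT k A (DD k A (om k A x.1 z.1 + bact k A (DD k A x.2) z.2)) y.1)
      simp only [map_add, map_sub, LinearMap.add_apply, LinearMap.sub_apply, DT_comm, DT_mbr]
      have h1 := jac_mat x.1 y.1 z.1
      have h2 := mbr_skew (DT k A (DD k A z.2) x.1) y.1
      linear_combination (norm := abel) h1 + h2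
    · show om k A x.1 (mbr k A y.1 z.1 + DT k A (DD k A y.2) z.1 - DT k A (DD k A z.2) y.1) +
          bact k A (DD k A x.2) (om k A y.1 z.1 + bact k A (DD k A y.2) z.2) =
        (om k A (mbr k A x.1 y.1 + DT k A (DD k A x.2) y.1 - DT k A (DD k A y.2) x.1) z.1 +
          bact k A (DD k A (om k A x.1 y.1 + bact k A (DD k A x.2) y.2)) z.2) +
        (om k A y.1 (mbr k A x.1 z.1 + DT k A (DD k A x.2) z.1 - DT k A (DD k A z.2) x.1) +
          bact k A (DD k A y.2) (om k A x.1 z.1 + bact k A (DD k A x.2) z.2))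
      simp only [map_add, map_sub, LinearMap.add_apply, LinearMap.sub_apply, bact_comm, bact_om]
      have h1 := om_mbr x.1 y.1 z.1
      have h2 := bact_skew (om k A x.1 y.1) z.2
      rw [bact_om] at h2
      have h3 := om_skew (DT k A (DD k A z.2) x.1) y.1
      linear_combination (norm := abel) h1 - h2 + h3

scoped instance : LieAlgebra k (ABGAlg k A) where
  lie_smul c x y := by
    refine Prod.ext ?_ ?_
    · show mbr k A x.1 (c • y.1) + DT k A (DD k A x.2) (c • y.1)
          - DT k A (DD k A (c • y.2)) x.1 =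
        c • (mbr k A x.1 y.1 + DT k A (DD k A x.2) y.1 - DT k A (DD k A y.2) x.1)
      simp only [map_smul, LinearMap.smul_apply, smul_add, smul_sub]
    · show om k A x.1 (c • y.1) + bact k A (DD k A x.2) (c • y.2) =
        c • (om k A x.1 y.1 + bact k A (DD k A x.2) y.2)
      simp only [map_smul, LinearMap.smul_apply, smul_add]

end Alg

end Pool.Agent.L7h64.ABG
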