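import Mathlib
import Pool.Agent.L7h64.ABGAlt

/-!
# The Allison-Benkart-Gao Lie algebra of an alternative algebra
-/

set_option autoImplicit false
set_option linter.unusedSimpArgs false
set_option linter.unusedSectionVars false

namespace Pool.Agent.L7h64.ABG

open TensorProduct

section Basic

variable (k A : Type*) [Field k] [NonUnitalNonAssocRing A] [Module k A] [IsScalarTower k A A]
  [SMulCommClass k A A]

/-- the subspace of `A ⊗ A` spanned by all `p ⊗ p` and all `pq ⊗ r + qr ⊗ p + rp ⊗ q` -/
def relB : Submodule k (A ⊗[k] A) :=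
  Submodule.span k ({x | ∃ p : A, x = p ⊗ₜ[k] p} ∪
    {x | ∃ p q r : A, x = (p * q) ⊗ₜ[k] r + (q * r) ⊗ₜ[k] p + (r * p) ⊗ₜ[k] q})

/-- The space `B(A) = Λ²(A) / span {pq ∧ r + qr ∧ p + rp ∧ q}`. -/
abbrev BA : Type _ := (A ⊗[k] A) ⧸ relB k A

/-- the class of `p ∧ q` in `B(A)` -/
def wd : A →ₗ[k] A →ₗ[k] BA k A := (TensorProduct.mk k A A).compr₂ (relB k A).mkQ

variable {k A}

lemma wd_self (p : A) : wd k A p p = 0 :=
  (Submodule.Quotient.mk_eq_zero _).2 (Submodule.subset_span (Or.inl ⟨p, rfl⟩))

lemma wd_cyc (p q r : A) : wd k A (p * q) r + wd k A (q * r) p + wd k A (r * p) q = 0 :=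
  (Submodule.Quotient.mk_eq_zero _).2 (Submodule.subset_span (Or.inr ⟨p, q, r, rfl⟩))

lemma wd_swap (p q : A) : wd k A p q = - wd k A q p := by
  have h := wd_self (k := k) (p + q)
  rw [map_add, map_add, LinearMap.add_apply, LinearMap.add_apply, wd_self, wd_self, zero_add,
    add_zero] at h
  exact eq_neg_of_add_eq_zero_right h

/-- induction for `B(A)` -/
lemma BA_ind {P : BA k A → Prop} (h0 : P 0) (h1 : ∀ p q, P (wd k A p q))
    (h2 : ∀ x y, P x → P y → P (x + y)) (x : BA k A) : P x := by
  obtain ⟨t, rfl⟩ := Submodule.mkQ_surjective _ x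
  induction t using TensorProduct.induction_on with
  | zero => simpa using h0
  | tmul p q => exact h1 p q
  | add x y hx hy => rw [map_add]; exact h2 _ _ hx hy

variable (k A) in
/-- the derivations of `A` -/
def derA : Submodule k (Module.End k A) where
  carrier := {D | ∀ x y : A, D (x * y) = D x * y + x * D y}
  add_mem' := by
    intro D E hD hE x y
    simp only [LinearMap.add_apply, hD x y, hE x y, add_mul, mul_add]
    abel
  zero_mem' := by
    intro x y
    simp
  smul_mem' := by
    intro c D hD x y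
    simp only [LinearMap.smul_apply, hD x y, smul_add, smul_mul_assoc, mul_smul_comm]

lemma Dop_smul_left (c : k) (p q r : A) : Dop (c • p) q r = c • Dop p q r := by
  simp only [Dop, smul_mul_assoc, mul_smul_comm, smul_sub, smul_add]

lemma Dop_smul_mid (c : k) (p q r : A) : Dop p (c • q) r = c • Dop p q r := by
  simp only [Dop, smul_mul_assoc, mul_smul_comm, smul_sub, smul_add]

lemma Dop_smul_right (c : k) (p q r : A) : Dop p q (c • r) = c • Dop p q r := by
  simp only [Dop, smul_mul_assoc, mul_smul_comm, smul_sub, smul_add]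

variable (k) in
/-- `D_{p,q} = [L_p, L_q] + [R_p, R_q] + [L_p, R_q]` as a linear map -/
def Dlin (p q : A) : Module.End k A where
  toFun r := Dop p q r
  map_add' r r' := Dop_add_right p q r r'
  map_smul' c r := Dop_smul_right c p q r

section Alt
variable [IsAlternative A]

variable (k A) in
/-- `(p, q) ↦ D_{p,q}`, a derivation of `A` -/
def Dbil : A →ₗ[k] A →ₗ[k] derA k A :=
  LinearMap.mk₂ k (fun p q => ⟨Dlin k p q, fun x y => Dop_der p q x y⟩)
    (fun p p' q => Subtype.ext (LinearMap.ext fun r => Dop_add_left p p' q r))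
    (fun c p q => Subtype.ext (LinearMap.ext fun r => Dop_smul_left c p q r))
    (fun p q q' => Subtype.ext (LinearMap.ext fun r => Dop_add_mid p q q' r))
    (fun c p q => Subtype.ext (LinearMap.ext fun r => Dop_smul_mid c p q r))

variable (k A) in
/-- the map `B(A) → Der(A)`, `p ∧ q ↦ D_{p,q}` -/
def DD : BA k A →ₗ[k] derA k A :=
  (relB k A).liftQ (TensorProduct.lift (Dbil k A)) (by
    rw [relB, Submodule.span_le]
    rintro x (⟨p, rfl⟩ | ⟨p, q, r, rfl⟩)
    · show TensorProduct.lift (Dbil k A) _ = 0
      rw [TensorProduct.lift.tmul]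
      exact Subtype.ext (LinearMap.ext fun s => Dop_self p s)
    · show TensorProduct.lift (Dbil k A) _ = 0
      rw [map_add, map_add, TensorProduct.lift.tmul, TensorProduct.lift.tmul,
        TensorProduct.lift.tmul]
      exact Subtype.ext (LinearMap.ext fun s => Dop_cyc p q r s))

lemma DD_wd (p q r : A) : (DD k A (wd k A p q)).1 r = Dop p q r := rfl

end Alt

/-- auxiliary map -/
def bactAux (D : Module.End k A) : A ⊗[k] A →ₗ[k] BA k A :=
  (relB k A).mkQ ∘ₗ (TensorProduct.map D LinearMap.id + TensorProduct.map LinearMap.id D)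

lemma bactAux_tmul (D : Module.End k A) (p q : A) :
    bactAux D (p ⊗ₜ q) = wd k A (D p) q + wd k A p (D q) := rfl

variable (k A) in
/-- the action of the derivations of `A` on `B(A)`: `D (p ∧ q) = D p ∧ q + p ∧ D q` -/
def bact : derA k A →ₗ[k] BA k A →ₗ[k] BA k A where
  toFun D := (relB k A).liftQ (bactAux D.1) (by
    refine Submodule.span_le.2 ?_
    rintro x (⟨p, rfl⟩ | ⟨p, q, r, rfl⟩)
    · show bactAux D.1 _ = 0
      rw [bactAux_tmul, wd_swap, neg_add_cancel]
    · show bactAux D.1 _ = 0
      rw [map_add, map_add, bactAux_tmul, bactAux_tmul, bactAux_tmul, D.2, D.2, D.2, map_add,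
        map_add, map_add, LinearMap.add_apply, LinearMap.add_apply, LinearMap.add_apply]
      have h1 := wd_cyc (k := k) (D.1 p) q r
      have h2 := wd_cyc (k := k) p (D.1 q) r
      have h3 := wd_cyc (k := k) p q (D.1 r)
      linear_combination (norm := abel) h1 + h2 + h3)
  map_add' D E := by
    ext p q
    show bactAux (D.1 + E.1) (p ⊗ₜ q) = bactAux D.1 (p ⊗ₜ q) + bactAux E.1 (p ⊗ₜ q)
    simp only [bactAux_tmul, LinearMap.add_apply, map_add]
    abel
  map_smul' c D := by
    ext p q
    show bactAux (c • D.1) (p ⊗ₜ q) = c • bactAux D.1 (p ⊗ₜ q)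
    simp only [bactAux_tmul, LinearMap.smul_apply, map_smul, smul_add]

lemma bact_wd (D : derA k A) (p q : A) :
    bact k A D (wd k A p q) = wd k A (D.1 p) q + wd k A p (D.1 q) := rfl

section Alt
variable [IsAlternative A]

/-- J3: `[D, D_c] = D_{D c}` -/
lemma DD_bact (D : derA k A) (c : BA k A) (r : A) :
    (DD k A (bact k A D c)).1 r = D.1 ((DD k A c).1 r) - (DD k A c).1 (D.1 r) := by
  induction c using BA_ind with
  | h0 => simp
  | h1 p q =>
    rw [bact_wd, map_add, Submodule.coe_add, LinearMap.add_apply, DD_wd, DD_wd, DD_wd, DD_wd]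
    simp only [Dop, map_add, map_sub, D.2 _ _]
    simp only [mul_add, add_mul]
    abel
  | h2 x y hx hy =>
    simp only [map_add, Submodule.coe_add, LinearMap.add_apply] at *
    rw [hx, hy]
    abel

/-- J6: the bracket of `B(A)` is skew -/
lemma bact_skew (b c : BA k A) : bact k A (DD k A b) c = - bact k A (DD k A c) b := by
  induction b using BA_ind with
  | h0 => simp
  | h1 p q =>
    induction c using BA_ind with
    | h0 => simp
    | h1 r s =>
      rw [bact_wd, bact_wd, DD_wd, DD_wd, DD_wd, DD_wd]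
      have := wedge_skew (wd k A) wd_self wd_cyc p q r s
      rw [← sub_eq_zero, sub_neg_eq_add]
      exact this
    | h2 x y hx hy =>
      simp only [map_add, LinearMap.add_apply] at *
      rw [hx, hy]
      abel
  | h2 x y hx hy =>
    simp only [map_add, LinearMap.add_apply] at *
    rw [hx, hy]
    abel

lemma bact_self [CharZero k] (b : BA k A) : bact k A (DD k A b) b = 0 := by
  have h := bact_skew b b
  have h2 : (2 : k) • bact k A (DD k A b) b = 0 := by
    rw [two_smul]; nth_rewrite 2 [h]; rw [add_neg_cancel]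
  exact (smul_eq_zero.1 h2).resolve_left (by norm_num)

end Alt

end Basic

end Pool.Agent.L7h64.ABG
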