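import Pool.Agent.L7h64.ABGCount

/-!
# The predicted dimensions
-/

set_option autoImplicit false
set_option linter.unusedSimpArgs false
set_option linter.unusedSectionVars false

namespace Pool.Agent.L7h64.ABG

open Finset

/-- the test functions: alternating sums over the Weyl group -/
def psi (a : ℤ) : ℤ → ℤ → ℤ := fun x y => altf (fun u v => if x = u ∧ y = v then 1 else 0) a a

/-- table -/
def tabM : List (List (List ℤ)) := [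
  [[0, 0, 0, 0, 0, 0, 0, 0, 0, 0, 0, 0, 0, 0, 0, 0, 0, 0, 0], [0, 0, 0, 0, 0, 0, 0, 0, 0, 0, 0, 0, 0, 0, 0, 0, 0, 0, 0], [0, 0, 0, 0, 0, 0, 0, 0, 0, 0, 0, 0, 0, 0, 0, 0, 0, 0, 0], [0, 0, 0, 0, 0, 0, 0, 0, 0, 0, 0, 0, 0, 0, 0, 0, 0, 0, 0], [0, 0, 0, 0, 0, 0, 0, 0, 0, 0, 0, 0, 0, 0, 0, 0, 0, 0, 0], [0, 0, 0, 0, 0, 0, 0, 0, 0, 0, 0, 0, 0, 0, 0, 0, 0, 0, 0], [0, 0, 0, 0, 0, 0, 0, 0, 0, 0, 0, 0, 0, 0, 0, 0, 0, 0, 0], [0, 0, 0, 0, 0, 0, 0, 0, 0, 0, 0, 0, 0, 0, 0, 0, 0, 0, 0], [0, 0, 0, 0, 0, 0, 0, 0, 0, 0, 0, 0, 0, 0, 0, 0, 0, 0, 0], [0, 0, 0, 0, 0, 0, 0, 0, 0, 1, -1, 0, 0, 0, 0, 0, 0, 0, 0], [0, 0, 0, 0, 0, 0, 0, 0, 0, -1, 0, 1, 0, 0, 0, 0, 0, 0, 0], [0, 0, 0, 0, 0, 0, 0, 0, 0, 0, 1, -1, 0, 0, 0, 0, 0, 0, 0], [0, 0, 0, 0, 0, 0, 0, 0, 0, 0, 0, 0, 0, 0, 0, 0, 0, 0, 0], [0, 0, 0, 0, 0, 0, 0, 0, 0, 0, 0, 0, 0, 0, 0, 0, 0, 0, 0], [0,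 0, 0, 0, 0, 0, 0, 0, 0, 0, 0, 0, 0, 0, 0, 0, 0, 0, 0], [0, 0, 0, 0, 0, 0, 0, 0, 0, 0, 0, 0, 0, 0, 0, 0, 0, 0, 0], [0, 0, 0, 0, 0, 0, 0, 0, 0, 0, 0, 0, 0, 0, 0, 0, 0, 0, 0], [0, 0, 0, 0, 0, 0, 0, 0, 0, 0, 0, 0, 0, 0, 0, 0, 0, 0, 0], [0, 0, 0, 0, 0, 0, 0, 0, 0, 0, 0, 0, 0, 0, 0, 0, 0, 0, 0]],
  [[0, 0, 0, 0, 0, 0, 0, 0, 0, 0, 0, 0, 0, 0, 0, 0, 0], [0, 0, 0, 0, 0, 0, 0, 0, 0, 0, 0, 0, 0, 0, 0, 0, 0], [0, 0, 0, 0, 0, 0, 0, 0, 0, 0, 0, 0, 0, 0, 0, 0, 0], [0, 0, 0, 0, 0, 0, 0, 0, 0, 0, 0, 0, 0, 0, 0, 0, 0], [0, 0, 0, 0, 0, 0, 0, 0, 0, 0, 0, 0, 0, 0, 0, 0, 0], [0, 0, 0, 0, 0, 0, 0, 0, 0, 0, 0, 0, 0, 0, 0, 0, 0], [0, 0, 0, 0, 0, 0, 0, 0, 0, 0, 0, 0, 0, 0, 0, 0, 0], [0, 0, 0, 0, 0, 0, 0, 1, 0, -1, 0, 0, 0, 0, 0, 0, 0], [0, 0, 0, 0, 0, 0, 0, 0, 0, 0, 0, 0, 0, 0, 0, 0, 0], [0, 0, 0, 0, 0, 0, 0, -1, 0, 0, 0, 1, 0, 0, 0, 0, 0], [0, 0,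 0, 0, 0, 0, 0, 0, 0, 0, 0, 0, 0, 0, 0, 0, 0], [0, 0, 0, 0, 0, 0, 0, 0, 0, 1, 0, -1, 0, 0, 0, 0, 0], [0, 0, 0, 0, 0, 0, 0, 0, 0, 0, 0, 0, 0, 0, 0, 0, 0], [0, 0, 0, 0, 0, 0, 0, 0, 0, 0, 0, 0, 0, 0, 0, 0, 0], [0, 0, 0, 0, 0, 0, 0, 0, 0, 0, 0, 0, 0, 0, 0, 0, 0], [0, 0, 0, 0, 0, 0, 0, 0, 0, 0, 0, 0, 0, 0, 0, 0, 0], [0, 0, 0, 0, 0, 0, 0, 0, 0, 0, 0, 0, 0, 0, 0, 0, 0]],
  [[0, 0, 0, 0, 0, 0, 0, 0, 0, 0, 0, 0, 0, 0, 0], [0, 0, 0, 0, 0, 0, 0, 0, 0, 0, 0, 0, 0, 0, 0], [0, 0, 0, 0, 0, 0, 0, 0, 0, 0, 0, 0, 0, 0, 0], [0, 0, 0, 0, 0, 0, 0, 0, 0, 0, 0, 0, 0, 0, 0], [0, 0, 0, 0, 0, 0, 0, 0, 0, 0, 0, 0, 0, 0, 0], [0, 0, 0, 0, 0, 1, 1, -1, -1, 0, 0, 0, 0, 0, 0], [0, 0, 0, 0, 0, 1, 2, 0, -2, -1, 0, 0, 0, 0, 0], [0, 0, 0, 0, 0, -1, 0, 1, -1, 0, 1, 0, 0, 0, 0], [0, 0, 0, 0, 0, -1, -2, -1, 0, 1, 2, 1, 0, 0, 0], [0, 0, 0, 0, 0, 0, -1, 0, 1, -1,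 0, 1, 0, 0, 0], [0, 0, 0, 0, 0, 0, 0, 1, 2, 0, -2, -1, 0, 0, 0], [0, 0, 0, 0, 0, 0, 0, 0, 1, 1, -1, -1, 0, 0, 0], [0, 0, 0, 0, 0, 0, 0, 0, 0, 0, 0, 0, 0, 0, 0], [0, 0, 0, 0, 0, 0, 0, 0, 0, 0, 0, 0, 0, 0, 0], [0, 0, 0, 0, 0, 0, 0, 0, 0, 0, 0, 0, 0, 0, 0]],
  [[0, 0, 0, 0, 0, 0, 0, 0, 0, 0, 0, 0, 0], [0, 0, 0, 0, 0, 0, 0, 0, 0, 0, 0, 0, 0], [0, 0, 0, 0, 0, 0, 0, 0, 0, 0, 0, 0, 0], [0, 0, 0, 1, 2, 0, -2, -1, 0, 0, 0, 0, 0], [0, 0, 0, 2, 6, 4, -4, -6, -2, 0, 0, 0, 0], [0, 0, 0, 0, 4, 8, 0, -8, -4, 0, 0, 0, 0], [0, 0, 0, -2, -4, 0, 2, -2, 0, 4, 2, 0, 0], [0, 0, 0, -1, -6, -8, -2, 0, 2, 8, 6, 1, 0], [0, 0, 0, 0, -2, -4, 0, 2, -2, 0, 4, 2, 0], [0, 0, 0, 0, 0, 0, 4, 8, 0, -8, -4, 0, 0], [0, 0, 0, 0, 0, 0, 2, 6, 4, -4, -6, -2, 0], [0, 0, 0, 0, 0, 0, 0, 1, 2, 0, -2, -1, 0], [0, 0, 0, 0, 0, 0, 0, 0, 0, 0, 0, 0, 0]],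
  [[0, 0, 0, 0, 0, 0, 0, 0, 0, 0, 0], [0, 1, 3, 2, -2, -3, -1, 0, 0, 0, 0], [0, 3, 12, 15, 0, -15, -12, -3, 0, 0, 0], [0, 2, 15, 33, 20, -20, -33, -15, -2, 0, 0], [0, -2, 0, 20, 32, 0, -32, -20, 0, 2, 0], [0, -3, -15, -20, 0, 8, -8, 0, 20, 15, 3], [0, -1, -12, -33, -32, -8, 0, 8, 32, 33, 12], [0, 0, -3, -15, -20, 0, 8, -8, 0, 20, 15], [0, 0, 0, -2, 0, 20, 32, 0, -32, -20, 0], [0, 0, 0, 0, 2, 15, 33, 20, -20, -33, -15], [0, 0, 0, 0, 0, 3, 12, 15, 0, -15, -12]],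
  [[20, 36, 20, -20, -36, -20, -4, 0, 0], [36, 94, 100, 0, -100, -94, -36, -5, 0], [20, 100, 180, 100, -100, -180, -100, -20, 0], [-20, 0, 100, 145, 0, -145, -100, 0, 20], [-36, -100, -100, 0, 32, -32, 0, 100, 100], [-20, -94, -180, -145, -32, 0, 32, 145, 180], [-4, -36, -100, -100, 0, 32, -32, 0, 100], [0, -5, -20, 0, 100, 145, 0, -145, -100], [0, 0, 0, 20, 100, 180, 100, -100, -180]],
  [[660, 630, 0, -630, -660, -315, -70], [630, 999, 525, -525, -999, -630, -161], [0, 525, 702, 0, -702, -525, 0], [-630, -525, 0, 145, -145, 0, 525], [-660, -999, -702, -145, 0, 145, 702], [-315, -630, -525, 0, 145, -145, 0], [-70, -161, 0, 525, 702, 0, -702]],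
  [[5670, 2856, -2856, -5670, -3920], [2856, 3598, 0, -3598, -2856], [-2856, 0, 702, -702, 0], [-5670, -3598, -702, 0, 702], [-3920, -2856, 0, 702, -702]],
  [[19280, 0, -19280], [0, 3598, -3598], [-19280, -3598, 0]],
  [[19280]]]

/-- table -/
def tabN : List (List (List ℤ)) := [
  [[0, 0, 0, 0, 0, 0, 0, 0, 0, 0, 0, 0, 0, 0, 0, 0, 0, 0, 0], [0, 0, 0, 0, 0, 0, 0, 0, 0, 0, 0, 0, 0, 0, 0, 0, 0, 0, 0], [0, 0, 0, 0, 0, 0, 0, 0, 0, 0, 0, 0, 0, 0, 0, 0, 0, 0, 0], [0, 0, 0, 0, 0, 0, 0, 0, 0, 0, 0, 0, 0, 0, 0, 0, 0, 0, 0], [0, 0, 0, 0, 0, 0, 0, 0, 0, 0, 0, 0, 0, 0, 0, 0, 0, 0, 0], [0, 0, 0, 0, 0, 0, 0, 0, 0, 0, 0, 0, 0, 0, 0, 0, 0, 0, 0], [0, 0, 0, 0, 0, 0, 0, 0, 0, 0, 0, 0, 0, 0, 0, 0, 0, 0, 0], [0, 0, 0, 0, 0, 0, 0, 0, 0, 0, 0, 0, 0, 0, 0, 0, 0, 0, 0], [0, 0, 0, 0, 0, 0, 0, 0, 0, 0, 0, 0, 0, 0, 0, 0, 0, 0, 0], [0, 0, 0, 0, 0, 0,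 0, 0, 0, 0, 0, 0, 0, 0, 0, 0, 0, 0, 0], [0, 0, 0, 0, 0, 0, 0, 0, 0, 0, 1, -1, 0, 0, 0, 0, 0, 0, 0], [0, 0, 0, 0, 0, 0, 0, 0, 0, 0, -1, 0, 1, 0, 0, 0, 0, 0, 0], [0, 0, 0, 0, 0, 0, 0, 0, 0, 0, 0, 1, -1, 0, 0, 0, 0, 0, 0], [0, 0, 0, 0, 0, 0, 0, 0, 0, 0, 0, 0, 0, 0, 0, 0, 0, 0, 0], [0, 0, 0, 0, 0, 0, 0, 0, 0, 0, 0, 0, 0, 0, 0, 0, 0, 0, 0], [0, 0, 0, 0, 0, 0, 0, 0, 0, 0, 0, 0, 0, 0, 0, 0, 0, 0, 0], [0, 0, 0, 0, 0, 0, 0, 0, 0, 0, 0, 0, 0, 0, 0, 0, 0, 0, 0], [0, 0, 0, 0, 0, 0, 0, 0, 0, 0, 0, 0, 0, 0, 0, 0, 0, 0, 0], [0, 0, 0, 0, 0, 0, 0, 0, 0, 0, 0, 0, 0, 0, 0, 0, 0, 0, 0]],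
  [[0, 0, 0, 0, 0, 0, 0, 0, 0, 0, 0, 0, 0, 0, 0, 0, 0], [0, 0, 0, 0, 0, 0, 0, 0, 0, 0, 0, 0, 0, 0, 0, 0, 0], [0, 0, 0, 0, 0, 0, 0, 0, 0, 0, 0, 0, 0, 0, 0, 0, 0], [0, 0, 0, 0, 0, 0, 0, 0, 0, 0, 0, 0, 0, 0, 0, 0, 0], [0, 0, 0, 0, 0, 0, 0, 0, 0, 0, 0, 0, 0, 0, 0, 0, 0], [0, 0, 0, 0, 0, 0, 0, 0, 0, 0, 0, 0, 0, 0, 0, 0, 0], [0, 0, 0, 0, 0, 0, 0, 0, 0, 0, 0, 0, 0, 0, 0, 0, 0], [0, 0, 0, 0, 0, 0, 0, 0, 0, 0, 0, 0, 0, 0, 0, 0, 0], [0, 0, 0, 0, 0, 0, 0, 0, 1, 0, -1, 0, 0, 0, 0, 0, 0], [0, 0, 0, 0, 0, 0, 0, 0, 0, 0, 0, 0, 0, 0, 0, 0, 0], [0, 0, 0, 0, 0, 0, 0, 0, -1, 0, 0, 0, 1, 0, 0, 0, 0], [0, 0, 0, 0, 0, 0, 0, 0, 0, 0, 0, 0, 0, 0, 0, 0, 0], [0, 0, 0, 0, 0, 0, 0, 0, 0, 0, 1, 0, -1, 0, 0, 0, 0], [0, 0, 0, 0, 0, 0, 0, 0, 0, 0, 0, 0, 0, 0, 0, 0, 0], [0, 0, 0, 0, 0, 0, 0, 0, 0, 0, 0, 0, 0, 0, 0, 0, 0], [0, 0, 0, 0, 0, 0, 0, 0, 0, 0, 0,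 0, 0, 0, 0, 0, 0], [0, 0, 0, 0, 0, 0, 0, 0, 0, 0, 0, 0, 0, 0, 0, 0, 0]],
  [[0, 0, 0, 0, 0, 0, 0, 0, 0, 0, 0, 0, 0, 0, 0], [0, 0, 0, 0, 0, 0, 0, 0, 0, 0, 0, 0, 0, 0, 0], [0, 0, 0, 0, 0, 0, 0, 0, 0, 0, 0, 0, 0, 0, 0], [0, 0, 0, 0, 0, 0, 0, 0, 0, 0, 0, 0, 0, 0, 0], [0, 0, 0, 0, 0, 0, 0, 0, 0, 0, 0, 0, 0, 0, 0], [0, 0, 0, 0, 0, 0, 0, 0, 0, 0, 0, 0, 0, 0, 0], [0, 0, 0, 0, 0, 0, 1, 1, -1, -1, 0, 0, 0, 0, 0], [0, 0, 0, 0, 0, 0, 1, 2, 0, -2, -1, 0, 0, 0, 0], [0, 0, 0, 0, 0, 0, -1, 0, 1, -1, 0, 1, 0, 0, 0], [0, 0, 0, 0, 0, 0, -1, -2, -1, 0, 1, 2, 1, 0, 0], [0, 0, 0, 0, 0, 0, 0, -1, 0, 1, -1, 0, 1, 0, 0], [0, 0, 0, 0, 0, 0, 0, 0, 1, 2, 0, -2, -1, 0, 0], [0, 0, 0, 0, 0, 0, 0, 0, 0, 1, 1, -1, -1, 0, 0], [0, 0, 0, 0, 0, 0, 0, 0, 0, 0, 0, 0, 0, 0, 0], [0, 0, 0, 0, 0, 0, 0, 0, 0, 0, 0, 0, 0, 0, 0]],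
  [[0, 0, 0, 0, 0, 0, 0, 0, 0, 0, 0, 0, 0], [0, 0, 0, 0, 0, 0, 0, 0, 0, 0, 0, 0, 0], [0, 0, 0, 0, 0, 0, 0, 0, 0, 0, 0, 0, 0], [0, 0, 0, 0, 0, 0, 0, 0, 0, 0, 0, 0, 0], [0, 0, 0, 0, 1, 2, 0, -2, -1, 0, 0, 0, 0], [0, 0, 0, 0, 2, 6, 4, -4, -6, -2, 0, 0, 0], [0, 0, 0, 0, 0, 4, 8, 0, -8, -4, 0, 0, 0], [0, 0, 0, 0, -2, -4, 0, 2, -2, 0, 4, 2, 0], [0, 0, 0, 0, -1, -6, -8, -2, 0, 2, 8, 6, 1], [0, 0, 0, 0, 0, -2, -4, 0, 2, -2, 0, 4, 2], [0, 0, 0, 0, 0, 0, 0, 4, 8, 0, -8, -4, 0], [0, 0, 0, 0, 0, 0, 0, 2, 6, 4, -4, -6, -2], [0, 0, 0, 0, 0, 0, 0, 0, 1, 2, 0, -2, -1]],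
  [[0, 0, 0, 0, 0, 0, 0, 0, 0, 0, 0], [0, 0, 0, 0, 0, 0, 0, 0, 0, 0, 0], [0, 0, 1, 3, 2, -2, -3, -1, 0, 0, 0], [0, 0, 3, 12, 15, 0, -15, -12, -3, 0, 0], [0, 0, 2, 15, 33, 20, -20, -33, -15, -2, 0], [0, 0, -2, 0, 20, 32, 0, -32, -20, 0, 2], [0, 0, -3, -15, -20, 0, 8, -8, 0, 20, 15], [0, 0, -1, -12, -33, -32, -8, 0, 8, 32, 33], [0, 0, 0, -3, -15, -20, 0, 8, -8, 0, 20], [0, 0, 0, 0, -2, 0, 20, 32, 0, -32, -20], [0, 0, 0, 0, 0, 2, 15, 33, 20, -20, -33]],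
  [[1, 4, 5, 0, -5, -4, -1, 0, 0], [4, 20, 36, 20, -20, -36, -20, -4, 0], [5, 36, 94, 100, 0, -100, -94, -36, -5], [0, 20, 100, 180, 100, -100, -180, -100, -20], [-5, -20, 0, 100, 145, 0, -145, -100, 0], [-4, -36, -100, -100, 0, 32, -32, 0, 100], [-1, -20, -94, -180, -145, -32, 0, 32, 145], [0, -4, -36, -100, -100, 0, 32, -32, 0], [0, 0, -5, -20, 0, 100, 145, 0, -145]],
  [[215, 315, 161, -161, -315, -215, -70], [315, 660, 630, 0, -630, -660, -315], [161, 630, 999, 525, -525, -999, -630], [-161, 0, 525, 702, 0, -702, -525], [-315, -630, -525, 0, 145, -145, 0], [-215, -660, -999, -702, -145, 0, 145], [-70, -315, -630, -525, 0, 145, -145]],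
  [[4424, 3920, 0, -3920, -4424], [3920, 5670, 2856, -2856, -5670], [0, 2856, 3598, 0, -3598], [-3920, -2856, 0, 702, -702], [-4424, -5670, -3598, -702, 0]],
  [[32914, 16044, -16044], [16044, 19280, 0], [-16044, 0, 3598]],
  [[107160]]]

/-- predicted dimensions -/
def tA : List ℤ := [0, 1, 2, 7, 32, 175, 1080, 7196, 49616, 336364]

/-- predicted dimensions -/
def tB : List ℤ := [0, 0, 1, 4, 21, 128, 875, 6480, 50372, 396928]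

/-- coefficients -/
def tC : List (List ℤ) := [
  [1, 0, 0, 0, 0, 0, 0, 0, 0, 0],
  [0, -1, 0, 0, 0, 0, 0, 0, 0, 0],
  [-1, -2, 1, 0, 0, 0, 0, 0, 0, 0],
  [-4, -4, 6, -1, 0, 0, 0, 0, 0, 0],
  [-18, -4, 34, -12, 1, 0, 0, 0, 0, 0],
  [-88, 65, 200, -120, 20, -1, 0, 0, 0, 0],
  [-415, 1028, 1150, -1180, 305, -30, 1, 0, 0, 0],
  [-1272, 11970, 5222, -11725, 4340, -644, 42, -1, 0, 0],
  [9450, 128056, -6300, -116592, 60900, -12376, 1204, -56, 1, 0]]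

/-- moments -/
def mM : List ℤ := [1, 0, 1, 2, 8, 32, 145, 702, 3598, 19280]

/-- moments -/
def mN : List ℤ := [0, 1, 2, 8, 32, 145, 702, 3598, 19280, 107160]

/-- lookup -/
def look (t : List (List (List ℤ))) (j i k : ℕ) : ℤ := ((t.getD j []).getD i []).getD k 0

/-- the tables compute the iterates of the operator -/
lemma look_eq (t : List (List (List ℤ))) (ψ : ℤ → ℤ → ℤ)
    (h0 : ∀ i < 19, ∀ k < 19, look t 0 i k = ψ ((i : ℤ) - 9) ((k : ℤ) - 9))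
    (h1 : ∀ j < 9, ∀ i < 2 * (8 - j) + 1, ∀ k < 2 * (8 - j) + 1, look t (j + 1) i k =
      2 * look t j (i + 1) (k + 1) + look t j (i + 2) (k + 1) + look t j (i + 1) (k + 2) +
      look t j (i + 2) (k + 2) + look t j i (k + 1) + look t j (i + 1) k + look t j i k)
    (j : ℕ) (hj : j ≤ 9) (i k : ℕ) (hi : i < 2 * (9 - j) + 1) (hk : k < 2 * (9 - j) + 1) :
    look t j i k = (Xop^[j] ψ) ((i : ℤ) - (9 - j)) ((k : ℤ) - (9 - j)) := by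
  induction j generalizing i k with
  | zero => simpa using h0 i (by omega) k (by omega)
  | succ j ih =>
    rw [h1 j (by omega) i (by omega) k (by omega), Function.iterate_succ_apply',
      ih (by omega) (i + 1) (k + 1) (by omega) (by omega),
      ih (by omega) (i + 2) (k + 1) (by omega) (by omega),
      ih (by omega) (i + 1) (k + 2) (by omega) (by omega),
      ih (by omega) (i + 2) (k + 2) (by omega) (by omega),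
      ih (by omega) i (k + 1) (by omega) (by omega),
      ih (by omega) (i + 1) k (by omega) (by omega),
      ih (by omega) i k (by omega) (by omega)]
    unfold Xop
    push_cast
    ring_nf

lemma momM (i : ℕ) (hi : i ≤ 9) : (Xop^[i] (psi 0)) 0 0 = mM.getD i 0 := by
  have h := look_eq tabM (psi 0) (by decide +kernel) (by decide +kernel) i hi (9 - i) (9 - i)
    (by omega) (by omega)
  have e : ((9 - i : ℕ) : ℤ) - (9 - i) = 0 := by omega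
  rw [e] at h
  rw [← h]
  have : ∀ i < 10, look tabM i (9 - i) (9 - i) = mM.getD i 0 := by decide +kernel
  exact this i (by omega)

lemma momN (i : ℕ) (hi : i ≤ 9) : (Xop^[i] (psi 1)) 0 0 = mN.getD i 0 := by
  have h := look_eq tabN (psi 1) (by decide +kernel) (by decide +kernel) i hi (9 - i) (9 - i)
    (by omega) (by omega)
  have e : ((9 - i : ℕ) : ℤ) - (9 - i) = 0 := by omega
  rw [e] at h
  rw [← h]
  have : ∀ i < 10, look tabN i (9 - i) (9 - i) = mN.getD i 0 := by decide +kernel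
  exact this i (by omega)

/-- coefficients -/
def cc (n i : ℕ) : ℤ := (tC.getD n []).getD i 0

/-- evaluation of a polynomial in the operator `Xop` at the origin -/
def ev (c : ℕ → ℤ) (ψ : ℤ → ℤ → ℤ) : ℤ := ∑ i ∈ range 9, c i * (Xop^[i] ψ) 0 0

lemma Xop_lin (α β : ℤ) (φ ψ : ℤ → ℤ → ℤ) : Xop (fun x y => α * φ x y + β * ψ x y) =
    fun x y => α * Xop φ x y + β * Xop ψ x y := by
  funext x y
  unfold Xop
  ring

lemma Xop_iter_lin (i : ℕ) (α β : ℤ) (φ ψ : ℤ → ℤ → ℤ) :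
    Xop^[i] (fun x y => α * φ x y + β * ψ x y) =
    fun x y => α * (Xop^[i] φ) x y + β * (Xop^[i] ψ) x y := by
  induction i with
  | zero => rfl
  | succ i ih => rw [Function.iterate_succ_apply', ih, Xop_lin, Function.iterate_succ_apply',
      Function.iterate_succ_apply']

lemma ev_lin (c : ℕ → ℤ) (α β : ℤ) (φ ψ : ℤ → ℤ → ℤ) :
    ev c (fun x y => α * φ x y + β * ψ x y) = α * ev c φ + β * ev c ψ := by
  unfold ev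
  rw [Finset.mul_sum, Finset.mul_sum, ← Finset.sum_add_distrib]
  refine Finset.sum_congr rfl fun i _ => ?_
  rw [Xop_iter_lin]
  ring

lemma ev_X (c : ℕ → ℤ) (ψ : ℤ → ℤ → ℤ) :
    ev c (Xop ψ) = ∑ i ∈ range 9, c i * (Xop^[i + 1] ψ) 0 0 := by
  unfold ev
  refine Finset.sum_congr rfl fun i _ => ?_
  rw [Function.iterate_succ_apply]

lemma sumM1 (m : ℕ) : ∑ i ∈ range 9, cc m i * (Xop^[i + 1] (psi 0)) 0 0 =
    ∑ i ∈ range 9, cc m i * mM.getD (i + 1) 0 :=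
  Finset.sum_congr rfl fun i hi => by
    rw [Finset.mem_range] at hi
    rw [momM (i + 1) (by omega)]

lemma sumM0 (m : ℕ) : ∑ i ∈ range 9, cc m i * (Xop^[i] (psi 0)) 0 0 =
    ∑ i ∈ range 9, cc m i * mM.getD i 0 :=
  Finset.sum_congr rfl fun i hi => by
    rw [Finset.mem_range] at hi
    rw [momM i (by omega)]

lemma sumN1 (m : ℕ) : ∑ i ∈ range 9, cc m i * (Xop^[i + 1] (psi 1)) 0 0 =
    ∑ i ∈ range 9, cc m i * mN.getD (i + 1) 0 :=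
  Finset.sum_congr rfl fun i hi => by
    rw [Finset.mem_range] at hi
    rw [momN (i + 1) (by omega)]

lemma sumN0 (m : ℕ) : ∑ i ∈ range 9, cc m i * (Xop^[i] (psi 1)) 0 0 =
    ∑ i ∈ range 9, cc m i * mN.getD i 0 :=
  Finset.sum_congr rfl fun i hi => by
    rw [Finset.mem_range] at hi
    rw [momN i (by omega)]

lemma chk0 : ∀ n < 10, 2 ≤ n → ∑ j ∈ range (n - 1), ((n - 1).choose j : ℤ) *
    (tA.getD (j + 1) 0 * (∑ i ∈ range 9, cc (n - 1 - j) i * mM.getD (i + 1) 0) +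
    tB.getD (j + 1) 0 * (∑ i ∈ range 9, cc (n - 1 - j) i * mM.getD i 0)) = -tB.getD n 0 := by
  decide +kernel

lemma chk1 : ∀ n < 10, 2 ≤ n → ∑ j ∈ range (n - 1), ((n - 1).choose j : ℤ) *
    (tA.getD (j + 1) 0 * (∑ i ∈ range 9, cc (n - 1 - j) i * mN.getD (i + 1) 0) +
    tB.getD (j + 1) 0 * (∑ i ∈ range 9, cc (n - 1 - j) i * mN.getD i 0)) = -tA.getD n 0 := by
  decide +kernel

lemma chk2 : ∀ n < 9, 1 ≤ n → ∀ i < 9, cc n i =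
      -(if i = 1 then tA.getD n 0 else 0) - (if i = 0 then tB.getD n 0 else 0) -
      ∑ j ∈ range (n - 1), ((n - 1).choose j : ℤ) * (tA.getD (j + 1) 0 *
        (if i = 0 then 0 else cc (n - 1 - j) (i - 1)) + tB.getD (j + 1) 0 * cc (n - 1 - j) i) := by
  decide +kernel

lemma h8 : ∀ m < 8, cc m 8 = 0 := by decide +kernel

lemma chk3 : ∀ i < 9, cc 0 i = if i = 0 then 1 else 0 := by decide +kernel

lemma coef_lemma (n : ℕ) (hn : n < 9) (hpos : 1 ≤ n) (q : ℕ → ℤ) :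
    -(∑ j ∈ range (n - 1), ((n - 1).choose j : ℤ) *
      (tA.getD (j + 1) 0 * (∑ i ∈ range 9, cc (n - 1 - j) i * q (i + 1)) +
        tB.getD (j + 1) 0 * (∑ i ∈ range 9, cc (n - 1 - j) i * q i)) +
      (tA.getD n 0 * q 1 + tB.getD n 0 * q 0)) = ∑ i ∈ range 9, cc n i * q i := by
  have e0 : ∑ i ∈ range 9, cc n i * q i = ∑ i ∈ range 9,
      (-(if i = 1 then tA.getD n 0 else 0) - (if i = 0 then tB.getD n 0 else 0) -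
      ∑ j ∈ range (n - 1), ((n - 1).choose j : ℤ) * (tA.getD (j + 1) 0 *
        (if i = 0 then 0 else cc (n - 1 - j) (i - 1)) +
        tB.getD (j + 1) 0 * cc (n - 1 - j) i)) * q i :=
    Finset.sum_congr rfl (fun i hi => by rw [chk2 n hn hpos i (Finset.mem_range.1 hi)])
  have e2 : ∀ j ∈ range (n - 1), ∑ i ∈ range 9, cc (n - 1 - j) i * q (i + 1) =
      ∑ i ∈ range 9, (if i = 0 then 0 else cc (n - 1 - j) (i - 1)) * q i := by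
    intro j _
    rw [Finset.sum_range_succ, h8 (n - 1 - j) (by omega), Finset.sum_range_succ' _ 8]
    simp
  have e3 : ∑ i ∈ range 9, (if i = 1 then tA.getD n 0 else 0) * q i = tA.getD n 0 * q 1 := by
    simp [Finset.sum_range_succ]
  have e4 : ∑ i ∈ range 9, (if i = 0 then tB.getD n 0 else 0) * q i = tB.getD n 0 * q 0 := by
    simp [Finset.sum_range_succ]
  have e5 : ∑ i ∈ range 9, ∑ j ∈ range (n - 1), ((n - 1).choose j : ℤ) * (tA.getD (j + 1) 0 *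
        (if i = 0 then 0 else cc (n - 1 - j) (i - 1)) + tB.getD (j + 1) 0 * cc (n - 1 - j) i) * q i
      = ∑ j ∈ range (n - 1), ((n - 1).choose j : ℤ) * (tA.getD (j + 1) 0 *
        (∑ i ∈ range 9, cc (n - 1 - j) i * q (i + 1)) +
        tB.getD (j + 1) 0 * ∑ i ∈ range 9, cc (n - 1 - j) i * q i) := by
    rw [Finset.sum_comm]
    refine Finset.sum_congr rfl fun j hj => ?_
    rw [e2 j hj, Finset.mul_sum, Finset.mul_sum, ← Finset.sum_add_distrib, Finset.mul_sum]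
    refine Finset.sum_congr rfl fun i _ => ?_
    ring
  rw [e0]
  simp only [sub_mul, Finset.sum_sub_distrib, Finset.sum_mul, neg_mul, Finset.sum_neg_distrib]
  rw [e3, e4, e5]
  ring

section Main

variable {I : Type*} [DecidableEq I] {deg : I → Fin 9 → ℕ} {wx wy : I → ℤ}
    {JS : (Fin 9 → ℕ) → Finset (Finset I)} {Idx : Finset (Fin 9) → Finset I}
    {a b : Finset (Fin 9) → ℤ} (C : Cnt deg wx wy JS Idx a b)

include C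

/-- the recursion in terms of cardinalities -/
lemma Fs_card (n : ℕ) (hn : 1 ≤ n)
    (IH : ∀ m < n, ∀ T : Finset (Fin 9), T.card = m →
      (1 ≤ m → a T = tA.getD m 0 ∧ b T = tB.getD m 0) ∧
      (m ≤ 8 → ∀ ψ, Fs wx wy JS (ind T) ψ = ev (cc m) ψ)) (hn9 : n ≤ 9)
    (T : Finset (Fin 9)) (hT : T.card = n) (ψ : ℤ → ℤ → ℤ) :
    Fs wx wy JS (ind T) ψ = -(∑ j ∈ range (n - 1), ((n - 1).choose j : ℤ) *
      (tA.getD (j + 1) 0 * (∑ i ∈ range 9, cc (n - 1 - j) i * (Xop^[i + 1] ψ) 0 0) +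
        tB.getD (j + 1) 0 * (∑ i ∈ range 9, cc (n - 1 - j) i * (Xop^[i] ψ) 0 0)) +
      (a T * Xop ψ 0 0 + b T * ψ 0 0)) := by
  obtain ⟨m, hm⟩ : T.Nonempty := by rw [← Finset.card_pos]; omega
  rw [C.Fs_rec T m hm]
  congr 1
  have hcard : (T.erase m).card = n - 1 := by rw [Finset.card_erase_of_mem hm, hT]
  let G : ℕ → ℤ := fun j => if j < n - 1 then
    (tA.getD (j + 1) 0 * (∑ i ∈ range 9, cc (n - 1 - j) i * (Xop^[i + 1] ψ) 0 0) +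
        tB.getD (j + 1) 0 * (∑ i ∈ range 9, cc (n - 1 - j) i * (Xop^[i] ψ) 0 0))
    else a T * Xop ψ 0 0 + b T * ψ 0 0
  have h1 : ∑ T' ∈ T.powerset.filter (fun T' => m ∈ T'),
      Fs wx wy JS (ind (T \ T')) (fun x y => a T' * Xop ψ x y + b T' * ψ x y) =
      ∑ U ∈ (T.erase m).powerset, G U.card := by
    symm
    refine Finset.sum_bij (fun U _ => insert m U) ?_ ?_ ?_ ?_
    · intro U hU
      rw [Finset.mem_powerset] at hU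
      rw [Finset.mem_filter, Finset.mem_powerset]
      refine ⟨?_, Finset.mem_insert_self _ _⟩
      rw [Finset.insert_subset_iff]
      exact ⟨hm, hU.trans (Finset.erase_subset _ _)⟩
    · intro U1 h1 U2 h2 heq
      rw [Finset.mem_powerset] at h1 h2
      have g1 : m ∉ U1 := fun h => by simpa using h1 h
      have g2 : m ∉ U2 := fun h => by simpa using h2 h
      rw [← Finset.erase_insert g1, heq, Finset.erase_insert g2]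
    · intro T' hT'
      rw [Finset.mem_filter, Finset.mem_powerset] at hT'
      refine ⟨T'.erase m, ?_, Finset.insert_erase hT'.2⟩
      rw [Finset.mem_powerset]
      exact Finset.erase_subset_erase _ hT'.1
    · intro U hU
      rw [Finset.mem_powerset] at hU
      have g1 : m ∉ U := fun h => by simpa using hU h
      have hle : U.card ≤ n - 1 := hcard ▸ Finset.card_le_card hU
      have hsub : insert m U ⊆ T := by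
        rw [Finset.insert_subset_iff]
        exact ⟨hm, hU.trans (Finset.erase_subset _ _)⟩
      have hc1 : (insert m U).card = U.card + 1 := Finset.card_insert_of_notMem g1
      have hc2 : (T \ insert m U).card = n - 1 - U.card := by
        rw [Finset.card_sdiff_of_subset hsub, hc1, hT]; omega
      show G U.card = _
      by_cases hlt : U.card < n - 1
      · have q1 := (IH (U.card + 1) (by omega) (insert m U) hc1).1 (by omega)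
        have q2 := (IH (n - 1 - U.card) (by omega) (T \ insert m U) hc2).2 (by omega)
        rw [q2, ev_lin, q1.1, q1.2, ev_X]
        show (if U.card < n - 1 then _ else _) = _
        rw [if_pos hlt]
        rfl
      · have h3 : U = T.erase m := Finset.eq_of_subset_of_card_le hU (by omega)
        have h4 : insert m U = T := by rw [h3, Finset.insert_erase hm]
        rw [h4, Finset.sdiff_self, C.Fs_empty]
        show (if U.card < n - 1 then _ else _) = _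
        rw [if_neg hlt]
  rw [h1, Finset.sum_powerset_apply_card, hcard, Finset.sum_range_succ]
  congr 1
  · refine Finset.sum_congr rfl fun j hj => ?_
    rw [Finset.mem_range] at hj
    show _ • (if j < n - 1 then _ else _) = _
    rw [if_pos hj, nsmul_eq_mul]
  · show _ • (if n - 1 < n - 1 then _ else _) = _
    rw [if_neg (lt_irrefl _), Nat.choose_self, one_smul]

/-- the recursion determines the dimensions -/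
theorem num_all (h1 : ∀ T : Finset (Fin 9), T.card = 1 → a T = 1 ∧ b T = 0)
    (h0 : ∀ T : Finset (Fin 9), 2 ≤ T.card → Fs wx wy JS (ind T) (psi 0) = 0 ∧
      Fs wx wy JS (ind T) (psi 1) = 0) (n : ℕ) (hn : n ≤ 9) :
    ∀ T : Finset (Fin 9), T.card = n → (1 ≤ n → a T = tA.getD n 0 ∧ b T = tB.getD n 0) ∧
      (n ≤ 8 → ∀ ψ, Fs wx wy JS (ind T) ψ = ev (cc n) ψ) := by
  induction n using Nat.strong_induction_on with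
  | _ n ih =>
  intro T hT
  rcases Nat.eq_zero_or_pos n with rfl | hpos
  · refine ⟨fun h => absurd h (by norm_num), fun _ ψ => ?_⟩
    rw [Finset.card_eq_zero] at hT
    rw [hT, C.Fs_empty]
    unfold ev
    have hc : ∀ i < 9, cc 0 i = if i = 0 then 1 else 0 := chk3
    rw [Finset.sum_congr rfl (fun i hi => by rw [hc i (Finset.mem_range.1 hi)])]
    simp
  have hrec := Fs_card C n hpos (fun m hm T hT => ih m hm (by omega) T hT) hn T hT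
  have hab : a T = tA.getD n 0 ∧ b T = tB.getD n 0 := by
    rcases Nat.lt_or_ge n 2 with hn2 | hn2
    · have : n = 1 := by omega
      subst this
      exact h1 T hT
    · obtain ⟨z0, z1⟩ := h0 T (by omega)
      have r0 := hrec (psi 0)
      have r1 := hrec (psi 1)
      rw [z0] at r0
      rw [z1] at r1
      simp only [sumM1, sumM0] at r0
      simp only [sumN1, sumN0] at r1
      have m0 : psi 0 0 0 = 1 := by decide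
      have m1 : Xop (psi 0) 0 0 = 0 := by decide
      have n0 : psi 1 0 0 = 0 := by decide
      have n1 : Xop (psi 1) 0 0 = 1 := by decide
      rw [m0, m1] at r0
      rw [n0, n1] at r1
      rw [chk0 n (by omega) hn2] at r0
      rw [chk1 n (by omega) hn2] at r1
      constructor <;> linarith
  refine ⟨fun _ => hab, fun hn8 ψ => ?_⟩
  rw [hrec ψ, hab.1, hab.2]
  unfold ev
  have e1 : Xop ψ 0 0 = (Xop^[1] ψ) 0 0 := rfl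
  have e0 : ψ 0 0 = (Xop^[0] ψ) 0 0 := rfl
  rw [e1, e0]
  exact coef_lemma n (by omega) hpos (fun i => (Xop^[i] ψ) 0 0)

/-- the contradiction: the predicted dimension in degree nine -/
theorem num_main (h1 : ∀ T : Finset (Fin 9), T.card = 1 → a T = 1 ∧ b T = 0)
    (h0 : ∀ T : Finset (Fin 9), 2 ≤ T.card → Fs wx wy JS (ind T) (psi 0) = 0 ∧
      Fs wx wy JS (ind T) (psi 1) = 0) : a Finset.univ = 336364 :=
  (((num_all C h1 h0 9 le_rfl) Finset.univ (by simp)).1 (by norm_num)).1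

end Main

end Pool.Agent.L7h64.ABG
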