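import Pool.Agent.L7h64.ABGDim
import Pool.Agent.L7h64.ABGNum

/-!
# Assembly
-/

set_option autoImplicit false
set_option linter.unusedSimpArgs false
set_option linter.unusedSectionVars false

namespace Pool.Agent.L7h64.ABG

open Module Matrix

section Der

variable {k A : Type*} [Field k] [NonUnitalNonAssocRing A] [Module k A] [IsScalarTower k A A]
  [SMulCommClass k A A]

variable (k A) in
/-- the inclusion of the matrix part -/
def inT : T0 k A →ₗ[k] ABGAlg k A := LinearMap.inl k (T0 k A) (BA k A)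

variable (k A) in
/-- the inclusion of `B(A)` -/
def inB : BA k A →ₗ[k] ABGAlg k A := LinearMap.inr k (T0 k A) (BA k A)

lemma inT_apply (M : T0 k A) : inT k A M = ((M, 0) : ↥(T0 k A) × BA k A) := rfl
lemma inB_apply (b : BA k A) : inB k A b = ((0, b) : ↥(T0 k A) × BA k A) := rfl

variable [CharZero k] [IsAlternative A]

/-- the bracket of two pure tensors -/
lemma bracket_ten (X Y : M3 k) (hX : X.trace = 0) (hY : Y.trace = 0) (p q : A) :
    ⁅inT k A (tenT X hX p), inT k A (tenT Y hY q)⁆ =
      inT k A (tenT (dv (X * Y)) (trace_dv _) (p * q) - tenT (dv (Y * X)) (trace_dv _) (q * p)) +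
      inB k A (((1 / 3 : k) * (X * Y).trace) • wd k A p q) := by
  refine Prod.ext ?_ ?_
  · show mbr k A (tenT X hX p) (tenT Y hY q) + DT k A (DD k A 0) _ - DT k A (DD k A 0) _ =
      (tenT (dv (X * Y)) (trace_dv _) (p * q) - tenT (dv (Y * X)) (trace_dv _) (q * p)) + 0
    rw [mbr_ten, map_zero, map_zero, LinearMap.zero_apply, LinearMap.zero_apply, add_zero,
      sub_zero]
  · show om k A (tenT X hX p) (tenT Y hY q) + bact k A (DD k A 0) 0 =
      0 + ((1 / 3 : k) * (X * Y).trace) • wd k A p q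
    rw [om_ten, map_zero, add_zero, zero_add]

variable (k A) in
/-- the derived algebra -/
def der1 : Submodule k (ABGAlg k A) := Submodule.span k {z | ∃ x y : ABGAlg k A, ⁅x, y⁆ = z}

lemma mem_der1 (x y : ABGAlg k A) : ⁅x, y⁆ ∈ der1 k A := Submodule.subset_span ⟨x, y, rfl⟩

/-- off-diagonal case -/
lemma der1_off (i l j : Fin 3) (hij : i ≠ j) (hil : i ≠ l) (hlj : l ≠ j)
    (h : (Matrix.single i j (1 : k)).trace = 0) (p q : A) :
    inT k A (tenT (Matrix.single i j 1) h (p * q)) ∈ der1 k A := by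
  have h1 : (Matrix.single i l (1 : k)).trace = 0 := Matrix.trace_single_eq_of_ne i l 1 hil
  have h2 : (Matrix.single l j (1 : k)).trace = 0 := Matrix.trace_single_eq_of_ne l j 1 hlj
  have h3 := bracket_ten (Matrix.single i l (1 : k)) (Matrix.single l j 1) h1 h2 p q
  have e1 : Matrix.single i l (1 : k) * Matrix.single l j 1 = Matrix.single i j 1 := by
    rw [Matrix.single_mul_single_same, one_mul]
  have e2 : Matrix.single l j (1 : k) * Matrix.single i l 1 = 0 :=
    Matrix.single_mul_single_of_ne _ _ _ _ (Ne.symm hij) _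
  have e3 : tenT (dv (Matrix.single i l (1 : k) * Matrix.single l j 1)) (trace_dv _) (p * q) =
      tenT (Matrix.single i j 1) h (p * q) := tenT_congr (by rw [e1, dv_of_trace _ h]) _
  have e4 : tenT (dv (Matrix.single l j (1 : k) * Matrix.single i l 1)) (trace_dv _) (q * p) =
      0 := by
    apply Subtype.ext
    ext u v
    rw [tenT_apply, e2, dv_of_trace _ (Matrix.trace_zero _ _)]
    exact zero_smul _ _
  rw [e3, e4, sub_zero, e1, h, mul_zero, zero_smul, map_zero, add_zero] at h3
  rw [← h3]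
  exact mem_der1 _ _

/-- the diagonal matrices `E_ii - E_jj` -/
lemma der1_diag (i j l : Fin 3) (hij : i ≠ j) (hil : i ≠ l) (hlj : l ≠ j)
    (h : (Matrix.single i i (1 : k) - Matrix.single j j 1).trace = 0) (p q : A) :
    inT k A (tenT (Matrix.single i i 1 - Matrix.single j j 1) h (p * q)) ∈ der1 k A := by
  have t1 : (Matrix.single l j (1 : k)).trace = 0 := Matrix.trace_single_eq_of_ne l j 1 hlj
  have t2 : (Matrix.single j l (1 : k)).trace = 0 := Matrix.trace_single_eq_of_ne j l 1 hlj.symm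
  have t3 : (Matrix.single l i (1 : k)).trace = 0 := Matrix.trace_single_eq_of_ne l i 1 hil.symm
  have t4 : (Matrix.single i l (1 : k)).trace = 0 := Matrix.trace_single_eq_of_ne i l 1 hil
  have b1 := bracket_ten (Matrix.single l j (1 : k)) (Matrix.single j l 1) t1 t2 q p
  have b2 := bracket_ten (Matrix.single l i (1 : k)) (Matrix.single i l 1) t3 t4 q p
  have e1 : Matrix.single l j (1 : k) * Matrix.single j l 1 =
    Matrix.single l i (1 : k) * Matrix.single i l 1 := by
    rw [Matrix.single_mul_single_same, Matrix.single_mul_single_same]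
  have e2 : Matrix.single j l (1 : k) * Matrix.single l j 1 = Matrix.single j j 1 := by
    rw [Matrix.single_mul_single_same, one_mul]
  have e3 : Matrix.single i l (1 : k) * Matrix.single l i 1 = Matrix.single i i 1 := by
    rw [Matrix.single_mul_single_same, one_mul]
  have e4 : ⁅inT k A (tenT (Matrix.single l j 1) t1 q), inT k A (tenT (Matrix.single j l 1) t2 p)⁆
      - ⁅inT k A (tenT (Matrix.single l i 1) t3 q), inT k A (tenT (Matrix.single i l 1) t4 p)⁆ =
      inT k A (tenT (Matrix.single i i 1 - Matrix.single j j 1) h (p * q)) := by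
    rw [b1, b2, e1, add_sub_add_right_eq_sub, ← map_sub, sub_sub_sub_cancel_left]
    congr 1
    apply Subtype.ext
    ext u v
    show (dv (Matrix.single i l (1 : k) * Matrix.single l i 1)) u v • (p * q) -
      (dv (Matrix.single j l (1 : k) * Matrix.single l j 1)) u v • (p * q) =
      (Matrix.single i i (1 : k) - Matrix.single j j 1 : M3 k) u v • (p * q)
    rw [e2, e3, ← sub_smul, ← Matrix.sub_apply, ← dv_sub, dv_of_trace _ h]
  rw [← e4]
  exact Submodule.sub_mem _ (mem_der1 _ _) (mem_der1 _ _)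

lemma der1_Xs (j : Fin 8) (p q : A) : inT k A (tenT (Xs k j) (trace_Xs j) (p * q)) ∈ der1 k A := by
  fin_cases j
  · exact der1_off 0 2 1 (by decide) (by decide) (by decide) (trace_Xs (k := k) 0) p q
  · exact der1_off 0 1 2 (by decide) (by decide) (by decide) (trace_Xs (k := k) 1) p q
  · exact der1_off 1 2 0 (by decide) (by decide) (by decide) (trace_Xs (k := k) 2) p q
  · exact der1_off 1 0 2 (by decide) (by decide) (by decide) (trace_Xs (k := k) 3) p q
  · exact der1_off 2 1 0 (by decide) (by decide) (by decide) (trace_Xs (k := k) 4) p q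
  · exact der1_off 2 0 1 (by decide) (by decide) (by decide) (trace_Xs (k := k) 5) p q
  · exact der1_diag 0 1 2 (by decide) (by decide) (by decide) (trace_Xs (k := k) 6) p q
  · exact der1_diag 1 2 0 (by decide) (by decide) (by decide) (trace_Xs (k := k) 7) p q

/-- every product matrix lies in the derived algebra -/
lemma der1_all (X : M3 k) (hX : X.trace = 0) (p q : A) : inT k A (tenT X hX (p * q)) ∈ der1 k A := by
  have h := (eT k A).apply_symm_apply (tenT X hX (p * q))
  rw [← h]
  have h2 : ∀ f : Fin 8 → A, (∀ j, ∃ c : k, f j = c • (p * q)) →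
      inT k A (eT k A f) ∈ der1 k A := by
    intro f hf
    have h3 : f = ∑ j, Pi.single j (f j) := (Finset.univ_sum_single f).symm
    rw [h3, map_sum, map_sum]
    refine Submodule.sum_mem _ fun j _ => ?_
    obtain ⟨c, hc⟩ := hf j
    rw [eT_single, hc]
    have h4 : tenT (Xs k j) (trace_Xs j) (c • (p * q)) = c • tenT (Xs k j) (trace_Xs j) (p * q) := by
      apply Subtype.ext
      ext u v
      show (Xs k j) u v • (c • (p * q)) = c • ((Xs k j) u v • (p * q))
      rw [smul_comm]
    rw [h4, map_smul]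
    exact Submodule.smul_mem _ _ (der1_Xs j p q)
  apply h2
  intro j
  fin_cases j
  · exact ⟨X 0 1, rfl⟩
  · exact ⟨X 0 2, rfl⟩
  · exact ⟨X 1 0, rfl⟩
  · exact ⟨X 1 2, rfl⟩
  · exact ⟨X 2 0, rfl⟩
  · exact ⟨X 2 1, rfl⟩
  · exact ⟨X 0 0, rfl⟩
  · exact ⟨X 0 0 + X 1 1, (add_smul _ _ _).symm⟩

/-- `B(A)` lies in the derived algebra -/
lemma der1_wd (p q : A) : inB k A (wd k A p q) ∈ der1 k A := by
  have t1 : (Matrix.single 0 1 (1 : k) : M3 k).trace = 0 :=
    Matrix.trace_single_eq_of_ne 0 1 1 (by decide)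
  have t2 : (Matrix.single 1 0 (1 : k) : M3 k).trace = 0 :=
    Matrix.trace_single_eq_of_ne 1 0 1 (by decide)
  have b1 := bracket_ten (Matrix.single 0 1 (1 : k)) (Matrix.single 1 0 1) t1 t2 p q
  have e1 : (Matrix.single 0 1 (1 : k) * Matrix.single 1 0 1 : M3 k).trace = 1 := by
    rw [Matrix.single_mul_single_same, one_mul, Matrix.trace_single_eq_same]
  rw [e1, mul_one, map_sub, map_smul] at b1
  have e2 : inB k A (wd k A p q) = (3 : k) •
      (⁅inT k A (tenT (Matrix.single 0 1 1) t1 p), inT k A (tenT (Matrix.single 1 0 1) t2 q)⁆ -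
      (inT k A (tenT (dv (Matrix.single 0 1 (1 : k) * Matrix.single 1 0 1)) (trace_dv _) (p * q)) -
      inT k A (tenT (dv (Matrix.single 1 0 (1 : k) * Matrix.single 0 1 1)) (trace_dv _)
        (q * p)))) := by
    rw [b1, add_sub_cancel_left, smul_smul]
    norm_num
  rw [e2]
  exact Submodule.smul_mem _ _ (Submodule.sub_mem _ (mem_der1 _ _)
    (Submodule.sub_mem _ (der1_all _ _ _ _) (der1_all _ _ _ _)))

end Der

/-! ### the Euler characteristic as a signed count -/

section Eul

variable {k L I σ : Type*} [Field k] [CharZero k] [LieRing L] [LieAlgebra k L] {b : Basis I k L}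
    {deg : I → σ → ℕ} {wx wy : I → ℤ} {E : σ → L →ₗ[k] L}
    {act : Matrix (Fin 3) (Fin 3) k →ₗ[k] (L →ₗ[k] L)} [LinearOrder I] [Fintype σ]
    (G : GrLie b deg wx wy E act)

lemma eul_eq_sum (S : σ → ℕ) (x y : ℤ) : G.eul S x y = ∑ J ∈ G.JS S, (-1 : ℤ) ^ J.card *
    (if ∑ j ∈ J, wx j = x ∧ ∑ j ∈ J, wy j = y then 1 else 0) := by
  classical
  unfold GrLie.eul
  have h1 : ∀ n, ((G.JP n S x y).card : ℤ) = ∑ J ∈ G.JS S,
      (if J.card = n ∧ ∑ j ∈ J, wx j = x ∧ ∑ j ∈ J, wy j = y then 1 else 0) := by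
    intro n
    unfold GrLie.JP
    rw [Finset.card_filter]
    push_cast
    rfl
  simp only [h1, Finset.mul_sum]
  rw [Finset.sum_comm]
  refine Finset.sum_congr rfl fun J hJ => ?_
  have h2 : J.card ∈ Finset.range (∑ m, S m + 1) := by
    rw [Finset.mem_range]
    by_contra hlt
    have h3 : ∑ m, S m < J.card := by omega
    have h4 := G.JP_empty (x := ∑ j ∈ J, wx j) (y := ∑ j ∈ J, wy j) h3
    have h5 : J ∈ G.JP J.card S (∑ j ∈ J, wx j) (∑ j ∈ J, wy j) := by
      rw [GrLie.mem_JP]
      exact ⟨rfl, G.mem_JS.1 hJ, rfl, rfl⟩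
    rw [h4] at h5
    exact Finset.notMem_empty _ h5
  rw [Finset.sum_eq_single_of_mem _ h2]
  · simp
  · intro n _ hn
    rw [if_neg (fun h => hn h.1.symm), mul_zero]

lemma altf_eul_eq (S : σ → ℕ) (a : ℤ) :
    altf (G.eul S) a a = Fs wx wy G.JS S (psi a) := by
  have e : G.eul S = fun x y => ∑ J ∈ G.JS S, (-1 : ℤ) ^ J.card *
    (fun u v => if ∑ j ∈ J, wx j = u ∧ ∑ j ∈ J, wy j = v then (1 : ℤ) else 0) x y := by
    funext x y; exact eul_eq_sum G S x y
  rw [e, altf_sum (G.JS S) (fun J => (-1 : ℤ) ^ J.card) (fun J u v =>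
    if ∑ j ∈ J, wx j = u ∧ ∑ j ∈ J, wy j = v then (1 : ℤ) else 0)]
  rfl

end Eul

/-! ### spanning of `B(A)` by words -/

section SpanB

variable {k : Type*} [Field k] {X : Type*}

lemma wd_span : ⊤ ≤ Submodule.span k (Set.range
    (fun p : FreeMagma X × FreeMagma X => wd k (FreeAlt k X) (mon k p.1) (mon k p.2))) := by
  intro z _
  induction z using BA_ind with
  | h0 => exact Submodule.zero_mem _
  | h2 x y hx hy => exact Submodule.add_mem _ (hx trivial) (hy trivial)
  | h1 p q =>
    have hp := mon_span (k := k) (X := X) (Submodule.mem_top (x := p))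
    have hq := mon_span (k := k) (X := X) (Submodule.mem_top (x := q))
    induction hp using Submodule.span_induction with
    | zero => rw [map_zero, LinearMap.zero_apply]; exact Submodule.zero_mem _
    | add x y _ _ hx hy =>
      rw [map_add, LinearMap.add_apply]; exact Submodule.add_mem _ (hx trivial) (hy trivial)
    | smul a x _ hx =>
      rw [map_smul, LinearMap.smul_apply]; exact Submodule.smul_mem _ _ (hx trivial)
    | mem x hx =>
      obtain ⟨u, rfl⟩ := hx
      induction hq using Submodule.span_induction with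
      | zero => rw [map_zero]; exact Submodule.zero_mem _
      | add x y _ _ hx hy =>
        rw [map_add]; exact Submodule.add_mem _ (hx trivial) (hy trivial)
      | smul a x _ hx => rw [map_smul]; exact Submodule.smul_mem _ _ (hx trivial)
      | mem x hx =>
        obtain ⟨v, rfl⟩ := hx
        exact Submodule.subset_span ⟨(u, v), rfl⟩

end SpanB

/-! ### the combinatorial data -/

section CntData

variable {k : Type*} [Field k] [CharZero k] {X : Type*} [DecidableEq X] [Fintype X]
  {IA IB : Type*} [DecidableEq IA] [DecidableEq IB]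
  {bA : Basis IA k (FreeAlt k X)} {cA : IA → FreeMagma X}
  {bB : Basis IB k (BA k (FreeAlt k X))} {cB : IB → FreeMagma X × FreeMagma X}

lemma finB (hcB : Function.Injective cB) (S : X → ℕ) :
    {i | cnt (cB i).1 + cnt (cB i).2 = S}.Finite := by
  refine Set.Finite.subset (((finite_cnt S).prod (finite_cnt S)).preimage hcB.injOn) ?_
  intro i hi
  have hi : cnt (cB i).1 + cnt (cB i).2 = S := hi
  refine ⟨?_, ?_⟩
  · show cnt (cB i).1 ≤ S
    rw [← hi]; exact fun m => Nat.le_add_right _ _
  · show cnt (cB i).2 ≤ S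
    rw [← hi]; exact fun m => Nat.le_add_left _ _

/-- the basis elements of `B(A)` of a given degree -/
noncomputable def IdB (hcB : Function.Injective cB) (S : X → ℕ) : Finset IB :=
  (finB hcB S).toFinset

lemma mem_IdB {hcB : Function.Injective cB} {S : X → ℕ} {i : IB} :
    i ∈ IdB hcB S ↔ cnt (cB i).1 + cnt (cB i).2 = S := by
  unfold IdB
  rw [Set.Finite.mem_toFinset]
  rfl

/-- the basis elements of `ABG(A)` of a given multilinear degree -/
noncomputable def IdL (hcA : Function.Injective cA) (hcB : Function.Injective cB)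
    (T : Finset X) : Finset ((Σ _ : Fin 8, IA) ⊕ IB) :=
  (Finset.univ.sigma (fun _ : Fin 8 => IdA cA hcA (ind T))).disjSum (IdB hcB (ind T))

lemma cntData (hcA : Function.Injective cA) (hcB : Function.Injective cB)
    (JS : (X → ℕ) → Finset (Finset ((Σ _ : Fin 8, IA) ⊕ IB)))
    (hJS : ∀ S J, J ∈ JS S ↔ ∑ j ∈ J, dg cA cB j = S) (hne : ∀ i, dg cA cB i ≠ 0) :
    Cnt (dg cA cB) wxL wyL JS (IdL hcA hcB) (fun T => (IdA cA hcA (ind T)).card)
      (fun T => (IdB hcB (ind T)).card) where
  hJS := hJS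
  hIdx T i := by
    unfold IdL
    rcases i with ⟨j, i⟩ | i
    · simp only [Finset.inl_mem_disjSum, Finset.mem_sigma, Finset.mem_univ, true_and, mem_IdA]
      rfl
    · simp only [Finset.inr_mem_disjSum, mem_IdB]
      rfl
  deg_ne := hne
  hab T φ := by
    unfold IdL
    rw [Finset.sum_disjSum, Finset.sum_sigma]
    have h1 : ∀ j : Fin 8, ∑ i ∈ IdA cA hcA (ind T),
        φ (wxL (Sum.inl ⟨j, i⟩ : (Σ _ : Fin 8, IA) ⊕ IB))
          (wyL (Sum.inl ⟨j, i⟩ : (Σ _ : Fin 8, IA) ⊕ IB)) =
        (IdA cA hcA (ind T)).card * φ (ux j) (uy j) := by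
      intro j
      simp [wxL, wyL]
    have h2 : ∑ i ∈ IdB hcB (ind T), φ (wxL (Sum.inr i : (Σ _ : Fin 8, IA) ⊕ IB))
          (wyL (Sum.inr i : (Σ _ : Fin 8, IA) ⊕ IB)) = (IdB hcB (ind T)).card * φ 0 0 := by
      simp [wxL, wyL]
    rw [h2]
    congr 1
    rw [Finset.sum_congr rfl (fun j _ => h1 j), ← Finset.mul_sum]
    congr 1
    simp only [Fin.sum_univ_eight, ux, uy, Xop]
    simp
    ring

end CntData

end Pool.Agent.L7h64.ABG
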