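import Pool.Agent.L7h64.ABGStmt

/-!
# The constructed algebras satisfy the descriptions used in the statement
-/

set_option autoImplicit false
set_option linter.unusedSimpArgs false
set_option linter.unusedSectionVars false

namespace Pool.Agent.L7h64.ABG

open Module Matrix

universe u

attribute [local instance 100] LieRing.ofAssociativeRing LieAlgebra.ofAssociativeAlgebra

section Syn

variable {k : Type u} [Field k] {B : Type u} [AddCommGroup B] [Module k B]

/-- the algebra `B` with the product `m` -/
def Syn (_ : B →ₗ[k] B →ₗ[k] B) : Type u := B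

variable {m : B →ₗ[k] B →ₗ[k] B}

local instance : AddCommGroup (Syn m) := inferInstanceAs (AddCommGroup B)

local instance : NonUnitalNonAssocRing (Syn m) where
  mul x y := m x y
  left_distrib x y z := (m x).map_add y z
  right_distrib x y z := by
    exact LinearMap.map_add₂ m x y z
  zero_mul x := by
    exact LinearMap.map_zero₂ m x
  mul_zero x := (m x).map_zero

local instance : Module k (Syn m) := inferInstanceAs (Module k B)

lemma Syn_mul (x y : Syn m) : x * y = m x y := rfl

local instance : IsScalarTower k (Syn m) (Syn m) := ⟨fun c x y => by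
  show m (c • x) y = c • m x y
  exact LinearMap.map_smul₂ m c x y⟩

local instance : SMulCommClass k (Syn m) (Syn m) := ⟨fun c x y => ((m x).map_smul c y).symm⟩

lemma Syn_alt (h : IsAlt m) : IsAlternative (Syn m) where
  left p q := (h p q).1
  right p q := (h p q).2

end Syn

section Free

attribute [local instance] instAddCommGroupSyn instNonUnitalNonAssocRingSyn instModuleSyn
  instIsScalarTowerSyn instSMulCommClassSyn

variable (k : Type u) [Field k]

/-- the product of the free alternative algebra -/
noncomputable def mulA (X : Type) : FreeAlt k X →ₗ[k] FreeAlt k X →ₗ[k] FreeAlt k X :=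
  LinearMap.mul k (FreeAlt k X)

/-- the generators of the free alternative algebra, as a linear map -/
noncomputable def genA (X : Type) [Fintype X] [DecidableEq X] : (X → k) →ₗ[k] FreeAlt k X :=
  (Pi.basisFun k X).constr k (gen k)

variable {k}

lemma genA_single {X : Type} [Fintype X] [DecidableEq X] (x : X) :
    genA k X (Pi.single x 1) = gen k x := by
  unfold genA
  rw [← Pi.basisFun_apply, Basis.constr_basis]

lemma isFreeAlt (X : Type) [Fintype X] [DecidableEq X] : IsFreeAlt (mulA k X) (genA k X) := by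
  refine ⟨fun p q => ⟨IsAlternative.left p q, IsAlternative.right p q⟩, ?_⟩
  intro B _ _ m' f hm'
  have := Syn_alt hm'
  let f' : X → Syn m' := fun x => f (Pi.single x 1)
  let ψ : FreeAlt k X →ₗ[k] Syn m' := liftA k f'
  let φ : FreeAlt k X →ₗ[k] B := ψ
  have h1 : ∀ x, φ (gen k x) = f (Pi.single x 1) := fun x =>
    liftA_gen f' x
  have h2 : ∀ x y, φ (x * y) = m' (φ x) (φ y) := fun x y =>
    liftA_mul f' x y
  refine ⟨φ, ⟨?_, h2⟩, ?_⟩
  · intro v
    have : φ ∘ₗ genA k X = f := by
      apply (Pi.basisFun k X).ext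
      intro x
      rw [LinearMap.comp_apply, Pi.basisFun_apply, genA_single, h1]
    exact LinearMap.congr_fun this v
  · rintro φ' ⟨h3, h4⟩
    apply LinearMap.ext_on (s := Set.range (mon k (X := X))) (top_le_iff.1 mon_span)
    rintro _ ⟨w, rfl⟩
    induction w with
    | ih1 x =>
      show φ' (gen k x) = φ (gen k x)
      rw [h1, ← h3, genA_single]
    | ih2 a b ha hb =>
      show φ' (mon k a * mon k b) = φ (mon k a * mon k b)
      rw [h2, ← ha, ← hb]
      exact h4 _ _

end Free

section ABG

variable {k A : Type u} [Field k] [CharZero k] [NonUnitalNonAssocRing A] [Module k A]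
  [IsScalarTower k A A] [SMulCommClass k A A]

variable (k A) in
/-- the bilinear map `(X, p) ↦ X ⊗ p` -/
noncomputable def tenL : Sl3 k →ₗ[k] A →ₗ[k] ABGAlg k A :=
  LinearMap.mk₂ k (fun X p => inT k A (tenT X.1 X.2 p))
    (fun X Y p => by
      rw [← map_add]
      congr 1
      apply Subtype.ext
      ext i j
      exact add_smul _ _ _)
    (fun c X p => by
      rw [← map_smul]
      congr 1
      apply Subtype.ext
      ext i j
      exact mul_smul c _ _)
    (fun X p q => by
      rw [← map_add]
      congr 1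
      apply Subtype.ext
      ext i j
      exact smul_add _ _ _)
    (fun c X p => by
      rw [← map_smul]
      congr 1
      apply Subtype.ext
      ext i j
      exact smul_comm _ _ _)

lemma tenL_apply (X : Sl3 k) (p : A) : tenL k A X p = inT k A (tenT X.1 X.2 p) := rfl

variable (k A) in
/-- the bilinear map `(p, q) ↦ p ∧ q` -/
noncomputable def wdL : A →ₗ[k] A →ₗ[k] ABGAlg k A := (wd k A).compr₂ (inB k A)

lemma wdL_apply (p q : A) : wdL k A p q = inB k A (wd k A p q) := rfl

lemma wdL_wedge : IsWedge (LinearMap.mul k A) (wdL k A) := by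
  constructor
  · intro p
    rw [wdL_apply, wd_self, map_zero]
  · intro p q r
    rw [wdL_apply, wdL_apply, wdL_apply, ← map_add, ← map_add]
    show inB k A (wd k A (p * q) r + wd k A (q * r) p + wd k A (r * p) q) = 0
    rw [wd_cyc, map_zero]

/-- the universal property of `ABG(A)` as a vector space -/
lemma univ_exists {M : Type u} [AddCommGroup M] [Module k M] (t' : Sl3 k →ₗ[k] A →ₗ[k] M)
    (w' : A →ₗ[k] A →ₗ[k] M) (hw : IsWedge (LinearMap.mul k A) w') :
    ∃! φ : ABGAlg k A →ₗ[k] M, (∀ X p, φ (tenL k A X p) = t' X p) ∧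
      ∀ p q, φ (wdL k A p q) = w' p q := by
  let φ2 : BA k A →ₗ[k] M := (relB k A).liftQ (TensorProduct.lift w') (by
    rw [relB, Submodule.span_le]
    rintro x (⟨p, rfl⟩ | ⟨p, q, r, rfl⟩)
    · show TensorProduct.lift w' _ = 0
      rw [TensorProduct.lift.tmul, hw.1]
    · show TensorProduct.lift w' _ = 0
      rw [map_add, map_add, TensorProduct.lift.tmul, TensorProduct.lift.tmul,
        TensorProduct.lift.tmul]
      exact hw.2 p q r)
  let φ1 : T0 k A →ₗ[k] M :=
    { toFun := fun P => ∑ i : Fin 3, ∑ j : Fin 3, t' (Rep3.dvE k i j) (P.1 i j)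
      map_add' := fun P Q => by
        simp only [← Finset.sum_add_distrib]
        refine Finset.sum_congr rfl fun i _ => Finset.sum_congr rfl fun j _ => ?_
        exact map_add _ _ _
      map_smul' := fun c P => by
        simp only [Finset.smul_sum, RingHom.id_apply]
        refine Finset.sum_congr rfl fun i _ => Finset.sum_congr rfl fun j _ => ?_
        exact map_smul _ _ _ }
  have h1 : ∀ (X : Sl3 k) (p : A), φ1 (tenT X.1 X.2 p) = t' X p := by
    intro X p
    show ∑ i : Fin 3, ∑ j : Fin 3, t' (Rep3.dvE k i j) (X.1 i j • p) = t' X p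
    have h2 : t' X p = t' (∑ i : Fin 3, ∑ j : Fin 3, X.1 i j • Rep3.dvE k i j) p := by
      rw [Rep3.sum_dvE]
    rw [h2]
    simp only [map_sum, LinearMap.sum_apply, map_smul, LinearMap.smul_apply]
  have h2 : ∀ p q : A, φ2 (wd k A p q) = w' p q := fun p q => rfl
  let φ : ABGAlg k A →ₗ[k] M := LinearMap.coprod φ1 φ2
  have e1 : ∀ P : T0 k A, φ (inT k A P) = φ1 P := fun P => by
    show φ1 P + φ2 0 = φ1 P
    rw [map_zero, add_zero]
  have e2 : ∀ b : BA k A, φ (inB k A b) = φ2 b := fun b => by
    show φ1 0 + φ2 b = φ2 b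
    rw [map_zero, zero_add]
  refine ⟨φ, ⟨fun X p => ?_, fun p q => ?_⟩, ?_⟩
  · rw [tenL_apply, e1, h1]
  · rw [wdL_apply, e2, h2]
  · rintro ψ ⟨h3, h4⟩
    apply LinearMap.ext
    rintro ⟨P, b⟩
    have e4 : ψ (inT k A P) = φ (inT k A P) := by
      rw [e1]
      induction P using T0_ind with
      | hadd x y hx hy => rw [map_add, map_add, map_add, hx, hy]
      | hten X hX p =>
        have := h3 ⟨X, hX⟩ p
        rw [tenL_apply] at this
        rw [this]
        exact (h1 ⟨X, hX⟩ p).symm
    have e5 : ψ (inB k A b) = φ (inB k A b) := by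
      rw [e2]
      induction b using BA_ind with
      | h0 => rw [map_zero, map_zero, map_zero]
      | h1 p q => exact h4 p q
      | h2 x y hx hy => rw [map_add, map_add, map_add, hx, hy]
    have e3 : ((P, b) : ABGAlg k A) = inT k A P + inB k A b := by
      refine Prod.ext ?_ ?_
      · show P = P + 0
        rw [add_zero]
      · show b = 0 + b
        rw [zero_add]
    show ψ ((P, b) : ABGAlg k A) = φ ((P, b) : ABGAlg k A)
    rw [e3, map_add, map_add, e4, e5]

variable [IsAlternative A]

lemma isABG : IsABG (LinearMap.mul k A) (tenL k A) (wdL k A) where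
  wedge := wdL_wedge
  univ M _ _ t' w' hw := univ_exists t' w' hw
  tt X Y Z hZ p q := by
    rw [tenL_apply, tenL_apply, bracket_tensor X.1 Y.1 X.2 Y.2 p q, map_smul]
    congr 2
    rw [tenL_apply]
    congr 1
    exact tenT_congr hZ.symm _
  wt X p q r := bracket_wedge_tensor X.1 X.2 p q r
  ww p q r s := by
    rw [wdL_apply, wdL_apply, bracket_wedge_wedge, map_add]
    rfl

lemma isAction : IsAction (tenL k A) (wdL k A) (fun X => delta k A X.1) :=
  ⟨fun X Y p => action_tensor X.1 Y.1 Y.2 p, fun X p q => action_wedge X.1 (wd k A p q)⟩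

lemma isInduced (n : ℕ) : IsInduced (n := n) (fun X : Sl3 k => delta k A X.1)
    (fun X => (sl3Act k A n X : HL k (ABGAlg k A) n →ₗ[k] HL k (ABGAlg k A) n)) := by
  intro X z z' h
  show homAct (delta k A X.1) (delta_der X.1) n (cls n z) = cls n z'
  rw [homAct_cls]
  congr 1
  exact Subtype.ext h.symm

end ABG

/-- The final statement. -/
theorem exists_model (k : Type u) [Field k] [CharZero k] :
    ∃ (A : Type u) (_ : AddCommGroup A) (_ : Module k A) (m : A →ₗ[k] A →ₗ[k] A)
      (g : (Fin 9 → k) →ₗ[k] A) (L : Type u) (_ : LieRing L) (_ : LieAlgebra k L)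
      (t : Sl3 k →ₗ[k] A →ₗ[k] L) (w : A →ₗ[k] A →ₗ[k] L) (δ : Sl3 k → L →ₗ[k] L) (n : ℕ)
      (ρ : Sl3 k → HL k L n →ₗ[k] HL k L n),
      IsFreeAlt m g ∧ IsABG m t w ∧ IsAction t w δ ∧ 2 ≤ n ∧ IsInduced δ ρ ∧
        (HasSummand ρ (fun _ : Sl3 k => (0 : k →ₗ[k] k)) ∨
          HasSummand ρ (fun X : Sl3 k => (LieAlgebra.ad k (Sl3 k) X : Sl3 k →ₗ[k] Sl3 k))) := by
  obtain ⟨n, hn, h⟩ := exists_summand k
  exact ⟨FreeAlt k (Fin 9), inferInstance, inferInstance, mulA k (Fin 9), genA k (Fin 9),
    ABGAlg k (FreeAlt k (Fin 9)), inferInstance, inferInstance, tenL k _, wdL k _,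
    fun X => delta k _ X.1, n, fun X => sl3Act k _ n X, isFreeAlt (Fin 9), isABG, isAction, hn,
    isInduced n, h⟩

end Pool.Agent.L7h64.ABG
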