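import Pool.Agent.L7h64.ABGEuler
import Pool.Agent.L7h64.ABGDual

/-!
# The homology of a graded Lie algebra as a weight module with projections
-/

set_option autoImplicit false
set_option linter.unusedSimpArgs false
set_option linter.unusedSectionVars false

namespace Pool.Agent.L7h64.ABG

open Module

lemma Pj_shift {k V 𝒥 τ : Type*} [Field k] [AddCommGroup V] [Module k V]
    {e : Basis 𝒥 k V} {O : τ → V →ₗ[k] V} {c : 𝒥 → τ → k}
    (h : ∀ J t, O t (e J) = c J t • e J) (f : V →ₗ[k] V) (δ : τ → k)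
    (hf : ∀ t v, O t (f v) = f (O t v) + δ t • f v) (χ : τ → k) (v : V) :
    f (Pj e c χ v) = Pj e c (χ + δ) (f v) := by
  classical
  have h1 : f ∘ₗ Pj e c χ = Pj e c (χ + δ) ∘ₗ f := by
    apply e.ext
    intro J
    rw [LinearMap.comp_apply, LinearMap.comp_apply, Pj_basis]
    have h2 : f (e J) ∈ jeig O (c J + δ) := by
      intro t
      rw [hf, h, map_smul, ← add_smul]
      rfl
    split_ifs with hJ
    · rw [Pj_of_mem h (hJ ▸ h2)]
    · rw [map_zero, Pj_of_ne h (fun h3 => hJ (add_right_cancel h3)) h2]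
  exact LinearMap.congr_fun h1 v

namespace GrLie

variable {k L I σ : Type*} [Field k] [CharZero k] [LieRing L] [LieAlgebra k L] {b : Basis I k L}
    {deg : I → σ → ℕ} {wx wy : I → ℤ} {E : σ → L →ₗ[k] L}
    {act : Matrix (Fin 3) (Fin 3) k →ₗ[k] (L →ₗ[k] L)} (G : GrLie b deg wx wy E act)
    [LinearOrder I]

include G

lemma Pj_ced (χ : σ ⊕ Fin 2 → k) (ω : ExteriorAlgebra k L) :
    ced k L (Pj b.ExteriorAlgebra (chJ k deg wx wy) χ ω) =
      Pj b.ExteriorAlgebra (chJ k deg wx wy) χ (ced k L ω) := by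
  rw [Pj_comm G.ops_basis (ced k L)]
  rintro (m | j) v
  · exact ced_exder _ (G.E_der m) v
  · exact ced_exder _ (G.act_der _) v

lemma Pj_cycles (n : ℕ) (S : σ → ℕ) (x y : ℤ) {ω : ExteriorAlgebra k L} (hω : ω ∈ cycles k L n) :
    Pj b.ExteriorAlgebra (chJ k deg wx wy) (chi k S x y) ω ∈ cycles k L n := by
  refine ⟨(G.Pj_piece n S x y hω.1).1, ?_⟩
  have h1 : ced k L ω = 0 := hω.2
  show ced k L _ = 0
  rw [G.Pj_ced, h1, map_zero]

lemma Pj_boundaries (n : ℕ) (S : σ → ℕ) (x y : ℤ) {ω : ExteriorAlgebra k L}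
    (hω : ω ∈ boundaries k L n) :
    Pj b.ExteriorAlgebra (chJ k deg wx wy) (chi k S x y) ω ∈ boundaries k L n := by
  obtain ⟨η, hη, rfl⟩ := hω
  exact ⟨_, (G.Pj_piece (n + 1) S x y hη).1, G.Pj_ced _ η⟩

/-- the projection of the homology to the component of degree `S` and weight `(x, y)` -/
noncomputable def hproj (n : ℕ) (S : σ → ℕ) (x y : ℤ) : LieHomology k L n →ₗ[k] LieHomology k L n :=
  Submodule.mapQ _ _ ((Pj b.ExteriorAlgebra (chJ k deg wx wy) (chi k S x y)).restrict
    (fun _ h => G.Pj_cycles n S x y h)) (fun _ h => G.Pj_boundaries n S x y h)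

lemma hproj_cls (n : ℕ) (S : σ → ℕ) (x y : ℤ) (z : cycles k L n) : G.hproj n S x y (cls n z) =
    cls n ⟨Pj b.ExteriorAlgebra (chJ k deg wx wy) (chi k S x y) z.1,
      G.Pj_cycles n S x y z.2⟩ := rfl

lemma hproj_mem (n : ℕ) (S : σ → ℕ) (x y : ℤ) (v : LieHomology k L n) :
    G.hproj n S x y v ∈ HW E act n S x y := by
  obtain ⟨z, rfl⟩ := cls_surj n v
  exact ⟨_, G.Pj_piece n S x y z.2.1, rfl⟩

lemma hproj_of_mem (n : ℕ) (S : σ → ℕ) (x y : ℤ) {v : LieHomology k L n}
    (hv : v ∈ HW E act n S x y) : G.hproj n S x y v = v := by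
  obtain ⟨z, hz, rfl⟩ := hv
  have hz : z.1 ∈ piece E act n S x y := hz
  rw [hproj_cls]
  congr 1
  exact Subtype.ext (Pj_of_mem G.ops_basis hz.2)

lemma range_hproj (n : ℕ) (S : σ → ℕ) (x y : ℤ) :
    LinearMap.range (G.hproj n S x y) = HW E act n S x y := by
  apply le_antisymm
  · rintro _ ⟨v, rfl⟩
    exact G.hproj_mem n S x y v
  · intro v hv
    exact ⟨v, G.hproj_of_mem n S x y hv⟩

lemma Pj_act {a c : ℤ} {X : Matrix (Fin 3) (Fin 3) k}
    (hX1 : hmat k 0 * X - X * hmat k 0 = ((2 * a - c : ℤ) : k) • X)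
    (hX2 : hmat k 1 * X - X * hmat k 1 = ((2 * c - a : ℤ) : k) • X)
    (S : σ → ℕ) (x y : ℤ) (ω : ExteriorAlgebra k L) :
    exder (act X) (Pj b.ExteriorAlgebra (chJ k deg wx wy) (chi k S x y) ω) =
      Pj b.ExteriorAlgebra (chJ k deg wx wy) (chi k S (x + a) (y + c)) (exder (act X) ω) := by
  have e : chi k S (x + a) (y + c) = chi k S x y + chi k (0 : σ → ℕ) a c := by
    funext t
    rcases t with m | j
    · simp [chi]
    · fin_cases j <;> simp [chi] <;> ring
  rw [e]
  refine Pj_shift G.ops_basis (exder (act X)) _ ?_ _ ω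
  rintro (m | j) v
  · show exder (E m) (exder (act X) v) = exder (act X) (exder (E m) v) + ((0 : ℕ) : k) • _
    rw [G.exder_E_act, Nat.cast_zero, zero_smul, add_zero]
  · fin_cases j
    · have e1 := G.exder_act_lie (hmat k 0) X v
      rw [hX1, map_smul, exder_smul] at e1
      exact (add_eq_of_eq_sub' e1).symm
    · have e1 := G.exder_act_lie (hmat k 1) X v
      rw [hX2, map_smul, exder_smul] at e1
      exact (add_eq_of_eq_sub' e1).symm

lemma hact_hproj {a c : ℤ} {X : Matrix (Fin 3) (Fin 3) k}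
    (hX1 : hmat k 0 * X - X * hmat k 0 = ((2 * a - c : ℤ) : k) • X)
    (hX2 : hmat k 1 * X - X * hmat k 1 = ((2 * c - a : ℤ) : k) • X)
    (n : ℕ) (S : σ → ℕ) (x y : ℤ) (v : LieHomology k L n) :
    G.hact n X (G.hproj n S x y v) = G.hproj n S (x + a) (y + c) (G.hact n X v) := by
  obtain ⟨z, rfl⟩ := cls_surj n v
  rw [hproj_cls, hact_cls, hact_cls, hproj_cls]
  congr 1
  exact Subtype.ext (G.Pj_act hX1 hX2 S x y z.1)

/-- the homology is a weight module for `sl_3`, with projections to the weight spaces -/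
theorem rep3 (n : ℕ) (S : σ → ℕ) : Rep3 (G.hact n) (G.hproj n S) where
  lie X Y v := G.hact_lie n X Y v
  idem x y v := G.hproj_of_mem n S x y (G.hproj_mem n S x y v)
  hw j x y v := G.hact_h (G.hproj_mem n S x y v) j
  hwc j x y v := by
    have := G.hact_hproj (a := 0) (c := 0) (X := hmat k j) ?_ ?_ n S x y v
    · rw [this, add_zero, add_zero]
    all_goals
      ext i l
      fin_cases j <;> fin_cases i <;> fin_cases l <;>
        simp [hmat, Matrix.mul_apply, Fin.sum_univ_three, Matrix.single_apply]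
  e1 x y v := by
    have := G.hact_hproj (a := 1) (c := 0) (X := Matrix.single 0 1 1) ?_ ?_ n S x y v
    · rw [this, add_zero]
    all_goals
      ext i j
      fin_cases i <;> fin_cases j <;>
        simp [hmat, Matrix.mul_apply, Fin.sum_univ_three, Matrix.single_apply] <;> norm_num
  e2 x y v := by
    have := G.hact_hproj (a := 0) (c := 1) (X := Matrix.single 1 2 1) ?_ ?_ n S x y v
    · rw [this, add_zero]
    all_goals
      ext i j
      fin_cases i <;> fin_cases j <;>
        simp [hmat, Matrix.mul_apply, Fin.sum_univ_three, Matrix.single_apply] <;> norm_num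
  f1 x y v := by
    have := G.hact_hproj (a := -1) (c := 0) (X := Matrix.single 1 0 1) ?_ ?_ n S x y v
    · rw [this, add_zero, sub_eq_add_neg]
    all_goals
      ext i j
      fin_cases i <;> fin_cases j <;>
        simp [hmat, Matrix.mul_apply, Fin.sum_univ_three, Matrix.single_apply] <;> norm_num
  f2 x y v := by
    have := G.hact_hproj (a := 0) (c := -1) (X := Matrix.single 2 1 1) ?_ ?_ n S x y v
    · rw [this, add_zero, sub_eq_add_neg]
    all_goals
      ext i j
      fin_cases i <;> fin_cases j <;>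
        simp [hmat, Matrix.mul_apply, Fin.sum_univ_three, Matrix.single_apply] <;> norm_num
  fd x y := by
    rw [G.range_hproj]
    exact G.fd_HW n S x y
  bd := by
    refine ⟨∑ J ∈ G.JS S, ((∑ j ∈ J, wx j).natAbs + (∑ j ∈ J, wy j).natAbs), ?_⟩
    intro x y hxy
    rw [← LinearMap.range_eq_bot, G.range_hproj]
    apply G.HW_eq_bot
    apply G.piece_eq_bot
    rw [Finset.eq_empty_iff_forall_notMem]
    intro J hJ
    rw [mem_JP] at hJ
    obtain ⟨-, h1, rfl, rfl⟩ := hJ
    have h2 : (∑ j ∈ J, wx j).natAbs + (∑ j ∈ J, wy j).natAbs ≤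
      ∑ J ∈ G.JS S, ((∑ j ∈ J, wx j).natAbs + (∑ j ∈ J, wy j).natAbs) :=
      Finset.single_le_sum (f := fun J : Finset I =>
        (∑ j ∈ J, wx j).natAbs + (∑ j ∈ J, wy j).natAbs) (fun _ _ => zero_le) (G.mem_JS.2 h1)
    rw [Int.abs_eq_natAbs, Int.abs_eq_natAbs] at hxy
    omega

end GrLie

end Pool.Agent.L7h64.ABG
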