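import Mathlib

/-!
# Weight modules over `sl_3`: highest weight vectors and the alternating sum of dimensions
-/

set_option autoImplicit false

namespace Pool.Agent.L7h64.ABG

open Module

/-! ### Two lemmas on dimensions -/

section Dim
variable {k M N : Type*} [Field k] [AddCommGroup M] [Module k M] [AddCommGroup N] [Module k N]

lemma finrank_map_add (S : Submodule k M) [FiniteDimensional k S] (f : M →ₗ[k] N) :
    finrank k (S.map f) + finrank k ↥(S ⊓ LinearMap.ker f) = finrank k S := by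
  have h := LinearMap.finrank_range_add_finrank_ker (f.domRestrict S)
  have h1 : LinearMap.range (f.domRestrict S) = S.map f := LinearMap.range_domRestrict S f
  have h2 : finrank k ↥(LinearMap.ker (f.domRestrict S)) = finrank k ↥(S ⊓ LinearMap.ker f) := by
    have h3 : (LinearMap.ker (f.domRestrict S)).map S.subtype = S ⊓ LinearMap.ker f := by
      ext x
      simp only [Submodule.mem_map, LinearMap.mem_ker, LinearMap.domRestrict_apply,
        Submodule.subtype_apply, Submodule.mem_inf, Subtype.exists]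
      constructor
      · rintro ⟨a, ha, h, rfl⟩; exact ⟨ha, h⟩
      · rintro ⟨ha, h⟩; exact ⟨x, ha, h, rfl⟩
    rw [← h3]
    exact (LinearEquiv.finrank_eq (Submodule.equivMapOfInjective S.subtype
      (Submodule.injective_subtype S) _))
  rw [h1, h2] at h
  exact h

/-- a product of submodules is the product of the modules -/
def prodEquiv' (S : Submodule k M) (T : Submodule k N) : ↥(S.prod T) ≃ₗ[k] ↥S × ↥T where
  toFun x := (⟨x.1.1, x.2.1⟩, ⟨x.1.2, x.2.2⟩)
  invFun y := ⟨(y.1.1, y.2.1), ⟨y.1.2, y.2.2⟩⟩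
  map_add' _ _ := rfl
  map_smul' _ _ := rfl
  left_inv _ := rfl
  right_inv _ := rfl

lemma finrank_prod' (S : Submodule k M) (T : Submodule k N) [FiniteDimensional k S]
    [FiniteDimensional k T] : finrank k (S.prod T) = finrank k S + finrank k T := by
  rw [LinearEquiv.finrank_eq (prodEquiv' S T), Module.finrank_prod]

lemma fd_prod (S : Submodule k M) (T : Submodule k N) [FiniteDimensional k S]
    [FiniteDimensional k T] : FiniteDimensional k (S.prod T) :=
  LinearEquiv.finiteDimensional (prodEquiv' S T).symm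

end Dim

/-! ### weight modules -/

lemma zsmul_zero {k M : Type*} [Field k] [CharZero k] [AddCommGroup M] [Module k M] {c : ℤ} {v : M}
    (h : c • v = 0) (hc : c ≠ 0) : v = 0 := by
  rw [← Int.cast_smul_eq_zsmul k] at h
  exact (smul_eq_zero.1 h).resolve_left (Int.cast_ne_zero.2 hc)

/-- The operators `e_i, f_i` of an `sl_3`-module and a family of subspaces `W x y` of the weight
spaces of weight `x α₁ + y α₂`, stable under the operators, finite-dimensional, and zero outside a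
bounded region. -/
structure Sl3W (k : Type*) {M : Type*} [Field k] [AddCommGroup M] [Module k M]
    (e1 e2 e3 f1 f2 f3 : M →ₗ[k] M) (W : ℤ → ℤ → Submodule k M) : Prop where
  he3 : ∀ v, e3 v = e1 (e2 v) - e2 (e1 v)
  hf3 : ∀ v, f3 v = f2 (f1 v) - f1 (f2 v)
  e1e3 : ∀ v, e1 (e3 v) = e3 (e1 v)
  e2e3 : ∀ v, e2 (e3 v) = e3 (e2 v)
  f1f3 : ∀ v, f1 (f3 v) = f3 (f1 v)
  f2f3 : ∀ v, f2 (f3 v) = f3 (f2 v)
  e1f2 : ∀ v, e1 (f2 v) = f2 (e1 v)
  e2f1 : ∀ v, e2 (f1 v) = f1 (e2 v)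
  e1f1 : ∀ x y v, v ∈ W x y → e1 (f1 v) = f1 (e1 v) + (2 * x - y) • v
  e2f2 : ∀ x y v, v ∈ W x y → e2 (f2 v) = f2 (e2 v) + (2 * y - x) • v
  We1 : ∀ x y v, v ∈ W x y → e1 v ∈ W (x + 1) y
  We2 : ∀ x y v, v ∈ W x y → e2 v ∈ W x (y + 1)
  Wf1 : ∀ x y v, v ∈ W x y → f1 v ∈ W (x - 1) y
  Wf2 : ∀ x y v, v ∈ W x y → f2 v ∈ W x (y - 1)
  fd : ∀ x y, FiniteDimensional k (W x y)
  bd : ∃ N : ℕ, ∀ x y, (N : ℤ) < |x| ∨ (N : ℤ) < |y| → W x y = ⊥

/-- half the value of the Casimir operator on a highest weight vector of weight `x α₁ + y α₂` -/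
def cas (x y : ℤ) : ℤ := x ^ 2 + y ^ 2 - x * y + x + y

namespace Sl3W

variable {k : Type*} {M : Type*} [Field k] [AddCommGroup M] [Module k M]
    {e1 e2 e3 f1 f2 f3 : M →ₗ[k] M} {W : ℤ → ℤ → Submodule k M}
    (H : Sl3W k e1 e2 e3 f1 f2 f3 W)

include H

lemma We3 (x y : ℤ) (v : M) (hv : v ∈ W x y) : e3 v ∈ W (x + 1) (y + 1) := by
  rw [H.he3]
  exact Submodule.sub_mem _ (H.We1 _ _ _ (H.We2 _ _ _ hv)) (H.We2 _ _ _ (H.We1 _ _ _ hv))

lemma Wf3 (x y : ℤ) (v : M) (hv : v ∈ W x y) : f3 v ∈ W (x - 1) (y - 1) := by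
  rw [H.hf3]
  exact Submodule.sub_mem _ (H.Wf2 _ _ _ (H.Wf1 _ _ _ hv)) (H.Wf1 _ _ _ (H.Wf2 _ _ _ hv))

lemma e1f3 (x y : ℤ) (v : M) (hv : v ∈ W x y) : e1 (f3 v) = f3 (e1 v) - f2 v := by
  rw [H.hf3, H.hf3, map_sub, H.e1f2, H.e1f1 _ _ _ hv, H.e1f1 _ _ _ (H.Wf2 _ _ _ hv), H.e1f2,
    map_add, map_zsmul]
  module

lemma e2f3 (x y : ℤ) (v : M) (hv : v ∈ W x y) : e2 (f3 v) = f3 (e2 v) + f1 v := by
  rw [H.hf3, H.hf3, map_sub, H.e2f1, H.e2f2 _ _ _ hv, H.e2f2 _ _ _ (H.Wf1 _ _ _ hv), H.e2f1,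
    map_add, map_zsmul]
  module

lemma e3f1 (x y : ℤ) (v : M) (hv : v ∈ W x y) : e3 (f1 v) = f1 (e3 v) - e2 v := by
  rw [H.he3, H.he3, H.e2f1, H.e1f1 _ _ _ (H.We2 _ _ _ hv), H.e1f1 _ _ _ hv, map_add, map_zsmul,
    map_sub, H.e2f1]
  module

lemma e3f2 (x y : ℤ) (v : M) (hv : v ∈ W x y) : e3 (f2 v) = f2 (e3 v) + e1 v := by
  rw [H.he3, H.he3, H.e1f2, H.e2f2 _ _ _ (H.We1 _ _ _ hv), H.e2f2 _ _ _ hv, map_add, map_zsmul,
    map_sub, H.e1f2]
  module

lemma e3f3 (x y : ℤ) (v : M) (hv : v ∈ W x y) : e3 (f3 v) = f3 (e3 v) + (x + y) • v := by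
  rw [H.he3 (f3 v), H.e2f3 _ _ _ hv, H.e1f3 _ _ _ hv, map_add, map_sub,
    H.e1f3 _ _ _ (H.We2 _ _ _ hv), H.e2f3 _ _ _ (H.We1 _ _ _ hv), H.e1f1 _ _ _ hv,
    H.e2f2 _ _ _ hv, H.he3 v, map_sub]
  module

/-- the Casimir operator (up to a scalar) -/
noncomputable def _root_.Pool.Agent.L7h64.ABG.casOp {k : Type*} {M : Type*} [Field k]
    [AddCommGroup M] [Module k M] (e1 e2 e3 f1 f2 f3 : M →ₗ[k] M) (c : ℤ) : M →ₗ[k] M :=
  f1 ∘ₗ e1 + f2 ∘ₗ e2 + f3 ∘ₗ e3 + c • LinearMap.id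

omit H in
lemma casOp_apply (c : ℤ) (v : M) : casOp e1 e2 e3 f1 f2 f3 c v =
    f1 (e1 v) + f2 (e2 v) + f3 (e3 v) + c • v := rfl

lemma casOp_mem (c : ℤ) (x y : ℤ) (v : M) (hv : v ∈ W x y) :
    casOp e1 e2 e3 f1 f2 f3 c v ∈ W x y := by
  rw [casOp_apply]
  have h1 := H.Wf1 _ _ _ (H.We1 _ _ _ hv)
  have h2 := H.Wf2 _ _ _ (H.We2 _ _ _ hv)
  have h3 := H.Wf3 _ _ _ (H.We3 _ _ _ hv)
  simp only [add_sub_cancel_right] at h1 h2 h3
  exact Submodule.add_mem _ (Submodule.add_mem _ (Submodule.add_mem _ h1 h2) h3)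
    (zsmul_mem hv c)

lemma e1_casOp (c : ℤ) (x y : ℤ) (v : M) (hv : v ∈ W x y) :
    e1 (casOp e1 e2 e3 f1 f2 f3 c v) = casOp e1 e2 e3 f1 f2 f3 (c + 2 * x - y + 2) (e1 v) := by
  rw [casOp_apply, casOp_apply, map_add, map_add, map_add, H.e1f1 _ _ _ (H.We1 _ _ _ hv), H.e1f2,
    H.e1f3 _ _ _ (H.We3 _ _ _ hv), map_zsmul, H.e1e3, H.he3 v, map_sub]
  module

lemma e2_casOp (c : ℤ) (x y : ℤ) (v : M) (hv : v ∈ W x y) :
    e2 (casOp e1 e2 e3 f1 f2 f3 c v) = casOp e1 e2 e3 f1 f2 f3 (c + 2 * y - x + 2) (e2 v) := by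
  rw [casOp_apply, casOp_apply, map_add, map_add, map_add, H.e2f2 _ _ _ (H.We2 _ _ _ hv), H.e2f1,
    H.e2f3 _ _ _ (H.We3 _ _ _ hv), map_zsmul, H.e2e3, H.he3 v, map_sub]
  module

lemma e3_casOp (c : ℤ) (x y : ℤ) (v : M) (hv : v ∈ W x y) :
    e3 (casOp e1 e2 e3 f1 f2 f3 c v) = casOp e1 e2 e3 f1 f2 f3 (c + x + y + 3) (e3 v) := by
  rw [H.he3, H.e2_casOp c x y v hv, H.e1_casOp _ _ _ _ (H.We2 _ _ _ hv), H.e1_casOp c x y v hv,
    H.e2_casOp _ _ _ _ (H.We1 _ _ _ hv), H.he3 v, map_sub]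
  congr 2
  · congr 1; ring
  · congr 1; ring

/-- If there is no highest weight vector of weight `(a, b)`, then the Casimir operator minus its
value at `(a, b)` is injective on the weight spaces above `(a, b)`. -/
lemma casOp_inj [CharZero k] {a b : ℤ} (hab : ∀ x y : ℤ, a ≤ x → b ≤ y → cas x y = cas a b → x = a ∧ y = b)
    (hno : ∀ v ∈ W a b, e1 v = 0 → e2 v = 0 → v = 0) (x y : ℤ) (hx : a ≤ x) (hy : b ≤ y)
    (v : M) (hv : v ∈ W x y) (h0 : casOp e1 e2 e3 f1 f2 f3 (cas x y - cas a b) v = 0) : v = 0 := by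
  classical
  obtain ⟨N, hN⟩ := H.bd
  obtain ⟨m, hm⟩ : ∃ m : ℕ, (N - x) + (N - y) ≤ (m : ℤ) := ⟨((N - x) + (N - y)).toNat,
    Int.self_le_toNat _⟩
  induction m generalizing x y v with
  | zero =>
    by_cases hc : (N : ℤ) < |x| ∨ (N : ℤ) < |y|
    · rw [hN x y hc] at hv; exact (Submodule.mem_bot k).1 hv
    · push Not at hc
      have h1 := (abs_le.1 hc.1).2
      have h2 := (abs_le.1 hc.2).2
      have hxN : x = N := by push_cast at hm; omega
      have hyN : y = N := by push_cast at hm; omega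
      have g1 : e1 v = 0 := by
        have := H.We1 _ _ _ hv
        rw [hN (x + 1) y (Or.inl (lt_of_lt_of_le (by omega) (le_abs_self _)))] at this
        exact (Submodule.mem_bot k).1 this
      have g2 : e2 v = 0 := by
        have := H.We2 _ _ _ hv
        rw [hN x (y + 1) (Or.inr (lt_of_lt_of_le (by omega) (le_abs_self _)))] at this
        exact (Submodule.mem_bot k).1 this
      have g3 : e3 v = 0 := by rw [H.he3, g1, g2, map_zero, map_zero, sub_zero]
      rw [casOp_apply, g1, g2, g3, map_zero, map_zero, map_zero, add_zero, zero_add, zero_add] at h0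
      by_contra hv0
      have h3 : cas x y - cas a b = 0 := by
        by_contra h4
        exact hv0 (zsmul_zero (k := k) h0 h4)
      obtain ⟨rfl, rfl⟩ := hab x y hx hy (sub_eq_zero.1 h3)
      exact hv0 (hno v hv g1 g2)
  | succ m ih =>
    have g1 : e1 v = 0 := by
      refine ih (x + 1) y (by omega) hy (e1 v) (H.We1 _ _ _ hv) ?_ (by push_cast at hm ⊢; omega)
      have := H.e1_casOp _ _ _ _ hv ▸ congrArg e1 h0
      rw [map_zero] at this
      rw [← this]
      congr 1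
      unfold cas; ring_nf
    have g2 : e2 v = 0 := by
      refine ih x (y + 1) hx (by omega) (e2 v) (H.We2 _ _ _ hv) ?_ (by push_cast at hm ⊢; omega)
      have := H.e2_casOp _ _ _ _ hv ▸ congrArg e2 h0
      rw [map_zero] at this
      rw [← this]
      congr 1
      unfold cas; ring_nf
    have g3 : e3 v = 0 := by rw [H.he3, g1, g2, map_zero, map_zero, sub_zero]
    rw [casOp_apply, g1, g2, g3, map_zero, map_zero, map_zero, add_zero, zero_add, zero_add] at h0
    by_contra hv0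
    have h3 : cas x y - cas a b = 0 := by
      by_contra h4
      exact hv0 (zsmul_zero (k := k) h0 h4)
    obtain ⟨rfl, rfl⟩ := hab x y hx hy (sub_eq_zero.1 h3)
    exact hv0 (hno v hv g1 g2)

/-- the Casimir operator minus its value at `(a, b)` is surjective on the weight spaces above
`(a, b)` if there is no highest weight vector of weight `(a, b)` -/
lemma casOp_surj [CharZero k] {a b : ℤ}
    (hab : ∀ x y : ℤ, a ≤ x → b ≤ y → cas x y = cas a b → x = a ∧ y = b)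
    (hno : ∀ v ∈ W a b, e1 v = 0 → e2 v = 0 → v = 0) (x y c : ℤ) (hx : a ≤ x) (hy : b ≤ y)
    (hc : c = cas x y - cas a b) (v : M) (hv : v ∈ W x y) :
    ∃ u ∈ W x y, casOp e1 e2 e3 f1 f2 f3 c u = v := by
  subst hc
  have := H.fd x y
  let T : ↥(W x y) →ₗ[k] ↥(W x y) := (casOp e1 e2 e3 f1 f2 f3 (cas x y - cas a b)).restrict
    (fun u hu => H.casOp_mem _ x y u hu)
  have hT : Function.Injective T := by
    rw [← LinearMap.ker_eq_bot, LinearMap.ker_eq_bot']
    intro u hu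
    exact Subtype.ext (H.casOp_inj hab hno x y hx hy u u.2 (congrArg Subtype.val hu))
  obtain ⟨u, hu⟩ := (LinearMap.injective_iff_surjective.1 hT) ⟨v, hv⟩
  exact ⟨u, u.2, congrArg Subtype.val hu⟩

/-! the differentials of the complex `Hom(⋀ n₊, M)` -/

/-- the differential in degree 0 -/
noncomputable def _root_.Pool.Agent.L7h64.ABG.nd0 {k : Type*} {M : Type*} [Field k]
    [AddCommGroup M] [Module k M] (e1 e2 e3 : M →ₗ[k] M) : M →ₗ[k] M × M × M :=
  e1.prod (e2.prod e3)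

/-- the differential in degree 1 -/
noncomputable def _root_.Pool.Agent.L7h64.ABG.nd1 {k : Type*} {M : Type*} [Field k]
    [AddCommGroup M] [Module k M] (e1 e2 e3 : M →ₗ[k] M) : M × M × M →ₗ[k] M × M × M where
  toFun p := (e1 p.2.1 - e2 p.1 - p.2.2, e1 p.2.2 - e3 p.1, e2 p.2.2 - e3 p.2.1)
  map_add' p q := by
    simp only [Prod.fst_add, Prod.snd_add, map_add, Prod.mk_add_mk]
    refine Prod.ext ?_ (Prod.ext ?_ ?_) <;> simp only <;> abel
  map_smul' c p := by
    simp only [Prod.smul_fst, Prod.smul_snd, map_smul, RingHom.id_apply, Prod.smul_mk, smul_sub]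

/-- the differential in degree 2 -/
noncomputable def _root_.Pool.Agent.L7h64.ABG.nd2 {k : Type*} {M : Type*} [Field k]
    [AddCommGroup M] [Module k M] (e1 e2 e3 : M →ₗ[k] M) : M × M × M →ₗ[k] M where
  toFun p := e1 p.2.2 - e2 p.2.1 + e3 p.1
  map_add' p q := by
    simp only [Prod.fst_add, Prod.snd_add, map_add]
    abel
  map_smul' c p := by
    simp only [Prod.smul_fst, Prod.smul_snd, map_smul, RingHom.id_apply, smul_sub, smul_add]

omit H in
lemma nd0_apply (v : M) : nd0 e1 e2 e3 v = (e1 v, e2 v, e3 v) := rfl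
omit H in
lemma nd1_apply (p : M × M × M) : nd1 e1 e2 e3 p =
  (e1 p.2.1 - e2 p.1 - p.2.2, e1 p.2.2 - e3 p.1, e2 p.2.2 - e3 p.2.1) := rfl
omit H in
lemma nd2_apply (p : M × M × M) : nd2 e1 e2 e3 p = e1 p.2.2 - e2 p.2.1 + e3 p.1 := rfl

/-- the homotopy in degree 1 -/
lemma htpy1 (a b : ℤ) (x1 x2 x3 : M) (h1 : x1 ∈ W (a + 1) b) (h2 : x2 ∈ W a (b + 1))
    (h3 : x3 ∈ W (a + 1) (b + 1)) (hd : nd1 e1 e2 e3 (x1, x2, x3) = 0) :
    nd0 e1 e2 e3 (f1 x1 + f2 x2 + f3 x3) =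
      (casOp e1 e2 e3 f1 f2 f3 (cas (a + 1) b - cas a b) x1,
       casOp e1 e2 e3 f1 f2 f3 (cas a (b + 1) - cas a b) x2,
       casOp e1 e2 e3 f1 f2 f3 (cas (a + 1) (b + 1) - cas a b) x3) := by
  rw [nd1_apply] at hd
  have q1 : x3 = e1 x2 - e2 x1 := (sub_eq_zero.1 (congrArg Prod.fst hd)).symm
  have q2 : e1 x3 = e3 x1 := sub_eq_zero.1 (congrArg (fun t => t.2.1) hd)
  have q3 : e2 x3 = e3 x2 := sub_eq_zero.1 (congrArg (fun t => t.2.2) hd)
  rw [nd0_apply]
  refine Prod.ext ?_ (Prod.ext ?_ ?_)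
  · show e1 (f1 x1 + f2 x2 + f3 x3) = casOp e1 e2 e3 f1 f2 f3 (cas (a + 1) b - cas a b) x1
    rw [map_add, map_add, H.e1f1 _ _ _ h1, H.e1f2, H.e1f3 _ _ _ h3, casOp_apply, q2]
    have : f2 (e1 x2) = f2 x3 + f2 (e2 x1) := by rw [← map_add, q1, sub_add_cancel]
    rw [this]
    have e : cas (a + 1) b - cas a b = 2 * (a + 1) - b := by unfold cas; ring
    rw [e]
    module
  · show e2 (f1 x1 + f2 x2 + f3 x3) = casOp e1 e2 e3 f1 f2 f3 (cas a (b + 1) - cas a b) x2
    rw [map_add, map_add, H.e2f2 _ _ _ h2, H.e2f1, H.e2f3 _ _ _ h3, casOp_apply, q3]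
    have : f1 (e2 x1) = f1 (e1 x2) - f1 x3 := by rw [← map_sub, q1, sub_sub_cancel]
    rw [this]
    have e : cas a (b + 1) - cas a b = 2 * (b + 1) - a := by unfold cas; ring
    rw [e]
    module
  · show e3 (f1 x1 + f2 x2 + f3 x3) = casOp e1 e2 e3 f1 f2 f3 (cas (a + 1) (b + 1) - cas a b) x3
    rw [map_add, map_add, H.e3f1 _ _ _ h1, H.e3f2 _ _ _ h2, H.e3f3 _ _ _ h3, casOp_apply, q2, q3]
    have e : cas (a + 1) (b + 1) - cas a b = (a + 1 + (b + 1)) + 1 := by unfold cas; ring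
    have h7 : (a + 1 + (b + 1) + 1) • x3 = (a + 1 + (b + 1)) • x3 + (e1 x2 - e2 x1) := by
      rw [← q1, add_smul _ (1 : ℤ), one_smul]
    rw [e, h7]
    module

/-- the homotopy in degree 2 -/
lemma htpy2 (a b : ℤ) (y1 y2 y3 : M) (h1 : y1 ∈ W (a + 1) (b + 1)) (h2 : y2 ∈ W (a + 2) (b + 1))
    (h3 : y3 ∈ W (a + 1) (b + 2)) (hd : nd2 e1 e2 e3 (y1, y2, y3) = 0) :
    nd1 e1 e2 e3 (-f2 y1 - f3 y2, f1 y1 - f3 y3, f1 y2 + f2 y3 - y1) =
      (casOp e1 e2 e3 f1 f2 f3 (cas (a + 1) (b + 1) - cas a b) y1,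
       casOp e1 e2 e3 f1 f2 f3 (cas (a + 2) (b + 1) - cas a b) y2,
       casOp e1 e2 e3 f1 f2 f3 (cas (a + 1) (b + 2) - cas a b) y3) := by
  rw [nd2_apply] at hd
  simp only at hd
  have q : e1 y3 - e2 y2 = -e3 y1 := eq_neg_of_add_eq_zero_left hd
  rw [nd1_apply]
  refine Prod.ext ?_ (Prod.ext ?_ ?_)
  · show e1 (f1 y1 - f3 y3) - e2 (-f2 y1 - f3 y2) - (f1 y2 + f2 y3 - y1) =
      casOp e1 e2 e3 f1 f2 f3 (cas (a + 1) (b + 1) - cas a b) y1
    rw [map_sub, map_sub, map_neg, H.e1f1 _ _ _ h1, H.e1f3 _ _ _ h3, H.e2f2 _ _ _ h1,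
      H.e2f3 _ _ _ h2, casOp_apply]
    have : f3 (e3 y1) = -(f3 (e1 y3) - f3 (e2 y2)) := by rw [← map_sub, q, map_neg, neg_neg]
    rw [this]
    have e : cas (a + 1) (b + 1) - cas a b = (2 * (a + 1) - (b + 1)) + (2 * (b + 1) - (a + 1)) + 1
        := by unfold cas; ring
    rw [e]
    module
  · show e1 (f1 y2 + f2 y3 - y1) - e3 (-f2 y1 - f3 y2) =
      casOp e1 e2 e3 f1 f2 f3 (cas (a + 2) (b + 1) - cas a b) y2
    rw [map_sub, map_sub, map_add, map_neg, H.e1f1 _ _ _ h2, H.e1f2, H.e3f2 _ _ _ h1,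
      H.e3f3 _ _ _ h2, casOp_apply]
    have : f2 (e1 y3) = f2 (e2 y2) - f2 (e3 y1) := by
      have : e1 y3 = e2 y2 - e3 y1 := by rw [sub_eq_iff_eq_add] at q; rw [q]; abel
      rw [this, map_sub]
    rw [this]
    have e : cas (a + 2) (b + 1) - cas a b = (2 * (a + 2) - (b + 1)) + (a + 2 + (b + 1))
        := by unfold cas; ring
    rw [e]
    module
  · show e2 (f1 y2 + f2 y3 - y1) - e3 (f1 y1 - f3 y3) =
      casOp e1 e2 e3 f1 f2 f3 (cas (a + 1) (b + 2) - cas a b) y3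
    rw [map_sub, map_sub, map_add, H.e2f2 _ _ _ h3, H.e2f1, H.e3f1 _ _ _ h1,
      H.e3f3 _ _ _ h3, casOp_apply]
    have : f1 (e2 y2) = f1 (e1 y3) + f1 (e3 y1) := by
      have : e2 y2 = e1 y3 + e3 y1 := by rw [sub_eq_iff_eq_add] at q; rw [q]; abel
      rw [this, map_add]
    rw [this]
    have e : cas (a + 1) (b + 2) - cas a b = (2 * (b + 2) - (a + 1)) + (a + 1 + (b + 2))
        := by unfold cas; ring
    rw [e]
    module

/-- the homotopy in degree 3 -/
lemma htpy3 (a b : ℤ) (z : M) (h : z ∈ W (a + 2) (b + 2)) :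
    nd2 e1 e2 e3 (f3 z, -f2 z, f1 z) =
      casOp e1 e2 e3 f1 f2 f3 (cas (a + 2) (b + 2) - cas a b) z := by
  rw [nd2_apply]
  show e1 (f1 z) - e2 (-f2 z) + e3 (f3 z) = _
  rw [map_neg, H.e1f1 _ _ _ h, H.e2f2 _ _ _ h, H.e3f3 _ _ _ h, casOp_apply]
  have e : cas (a + 2) (b + 2) - cas a b = (2 * (a + 2) - (b + 2)) + (2 * (b + 2) - (a + 2)) +
    (a + 2 + (b + 2)) := by unfold cas; ring
  rw [e]
  module

/-- The multiplicity formula: if there is no highest weight vector of weight `(a, b)`, then the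
alternating sum over the Weyl group of the dimensions of the weight spaces vanishes. -/
theorem alt_eq_zero [CharZero k] {a b : ℤ}
    (hab : ∀ x y : ℤ, a ≤ x → b ≤ y → cas x y = cas a b → x = a ∧ y = b)
    (hno : ∀ v ∈ W a b, e1 v = 0 → e2 v = 0 → v = 0) :
    (finrank k (W a b) : ℤ) - finrank k (W (a + 1) b) - finrank k (W a (b + 1))
      + finrank k (W (a + 2) (b + 1)) + finrank k (W (a + 1) (b + 2))
      - finrank k (W (a + 2) (b + 2)) = 0 := by
  have f00 := H.fd a b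
  have f10 := H.fd (a + 1) b
  have f01 := H.fd a (b + 1)
  have f11 := H.fd (a + 1) (b + 1)
  have f21 := H.fd (a + 2) (b + 1)
  have f12 := H.fd (a + 1) (b + 2)
  have f22 := H.fd (a + 2) (b + 2)
  set S1 : Submodule k (M × M × M) := (W (a + 1) b).prod ((W a (b + 1)).prod (W (a + 1) (b + 1)))
    with hS1
  set S2 : Submodule k (M × M × M) :=
    (W (a + 1) (b + 1)).prod ((W (a + 2) (b + 1)).prod (W (a + 1) (b + 2))) with hS2
  have := fd_prod (W a (b + 1)) (W (a + 1) (b + 1))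
  have := fd_prod (W (a + 2) (b + 1)) (W (a + 1) (b + 2))
  have : FiniteDimensional k S1 := fd_prod _ _
  have : FiniteDimensional k S2 := fd_prod _ _
  have hd1 : finrank k S1 = finrank k (W (a + 1) b) + (finrank k (W a (b + 1)) +
      finrank k (W (a + 1) (b + 1))) := by
    rw [hS1, finrank_prod', finrank_prod']
  have hd2 : finrank k S2 = finrank k (W (a + 1) (b + 1)) + (finrank k (W (a + 2) (b + 1)) +
      finrank k (W (a + 1) (b + 2))) := by
    rw [hS2, finrank_prod', finrank_prod']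
  -- exactness
  have ex0 : W a b ⊓ LinearMap.ker (nd0 e1 e2 e3) = ⊥ := by
    rw [eq_bot_iff]
    rintro v ⟨hv, hv2⟩
    have hv2 : nd0 e1 e2 e3 v = 0 := hv2
    rw [nd0_apply] at hv2
    exact hno v hv (congrArg Prod.fst hv2) (congrArg (fun t => t.2.1) hv2)
  have ex1 : S1 ⊓ LinearMap.ker (nd1 e1 e2 e3) = (W a b).map (nd0 e1 e2 e3) := by
    apply le_antisymm
    · rintro ⟨x1, x2, x3⟩ ⟨⟨h1, h2, h3⟩, hd⟩
      simp only at h1 h2 h3
      have hd : nd1 e1 e2 e3 (x1, x2, x3) = 0 := hd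
      obtain ⟨y1, hy1, t1⟩ := H.casOp_surj hab hno (a + 1) b _ (by omega) (by omega) rfl x1 h1
      obtain ⟨y2, hy2, t2⟩ := H.casOp_surj hab hno a (b + 1) _ (by omega) (by omega) rfl x2 h2
      obtain ⟨y3, hy3, t3⟩ := H.casOp_surj hab hno (a + 1) (b + 1) _ (by omega) (by omega) rfl x3 h3
      rw [nd1_apply] at hd
      have q1 : e1 x2 - e2 x1 - x3 = 0 := congrArg Prod.fst hd
      have q2 : e1 x3 - e3 x1 = 0 := congrArg (fun t => t.2.1) hd
      have q3 : e2 x3 - e3 x2 = 0 := congrArg (fun t => t.2.2) hd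
      have hdy : nd1 e1 e2 e3 (y1, y2, y3) = 0 := by
        rw [nd1_apply]
        refine Prod.ext ?_ (Prod.ext ?_ ?_)
        · show e1 y2 - e2 y1 - y3 = 0
          refine H.casOp_inj hab hno (a + 1) (b + 1) (by omega) (by omega) _
            (Submodule.sub_mem _ (Submodule.sub_mem _ (H.We1 _ _ _ hy2) (H.We2 _ _ _ hy1)) hy3) ?_
          rw [map_sub, map_sub, t3]
          have r1 := H.e1_casOp (cas a (b + 1) - cas a b) _ _ _ hy2
          have r2 := H.e2_casOp (cas (a + 1) b - cas a b) _ _ _ hy1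
          rw [t2] at r1
          rw [t1] at r2
          have s1 : cas a (b + 1) - cas a b + 2 * a - (b + 1) + 2 =
            cas (a + 1) (b + 1) - cas a b := by unfold cas; ring
          have s2 : cas (a + 1) b - cas a b + 2 * b - (a + 1) + 2 =
            cas (a + 1) (b + 1) - cas a b := by unfold cas; ring
          rw [s1] at r1
          rw [s2] at r2
          rw [← r1, ← r2, q1]
        · show e1 y3 - e3 y1 = 0
          have m1 := H.We1 _ _ _ hy3
          have m2 := H.We3 _ _ _ hy1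
          rw [show a + 1 + 1 = a + 2 by ring] at m1 m2
          refine H.casOp_inj hab hno (a + 2) (b + 1) (by omega) (by omega) _
            (Submodule.sub_mem _ m1 m2) ?_
          rw [map_sub]
          have r1 := H.e1_casOp (cas (a + 1) (b + 1) - cas a b) _ _ _ hy3
          have r2 := H.e3_casOp (cas (a + 1) b - cas a b) _ _ _ hy1
          rw [t3] at r1
          rw [t1] at r2
          have s1 : cas (a + 1) (b + 1) - cas a b + 2 * (a + 1) - (b + 1) + 2 =
            cas (a + 2) (b + 1) - cas a b := by unfold cas; ring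
          have s2 : cas (a + 1) b - cas a b + (a + 1) + b + 3 =
            cas (a + 2) (b + 1) - cas a b := by unfold cas; ring
          rw [s1] at r1
          rw [s2] at r2
          rw [← r1, ← r2, q2]
        · show e2 y3 - e3 y2 = 0
          have m1 := H.We2 _ _ _ hy3
          have m2 := H.We3 _ _ _ hy2
          rw [show b + 1 + 1 = b + 2 by ring] at m1 m2
          refine H.casOp_inj hab hno (a + 1) (b + 2) (by omega) (by omega) _
            (Submodule.sub_mem _ m1 m2) ?_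
          rw [map_sub]
          have r1 := H.e2_casOp (cas (a + 1) (b + 1) - cas a b) _ _ _ hy3
          have r2 := H.e3_casOp (cas a (b + 1) - cas a b) _ _ _ hy2
          rw [t3] at r1
          rw [t2] at r2
          have s1 : cas (a + 1) (b + 1) - cas a b + 2 * (b + 1) - (a + 1) + 2 =
            cas (a + 1) (b + 2) - cas a b := by unfold cas; ring
          have s2 : cas a (b + 1) - cas a b + a + (b + 1) + 3 =
            cas (a + 1) (b + 2) - cas a b := by unfold cas; ring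
          rw [s1] at r1
          rw [s2] at r2
          rw [← r1, ← r2, q3]
      have hh := H.htpy1 a b y1 y2 y3 hy1 hy2 hy3 hdy
      rw [t1, t2, t3] at hh
      refine ⟨f1 y1 + f2 y2 + f3 y3, ?_, hh⟩
      have m1 := H.Wf1 _ _ _ hy1
      have m2 := H.Wf2 _ _ _ hy2
      have m3 := H.Wf3 _ _ _ hy3
      simp only [add_sub_cancel_right] at m1 m2 m3
      exact Submodule.add_mem _ (Submodule.add_mem _ m1 m2) m3
    · rintro _ ⟨v, hv, rfl⟩
      refine ⟨⟨H.We1 _ _ _ hv, H.We2 _ _ _ hv, H.We3 _ _ _ hv⟩, ?_⟩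
      show nd1 e1 e2 e3 (nd0 e1 e2 e3 v) = 0
      rw [nd0_apply, nd1_apply]
      refine Prod.ext ?_ (Prod.ext ?_ ?_)
      · show e1 (e2 v) - e2 (e1 v) - e3 v = 0
        rw [H.he3, sub_self]
      · show e1 (e3 v) - e3 (e1 v) = 0
        rw [H.e1e3, sub_self]
      · show e2 (e3 v) - e3 (e2 v) = 0
        rw [H.e2e3, sub_self]
  have ex2 : S2 ⊓ LinearMap.ker (nd2 e1 e2 e3) = S1.map (nd1 e1 e2 e3) := by
    apply le_antisymm
    · rintro ⟨x1, x2, x3⟩ ⟨⟨h1, h2, h3⟩, hd⟩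
      simp only at h1 h2 h3
      have hd : nd2 e1 e2 e3 (x1, x2, x3) = 0 := hd
      obtain ⟨y1, hy1, t1⟩ := H.casOp_surj hab hno (a + 1) (b + 1) _ (by omega) (by omega) rfl x1 h1
      obtain ⟨y2, hy2, t2⟩ := H.casOp_surj hab hno (a + 2) (b + 1) _ (by omega) (by omega) rfl x2 h2
      obtain ⟨y3, hy3, t3⟩ := H.casOp_surj hab hno (a + 1) (b + 2) _ (by omega) (by omega) rfl x3 h3
      rw [nd2_apply] at hd
      have q1 : e1 x3 - e2 x2 + e3 x1 = 0 := hd
      have hdy : nd2 e1 e2 e3 (y1, y2, y3) = 0 := by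
        rw [nd2_apply]
        show e1 y3 - e2 y2 + e3 y1 = 0
        have m1 := H.We1 _ _ _ hy3
        have m2 := H.We2 _ _ _ hy2
        have m3 := H.We3 _ _ _ hy1
        rw [show a + 1 + 1 = a + 2 by ring] at m1 m3
        rw [show b + 1 + 1 = b + 2 by ring] at m2 m3
        refine H.casOp_inj hab hno (a + 2) (b + 2) (by omega) (by omega) _
          (Submodule.add_mem _ (Submodule.sub_mem _ m1 m2) m3) ?_
        rw [map_add, map_sub]
        have r1 := H.e1_casOp (cas (a + 1) (b + 2) - cas a b) _ _ _ hy3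
        have r2 := H.e2_casOp (cas (a + 2) (b + 1) - cas a b) _ _ _ hy2
        have r3 := H.e3_casOp (cas (a + 1) (b + 1) - cas a b) _ _ _ hy1
        rw [t3] at r1
        rw [t2] at r2
        rw [t1] at r3
        have s1 : cas (a + 1) (b + 2) - cas a b + 2 * (a + 1) - (b + 2) + 2 =
          cas (a + 2) (b + 2) - cas a b := by unfold cas; ring
        have s2 : cas (a + 2) (b + 1) - cas a b + 2 * (b + 1) - (a + 2) + 2 =
          cas (a + 2) (b + 2) - cas a b := by unfold cas; ring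
        have s3 : cas (a + 1) (b + 1) - cas a b + (a + 1) + (b + 1) + 3 =
          cas (a + 2) (b + 2) - cas a b := by unfold cas; ring
        rw [s1] at r1
        rw [s2] at r2
        rw [s3] at r3
        rw [← r1, ← r2, ← r3, q1]
      have hh := H.htpy2 a b y1 y2 y3 hy1 hy2 hy3 hdy
      rw [t1, t2, t3] at hh
      refine ⟨_, ⟨?_, ?_, ?_⟩, hh⟩
      · show -f2 y1 - f3 y2 ∈ W (a + 1) b
        have m1 := H.Wf2 _ _ _ hy1
        have m2 := H.Wf3 _ _ _ hy2
        rw [show b + 1 - 1 = b by ring] at m1 m2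
        rw [show a + 2 - 1 = a + 1 by ring] at m2
        exact Submodule.sub_mem _ (Submodule.neg_mem _ m1) m2
      · show f1 y1 - f3 y3 ∈ W a (b + 1)
        have m1 := H.Wf1 _ _ _ hy1
        have m2 := H.Wf3 _ _ _ hy3
        rw [show a + 1 - 1 = a by ring] at m1 m2
        rw [show b + 2 - 1 = b + 1 by ring] at m2
        exact Submodule.sub_mem _ m1 m2
      · show f1 y2 + f2 y3 - y1 ∈ W (a + 1) (b + 1)
        have m1 := H.Wf1 _ _ _ hy2
        have m2 := H.Wf2 _ _ _ hy3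
        rw [show a + 2 - 1 = a + 1 by ring] at m1
        rw [show b + 2 - 1 = b + 1 by ring] at m2
        exact Submodule.sub_mem _ (Submodule.add_mem _ m1 m2) hy1
    · rintro _ ⟨⟨x1, x2, x3⟩, ⟨h1, h2, h3⟩, rfl⟩
      simp only at h1 h2 h3
      refine ⟨⟨?_, ?_, ?_⟩, ?_⟩
      · show e1 x2 - e2 x1 - x3 ∈ W (a + 1) (b + 1)
        exact Submodule.sub_mem _ (Submodule.sub_mem _ (H.We1 _ _ _ h2) (H.We2 _ _ _ h1)) h3
      · show e1 x3 - e3 x1 ∈ W (a + 2) (b + 1)
        have m1 := H.We1 _ _ _ h3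
        have m2 := H.We3 _ _ _ h1
        rw [show a + 1 + 1 = a + 2 by ring] at m1 m2
        exact Submodule.sub_mem _ m1 m2
      · show e2 x3 - e3 x2 ∈ W (a + 1) (b + 2)
        have m1 := H.We2 _ _ _ h3
        have m2 := H.We3 _ _ _ h2
        rw [show b + 1 + 1 = b + 2 by ring] at m1 m2
        exact Submodule.sub_mem _ m1 m2
      · show nd2 e1 e2 e3 (nd1 e1 e2 e3 (x1, x2, x3)) = 0
        rw [nd1_apply, nd2_apply]
        show e1 (e2 x3 - e3 x2) - e2 (e1 x3 - e3 x1) + e3 (e1 x2 - e2 x1 - x3) = 0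
        simp only [map_sub, H.e1e3, H.e2e3, H.he3 x3]
        abel
  have ex3 : S2.map (nd2 e1 e2 e3) = W (a + 2) (b + 2) := by
    apply le_antisymm
    · rintro _ ⟨⟨x1, x2, x3⟩, ⟨h1, h2, h3⟩, rfl⟩
      simp only at h1 h2 h3
      show e1 x3 - e2 x2 + e3 x1 ∈ _
      have m1 := H.We1 _ _ _ h3
      have m2 := H.We2 _ _ _ h2
      have m3 := H.We3 _ _ _ h1
      rw [show a + 1 + 1 = a + 2 by ring] at m1 m3
      rw [show b + 1 + 1 = b + 2 by ring] at m2 m3
      exact Submodule.add_mem _ (Submodule.sub_mem _ m1 m2) m3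
    · intro z hz
      obtain ⟨y, hy, t⟩ := H.casOp_surj hab hno (a + 2) (b + 2) _ (by omega) (by omega) rfl z hz
      have hh := H.htpy3 a b y hy
      rw [t] at hh
      refine ⟨_, ⟨?_, ?_, ?_⟩, hh⟩
      · show f3 y ∈ W (a + 1) (b + 1)
        have m := H.Wf3 _ _ _ hy
        rw [show b + 2 - 1 = b + 1 by ring, show a + 2 - 1 = a + 1 by ring] at m
        exact m
      · show -f2 y ∈ W (a + 2) (b + 1)
        have m := H.Wf2 _ _ _ hy
        rw [show b + 2 - 1 = b + 1 by ring] at m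
        exact Submodule.neg_mem _ m
      · show f1 y ∈ W (a + 1) (b + 2)
        have m := H.Wf1 _ _ _ hy
        rw [show a + 2 - 1 = a + 1 by ring] at m
        exact m
  have n0 := finrank_map_add (W a b) (nd0 e1 e2 e3)
  have n1 := finrank_map_add S1 (nd1 e1 e2 e3)
  have n2 := finrank_map_add S2 (nd2 e1 e2 e3)
  rw [ex0, finrank_bot, add_zero] at n0
  rw [ex1] at n1
  rw [ex2, ex3] at n2
  omega

end Sl3W

end Pool.Agent.L7h64.ABG
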