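import Pool.Agent.L7h64.ABGDef
import Pool.Agent.L7h64.ABGFinal
import Pool.Agent.L7h64.ABGProj

/-!
# The `sl_3`-module structure of the homology of `ABG(A)`, and the bracket of `ABG(A)`
-/

set_option autoImplicit false
set_option linter.unusedSimpArgs false
set_option linter.unusedSectionVars false

namespace Pool.Agent.L7h64.ABG

open Module Matrix

universe u

attribute [local instance 100] LieRing.ofAssociativeRing LieAlgebra.ofAssociativeAlgebra

section Def

variable (k A : Type*) [Field k] [CharZero k] [NonUnitalNonAssocRing A] [Module k A]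
  [IsScalarTower k A A] [SMulCommClass k A A] [IsAlternative A]

/-- The homology `H_n(ABG(A), k)` with trivial coefficients. -/
abbrev HABG (n : ℕ) : Type _ := LieHomology k (ABGAlg k A) n

/-- The action of `X` in `sl_3` on the homology `H_n(ABG(A), k)`, induced by its action on
`ABG(A) = sl_3 ⊗ A ⊕ B(A)` through the factor `sl_3`. -/
noncomputable def sl3Act (n : ℕ) (X : sl3 k) : HABG k A n →ₗ[k] HABG k A n :=
  homAct (delta k A X.1) (delta_der X.1) n

end Def

/-- The Lie algebra `ABG(Alt(V))`, `dim V = 9`, has a homology group of degree at least two with a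
trivial or an adjoint direct summand. -/
theorem exists_summand (k : Type u) [Field k] [CharZero k] : ∃ n : ℕ, 2 ≤ n ∧
    (HasSummand (sl3Act k (FreeAlt k (Fin 9)) n) (fun _ : sl3 k => (0 : k →ₗ[k] k)) ∨
      HasSummand (sl3Act k (FreeAlt k (Fin 9)) n)
        (fun X : sl3 k => (LieAlgebra.ad k (sl3 k) X : sl3 k →ₗ[k] sl3 k))) := by
  classical
  obtain ⟨IA, bA, cA, hcA, hbA⟩ := exists_basis_of_span (mon k (X := Fin 9)) mon_span
  obtain ⟨IB, bB, cB, hcB, hbB⟩ := exists_basis_of_span
    (fun p : FreeMagma (Fin 9) × FreeMagma (Fin 9) =>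
      wd k (FreeAlt k (Fin 9)) (mon k p.1) (mon k p.2)) wd_span
  let _ : LinearOrder IA := linearOrderOfSTO (α := IA) WellOrderingRel
  let _ : LinearOrder IB := linearOrderOfSTO (α := IB) WellOrderingRel
  let _ : LinearOrder ((Σ _ : Fin 8, IA) ⊕ IB) :=
    linearOrderOfSTO (α := (Σ _ : Fin 8, IA) ⊕ IB) WellOrderingRel
  have G := grLie bA cA bB cB hcA hbA hcB hbB
  obtain ⟨n, hn, a, S, ha, v, hv, h1, h2, h0⟩ := exists_hw k hcA hbA hcB hbB G
  refine ⟨n, hn, ?_⟩
  have R := G.rep3 n S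
  rw [← G.range_hproj] at hv
  rcases ha with rfl | rfl
  · obtain ⟨i, p, e1, e2, e3⟩ := R.trivial_summand v hv h1 h2 h0
    refine Or.inl ⟨i, p, e1, fun X c => ?_, fun X m => ?_⟩
    · rw [LinearMap.zero_apply, map_zero]
      exact e2 X c
    · exact e3 X m
  · obtain ⟨i, p, e1, e2, e3⟩ := R.adjoint_summand v hv h1 h2 h0
    exact Or.inr ⟨i, p, e1, fun X c => e2 X c, fun X m => e3 X m⟩

/-! ### the bracket in the notation of the problem -/

section Check

variable {k A : Type*} [Field k] [CharZero k] [NonUnitalNonAssocRing A] [Module k A]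
  [IsScalarTower k A A] [SMulCommClass k A A] [IsAlternative A]

lemma trace_bkt (X Y : M3 k) : (X * Y - Y * X).trace = 0 := trace_comm X Y

lemma trace_circ (X Y : M3 k) :
    ((1 / 2 : k) • (X * Y + Y * X) - ((1 / 3 : k) * (X * Y).trace) • (1 : M3 k)).trace = 0 := by
  rw [trace_sub, trace_smul, trace_smul, trace_add, trace_mul_comm Y X, trace_one,
    Fintype.card_fin, smul_eq_mul, smul_eq_mul]
  push_cast
  ring

/-- `[X ⊗ p, Y ⊗ q] = [X, Y] ⊗ (p · q) + {X, Y} ⊗ [p, q] + (1/3) tr(XY) p ∧ q` -/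
theorem bracket_tensor (X Y : M3 k) (hX : X.trace = 0) (hY : Y.trace = 0) (p q : A) :
    ⁅inT k A (tenT X hX p), inT k A (tenT Y hY q)⁆ =
      inT k A (tenT (X * Y - Y * X) (trace_bkt X Y) ((1 / 2 : k) • (p * q + q * p))) +
      inT k A (tenT ((1 / 2 : k) • (X * Y + Y * X) - ((1 / 3 : k) * (X * Y).trace) • (1 : M3 k))
        (trace_circ X Y) (p * q - q * p)) +
      inB k A (((1 / 3 : k) * (X * Y).trace) • wd k A p q) := by
  rw [bracket_ten, ← map_add]
  congr 2
  apply Subtype.ext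
  ext i j
  show (tenT (dv (X * Y)) (trace_dv _) (p * q)).1 i j -
    (tenT (dv (Y * X)) (trace_dv _) (q * p)).1 i j = (tenT (X * Y - Y * X) _ _).1 i j +
    (tenT _ _ (p * q - q * p)).1 i j
  simp only [tenT_apply, dv, Matrix.sub_apply, Matrix.smul_apply, Matrix.add_apply, smul_eq_mul,
    trace_mul_comm Y X]
  module

/-- `[p ∧ q, X ⊗ r] = X ⊗ D_{p,q}(r)` -/
theorem bracket_wedge_tensor (X : M3 k) (hX : X.trace = 0) (p q r : A) :
    ⁅inB k A (wd k A p q), inT k A (tenT X hX r)⁆ = inT k A (tenT X hX (Dop p q r)) := by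
  refine Prod.ext ?_ ?_
  · show mbr k A 0 (tenT X hX r) + DT k A (DD k A (wd k A p q)) (tenT X hX r)
          - DT k A (DD k A 0) 0 = tenT X hX (Dop p q r)
    rw [map_zero, LinearMap.zero_apply, zero_add, map_zero, sub_zero, DT_ten, DD_wd]
  · show om k A 0 (tenT X hX r) + bact k A (DD k A (wd k A p q)) 0 = 0
    rw [map_zero, map_zero, LinearMap.zero_apply, add_zero]

/-- `[p ∧ q, r ∧ s] = D_{p,q}(r) ∧ s + r ∧ D_{p,q}(s)` -/
theorem bracket_wedge_wedge (p q r s : A) :
    ⁅inB k A (wd k A p q), inB k A (wd k A r s)⁆ =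
      inB k A (wd k A (Dop p q r) s + wd k A r (Dop p q s)) := by
  refine Prod.ext ?_ ?_
  · show mbr k A 0 0 + DT k A (DD k A (wd k A p q)) 0 - DT k A (DD k A (wd k A r s)) 0 = 0
    simp only [map_zero, sub_zero, add_zero]
  · show om k A 0 0 + bact k A (DD k A (wd k A p q)) (wd k A r s) =
      wd k A (Dop p q r) s + wd k A r (Dop p q s)
    rw [map_zero, zero_add, bact_wd, DD_wd, DD_wd]

/-- `sl_3` acts on `sl_3 ⊗ A` by the adjoint action on the first factor -/
theorem action_tensor (X Y : M3 k) (hY : Y.trace = 0) (p : A) :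
    delta k A X (inT k A (tenT Y hY p)) =
      inT k A (tenT (X * Y - Y * X) (trace_bkt X Y) p) :=
  Prod.ext (adX_ten X Y hY p) rfl

/-- `sl_3` acts trivially on `B(A)` -/
theorem action_wedge (X : M3 k) (b : BA k A) : delta k A X (inB k A b) = 0 :=
  Prod.ext (map_zero (adX k A X)) rfl

end Check

end Pool.Agent.L7h64.ABG
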