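import Pool.Agent.L7h64.CoreSeries

/-!
# Random walk of the function `2 |m| + 1`
-/

set_option autoImplicit false

namespace Pool.Agent.L7h64.CoreSeries

/-- the random walk started from `2 |m| + 1` -/
def walk : ℕ → ℤ → ℤ
  | 0, m => 2 * |m| + 1
  | n + 1, m => walk n (m + 1) + walk n (m - 1)

/-- shifted binomial coefficients -/
def g (n : ℕ) (m : ℤ) : ℤ :=
  if (n + m) % 2 = 0 ∧ 0 ≤ n + m then (n.choose ((n + m) / 2).toNat : ℤ) else 0

lemma g_zero (m : ℤ) : g 0 m = if m = 0 then 1 else 0 := by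
  unfold g
  by_cases h : m = 0
  · subst h; simp
  · rw [if_neg h]
    split_ifs with h1
    · have : 0 < (((0 : ℕ) : ℤ) + m) / 2 := by push_cast at h1 ⊢; omega
      obtain ⟨k, hk⟩ : ∃ k, ((((0 : ℕ) : ℤ) + m) / 2).toNat = k + 1 := ⟨_, (Nat.succ_pred_eq_of_pos
        (by omega)).symm⟩
      rw [hk]; simp
    · rfl

lemma g_succ (n : ℕ) (m : ℤ) : g (n + 1) m = g n (m + 1) + g n (m - 1) := by
  unfold g
  push_cast
  by_cases h : ((n : ℤ) + 1 + m) % 2 = 0
  · by_cases h0 : 0 ≤ (n : ℤ) + 1 + m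
    · rw [if_pos ⟨h, h0⟩, if_pos ⟨by omega, by omega⟩]
      by_cases h1 : (n : ℤ) + 1 + m = 0
      · rw [if_neg (by omega)]
        have e1 : (((n : ℤ) + 1 + m) / 2).toNat = 0 := by rw [h1]; rfl
        have e2 : (((n : ℤ) + (m + 1)) / 2).toNat = 0 := by
          rw [show (n : ℤ) + (m + 1) = 0 by omega]; rfl
        rw [e1, e2]; simp
      · rw [if_pos ⟨by omega, by omega⟩]
        obtain ⟨j, hj⟩ : ∃ j : ℕ, (n : ℤ) + 1 + m = 2 * (j + 1) :=
          ⟨(((n : ℤ) + 1 + m) / 2 - 1).toNat, by omega⟩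
        have e1 : (((n : ℤ) + 1 + m) / 2).toNat = j + 1 := by omega
        have e2 : (((n : ℤ) + (m + 1)) / 2).toNat = j + 1 := by omega
        have e3 : (((n : ℤ) + (m - 1)) / 2).toNat = j := by omega
        rw [e1, e2, e3, Nat.choose_succ_succ]
        push_cast; ring
    · rw [if_neg (fun hh => h0 hh.2), if_neg (by omega), if_neg (by omega)]; rfl
  · rw [if_neg (fun hh => h hh.1), if_neg (by omega), if_neg (by omega)]; rfl

lemma walk_second (n : ℕ) : ∀ m : ℤ,
    walk n (m + 1) + walk n (m - 1) - 2 * walk n m = 4 * g n m := by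
  induction n with
  | zero =>
    intro m
    rw [g_zero]
    simp only [walk]
    split_ifs with h
    · subst h; norm_num
    · rcases lt_or_gt_of_ne h with h | h
      · rw [abs_of_nonpos (by omega : m + 1 ≤ 0), abs_of_neg (by omega : m - 1 < 0), abs_of_neg h]
        ring
      · rw [abs_of_nonneg (by omega : 0 ≤ m + 1), abs_of_nonneg (by omega : 0 ≤ m - 1),
          abs_of_pos h]
        ring
  | succ n ih =>
    intro m
    have h1 := ih (m + 1)
    have h2 := ih (m - 1)
    rw [g_succ]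
    simp only [walk]
    linear_combination h1 + h2

lemma walk_zero_rec (n : ℕ) : walk (n + 1) 0 = 2 * walk n 0 + 4 * (cb n : ℤ) := by
  have h := walk_second n 0
  have hg : g n 0 = (cb n : ℤ) := by
    unfold g cb
    rw [add_zero]
    by_cases hn : Even n
    · obtain ⟨k, rfl⟩ := hn
      rw [if_pos ⟨by push_cast; omega, by omega⟩, if_pos ⟨k, rfl⟩]
      congr 2
    · rw [if_neg hn, if_neg]
      · rfl
      · rintro ⟨h1, -⟩
        apply hn
        exact ⟨n / 2, by omega⟩
  rw [hg] at h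
  simp only [walk]
  linear_combination h

/-- **Main statement of this file.** -/
theorem not_rational' (c : ℕ → ℕ) (hc : ∀ n, (c n : ℤ) = walk n 0) :
    ¬ ∃ P Q : Polynomial ℚ, Q ≠ 0 ∧
      (Q : PowerSeries ℚ) * PowerSeries.mk (fun n : ℕ => (c n : ℚ)) = (P : PowerSeries ℚ) := by
  apply not_rational
  · have := hc 0
    simp [walk] at this
    exact_mod_cast this
  · intro n
    have h1 := walk_zero_rec n
    rw [← hc, ← hc] at h1
    exact_mod_cast h1

end Pool.Agent.L7h64.CoreSeries
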