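import Pool.Agent.L7h64.CoreMod
import Pool.Agent.L7h64.CoreWalk

/-!
# The cores of the tensor powers of `Ω k ⊕ Ω⁻¹ k`
-/

set_option autoImplicit false

namespace Pool.Agent.L7h64.Core

open Representation TensorProduct CategoryTheory CategoryTheory.Limits
open CategoryTheory.MonoidalCategory
open Pool.Agent.L7h64.CoreSeries

/-- the module `E_m` -/
noncomputable abbrev Ep (m : ℕ) : Rep.{0} F2 G4 := Rep.of (ep m)
/-- the module `E_{-m}` -/
noncomputable abbrev En (m : ℕ) : Rep.{0} F2 G4 := Rep.of (en m)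

instance (m : ℕ) : FiniteDimensional F2 (Ep m).V :=
  inferInstanceAs (FiniteDimensional F2 ((Fin (m + 1) → F2) × (Fin m → F2)))
instance (m : ℕ) : FiniteDimensional F2 (En m).V :=
  inferInstanceAs (FiniteDimensional F2 ((Fin m → F2) × (Fin (m + 1) → F2)))

instance finT (X Y : Rep.{0} F2 G4) [FiniteDimensional F2 X.V] [FiniteDimensional F2 Y.V] :
    FiniteDimensional F2 (X ⊗ Y : Rep.{0} F2 G4).V :=
  inferInstanceAs (FiniteDimensional F2 (X.V ⊗[F2] Y.V))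

/-- the invariant `c` of an object -/
noncomputable def c (X : Rep.{0} F2 G4) : ℤ := cc X.ρ

lemma c_iso {X Y : Rep.{0} F2 G4} (e : X ≅ Y) : c X = c Y := cc_equiv (toEquiv e)

lemma c_biprod (X Y : Rep.{0} F2 G4) [FiniteDimensional F2 X.V] [FiniteDimensional F2 Y.V] :
    c (X ⊞ Y) = c X + c Y := by
  unfold c cc
  rw [finrank_biprod, rk_biprod]
  push_cast
  ring

lemma c_Ep (m : ℕ) : c (Ep m) = 2 * m + 1 := by
  unfold c cc
  rw [show (Ep m).ρ = ep m from rfl, ep, sq_rk]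
  have : Module.finrank F2 (Ep m).V = (m + 1) + m := by
    change Module.finrank F2 ((Fin (m + 1) → F2) × (Fin m → F2)) = _
    rw [Module.finrank_prod, Module.finrank_pi, Module.finrank_pi]
    simp
  rw [this]
  push_cast
  ring

lemma c_En (m : ℕ) : c (En m) = 2 * m + 1 := by
  unfold c cc
  rw [show (En m).ρ = en m from rfl, en, sq_rk]
  have : Module.finrank F2 (En m).V = m + (m + 1) := by
    change Module.finrank F2 ((Fin m → F2) × (Fin (m + 1) → F2)) = _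
    rw [Module.finrank_prod, Module.finrank_pi, Module.finrank_pi]
    simp
  rw [this]
  push_cast
  ring

/-- two objects with the same `c` after tensoring with anything -/
def Eq' (X X' : Rep.{0} F2 G4) : Prop :=
  ∀ Y : Rep.{0} F2 G4, FiniteDimensional F2 Y.V → c (Y ⊗ X) = c (Y ⊗ X')

/-- `E_0` is the unit object -/
noncomputable def ep0 : Ep 0 ≅ 𝟙_ (Rep.{0} F2 G4) :=
  Rep.mkIso (σ := Representation.trivial F2 G4 F2) (Representation.Equiv.mk
    { toFun := fun x => x.1 0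
      map_add' := fun _ _ => rfl
      map_smul' := fun _ _ => rfl
      invFun := fun a => (fun _ => a, fun _ => 0)
      left_inv := fun x => by
        refine Prod.ext ?_ ?_
        · funext i; rw [show i = 0 from Fin.ext (by omega)]
        · funext i; exact i.elim0
      right_inv := fun _ => rfl } (fun g => rfl))

/-- `E_{-0}` is the unit object -/
noncomputable def en0 : En 0 ≅ 𝟙_ (Rep.{0} F2 G4) :=
  Rep.mkIso (σ := Representation.trivial F2 G4 F2) (Representation.Equiv.mk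
    { toFun := fun x => x.2 0
      map_add' := fun _ _ => rfl
      map_smul' := fun _ _ => rfl
      invFun := fun a => (fun _ => 0, fun _ => a)
      left_inv := fun x => by
        refine Prod.ext ?_ ?_
        · funext i; exact i.elim0
        · funext i; rw [show i = 0 from Fin.ext (by omega)]
      right_inv := fun _ => rfl } (fun g => by
        apply LinearMap.ext
        intro x
        change (x.2 + (g.toAdd.1 • app 0 x.1 + g.toAdd.2 • pre 0 x.1)) 0 = x.2 0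
        have h0 : x.1 = 0 := by funext i; exact i.elim0
        rw [h0, map_zero, map_zero]
        simp))

lemma frm_hig (m : ℕ) : Hig (frm m) := fr_hig

instance (m : ℕ) : FiniteDimensional F2 ((Fin (m + 1) → F2) × (Fin (m + 1) → F2) ×
    (Fin (m + 1) → F2) × (Fin (m + 1) → F2)) := inferInstance

lemma P_sub (m : ℕ) (Y : Rep.{0} F2 G4) [FiniteDimensional F2 Y.V] :
    c (Y ⊗ Ep (m + 1)) = dd (Y ⊗ Ep m).ρ := (sesP m).cc_sub' (frm_hig m) Y.ρ

lemma P_quot (m : ℕ) (Y : Rep.{0} F2 G4) [FiniteDimensional F2 Y.V] :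
    c (Y ⊗ Ep m) = di (Y ⊗ Ep (m + 1)).ρ := (sesP m).cc_quot' (frm_hig m) Y.ρ

lemma N_sub (m : ℕ) (Y : Rep.{0} F2 G4) [FiniteDimensional F2 Y.V] :
    c (Y ⊗ En m) = dd (Y ⊗ En (m + 1)).ρ := (sesN m).cc_sub' (frm_hig m) Y.ρ

lemma N_quot (m : ℕ) (Y : Rep.{0} F2 G4) [FiniteDimensional F2 Y.V] :
    c (Y ⊗ En (m + 1)) = di (Y ⊗ En m).ρ := (sesN m).cc_quot' (frm_hig m) Y.ρ

lemma tEp1 (Y : Rep.{0} F2 G4) [FiniteDimensional F2 Y.V] : c (Y ⊗ Ep 1) = dd Y.ρ := by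
  rw [P_sub 0 Y]
  exact dd_equiv (toEquiv (whiskerLeftIso Y ep0 ≪≫ ρ_ Y))

lemma tEn1 (Y : Rep.{0} F2 G4) [FiniteDimensional F2 Y.V] : c (Y ⊗ En 1) = di Y.ρ := by
  rw [N_quot 0 Y]
  exact di_equiv (toEquiv (whiskerLeftIso Y en0 ≪≫ ρ_ Y))

lemma e1 (m : ℕ) : Eq' (Ep m ⊗ Ep 1) (Ep (m + 1)) := by
  intro Y hY
  rw [← c_iso (α_ Y (Ep m) (Ep 1)), tEp1, P_sub]

lemma e2 (m : ℕ) : Eq' (Ep (m + 1) ⊗ En 1) (Ep m) := by
  intro Y hY
  rw [← c_iso (α_ Y (Ep (m + 1)) (En 1)), tEn1, P_quot]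

lemma e3 (m : ℕ) : Eq' (En m ⊗ En 1) (En (m + 1)) := by
  intro Y hY
  rw [← c_iso (α_ Y (En m) (En 1)), tEn1, N_quot]

lemma e4 (m : ℕ) : Eq' (En (m + 1) ⊗ Ep 1) (En m) := by
  intro Y hY
  rw [← c_iso (α_ Y (En (m + 1)) (Ep 1)), tEp1, N_sub]

/-- the module `Ω k ⊕ Ω⁻¹ k` -/
noncomputable abbrev MM : Rep.{0} F2 G4 := Ep 1 ⊞ En 1

instance : FiniteDimensional F2 MM.V := finite_biprod

/-- tensor powers -/
noncomputable def it (n : ℕ) (X : Rep.{0} F2 G4) : Rep.{0} F2 G4 :=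
  (fun X : Rep.{0} F2 G4 => X ⊗ MM)^[n] X

lemma it_succ (n : ℕ) (X : Rep.{0} F2 G4) : it (n + 1) X = it n (X ⊗ MM) :=
  Function.iterate_succ_apply _ _ _

lemma it_fin (n : ℕ) : ∀ (X : Rep.{0} F2 G4), FiniteDimensional F2 X.V →
    FiniteDimensional F2 (it n X).V := by
  induction n with
  | zero => intro X hX; exact hX
  | succ n ih => intro X hX; rw [it_succ]; exact ih _ inferInstance

lemma it_iso (n : ℕ) : ∀ (X X' : Rep.{0} F2 G4) (_ : X ≅ X'), Nonempty (it n X ≅ it n X') := by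
  induction n with
  | zero => intro X X' e; exact ⟨e⟩
  | succ n ih => intro X X' e; rw [it_succ, it_succ]; exact ih _ _ (whiskerRightIso e MM)

/-- distributivity -/
noncomputable def distR (X X' Z : Rep.{0} F2 G4) : (X ⊞ X') ⊗ Z ≅ (X ⊗ Z) ⊞ (X' ⊗ Z) :=
  haveI := preservesBinaryBiproduct_of_preservesBiproduct (tensorRight Z) X X'
  (tensorRight Z).mapBiprod X X'

/-- distributivity -/
noncomputable def distL (Z X X' : Rep.{0} F2 G4) : Z ⊗ (X ⊞ X') ≅ (Z ⊗ X) ⊞ (Z ⊗ X') :=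
  haveI := preservesBinaryBiproduct_of_preservesBiproduct (tensorLeft Z) X X'
  (tensorLeft Z).mapBiprod X X'

lemma it_biprod (n : ℕ) : ∀ (X X' : Rep.{0} F2 G4), Nonempty (it n (X ⊞ X') ≅ it n X ⊞ it n X') := by
  induction n with
  | zero => intro X X'; exact ⟨Iso.refl _⟩
  | succ n ih =>
    intro X X'
    obtain ⟨e⟩ := it_iso n _ _ (distR X X' MM)
    obtain ⟨e'⟩ := ih (X ⊗ MM) (X' ⊗ MM)
    rw [it_succ, it_succ, it_succ]
    exact ⟨e ≪≫ e'⟩

lemma it_eq (n : ℕ) : ∀ (X X' : Rep.{0} F2 G4), Eq' X X' → c (it n X) = c (it n X') := by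
  induction n with
  | zero =>
    intro X X' h
    have h1 := h (𝟙_ _) (inferInstanceAs (FiniteDimensional F2 F2))
    rw [c_iso (λ_ X), c_iso (λ_ X')] at h1
    exact h1
  | succ n ih =>
    intro X X' h
    rw [it_succ, it_succ]
    apply ih
    intro Y hY
    have a1 := c_iso (whiskerLeftIso Y (β_ X MM) ≪≫ (α_ Y MM X).symm)
    have a2 := c_iso (whiskerLeftIso Y (β_ X' MM) ≪≫ (α_ Y MM X').symm)
    rw [a1, a2]
    exact h (Y ⊗ MM) inferInstance

lemma T_succ (n : ℕ) (X : Rep.{0} F2 G4) [FiniteDimensional F2 X.V] :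
    c (it (n + 1) X) = c (it n (X ⊗ Ep 1)) + c (it n (X ⊗ En 1)) := by
  obtain ⟨e⟩ := it_iso n _ _ (distL X (Ep 1) (En 1))
  obtain ⟨e'⟩ := it_biprod n (X ⊗ Ep 1) (X ⊗ En 1)
  have h1 : FiniteDimensional F2 (it n (X ⊗ Ep 1)).V := it_fin n _ inferInstance
  have h2 : FiniteDimensional F2 (it n (X ⊗ En 1)).V := it_fin n _ inferInstance
  rw [it_succ, c_iso (e ≪≫ e'), c_biprod]

lemma T_zero_p (n : ℕ) : c (it (n + 1) (Ep 0)) = c (it n (Ep 1)) + c (it n (En 1)) := by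
  obtain ⟨e⟩ := it_iso n _ _ (whiskerRightIso ep0 (Ep 1) ≪≫ λ_ (Ep 1))
  obtain ⟨e'⟩ := it_iso n _ _ (whiskerRightIso ep0 (En 1) ≪≫ λ_ (En 1))
  rw [T_succ, c_iso e, c_iso e']

lemma T_zero_n (n : ℕ) : c (it (n + 1) (En 0)) = c (it n (Ep 1)) + c (it n (En 1)) := by
  obtain ⟨e⟩ := it_iso n _ _ (whiskerRightIso en0 (Ep 1) ≪≫ λ_ (Ep 1))
  obtain ⟨e'⟩ := it_iso n _ _ (whiskerRightIso en0 (En 1) ≪≫ λ_ (En 1))
  rw [T_succ, c_iso e, c_iso e']

lemma T_pos (n m : ℕ) :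
    c (it (n + 1) (Ep (m + 1))) = c (it n (Ep (m + 2))) + c (it n (Ep m)) := by
  rw [T_succ, it_eq n _ _ (e1 (m + 1)), it_eq n _ _ (e2 m)]

lemma T_neg (n m : ℕ) :
    c (it (n + 1) (En (m + 1))) = c (it n (En m)) + c (it n (En (m + 2))) := by
  rw [T_succ, it_eq n _ _ (e4 m), it_eq n _ _ (e3 (m + 1))]

lemma T_walk (n : ℕ) : ∀ m : ℕ, c (it n (Ep m)) = walk n m ∧ c (it n (En m)) = walk n (-m) := by
  induction n with
  | zero =>
    intro m
    constructor
    · rw [show it 0 (Ep m) = Ep m from rfl, c_Ep, walk, abs_of_nonneg (by positivity)]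
    · rw [show it 0 (En m) = En m from rfl, c_En, walk, abs_neg, abs_of_nonneg (by positivity)]
  | succ n ih =>
    intro m
    rcases m with _ | m
    · rw [T_zero_p, T_zero_n, (ih 1).1, (ih 1).2]
      simp [walk]
    · rw [T_pos, T_neg, (ih (m + 2)).1, (ih m).1, (ih (m + 2)).2, (ih m).2]
      simp only [walk]
      push_cast
      constructor
      · rw [show (m : ℤ) + 1 + 1 = m + 2 by ring, show (m : ℤ) + 1 - 1 = m by ring]
      · rw [show -((m : ℤ) + 1) + 1 = -m by ring, show -((m : ℤ) + 1) - 1 = -(m + 2) by ring]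

lemma T_unit (n : ℕ) : c (it n (𝟙_ _)) = walk n 0 := by
  obtain ⟨e⟩ := it_iso n _ _ ep0
  rw [← c_iso e]
  have := (T_walk n 0).1
  exact_mod_cast this

theorem core_dim (n : ℕ) : ((sInf (dims (it n (𝟙_ _))) : ℕ) : ℤ) = walk n 0 := by
  have hf : FiniteDimensional F2 (it n (𝟙_ (Rep.{0} F2 G4))).V :=
    it_fin n _ (inferInstanceAs (FiniteDimensional F2 F2))
  have h1 := sInf_dims (it n (𝟙_ _))
  rw [← T_unit]
  unfold c cc
  omega

end Pool.Agent.L7h64.Core
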