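import Mathlib

/-!
# Higman's criterion, ranks of the norm element and syzygies
-/

set_option autoImplicit false

namespace Pool.Agent.L7h64.Core

open Representation TensorProduct CategoryTheory

section general

variable {k G : Type} [Field k] [Group G] [Fintype G]
variable {V W U : Type} [AddCommGroup V] [Module k V] [AddCommGroup W] [Module k W]
  [AddCommGroup U] [Module k U]
variable (ρ : Representation k G V) (σ : Representation k G W) (τ : Representation k G U)

/-- Higman's criterion for projectivity. -/
def Hig : Prop := ∃ θ : V →ₗ[k] V, ∀ v, ∑ g : G, ρ g (θ (ρ g⁻¹ v)) = v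

variable {ρ σ τ}

lemma Hig.tensor (h : Hig σ) : Hig (ρ.tprod σ) := by
  obtain ⟨θ, hθ⟩ := h
  refine ⟨LinearMap.lTensor V θ, fun x => ?_⟩
  induction x using TensorProduct.induction_on with
  | zero => simp
  | tmul v w =>
    have : ∀ g : G, (ρ.tprod σ) g (LinearMap.lTensor V θ ((ρ.tprod σ) g⁻¹ (v ⊗ₜ[k] w))) =
        v ⊗ₜ[k] (σ g (θ (σ g⁻¹ w))) := by
      intro g
      rw [Representation.tprod_apply, Representation.tprod_apply, TensorProduct.map_tmul,
        LinearMap.lTensor_tmul, TensorProduct.map_tmul, Representation.self_inv_apply]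
    rw [Finset.sum_congr rfl fun g _ => this g, ← TensorProduct.tmul_sum, hθ]
  | add a b ha hb =>
    simp only [map_add, Finset.sum_add_distrib, ha, hb]

lemma Hig.retract (h : Hig σ) (i : ρ.IntertwiningMap σ) (p : σ.IntertwiningMap ρ)
    (hpi : ∀ v, p (i v) = v) : Hig ρ := by
  obtain ⟨θ, hθ⟩ := h
  refine ⟨p.toLinearMap ∘ₗ θ ∘ₗ i.toLinearMap, fun v => ?_⟩
  have : ∀ g : G, ρ g ((p.toLinearMap ∘ₗ θ ∘ₗ i.toLinearMap) (ρ g⁻¹ v)) =
      p (σ g (θ (σ g⁻¹ (i v)))) := by
    intro g
    rw [p.isIntertwining, ← i.isIntertwining]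
    rfl
  rw [Finset.sum_congr rfl fun g _ => this g, ← map_sum, hθ, hpi]

lemma norm_apply' (v : V) : ρ.norm v = ∑ g : G, ρ g v := by
  rw [Representation.norm, LinearMap.sum_apply]

lemma norm_inv (v : V) : ρ.norm v = ∑ g : G, ρ g⁻¹ v := by
  rw [norm_apply']
  exact (Equiv.sum_comp (Equiv.inv G) (fun g => ρ g v)).symm

/-- the augmentation part `I V` -/
abbrev IV (ρ : Representation k G V) : Submodule k V := Coinvariants.ker ρ

lemma norm_of_mem_IV {v : V} (h : v ∈ IV ρ) : ρ.norm v = 0 := by
  unfold IV Coinvariants.ker at h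
  induction h using Submodule.span_induction with
  | mem x hx =>
    obtain ⟨⟨g, y⟩, rfl⟩ := hx
    simp
  | zero => simp
  | add x y _ _ hx hy => rw [map_add, hx, hy, add_zero]
  | smul a x _ hx => rw [map_smul, hx, smul_zero]

lemma Hig.mem_IV (h : Hig ρ) {v : V} (hv : ρ.norm v = 0) : v ∈ IV ρ := by
  obtain ⟨θ, hθ⟩ := h
  have h0 : ∑ g : G, θ (ρ g⁻¹ v) = 0 := by
    rw [← map_sum, ← norm_inv, hv, map_zero]
  have h1 : v = ∑ g : G, (ρ g (θ (ρ g⁻¹ v)) - θ (ρ g⁻¹ v)) := by
    rw [Finset.sum_sub_distrib, h0, hθ, sub_zero]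
  rw [h1]
  exact Submodule.sum_mem _ fun g _ => Coinvariants.mem_ker_of_eq g _ _ rfl

lemma Hig.ker_norm (h : Hig ρ) : LinearMap.ker ρ.norm = IV ρ :=
  le_antisymm (fun _ hv => h.mem_IV (LinearMap.mem_ker.1 hv))
    (fun _ hv => LinearMap.mem_ker.2 (norm_of_mem_IV hv))

lemma Hig.range_norm (h : Hig ρ) : LinearMap.range ρ.norm = ρ.invariants := by
  apply le_antisymm
  · rintro _ ⟨v, rfl⟩
    rw [Representation.mem_invariants]
    intro g
    exact self_norm_apply ρ g v
  · intro v hv
    rw [Representation.mem_invariants] at hv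
    obtain ⟨θ, hθ⟩ := h
    refine ⟨θ v, ?_⟩
    conv_rhs => rw [← hθ v]
    rw [norm_apply']
    exact Finset.sum_congr rfl fun g _ => by rw [hv]

/-- rank of the norm element -/
noncomputable def rk (ρ : Representation k G V) : ℕ := Module.finrank k (LinearMap.range ρ.norm)

lemma finrank_map_add_ker (f : V →ₗ[k] W) [FiniteDimensional k V] (S : Submodule k V)
    (hS : LinearMap.ker f ≤ S) :
    Module.finrank k (S.map f) + Module.finrank k (LinearMap.ker f) = Module.finrank k S := by
  have := LinearMap.finrank_range_add_finrank_ker (f.domRestrict S)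
  rw [LinearMap.range_domRestrict] at this
  rw [← this]
  congr 1
  have e : (LinearMap.ker f) = (LinearMap.ker (f.domRestrict S)).map S.subtype := by
    ext w
    simp only [LinearMap.mem_ker, Submodule.mem_map, Submodule.coe_subtype,
      Subtype.exists, exists_and_right, exists_eq_right]
    constructor
    · intro h2; exact ⟨hS h2, by rw [LinearMap.domRestrict_apply]; exact h2⟩
    · rintro ⟨h1, h2⟩; rw [LinearMap.domRestrict_apply] at h2; exact h2
  rw [e]
  exact (LinearEquiv.finrank_eq (Submodule.equivMapOfInjective S.subtype S.injective_subtype _)).symm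

/-- First syzygy lemma. -/
lemma rk_sub [FiniteDimensional k V] [FiniteDimensional k W] [FiniteDimensional k U]
    (hF : Hig σ) (i : ρ.IntertwiningMap σ) (p : σ.IntertwiningMap τ)
    (hi : Function.Injective i) (hp : Function.Surjective p)
    (hex : ∀ w, p w = 0 ↔ ∃ v, i v = w) :
    rk ρ + (Module.finrank k U - Module.finrank k (IV τ)) = rk σ ∧
      Module.finrank k W = Module.finrank k V + Module.finrank k U ∧
      Module.finrank k (IV τ) ≤ Module.finrank k U := by
  classical
  -- `K = ker p = range i`
  set K : Submodule k W := LinearMap.ker p.toLinearMap with hK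
  have hKr : K = LinearMap.range i.toLinearMap := by
    ext w
    rw [hK, LinearMap.mem_ker, LinearMap.mem_range]
    exact hex w
  have hN : LinearMap.ker σ.norm = IV σ := hF.ker_norm
  have f1 : Module.finrank k K = Module.finrank k V := by
    rw [hKr, LinearMap.finrank_range_of_inj hi]
  have f2 : Module.finrank k W = Module.finrank k U + Module.finrank k K := by
    have := LinearMap.finrank_range_add_finrank_ker p.toLinearMap
    rw [LinearMap.range_eq_top.2 hp, finrank_top] at this
    exact this.symm
  -- rank of the norm on `V`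
  have f3 : rk ρ = Module.finrank k (K.map σ.norm) := by
    have e1 : K.map σ.norm = (LinearMap.range ρ.norm).map i.toLinearMap := by
      rw [hKr, ← LinearMap.range_comp, ← LinearMap.range_comp]
      congr 1
      ext v
      simp only [LinearMap.comp_apply, IntertwiningMap.toLinearMap_apply]
      rw [norm_apply', norm_apply', map_sum]
      exact Finset.sum_congr rfl fun g _ => (IntertwiningMap.isIntertwining _ _ i g v).symm
    rw [e1, rk]
    exact (LinearEquiv.finrank_eq (Submodule.equivMapOfInjective i.toLinearMap hi _))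
  have f4 : Module.finrank k (K.map σ.norm) + Module.finrank k (K ⊓ LinearMap.ker σ.norm : Submodule k W)
      = Module.finrank k K := by
    have := LinearMap.finrank_range_add_finrank_ker (σ.norm.domRestrict K)
    rw [LinearMap.range_domRestrict] at this
    rw [← this]
    congr 1
    have e : (K ⊓ LinearMap.ker σ.norm : Submodule k W) =
        (LinearMap.ker (σ.norm.domRestrict K)).map K.subtype := by
      ext w
      simp only [Submodule.mem_inf, LinearMap.mem_ker, Submodule.mem_map, Submodule.coe_subtype,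
        Subtype.exists, exists_and_right, exists_eq_right]
      constructor
      · rintro ⟨h1, h2⟩; exact ⟨h1, by rw [LinearMap.domRestrict_apply]; exact h2⟩
      · rintro ⟨h1, h2⟩; exact ⟨h1, by rw [LinearMap.domRestrict_apply] at h2; exact h2⟩
    rw [e]
    exact (LinearEquiv.finrank_eq (Submodule.equivMapOfInjective K.subtype K.injective_subtype _)).symm
  have f5 := LinearMap.finrank_range_add_finrank_ker σ.norm
  have f6 := Submodule.finrank_sup_add_finrank_inf_eq K (LinearMap.ker σ.norm)
  -- `p (ker norm) = I U`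
  have e7 : (IV σ).map p.toLinearMap = IV τ := by
    apply le_antisymm
    · rw [Submodule.map_le_iff_le_comap]
      unfold IV Coinvariants.ker
      rw [Submodule.span_le]
      rintro _ ⟨⟨g, y⟩, rfl⟩
      refine Submodule.subset_span ⟨(g, p y), ?_⟩
      simp only [map_sub, IntertwiningMap.toLinearMap_apply]
      rw [IntertwiningMap.isIntertwining _ _ p g y]
    · conv_lhs => unfold IV Coinvariants.ker
      rw [Submodule.span_le]
      rintro _ ⟨⟨g, y⟩, rfl⟩
      obtain ⟨w, rfl⟩ := hp y
      refine ⟨σ g w - w, Coinvariants.mem_ker_of_eq g w _ rfl, ?_⟩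
      simp only [map_sub, IntertwiningMap.toLinearMap_apply]
      rw [IntertwiningMap.isIntertwining _ _ p g w]
  have f7 : Module.finrank k (IV τ) + Module.finrank k K =
      Module.finrank k (K ⊔ LinearMap.ker σ.norm : Submodule k W) := by
    have e8 : (K ⊔ LinearMap.ker σ.norm).map p.toLinearMap = IV τ := by
      rw [Submodule.map_sup, hN, e7]
      have : K.map p.toLinearMap = ⊥ := by
        rw [eq_bot_iff]
        rintro _ ⟨w, hw, rfl⟩
        exact hw
      rw [this, bot_sup_eq]
    rw [← e8]
    exact finrank_map_add_ker p.toLinearMap _ le_sup_left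
  have f8 : Module.finrank k (K ⊔ LinearMap.ker σ.norm : Submodule k W) ≤ Module.finrank k W :=
    Submodule.finrank_le _
  unfold rk at f3 ⊢
  omega

/-- Second syzygy lemma. -/
lemma rk_quot [FiniteDimensional k V] [FiniteDimensional k W] [FiniteDimensional k U]
    (hF : Hig σ) (i : ρ.IntertwiningMap σ) (p : σ.IntertwiningMap τ)
    (hi : Function.Injective i) (hp : Function.Surjective p)
    (hex : ∀ w, p w = 0 ↔ ∃ v, i v = w) :
    rk τ + Module.finrank k ρ.invariants = rk σ ∧
      Module.finrank k W = Module.finrank k V + Module.finrank k U := by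
  classical
  set K : Submodule k W := LinearMap.ker p.toLinearMap with hK
  have hKr : K = LinearMap.range i.toLinearMap := by
    ext w
    rw [hK, LinearMap.mem_ker, LinearMap.mem_range]
    exact hex w
  have f1 : Module.finrank k K = Module.finrank k V := by
    rw [hKr, LinearMap.finrank_range_of_inj hi]
  have f2 : Module.finrank k W = Module.finrank k U + Module.finrank k K := by
    have := LinearMap.finrank_range_add_finrank_ker p.toLinearMap
    rw [LinearMap.range_eq_top.2 hp, finrank_top] at this
    exact this.symm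
  have hR := hF.range_norm
  have e1 : LinearMap.range τ.norm = (LinearMap.range σ.norm).map p.toLinearMap := by
    have hn : ∀ w, p (σ.norm w) = τ.norm (p w) := by
      intro w
      rw [norm_apply', norm_apply', map_sum]
      exact Finset.sum_congr rfl fun g _ => IntertwiningMap.isIntertwining _ _ p g w
    ext u
    constructor
    · rintro ⟨y, rfl⟩
      obtain ⟨w, rfl⟩ := hp y
      exact ⟨σ.norm w, ⟨w, rfl⟩, hn w⟩
    · rintro ⟨_, ⟨w, rfl⟩, rfl⟩
      exact ⟨p w, (hn w).symm⟩
  have e2 : (LinearMap.range σ.norm ⊓ K : Submodule k W) = ρ.invariants.map i.toLinearMap := by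
    rw [hR, hKr]
    ext w
    constructor
    · rintro ⟨h1, ⟨v, rfl⟩⟩
      refine ⟨v, ?_, rfl⟩
      rw [SetLike.mem_coe, Representation.mem_invariants] at h1 ⊢
      intro g
      apply hi
      rw [IntertwiningMap.isIntertwining _ _ i g v]
      exact h1 g
    · rintro ⟨v, hv, rfl⟩
      refine ⟨?_, ⟨v, rfl⟩⟩
      rw [SetLike.mem_coe, Representation.mem_invariants] at hv ⊢
      intro g
      rw [IntertwiningMap.toLinearMap_apply, ← IntertwiningMap.isIntertwining _ _ i g v, hv]
  have f4 : Module.finrank k ((LinearMap.range σ.norm).map p.toLinearMap) +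
      Module.finrank k (LinearMap.range σ.norm ⊓ K : Submodule k W) =
      Module.finrank k (LinearMap.range σ.norm) := by
    have := LinearMap.finrank_range_add_finrank_ker (p.toLinearMap.domRestrict (LinearMap.range σ.norm))
    rw [LinearMap.range_domRestrict] at this
    rw [← this]
    congr 1
    have e : (LinearMap.range σ.norm ⊓ K : Submodule k W) =
        (LinearMap.ker (p.toLinearMap.domRestrict (LinearMap.range σ.norm))).map
          (LinearMap.range σ.norm).subtype := by
      ext w
      rw [Submodule.mem_inf, Submodule.mem_map]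
      constructor
      · rintro ⟨h1, h2⟩
        exact ⟨⟨w, h1⟩, by rw [LinearMap.mem_ker, LinearMap.domRestrict_apply]; exact h2, rfl⟩
      · rintro ⟨⟨w', h1⟩, h2, rfl⟩
        exact ⟨h1, by rw [LinearMap.mem_ker, LinearMap.domRestrict_apply] at h2; exact h2⟩
    rw [e]
    exact (LinearEquiv.finrank_eq (Submodule.equivMapOfInjective _
      (Submodule.injective_subtype _) _)).symm
  have f5 : Module.finrank k (ρ.invariants.map i.toLinearMap) = Module.finrank k ρ.invariants :=
    (LinearEquiv.finrank_eq (Submodule.equivMapOfInjective i.toLinearMap hi _)).symm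
  rw [e2, f5, ← e1] at f4
  unfold rk
  omega

lemma rk_equiv (e : ρ.Equiv σ) : rk ρ = rk σ := by
  have e1 : LinearMap.range σ.norm = (LinearMap.range ρ.norm).map e.toLinearEquiv.toLinearMap := by
    have hn : ∀ w, e (ρ.norm w) = σ.norm (e w) := by
      intro w
      rw [norm_apply', norm_apply', map_sum]
      exact Finset.sum_congr rfl fun g _ =>
        IntertwiningMap.isIntertwining _ _ e.toIntertwiningMap g w
    ext u
    constructor
    · rintro ⟨y, rfl⟩
      refine ⟨ρ.norm (e.symm y), ⟨_, rfl⟩, ?_⟩
      have := hn (e.symm y)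
      rw [Representation.Equiv.apply_symm_apply] at this
      exact this
    · rintro ⟨_, ⟨w, rfl⟩, rfl⟩
      exact ⟨e w, (hn w).symm⟩
  unfold rk
  rw [e1]
  exact (LinearEquiv.finrank_eq (e.toLinearEquiv.submoduleMap _))

lemma rk_prod [FiniteDimensional k V] [FiniteDimensional k W] : rk (ρ.prod σ) = rk ρ + rk σ := by
  have e1 : LinearMap.range (ρ.prod σ).norm =
      (LinearMap.range ρ.norm).prod (LinearMap.range σ.norm) := by
    have hn : ∀ v w, (ρ.prod σ).norm (v, w) = (ρ.norm v, σ.norm w) := by
      intro v w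
      rw [norm_apply', norm_apply', norm_apply']
      ext
      · simp [Prod.fst_sum]
      · simp [Prod.snd_sum]
    ext ⟨a, b⟩
    rw [Submodule.mem_prod]
    constructor
    · rintro ⟨⟨v, w⟩, h⟩
      rw [hn] at h
      exact ⟨⟨v, congrArg Prod.fst h⟩, ⟨w, congrArg Prod.snd h⟩⟩
    · rintro ⟨⟨v, hv⟩, ⟨w, hw⟩⟩
      exact ⟨(v, w), by rw [hn, hv, hw]⟩
  unfold rk
  rw [e1, ← Module.finrank_prod]
  exact LinearEquiv.finrank_eq
    { toFun := fun x => (⟨x.1.1, x.2.1⟩, ⟨x.1.2, x.2.2⟩)
      invFun := fun y => ⟨(y.1.1, y.2.1), ⟨y.1.2, y.2.2⟩⟩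
      map_add' := fun _ _ => rfl
      map_smul' := fun _ _ => rfl
      left_inv := fun _ => rfl
      right_inv := fun _ => rfl }

/-- Higman's criterion implies projectivity. -/
lemma Hig.projective (h : Hig ρ) : Projective (Rep.of ρ) := by
  obtain ⟨θ, hθ⟩ := h
  refine ⟨fun {E X} f e he => ?_⟩
  rw [Rep.epi_iff_surjective] at he
  obtain ⟨s, hs⟩ := LinearMap.exists_rightInverse_of_surjective e.hom.toLinearMap
    (LinearMap.range_eq_top.2 he)
  have hs' : ∀ x, e.hom (s x) = x := fun x => LinearMap.congr_fun hs x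
  let F : V →ₗ[k] E.V := ∑ g : G, E.ρ g ∘ₗ s ∘ₗ f.hom.toLinearMap ∘ₗ θ ∘ₗ ρ g⁻¹
  have hF : ∀ v, F v = ∑ g : G, E.ρ g (s (f.hom (θ (ρ g⁻¹ v)))) := by
    intro v
    simp only [F, LinearMap.sum_apply]
    rfl
  have hFeq : ∀ (g : G) (v : V), F (ρ g v) = E.ρ g (F v) := by
    intro g v
    rw [hF, hF, map_sum]
    refine (Fintype.sum_equiv (Equiv.mulLeft g) _ _ fun x => ?_).symm
    rw [Equiv.coe_mulLeft, map_mul, Module.End.mul_apply, mul_inv_rev, map_mul,
      Module.End.mul_apply, Representation.inv_self_apply]
  refine ⟨Rep.ofHom ⟨F, fun g => by ext v; exact hFeq g v⟩, ?_⟩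
  ext v
  change e.hom (F v) = f.hom v
  rw [hF, map_sum]
  have : ∀ g : G, e.hom (E.ρ g (s (f.hom (θ (ρ g⁻¹ v))))) = f.hom (ρ g (θ (ρ g⁻¹ v))) := by
    intro g
    rw [Rep.hom_comm_apply, hs', ← Rep.hom_comm_apply]
  rw [Finset.sum_congr rfl fun g _ => this g, ← map_sum, hθ]

/-- functions on `G` with values in `V` -/
def cofree (k G V : Type) [Field k] [Group G] [AddCommGroup V] [Module k V] :
    Representation k G (G → V) where
  toFun g :=
    { toFun := fun f h => f (g⁻¹ * h)
      map_add' := fun _ _ => rfl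
      map_smul' := fun _ _ => rfl }
  map_one' := by ext f h; simp
  map_mul' g g' := by ext f h; simp [mul_assoc]

omit [Fintype G] in
lemma cofree_apply (g : G) (f : G → V) (h : G) : cofree k G V g f h = f (g⁻¹ * h) := rfl

lemma cofree_hig : Hig (cofree k G V) := by
  classical
  refine ⟨{ toFun := fun f => Pi.single 1 (f 1), map_add' := ?_, map_smul' := ?_ }, ?_⟩
  · intro f f'; rw [Pi.add_apply, Pi.single_add]
  · intro c f; rw [Pi.smul_apply, Pi.single_smul]; rfl
  · intro f
    ext h
    rw [Finset.sum_apply]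
    simp only [LinearMap.coe_mk, AddHom.coe_mk, cofree_apply, inv_inv, mul_one]
    rw [Finset.sum_eq_single h]
    · simp
    · intro b _ hb
      rw [Pi.single_eq_of_ne]
      intro h1
      exact hb (inv_mul_eq_one.1 h1)
    · simp

/-- Projectivity implies Higman's criterion. -/
lemma hig_of_projective (P : Rep.{0} k G) [Projective P] : Hig P.ρ := by
  classical
  let π : (cofree k G P.V).IntertwiningMap P.ρ :=
    ⟨{ toFun := fun f => ∑ h : G, P.ρ h (f h)
       map_add' := fun f f' => by simp [Finset.sum_add_distrib]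
       map_smul' := fun c f => by simp [Finset.smul_sum] }, fun g => by
        ext f
        simp only [LinearMap.coe_comp, Function.comp_apply, LinearMap.coe_mk, AddHom.coe_mk,
          cofree_apply]
        rw [map_sum]
        refine (Fintype.sum_equiv (Equiv.mulLeft g) _ _ fun x => ?_).symm
        simp⟩
  have hπ : ∀ f, π f = ∑ h : G, P.ρ h (f h) := fun _ => rfl
  have hsurj : Function.Surjective π := by
    intro v
    refine ⟨Pi.single 1 v, ?_⟩
    rw [hπ, Finset.sum_eq_single 1]
    · simp
    · intro b _ hb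
      rw [Pi.single_eq_of_ne hb, map_zero]
    · simp
  let πh : Rep.of (cofree k G P.V) ⟶ P := Rep.ofHom (σ := P.ρ) π
  have hepi : Epi πh := by
    rw [Rep.epi_iff_surjective]
    exact hsurj
  let s := Projective.factorThru (𝟙 P) πh
  have hs : s ≫ πh = 𝟙 P := Projective.factorThru_comp _ _
  refine (cofree_hig (k := k) (G := G) (V := P.V)).retract s.hom π fun v => ?_
  have := congrArg (fun f => f.hom v) hs
  exact this

end general

end Pool.Agent.L7h64.Core
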