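import Pool.Agent.L7h64.CoreV4

/-!
# The dimension of the core
-/

set_option autoImplicit false

namespace Pool.Agent.L7h64.Core

open Representation TensorProduct CategoryTheory CategoryTheory.Limits
open scoped ZeroObject

lemma Ksq0 : ∀ p q r s : F2, p + q + r + s = 1 → p * p + q * q + r * r + s * s = 1 := by decide

lemma Ksq (f ψ : G4 → F2) (hψ : ∑ u, ψ u = 1) (h : G4) :
    ∑ g' : G4, (∑ g : G4, f g * ψ (g'⁻¹ * g)) * ψ (h⁻¹ * g') = f h := by
  rw [sum_G4] at hψ
  have h1 := Ksq0 _ _ _ _ hψ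
  have hall : ∀ g : G4, g = 1 ∨ g = ga ∨ g = gb ∨ g = ga * gb := by decide
  simp only [sum_G4]
  have t1 : (ga⁻¹ : G4) = ga := by decide
  have t2 : (gb⁻¹ : G4) = gb := by decide
  have t3 : ((ga * gb)⁻¹ : G4) = ga * gb := by decide
  have t4 : ga * ga = 1 := by decide
  have t5 : gb * gb = 1 := by decide
  have t6 : gb * ga = ga * gb := by decide
  have t7 : ga * (ga * gb) = gb := by decide
  have t8 : gb * (ga * gb) = ga := by decide
  have t9 : ga * gb * ga = gb := by decide
  have t10 : ga * gb * gb = ga := by decide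
  have t11 : ga * gb * (ga * gb) = 1 := by decide
  have two : (2 : F2) = 0 := rfl
  rcases hall h with rfl | rfl | rfl | rfl <;>
  simp only [t1, t2, t3, t4, t5, t6, t7, t8, t9, t10, t11, inv_one, one_mul, mul_one]
  · linear_combination (f 1) * h1 + (f ga * (ψ 1 * ψ ga + ψ gb * ψ (ga * gb)) + f gb * (ψ 1 * ψ gb + ψ ga * ψ (ga * gb)) + f (ga * gb) * (ψ 1 * ψ (ga * gb) + ψ ga * ψ gb)) * two
  · linear_combination (f ga) * h1 + (f 1 * (ψ 1 * ψ ga + ψ gb * ψ (ga * gb)) + f (ga * gb) * (ψ 1 * ψ gb + ψ ga * ψ (ga * gb)) + f (gb) * (ψ 1 * ψ (ga * gb) + ψ ga * ψ gb)) * two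
  · linear_combination (f gb) * h1 + (f (ga * gb) * (ψ 1 * ψ ga + ψ gb * ψ (ga * gb)) + f 1 * (ψ 1 * ψ gb + ψ ga * ψ (ga * gb)) + f (ga) * (ψ 1 * ψ (ga * gb) + ψ ga * ψ gb)) * two
  · linear_combination (f (ga * gb)) * h1 + (f gb * (ψ 1 * ψ ga + ψ gb * ψ (ga * gb)) + f ga * (ψ 1 * ψ gb + ψ ga * ψ (ga * gb)) + f (1) * (ψ 1 * ψ (ga * gb) + ψ ga * ψ gb)) * two

section prod
variable {k G : Type} [Field k] [Group G]

/-- the biproduct is the product -/
noncomputable def biprodIso (X Y : Rep.{0} k G) : Rep.of (X.ρ.prod Y.ρ) ≅ X ⊞ Y :=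
  biprod.uniqueUpToIso X Y (b := ⟨Rep.of (X := X.V × Y.V) (X.ρ.prod Y.ρ), Rep.ofHom (.fst k X.ρ Y.ρ),
      Rep.ofHom (.snd k X.ρ Y.ρ),
      Rep.ofHom (.inl k X.ρ Y.ρ), Rep.ofHom (.inr k X.ρ Y.ρ), by ext1; simp,
      by ext1; simp [Rep.zero_hom], by ext1; simp [Rep.zero_hom], by ext1; simp⟩)
    (isBinaryBilimitOfTotal _ (by ext1; simp [Rep.add_hom]))

/-- an isomorphism as an equivalence of representations -/
noncomputable def toEquiv {X Y : Rep.{0} k G} (e : X ≅ Y) : X.ρ.Equiv Y.ρ :=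
  Representation.equivOfIso e

lemma finrank_iso {X Y : Rep.{0} k G} (e : X ≅ Y) : Module.finrank k X.V = Module.finrank k Y.V :=
  (toEquiv e).toLinearEquiv.finrank_eq

lemma finite_iso {X Y : Rep.{0} k G} (e : X ≅ Y) [FiniteDimensional k X.V] :
    FiniteDimensional k Y.V :=
  Module.Finite.equiv (toEquiv e).toLinearEquiv

lemma finite_left {X Y : Rep.{0} k G} (h : FiniteDimensional k (X ⊞ Y : Rep.{0} k G).V) :
    FiniteDimensional k X.V := by
  have h1 : FiniteDimensional k (X.V × Y.V) := finite_iso (biprodIso X Y).symm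
  exact Module.Finite.of_surjective (LinearMap.fst k X.V Y.V) LinearMap.fst_surjective

lemma finite_right {X Y : Rep.{0} k G} (h : FiniteDimensional k (X ⊞ Y : Rep.{0} k G).V) :
    FiniteDimensional k Y.V := by
  have h1 : FiniteDimensional k (X.V × Y.V) := finite_iso (biprodIso X Y).symm
  exact Module.Finite.of_surjective (LinearMap.snd k X.V Y.V) LinearMap.snd_surjective

lemma finite_biprod {X Y : Rep.{0} k G} [FiniteDimensional k X.V] [FiniteDimensional k Y.V] :
    FiniteDimensional k (X ⊞ Y : Rep.{0} k G).V := by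
  have h1 : FiniteDimensional k (Rep.of (X.ρ.prod Y.ρ) : Rep.{0} k G).V :=
    inferInstanceAs (FiniteDimensional k (X.V × Y.V))
  exact finite_iso (biprodIso X Y)

lemma finrank_biprod {X Y : Rep.{0} k G} [FiniteDimensional k X.V] [FiniteDimensional k Y.V] :
    Module.finrank k (X ⊞ Y : Rep.{0} k G).V = Module.finrank k X.V + Module.finrank k Y.V := by
  rw [← finrank_iso (biprodIso X Y)]
  exact Module.finrank_prod

lemma rk_biprod [Fintype G] {X Y : Rep.{0} k G} [FiniteDimensional k X.V] [FiniteDimensional k Y.V] :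
    rk (X ⊞ Y : Rep.{0} k G).ρ = rk X.ρ + rk Y.ρ := by
  rw [← rk_equiv (toEquiv (biprodIso X Y))]
  exact rk_prod

lemma rk_iso [Fintype G] {X Y : Rep.{0} k G} (e : X ≅ Y) : rk X.ρ = rk Y.ρ := rk_equiv (toEquiv e)

end prod

/-- the regular representation -/
noncomputable abbrev Reg : Rep.{0} F2 G4 := Rep.of (cofree F2 G4 F2)

/-- **A free summand splits off if the norm element does not act as zero.** -/
lemma split_off (N : Rep.{0} F2 G4) (w : N.V) (hw : N.ρ.norm w ≠ 0) :
    ∃ N' : Rep.{0} F2 G4, Nonempty (N ≅ N' ⊞ Reg) := by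
  classical
  obtain ⟨φ, hφ⟩ : ∃ φ : N.V →ₗ[F2] F2, φ (N.ρ.norm w) = 1 := by
    exact Module.Projective.exists_dual_eq_one F2 hw
  let i : (cofree F2 G4 F2).IntertwiningMap N.ρ :=
    ⟨{ toFun := fun f => ∑ g : G4, f g • N.ρ g w
       map_add' := fun f f' => by simp [add_smul, Finset.sum_add_distrib]
       map_smul' := fun c f => by simp [Finset.smul_sum, smul_smul] }, fun g => by
        ext f
        simp only [LinearMap.coe_comp, Function.comp_apply, LinearMap.coe_mk, AddHom.coe_mk,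
          cofree_apply]
        rw [map_sum]
        refine (Fintype.sum_equiv (Equiv.mulLeft g) _ _ fun x => ?_).symm
        simp⟩
  let r : N.ρ.IntertwiningMap (cofree F2 G4 F2) :=
    ⟨{ toFun := fun n g => φ (N.ρ g⁻¹ n)
       map_add' := fun n n' => by ext g; simp
       map_smul' := fun c f => by ext g; simp }, fun g => by
        ext n h
        simp [cofree_apply, mul_inv_rev]⟩
  have hi : ∀ f, i f = ∑ g : G4, f g • N.ρ g w := fun _ => rfl
  have hr : ∀ n g, r n g = φ (N.ρ g⁻¹ n) := fun _ _ => rfl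
  set ψ : G4 → F2 := fun u => φ (N.ρ u w) with hψ
  have hψ1 : ∑ u, ψ u = 1 := by
    rw [hψ, ← map_sum, ← norm_apply', hφ]
  have hK : ∀ f h, r (i f) h = ∑ g : G4, f g * ψ (h⁻¹ * g) := by
    intro f h
    rw [hr, hi, map_sum, map_sum]
    refine Finset.sum_congr rfl fun g _ => ?_
    rw [map_smul, map_smul, hψ]
    simp only
    rw [map_mul]
    rfl
  have hKK : ∀ f, r (i (r (i f))) = f := by
    intro f
    funext h
    rw [hK]
    simp only [hK]
    exact Ksq f ψ hψ1 h
  let ih : Reg ⟶ N := Rep.ofHom (σ := N.ρ) i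
  let rh : N ⟶ Reg := Rep.ofHom (ρ := N.ρ) r
  have hsplit : (ih ≫ rh ≫ ih) ≫ rh = 𝟙 Reg := by
    apply Rep.hom_ext
    apply Representation.IntertwiningMap.ext
    apply LinearMap.ext
    intro f
    exact hKK f
  have hse : IsSplitEpi rh := ⟨⟨⟨ih ≫ rh ≫ ih, hsplit⟩⟩⟩
  refine ⟨kernel rh, ⟨?_⟩⟩
  exact biprod.uniqueUpToIso _ _ (isBilimitBinaryBiconeOfIsSplitEpiOfKernel (f := rh) (kernelIsKernel rh))

/-- the possible dimensions of complements of projective summands -/
def dims (X : Rep.{0} F2 G4) : Set ℕ :=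
  {d : ℕ | ∃ N P' : Rep.{0} F2 G4, Projective P' ∧ Nonempty (X ≅ N ⊞ P') ∧
    Module.finrank F2 N.V = d}

/-- **The dimension of the core.** -/
lemma sInf_dims (X : Rep.{0} F2 G4) [hX : FiniteDimensional F2 X.V] :
    sInf (dims X) + 4 * rk X.ρ = Module.finrank F2 X.V := by
  classical
  have hne : (dims X).Nonempty := by
    refine ⟨Module.finrank F2 X.V, X, 0, inferInstance, ⟨?_⟩, rfl⟩
    exact (isoBiprodZero (isZero_zero _))
  obtain ⟨N, P, hP, ⟨e⟩, hd⟩ := Nat.sInf_mem hne
  have hfin : FiniteDimensional F2 (N ⊞ P : Rep.{0} F2 G4).V := finite_iso e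
  have hfN : FiniteDimensional F2 N.V := finite_left hfin
  have hfP : FiniteDimensional F2 P.V := finite_right hfin
  -- the norm element kills `N`
  have hN : ∀ w : N.V, N.ρ.norm w = 0 := by
    intro w
    by_contra hw
    obtain ⟨N', ⟨e'⟩⟩ := split_off N w hw
    have hfin' : FiniteDimensional F2 (N' ⊞ Reg : Rep.{0} F2 G4).V := finite_iso e'
    have hfN' : FiniteDimensional F2 N'.V := finite_left hfin'
    have hfR : FiniteDimensional F2 (Reg).V := finite_right hfin'
    have hdim : Module.finrank F2 N.V = Module.finrank F2 N'.V + 4 := by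
      rw [finrank_iso e', finrank_biprod]
      congr 1
      change Module.finrank F2 (G4 → F2) = 4
      rw [Module.finrank_pi]
      rfl
    have hRP : Projective (Reg) := (cofree_hig (k := F2) (G := G4) (V := F2)).projective
    have hmem : Module.finrank F2 N'.V ∈ dims X := by
      refine ⟨N', Reg ⊞ P, inferInstance, ⟨?_⟩, rfl⟩
      exact e ≪≫ (biprod.mapIso e' (Iso.refl P)) ≪≫ (biprod.associator N' Reg P)
    have := Nat.sInf_le hmem
    omega
  have hrN : rk N.ρ = 0 := by
    unfold rk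
    have : N.ρ.norm = 0 := LinearMap.ext hN
    rw [this, LinearMap.range_zero, finrank_bot]
  have h1 := finrank_iso e
  have h2 := rk_iso e
  rw [finrank_biprod] at h1
  rw [rk_biprod, hrN] at h2
  have h3 := (hig_of_projective P).finrank
  omega

end Pool.Agent.L7h64.Core
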