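import Pool.Agent.L7h64.CoreMin

/-!
# The syzygies of the trivial module of the four-group
-/

set_option autoImplicit false

namespace Pool.Agent.L7h64.Core

open Representation TensorProduct CategoryTheory CategoryTheory.Limits
open scoped ZeroObject

section sq
variable {P Q : Type} [AddCommGroup P] [Module F2 P] [AddCommGroup Q] [Module F2 Q]

/-- The representation on `P × Q` in which the two generators act as one plus `x`, `y : P → Q`. -/
def sq (x y : P →ₗ[F2] Q) : Representation F2 G4 (P × Q) where
  toFun g :=
    { toFun := fun v => (v.1, v.2 + (g.toAdd.1 • x v.1 + g.toAdd.2 • y v.1))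
      map_add' := fun v w => by
        ext
        · simp
        · simp only [Prod.fst_add, Prod.snd_add, map_add, smul_add]; abel
      map_smul' := fun c v => by
        ext
        · simp
        · simp only [Prod.smul_fst, Prod.smul_snd, map_smul, smul_add, RingHom.id_apply]
          rw [smul_comm c, smul_comm c] }
  map_one' := by
    ext v <;> simp
  map_mul' g h := by
    apply LinearMap.ext
    intro v
    ext
    · simp
    · simp only [toAdd_mul, Prod.fst_add, Prod.snd_add, add_smul, LinearMap.coe_mk, AddHom.coe_mk,
        Module.End.mul_apply]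
      abel

lemma sq_apply (x y : P →ₗ[F2] Q) (g : G4) (v : P × Q) :
    sq x y g v = (v.1, v.2 + (g.toAdd.1 • x v.1 + g.toAdd.2 • y v.1)) := rfl

lemma sq_norm (x y : P →ₗ[F2] Q) : (sq x y).norm = 0 := by
  apply LinearMap.ext
  intro v
  rw [norm_apply', sum_G4]
  simp only [sq_apply, ga, gb, toAdd_one, toAdd_mul, toAdd_ofAdd, Prod.fst_zero, Prod.snd_zero,
    Prod.fst_add, Prod.snd_add, zero_smul, one_smul, add_zero, zero_add]
  ext
  · simp only [Prod.fst_add, LinearMap.zero_apply, Prod.fst_zero]
    rw [two_zero, zero_add, two_zero]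
  · simp only [Prod.snd_add, LinearMap.zero_apply, Prod.snd_zero]
    have : v.2 + (v.2 + x v.1) + (v.2 + y v.1) + (v.2 + (x v.1 + y v.1)) =
      (v.2 + v.2) + (v.2 + v.2) + (x v.1 + x v.1) + (y v.1 + y v.1) := by abel
    rw [this]
    simp only [two_zero, add_zero]

lemma sq_rk (x y : P →ₗ[F2] Q) : rk (sq x y) = 0 := by
  unfold rk
  rw [sq_norm, LinearMap.range_zero, finrank_bot]

end sq

section fr
variable (Z : Type) [AddCommGroup Z] [Module F2 Z]

/-- the free representation on `Z` -/
def fr : Representation F2 G4 (Z × Z × Z × Z) where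
  toFun g :=
    { toFun := fun z => (z.1, z.2.1 + g.toAdd.1 • z.1, z.2.2.1 + g.toAdd.2 • z.1,
        z.2.2.2 + (g.toAdd.1 • z.2.2.1 + g.toAdd.2 • z.2.1 + (g.toAdd.1 * g.toAdd.2) • z.1))
      map_add' := fun v w => by
        ext
        · simp
        · simp only [Prod.fst_add, Prod.snd_add, smul_add]; abel
        · simp only [Prod.fst_add, Prod.snd_add, smul_add]; abel
        · simp only [Prod.fst_add, Prod.snd_add, smul_add]; abel
      map_smul' := fun c v => by
        ext
        · simp
        · simp only [Prod.smul_fst, Prod.smul_snd, smul_add, RingHom.id_apply]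
          rw [smul_comm c]
        · simp only [Prod.smul_fst, Prod.smul_snd, smul_add, RingHom.id_apply]
          rw [smul_comm c]
        · simp only [Prod.smul_fst, Prod.smul_snd, smul_add, RingHom.id_apply]
          rw [smul_comm c, smul_comm c, smul_comm c] }
  map_one' := by
    apply LinearMap.ext
    intro v
    simp
  map_mul' g h := by
    apply LinearMap.ext
    intro v
    simp only [toAdd_mul, Prod.fst_add, Prod.snd_add, add_smul, LinearMap.coe_mk, AddHom.coe_mk,
        Module.End.mul_apply, add_mul, mul_add, smul_add, smul_smul]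
    rw [mul_comm (Multiplicative.toAdd g).2 (Multiplicative.toAdd h).1]
    refine Prod.ext rfl (Prod.ext ?_ (Prod.ext ?_ ?_)) <;> simp only <;> abel

variable {Z}

lemma fr_apply (g : G4) (z : Z × Z × Z × Z) : fr Z g z =
    (z.1, z.2.1 + g.toAdd.1 • z.1, z.2.2.1 + g.toAdd.2 • z.1,
        z.2.2.2 + (g.toAdd.1 • z.2.2.1 + g.toAdd.2 • z.2.1 + (g.toAdd.1 * g.toAdd.2) • z.1)) := rfl

lemma fr_hig : Hig (fr Z) := by
  refine ⟨{ toFun := fun z => (z.1 + z.2.1 + z.2.2.1 + z.2.2.2, 0, 0, 0)
            map_add' := fun v w => by
              ext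
              · simp only [Prod.fst_add, Prod.snd_add]; abel
              · simp
              · simp
              · simp
            map_smul' := fun c v => by
              ext
              · simp only [Prod.smul_fst, Prod.smul_snd, smul_add, RingHom.id_apply]
              · simp
              · simp
              · simp }, fun v => ?_⟩
  rw [sum_G4]
  obtain ⟨a, b, c, d⟩ := v
  have t1 : (ga⁻¹ : G4) = ga := by decide
  have t2 : (gb⁻¹ : G4) = gb := by decide
  have t3 : ((ga * gb)⁻¹ : G4) = ga * gb := by decide
  have ha := two_zero a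
  have hb := two_zero b
  have hc := two_zero c
  have hd := two_zero d
  rw [inv_one, t1, t2, t3]
  simp only [fr_apply, ga, gb, toAdd_one, toAdd_mul, toAdd_ofAdd, Prod.fst_zero, Prod.snd_zero,
    Prod.fst_add, Prod.snd_add, zero_smul, one_smul, add_zero, zero_add, mul_zero, mul_one,
    LinearMap.coe_mk, AddHom.coe_mk, zero_mul, Prod.mk_add_mk, Prod.mk.injEq, smul_zero]
  refine ⟨?_, ?_, ?_, ?_⟩
  · trans a + 4 • (a + a) + 3 • (b + b) + 3 • (c + c) + 2 • (d + d)
    · abel
    · rw [ha, hb, hc, hd]; simp
  · trans b + 3 • (a + a) + (b + b) + 2 • (c + c) + (d + d)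
    · abel
    · rw [ha, hb, hc, hd]; simp
  · trans c + 3 • (a + a) + 2 • (b + b) + (c + c) + (d + d)
    · abel
    · rw [ha, hb, hc, hd]; simp
  · trans d + 2 • (a + a) + (b + b) + (c + c)
    · abel
    · rw [ha, hb, hc]; simp

end fr

/-- `c = dim - 4 rk` -/
noncomputable def cc {V : Type} [AddCommGroup V] [Module F2 V] (ρ : Representation F2 G4 V) : ℤ :=
  Module.finrank F2 V - 4 * rk ρ

/-- `4 dim V_G - dim V` -/
noncomputable def dd {V : Type} [AddCommGroup V] [Module F2 V] (ρ : Representation F2 G4 V) : ℤ :=
  4 * (Module.finrank F2 V - Module.finrank F2 (IV ρ)) - Module.finrank F2 V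

/-- `4 dim V^G - dim V` -/
noncomputable def di {V : Type} [AddCommGroup V] [Module F2 V] (ρ : Representation F2 G4 V) : ℤ :=
  4 * Module.finrank F2 ρ.invariants - Module.finrank F2 V

section ses
variable {A F B Y : Type} [AddCommGroup A] [Module F2 A] [AddCommGroup F] [Module F2 F]
  [AddCommGroup B] [Module F2 B] [AddCommGroup Y] [Module F2 Y]
  [FiniteDimensional F2 A] [FiniteDimensional F2 F] [FiniteDimensional F2 B]
  [FiniteDimensional F2 Y]
  {ρA : Representation F2 G4 A} {ρF : Representation F2 G4 F} {ρB : Representation F2 G4 B}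

/-- short exact sequences -/
structure SES (ρA : Representation F2 G4 A) (ρF : Representation F2 G4 F)
    (ρB : Representation F2 G4 B) where
  i : ρA.IntertwiningMap ρF
  p : ρF.IntertwiningMap ρB
  inj : Function.Injective i
  surj : Function.Surjective p
  ex : ∀ w, p w = 0 ↔ ∃ v, i v = w

omit [FiniteDimensional F2 A] [FiniteDimensional F2 F] [FiniteDimensional F2 B]
  [FiniteDimensional F2 Y] in
/-- tensoring with `Y` -/
lemma SES.tensor (S : SES ρA ρF ρB) (ρY : Representation F2 G4 Y) :
    Nonempty (SES (ρY.tprod ρA) (ρY.tprod ρF) (ρY.tprod ρB)) := by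
  refine ⟨⟨IntertwiningMap.lTensor ρY S.i, IntertwiningMap.lTensor ρY S.p, ?_, ?_, ?_⟩⟩
  · exact Module.Flat.lTensor_preserves_injective_linearMap (M := Y) S.i.toLinearMap S.inj
  · exact LinearMap.lTensor_surjective Y S.surj
  · intro w
    have hex : Function.Exact S.i.toLinearMap S.p.toLinearMap := fun w => S.ex w
    exact (lTensor_exact Y hex S.surj) w

lemma SES.cc_sub (S : SES ρA ρF ρB) (hF : Hig ρF) : cc ρA = dd ρB := by
  obtain ⟨h1, h2, h3⟩ := rk_sub hF S.i S.p S.inj S.surj S.ex
  have h4 := hF.finrank
  unfold cc dd
  omega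

lemma SES.cc_quot (S : SES ρA ρF ρB) (hF : Hig ρF) : cc ρB = di ρA := by
  obtain ⟨h1, h2⟩ := rk_quot hF S.i S.p S.inj S.surj S.ex
  have h4 := hF.finrank
  unfold cc di
  omega

lemma SES.cc_sub' (S : SES ρA ρF ρB) (hF : Hig ρF) (ρY : Representation F2 G4 Y) :
    cc (ρY.tprod ρA) = dd (ρY.tprod ρB) := by
  obtain ⟨T⟩ := S.tensor ρY
  exact T.cc_sub hF.tensor

lemma SES.cc_quot' (S : SES ρA ρF ρB) (hF : Hig ρF) (ρY : Representation F2 G4 Y) :
    cc (ρY.tprod ρB) = di (ρY.tprod ρA) := by
  obtain ⟨T⟩ := S.tensor ρY
  exact T.cc_quot hF.tensor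

end ses

section equiv
variable {V W : Type} [AddCommGroup V] [Module F2 V] [AddCommGroup W] [Module F2 W]
  {ρ : Representation F2 G4 V} {σ : Representation F2 G4 W}

lemma dd_equiv (e : ρ.Equiv σ) : dd ρ = dd σ := by
  have h1 : Module.finrank F2 V = Module.finrank F2 W := e.toLinearEquiv.finrank_eq
  have e7 : (IV ρ).map e.toLinearEquiv.toLinearMap = IV σ := by
    apply le_antisymm
    · rw [Submodule.map_le_iff_le_comap]
      unfold IV Coinvariants.ker
      rw [Submodule.span_le]
      rintro _ ⟨⟨g, y⟩, rfl⟩
      refine Submodule.subset_span ⟨(g, e y), ?_⟩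
      have := IntertwiningMap.isIntertwining _ _ e.toIntertwiningMap g y
      simp only [map_sub]
      exact congrArg (fun z => z - e y) this.symm
    · conv_lhs => unfold IV Coinvariants.ker
      rw [Submodule.span_le]
      rintro _ ⟨⟨g, y⟩, rfl⟩
      obtain ⟨w, rfl⟩ : ∃ w, e w = y := ⟨e.symm y, e.apply_symm_apply y⟩
      refine ⟨ρ g w - w, Coinvariants.mem_ker_of_eq g w _ rfl, ?_⟩
      have := IntertwiningMap.isIntertwining _ _ e.toIntertwiningMap g w
      simp only [map_sub]
      exact congrArg (fun z => z - e w) this
  have h2 : Module.finrank F2 (IV ρ) = Module.finrank F2 (IV σ) := by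
    rw [← e7]
    exact (LinearEquiv.finrank_eq (e.toLinearEquiv.submoduleMap _))
  unfold dd
  rw [h1, h2]

lemma di_equiv (e : ρ.Equiv σ) : di ρ = di σ := by
  have h1 : Module.finrank F2 V = Module.finrank F2 W := e.toLinearEquiv.finrank_eq
  have e7 : ρ.invariants.map e.toLinearEquiv.toLinearMap = σ.invariants := by
    ext w
    constructor
    · rintro ⟨v, hv, rfl⟩
      rw [SetLike.mem_coe, Representation.mem_invariants] at hv
      rw [Representation.mem_invariants]
      intro g
      have := IntertwiningMap.isIntertwining _ _ e.toIntertwiningMap g v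
      rw [hv] at this
      exact this.symm
    · intro hw
      obtain ⟨v, rfl⟩ : ∃ v, e v = w := ⟨e.symm w, e.apply_symm_apply w⟩
      refine ⟨v, ?_, rfl⟩
      rw [Representation.mem_invariants] at hw
      rw [SetLike.mem_coe, Representation.mem_invariants]
      intro g
      apply e.toLinearEquiv.injective
      have := IntertwiningMap.isIntertwining _ _ e.toIntertwiningMap g v
      exact this.trans (hw g)
  have h2 : Module.finrank F2 ρ.invariants = Module.finrank F2 σ.invariants := by
    rw [← e7]
    exact (LinearEquiv.finrank_eq (e.toLinearEquiv.submoduleMap _))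
  unfold di
  rw [h1, h2]

lemma cc_equiv (e : ρ.Equiv σ) : cc ρ = cc σ := by
  have h1 : Module.finrank F2 V = Module.finrank F2 W := e.toLinearEquiv.finrank_eq
  unfold cc
  rw [h1, rk_equiv e]

end equiv

/-- drop the last entry -/
def ini (m : ℕ) : (Fin (m + 1) → F2) →ₗ[F2] (Fin m → F2) := LinearMap.funLeft F2 F2 Fin.castSucc
/-- drop the first entry -/
def tai (m : ℕ) : (Fin (m + 1) → F2) →ₗ[F2] (Fin m → F2) := LinearMap.funLeft F2 F2 Fin.succ

/-- append zero -/
def app (m : ℕ) : (Fin m → F2) →ₗ[F2] (Fin (m + 1) → F2) where
  toFun u := Fin.snoc (α := fun _ => F2) u 0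
  map_add' u v := by
    funext i
    induction i using Fin.lastCases with
    | last => simp
    | cast i => simp
  map_smul' c u := by
    funext i
    induction i using Fin.lastCases with
    | last => simp
    | cast i => simp

/-- prepend zero -/
def pre (m : ℕ) : (Fin m → F2) →ₗ[F2] (Fin (m + 1) → F2) where
  toFun u := Fin.cons (α := fun _ => F2) 0 u
  map_add' u v := by
    funext i
    induction i using Fin.cases with
    | zero => simp
    | succ i => simp
  map_smul' c u := by
    funext i
    induction i using Fin.cases with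
    | zero => simp
    | succ i => simp

/-- the `m`-th syzygy of the trivial module -/
def ep (m : ℕ) := sq (ini m) (tai m)
/-- the `m`-th cosyzygy of the trivial module -/
def en (m : ℕ) := sq (app m) (pre m)

/-- the free module of rank `m + 1` -/
def frm (m : ℕ) := fr (Fin (m + 1) → F2)

/-- `0 → E_{m+1} → F → E_m → 0` -/
def sesP (m : ℕ) : SES (ep (m + 1)) (frm m) (ep m) where
  i := ⟨{ toFun := fun x => (0, tai (m + 1) x.1, ini (m + 1) x.1, x.2)
          map_add' := fun x y => by simp
          map_smul' := fun c x => by simp }, fun g => by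
        apply LinearMap.ext
        intro x
        simp only [LinearMap.comp_apply, ep, frm, sq_apply, fr_apply, LinearMap.coe_mk,
          AddHom.coe_mk, smul_zero, add_zero]⟩
  p := ⟨{ toFun := fun z => (z.1, ini m z.2.1 + tai m z.2.2.1)
          map_add' := fun x y => by
            ext
            · simp
            · simp only [Prod.fst_add, Prod.snd_add, map_add]
              simp only [Pi.add_apply]; ring
          map_smul' := fun c x => by simp }, fun g => by
        apply LinearMap.ext
        intro x
        simp only [LinearMap.comp_apply, ep, frm, sq_apply, fr_apply, LinearMap.coe_mk,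
          AddHom.coe_mk, map_add, map_smul]
        refine Prod.ext rfl ?_
        simp only
        abel⟩
  inj := by
    rw [injective_iff_map_eq_zero]
    rintro ⟨w, v⟩ hx
    have h1 : tai (m + 1) w = 0 := congrArg (fun z => z.2.1) hx
    have h2 : ini (m + 1) w = 0 := congrArg (fun z => z.2.2.1) hx
    have h3 : v = 0 := congrArg (fun z => z.2.2.2) hx
    refine Prod.ext ?_ h3
    funext i
    induction i using Fin.cases with
    | zero => exact congrFun h2 0
    | succ i => exact congrFun h1 i
  surj := by
    rintro ⟨a, b⟩
    refine ⟨(a, Fin.snoc (α := fun _ => F2) b 0, 0, 0), ?_⟩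
    refine Prod.ext rfl ?_
    funext i
    change Fin.snoc (α := fun _ => F2) b 0 (Fin.castSucc i) + (0 : F2) = b i
    simp
  ex := by
    rintro ⟨z0, z1, z2, z3⟩
    constructor
    · intro h
      have h1 : z0 = 0 := congrArg Prod.fst h
      have h2 : ini m z1 + tai m z2 = 0 := congrArg Prod.snd h
      have h3 : ∀ j : Fin m, z1 j.castSucc = z2 j.succ := by
        intro j
        have := congrFun h2 j
        change z1 j.castSucc + z2 j.succ = 0 at this
        rw [eq_neg_of_add_eq_zero_left this, neg_self]
      refine ⟨(Fin.cons (α := fun _ => F2) (z2 0) z1, z3), ?_⟩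
      subst h1
      refine Prod.ext rfl (Prod.ext ?_ (Prod.ext ?_ rfl))
      · funext j
        rfl
      · funext j
        change Fin.cons (α := fun _ => F2) (z2 0) z1 (Fin.castSucc j) = z2 j
        induction j using Fin.cases with
        | zero => rfl
        | succ j =>
          rw [← Fin.succ_castSucc, Fin.cons_succ]
          exact h3 j
    · rintro ⟨⟨w, v⟩, h⟩
      have h1 : (0 : Fin (m + 1) → F2) = z0 := congrArg Prod.fst h
      have h2 : tai (m + 1) w = z1 := congrArg (fun z => z.2.1) h
      have h3 : ini (m + 1) w = z2 := congrArg (fun z => z.2.2.1) h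
      subst h1 h2 h3
      refine Prod.ext rfl ?_
      funext j
      change w (j.castSucc.succ) + w (j.succ.castSucc) = 0
      rw [Fin.succ_castSucc]
      exact two_zero _

/-- `0 → E_{-m} → F → E_{-m-1} → 0` -/
def sesN (m : ℕ) : SES (en m) (frm m) (en (m + 1)) where
  i := ⟨{ toFun := fun x => (0, pre m x.1, app m x.1, x.2)
          map_add' := fun x y => by simp
          map_smul' := fun c x => by simp }, fun g => by
        apply LinearMap.ext
        intro x
        simp only [LinearMap.comp_apply, en, frm, sq_apply, fr_apply, LinearMap.coe_mk,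
          AddHom.coe_mk, smul_zero, add_zero]⟩
  p := ⟨{ toFun := fun z => (z.1, app (m + 1) z.2.1 + pre (m + 1) z.2.2.1)
          map_add' := fun x y => by
            ext
            · simp
            · simp only [Prod.fst_add, Prod.snd_add, map_add]
              simp only [Pi.add_apply]; ring
          map_smul' := fun c x => by simp }, fun g => by
        apply LinearMap.ext
        intro x
        simp only [LinearMap.comp_apply, en, frm, sq_apply, fr_apply, LinearMap.coe_mk,
          AddHom.coe_mk, map_add, map_smul]
        refine Prod.ext rfl ?_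
        simp only
        abel⟩
  inj := by
    rw [injective_iff_map_eq_zero]
    rintro ⟨w, v⟩ hx
    have h1 : pre m w = 0 := congrArg (fun z => z.2.1) hx
    have h3 : v = 0 := congrArg (fun z => z.2.2.2) hx
    refine Prod.ext ?_ h3
    funext i
    exact congrFun h1 i.succ
  surj := by
    rintro ⟨a, b⟩
    refine ⟨(a, fun i => b i.castSucc, fun i => if i = Fin.last m then b (Fin.last (m + 1)) else 0, 0), ?_⟩
    refine Prod.ext rfl ?_
    funext i
    change Fin.snoc (α := fun _ => F2) (fun i : Fin (m + 1) => b i.castSucc) 0 i +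
      Fin.cons (α := fun _ => F2) 0 (fun i : Fin (m + 1) => if i = Fin.last m then b (Fin.last (m + 1)) else 0) i = b i
    induction i using Fin.lastCases with
    | last =>
      rw [Fin.snoc_last, zero_add, ← Fin.succ_last, Fin.cons_succ, if_pos rfl]
    | cast i =>
      rw [Fin.snoc_castSucc]
      induction i using Fin.cases with
      | zero => simp
      | succ i =>
        rw [← Fin.succ_castSucc, Fin.cons_succ, if_neg, add_zero]
        exact (Fin.castSucc_lt_last i).ne
  ex := by
    rintro ⟨z0, z1, z2, z3⟩
    constructor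
    · intro h
      have h1 : z0 = 0 := congrArg Prod.fst h
      have h2 : app (m + 1) z1 + pre (m + 1) z2 = 0 := congrArg Prod.snd h
      have h3 : ∀ j : Fin (m + 2), Fin.snoc (α := fun _ => F2) z1 0 j =
          Fin.cons (α := fun _ => F2) 0 z2 j := by
        intro j
        have := congrFun h2 j
        change Fin.snoc (α := fun _ => F2) z1 0 j + Fin.cons (α := fun _ => F2) 0 z2 j = 0 at this
        rw [eq_neg_of_add_eq_zero_left this, neg_self]
      have h0 : z1 0 = 0 := by
        have := h3 (Fin.castSucc 0)
        rw [Fin.snoc_castSucc] at this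
        rw [this]
        rfl
      have hl : z2 (Fin.last m) = 0 := by
        have := h3 (Fin.last (m + 1))
        rw [Fin.snoc_last, ← Fin.succ_last, Fin.cons_succ] at this
        exact this.symm
      have hm : ∀ j : Fin m, z1 j.succ = z2 j.castSucc := by
        intro j
        have := h3 j.succ.castSucc
        rw [Fin.snoc_castSucc, ← Fin.succ_castSucc, Fin.cons_succ] at this
        exact this
      refine ⟨(fun j => z1 j.succ, z3), ?_⟩
      subst h1
      refine Prod.ext rfl (Prod.ext ?_ (Prod.ext ?_ rfl))
      · funext j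
        change Fin.cons (α := fun _ => F2) 0 (fun j : Fin m => z1 j.succ) j = z1 j
        induction j using Fin.cases with
        | zero => exact h0.symm
        | succ j => rfl
      · funext j
        change Fin.snoc (α := fun _ => F2) (fun j : Fin m => z1 j.succ) 0 j = z2 j
        induction j using Fin.lastCases with
        | last => rw [Fin.snoc_last]; exact hl.symm
        | cast j => rw [Fin.snoc_castSucc]; exact hm j
    · rintro ⟨⟨w, v⟩, h⟩
      have h1 : (0 : Fin (m + 1) → F2) = z0 := congrArg Prod.fst h
      have h2 : pre m w = z1 := congrArg (fun z => z.2.1) h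
      have h3 : app m w = z2 := congrArg (fun z => z.2.2.1) h
      subst h1 h2 h3
      refine Prod.ext rfl ?_
      funext j
      change Fin.snoc (α := fun _ => F2) (Fin.cons (α := fun _ => F2) 0 w) 0 j +
        Fin.cons (α := fun _ => F2) 0 (Fin.snoc (α := fun _ => F2) w 0) j = 0
      rw [Fin.cons_snoc_eq_snoc_cons]
      exact two_zero _

end Pool.Agent.L7h64.Core
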