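import Mathlib

/-!
# A non-rational power series

If `c 0 = 1` and `c (n+1) = 2 c n + 4 [n even] binom(n, n/2)`, then `∑ c n t^n` is not rational.
-/

set_option autoImplicit false

namespace Pool.Agent.L7h64.CoreSeries

open PowerSeries

/-- the central binomial coefficients, in even degrees -/
def cb (n : ℕ) : ℕ := if Even n then n.choose (n / 2) else 0

lemma cb_even (m : ℕ) : cb (2 * m) = Nat.centralBinom m := by
  unfold cb
  rw [if_pos (even_two_mul m), Nat.centralBinom, Nat.mul_div_cancel_left _ (by norm_num : 0 < 2)]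

lemma cb_odd (m : ℕ) : cb (2 * m + 1) = 0 := by
  unfold cb
  rw [if_neg]
  simp

lemma cb_rec (n : ℕ) : (n + 2) * cb (n + 2) = 4 * (n + 1) * cb n := by
  obtain ⟨m, hm⟩ := Nat.even_or_odd' n
  rcases hm with rfl | rfl
  · rw [show 2 * m + 2 = 2 * (m + 1) by ring, cb_even, cb_even]
    have h := Nat.succ_mul_centralBinom_succ m
    calc 2 * (m + 1) * (m + 1).centralBinom = 2 * ((m + 1) * (m + 1).centralBinom) := by ring
      _ = 4 * (2 * m + 1) * m.centralBinom := by rw [h]; ring
  · rw [show 2 * m + 1 + 2 = 2 * (m + 1) + 1 by ring, cb_odd, cb_odd]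
    simp

/-- its power series -/
noncomputable def B : PowerSeries ℚ := PowerSeries.mk fun n => (cb n : ℚ)

lemma B_ode : derivative ℚ B * (1 - 4 * X ^ 2) = 4 * X * B := by
  ext n
  rw [mul_sub, mul_one, map_sub, coeff_derivative]
  have e1 : derivative ℚ B * (4 * X ^ 2) = C (4 : ℚ) * (derivative ℚ B * X ^ 2) := by
    rw [show (C (4 : ℚ)) = (4 : PowerSeries ℚ) from map_ofNat C 4]; ring
  have e2 : 4 * X * B = C (4 : ℚ) * (B * X) := by
    rw [show (C (4 : ℚ)) = (4 : PowerSeries ℚ) from map_ofNat C 4]; ring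
  rw [e1, e2, coeff_C_mul, coeff_C_mul]
  rcases n with _ | _ | n
  · simp [B, cb, coeff_mul_X_pow']
  · rw [coeff_mul_X_pow', coeff_succ_mul_X]
    have := cb_rec 0
    simp only [B, coeff_mk]
    norm_num [cb] at this ⊢
  · rw [show n + 1 + 1 = n + 2 by ring, coeff_mul_X_pow, coeff_derivative,
      show n + 2 = (n + 1) + 1 by ring, coeff_succ_mul_X]
    simp only [B, coeff_mk]
    have h := cb_rec (n + 1)
    have h2 : ((n : ℚ) + 3) * cb (n + 3) = 4 * (n + 2) * cb (n + 1) := by
      have := congrArg (fun x : ℕ => (x : ℚ)) h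
      push_cast at this
      rw [show n + 1 + 2 = n + 3 by ring] at this
      linear_combination this
    rw [show n + 1 + 1 + 1 = n + 3 by ring]
    push_cast
    linear_combination h2

lemma B_sq : B ^ 2 * (1 - 4 * X ^ 2) = 1 := by
  apply derivative.ext
  · rw [Derivation.leibniz, derivative_one, derivative_pow, map_sub, derivative_one]
    have h4 : derivative ℚ (4 * X ^ 2 : PowerSeries ℚ) = 8 * X := by
      rw [show (4 : PowerSeries ℚ) = C (4 : ℚ) from (map_ofNat C 4).symm, Derivation.leibniz,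
        derivative_C, derivative_pow, derivative_X, smul_zero, add_zero, smul_eq_mul,
        show (C (4 : ℚ)) = (4 : PowerSeries ℚ) from map_ofNat C 4]
      norm_num
      ring
    rw [h4]
    have h := B_ode
    simp only [smul_eq_mul]
    norm_num
    linear_combination (2 * B) * h
  · simp [B, cb]

/-- **Main statement of this file.** -/
theorem not_rational (c : ℕ → ℕ) (h0 : c 0 = 1)
    (hrec : ∀ n, c (n + 1) = 2 * c n + 4 * cb n) :
    ¬ ∃ P Q : Polynomial ℚ, Q ≠ 0 ∧
      (Q : PowerSeries ℚ) * PowerSeries.mk (fun n : ℕ => (c n : ℚ)) = (P : PowerSeries ℚ) := by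
  rintro ⟨P, Q, hQ, h⟩
  set f : PowerSeries ℚ := PowerSeries.mk (fun n : ℕ => (c n : ℚ)) with hf
  have hfB : f = 1 + X * (2 * f + 4 * B) := by
    ext n
    rcases n with _ | n
    · simp [hf, h0]
    · rw [map_add, coeff_succ_X_mul, map_add,
        show (2 : PowerSeries ℚ) = C (2 : ℚ) from (map_ofNat C 2).symm,
        show (4 : PowerSeries ℚ) = C (4 : ℚ) from (map_ofNat C 4).symm, coeff_C_mul, coeff_C_mul]
      simp only [hf, B, coeff_mk, hrec n, coeff_one]
      push_cast
      simp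
  have k2 : ((2 : Polynomial ℚ) : PowerSeries ℚ) = 2 :=
    map_ofNat (Polynomial.coeToPowerSeries.ringHom (R := ℚ)) 2
  have k4 : ((4 : Polynomial ℚ) : PowerSeries ℚ) = 4 :=
    map_ofNat (Polynomial.coeToPowerSeries.ringHom (R := ℚ)) 4
  have k16 : ((16 : Polynomial ℚ) : PowerSeries ℚ) = 16 :=
    map_ofNat (Polynomial.coeToPowerSeries.ringHom (R := ℚ)) 16
  -- `4 X Q B = (1 - 2X) P - Q`
  set P' : Polynomial ℚ := (1 - 2 * Polynomial.X) * P - Q with hP'
  have h1 : (4 * X * (Q : PowerSeries ℚ)) * B = (P' : PowerSeries ℚ) := by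
    rw [hP']
    push_cast
    rw [← h, k2]
    linear_combination (-(Q : PowerSeries ℚ)) * hfB
  have h2 : (16 * X ^ 2 * (Q : PowerSeries ℚ) ^ 2) = (P' : PowerSeries ℚ) ^ 2 * (1 - 4 * X ^ 2) := by
    rw [← h1]
    linear_combination (-(16 * X ^ 2 * (Q : PowerSeries ℚ) ^ 2)) * B_sq
  have h3 : (16 * Polynomial.X ^ 2 * Q ^ 2 : Polynomial ℚ) = P' ^ 2 * (1 - 4 * Polynomial.X ^ 2) := by
    apply Polynomial.coe_injective
    push_cast
    rw [k4, k16]
    exact h2
  have hP0 : P' ≠ 0 := by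
    intro h0
    rw [h0] at h3
    simp at h3
    exact hQ h3
  -- multiplicity of the root `1/2`
  have e16 : (16 * Polynomial.X ^ 2 * Q ^ 2 : Polynomial ℚ) =
      Polynomial.C 16 * ((Polynomial.X * Q) * (Polynomial.X * Q)) := by
    rw [show Polynomial.C (16 : ℚ) = (16 : Polynomial ℚ) from map_ofNat Polynomial.C 16]; ring
  have eR : P' ^ 2 * (1 - 4 * Polynomial.X ^ 2) = Polynomial.C (-4) *
      ((P' * P') * ((Polynomial.X - Polynomial.C (1/2)) * (Polynomial.X + Polynomial.C (1/2)))) := by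
    have : (Polynomial.X - Polynomial.C (1/2)) * (Polynomial.X + Polynomial.C (1/2)) =
        (Polynomial.X ^ 2 - Polynomial.C (1/4) : Polynomial ℚ) := by
      have e : (Polynomial.C (1/4) : Polynomial ℚ) = Polynomial.C (1/2) * Polynomial.C (1/2) := by
        rw [← map_mul]; norm_num
      rw [e]; ring
    rw [this]
    have e4 : (Polynomial.C (-4) : Polynomial ℚ) = -4 := by
      rw [map_neg, map_ofNat]
    have e1 : (Polynomial.C (-4) * Polynomial.C (1/4) : Polynomial ℚ) = -1 := by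
      rw [← map_mul]; norm_num
    linear_combination (P' ^ 2) * e1 - (P' ^ 2 * Polynomial.X ^ 2) * e4
  rw [e16, eR] at h3
  have hXQ : Polynomial.X * Q ≠ 0 := mul_ne_zero Polynomial.X_ne_zero hQ
  have hA : (Polynomial.X - Polynomial.C (1/2) : Polynomial ℚ) ≠ 0 := Polynomial.X_sub_C_ne_zero _
  have hBne : (Polynomial.X + Polynomial.C (1/2) : Polynomial ℚ) ≠ 0 := by
    have := Polynomial.X_add_C_ne_zero (1/2 : ℚ)
    exact this
  have hmul := congrArg (Polynomial.rootMultiplicity (1/2 : ℚ)) h3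
  have hc16 : (Polynomial.C (16:ℚ)) ≠ 0 := by simp
  have hc4 : (Polynomial.C (-4:ℚ)) ≠ 0 := by simp
  rw [Polynomial.rootMultiplicity_mul (mul_ne_zero hc16 (mul_ne_zero hXQ hXQ)),
    Polynomial.rootMultiplicity_mul (mul_ne_zero hXQ hXQ),
    Polynomial.rootMultiplicity_mul (mul_ne_zero hc4 (mul_ne_zero (mul_ne_zero hP0 hP0)
      (mul_ne_zero hA hBne))),
    Polynomial.rootMultiplicity_mul (mul_ne_zero (mul_ne_zero hP0 hP0) (mul_ne_zero hA hBne)),
    Polynomial.rootMultiplicity_mul (mul_ne_zero hP0 hP0),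
    Polynomial.rootMultiplicity_mul (mul_ne_zero hA hBne),
    Polynomial.rootMultiplicity_C, Polynomial.rootMultiplicity_C,
    Polynomial.rootMultiplicity_X_sub_C_self] at hmul
  have hz : Polynomial.rootMultiplicity (1/2 : ℚ) (Polynomial.X + Polynomial.C (1/2)) = 0 := by
    rw [Polynomial.rootMultiplicity_eq_zero]
    simp [Polynomial.IsRoot]
  rw [hz] at hmul
  omega

end Pool.Agent.L7h64.CoreSeries
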