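import Pool.Agent.L7h64.CoreHig

/-!
# Representations of the four-group in characteristic two
-/

set_option autoImplicit false

namespace Pool.Agent.L7h64.Core

open Representation TensorProduct CategoryTheory

/-- the four-group -/
abbrev G4 : Type := Multiplicative (ZMod 2 × ZMod 2)

/-- the field with two elements -/
abbrev F2 : Type := ZMod 2

/-- first generator -/
def ga : G4 := Multiplicative.ofAdd (1, 0)
/-- second generator -/
def gb : G4 := Multiplicative.ofAdd (0, 1)

lemma sum_G4 {A : Type} [AddCommMonoid A] (f : G4 → A) :
    ∑ g : G4, f g = f 1 + f ga + f gb + f (ga * gb) := by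
  have : (Finset.univ : Finset G4) = {1, ga, gb, ga * gb} := by decide
  rw [this, Finset.sum_insert (by decide), Finset.sum_insert (by decide),
    Finset.sum_insert (by decide), Finset.sum_singleton]
  abel

variable {V : Type} [AddCommGroup V] [Module F2 V] {ρ : Representation F2 G4 V}

lemma two_zero (v : V) : v + v = 0 := by
  have : (2 : F2) • v = 0 := by
    rw [show (2 : F2) = 0 from rfl, zero_smul]
  rw [← this, two_smul]

lemma neg_self (v : V) : -v = v := neg_eq_of_add_eq_zero_left (two_zero v)

/-- **Dimension of a projective representation.** -/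
lemma Hig.finrank [FiniteDimensional F2 V] (h : Hig ρ) : Module.finrank F2 V = 4 * rk ρ := by
  have hinv := h.range_norm
  obtain ⟨θ, hθ⟩ := h
  let A : V →ₗ[F2] V := 1 + ρ ga
  let B : V →ₗ[F2] V := 1 + ρ gb
  have hA : ∀ v, A v = v + ρ ga v := fun _ => rfl
  have hB : ∀ v, B v = v + ρ gb v := fun _ => rfl
  have ha2 : ∀ v, ρ ga (ρ ga v) = v := by
    intro v
    rw [← Module.End.mul_apply, ← map_mul, show ga * ga = 1 by decide, map_one]; rfl
  have hb2 : ∀ v, ρ gb (ρ gb v) = v := by
    intro v
    rw [← Module.End.mul_apply, ← map_mul, show gb * gb = 1 by decide, map_one]; rfl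
  have hab : ∀ v, ρ (ga * gb) v = ρ ga (ρ gb v) := by
    intro v; rw [map_mul]; rfl
  have hba : ∀ v, ρ gb (ρ ga v) = ρ ga (ρ gb v) := by
    intro v; rw [← hab, ← Module.End.mul_apply, ← map_mul, show gb * ga = ga * gb by decide]
  have hnorm : ∀ v, ρ.norm v = A (B v) := by
    intro v
    rw [norm_apply', sum_G4, hA, hB, hab, map_one, map_add]
    simp only [Module.End.one_apply]
    abel
  have hnorm' : ∀ v, ρ.norm v = B (A v) := by
    intro v
    rw [norm_apply', sum_G4, hA, hB, hab, map_one, map_add, hba]
    simp only [Module.End.one_apply]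
    abel
  -- kernel of `A` is its range
  have kA : LinearMap.ker A = LinearMap.range A := by
    ext v
    constructor
    · intro hv
      rw [LinearMap.mem_ker, hA] at hv
      have hv' : ρ ga v = v := by
        have := eq_neg_of_add_eq_zero_right hv
        rw [this, neg_self]
      refine ⟨θ v + ρ gb (θ (ρ gb v)), ?_⟩
      have h1 := hθ v
      rw [sum_G4] at h1
      simp only [inv_one, map_one, Module.End.one_apply, show ga⁻¹ = ga by decide,
        show gb⁻¹ = gb by decide, show (ga * gb)⁻¹ = ga * gb by decide, hab] at h1
      rw [← hba v, hv'] at h1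
      rw [hA]
      conv_rhs => rw [← h1]
      rw [map_add]
      abel
    · rintro ⟨w, rfl⟩
      rw [LinearMap.mem_ker, hA, hA, map_add, ha2, add_comm (ρ ga w) w]
      exact two_zero _
  have hcA := LinearMap.finrank_range_add_finrank_ker A
  rw [kA] at hcA
  -- the restriction of `B` to the range of `A`
  set R := LinearMap.range A with hR
  have hcB := LinearMap.finrank_range_add_finrank_ker (B.domRestrict R)
  rw [LinearMap.range_domRestrict] at hcB
  have e1 : R.map B = LinearMap.range ρ.norm := by
    ext v
    constructor
    · rintro ⟨_, ⟨w, rfl⟩, rfl⟩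
      exact ⟨w, hnorm' w⟩
    · rintro ⟨w, rfl⟩
      exact ⟨A w, ⟨w, rfl⟩, (hnorm' w).symm⟩
  have e2 : Module.finrank F2 (LinearMap.ker (B.domRestrict R)) = Module.finrank F2 (LinearMap.range ρ.norm) := by
    have e3 : LinearMap.range ρ.norm = (LinearMap.ker (B.domRestrict R)).map R.subtype := by
      ext v
      constructor
      · rintro ⟨w, rfl⟩
        have hmem : ρ.norm w ∈ R := ⟨B w, (hnorm w).symm⟩
        refine ⟨⟨ρ.norm w, hmem⟩, ?_, rfl⟩
        rw [SetLike.mem_coe, LinearMap.mem_ker, LinearMap.domRestrict_apply, hB]
        simp only [self_norm_apply]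
        exact two_zero _
      · rintro ⟨⟨v, hv⟩, hv2, rfl⟩
        rw [SetLike.mem_coe, LinearMap.mem_ker, LinearMap.domRestrict_apply, hB] at hv2
        simp only at hv2
        rw [hinv, Representation.mem_invariants]
        rw [← kA, LinearMap.mem_ker, hA] at hv
        have hva : ρ ga v = v := by
          have := eq_neg_of_add_eq_zero_right hv
          rw [this, neg_self]
        have hvb : ρ gb v = v := by
          have := eq_neg_of_add_eq_zero_right hv2
          rw [this, neg_self]
        have hall : ∀ g : G4, g = 1 ∨ g = ga ∨ g = gb ∨ g = ga * gb := by decide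
        intro g
        rcases hall g with rfl | rfl | rfl | rfl
        · rw [map_one]; rfl
        · exact hva
        · exact hvb
        · rw [hab, Submodule.coe_subtype, hvb, hva]
    rw [e3]
    exact (LinearEquiv.finrank_eq (Submodule.equivMapOfInjective _
      (Submodule.injective_subtype _) _))
  rw [e1, e2] at hcB
  unfold rk
  omega

end Pool.Agent.L7h64.Core
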