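import Mathlib

/-!
# The rank three Steinberg group of a commutative ring and its finite quotients
-/

set_option autoImplicit false

open scoped commutatorElement

namespace Pool.Agent.L7h64.FA

/-- generators `x i r = x_{i,i+1}(r)`, `y i r = x_{i,i+2}(r)` for `i : ZMod 3` -/
inductive Gen (R : Type) : Type
  | x (i : ZMod 3) (r : R) : Gen R
  | y (i : ZMod 3) (r : R) : Gen R

/-- a system of elements of a group satisfying the Steinberg relations -/
structure Sys {R : Type} [CommRing R] {Q : Type} [Group Q] (X Y : ZMod 3 → R → Q) : Prop where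
  addX : ∀ i r s, X i (r + s) = X i r * X i s
  addY : ∀ i r s, Y i (r + s) = Y i r * Y i s
  xx : ∀ i r s, ⁅X i r, X (i + 1) s⁆ = Y i (r * s)
  yy : ∀ i r s, ⁅Y i r, Y (i - 1) s⁆ = X i (r * s)
  xy : ∀ i r s, X i r * Y i s = Y i s * X i r
  xy' : ∀ i r s, X i r * Y (i - 1) s = Y (i - 1) s * X i r

/-- the free generators -/
abbrev fx {R : Type} (i : ZMod 3) (r : R) : FreeGroup (Gen R) := FreeGroup.of (Gen.x i r)
/-- the free generators -/
abbrev fy {R : Type} (i : ZMod 3) (r : R) : FreeGroup (Gen R) := FreeGroup.of (Gen.y i r)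

/-- the Steinberg relators -/
def rels (R : Type) [CommRing R] : Set (FreeGroup (Gen R)) :=
  {w | (∃ i : ZMod 3, ∃ r s : R, w = fx i (r + s) * (fx i r * fx i s)⁻¹) ∨
    (∃ i : ZMod 3, ∃ r s : R, w = fy i (r + s) * (fy i r * fy i s)⁻¹) ∨
    (∃ i : ZMod 3, ∃ r s : R, w = ⁅fx i r, fx (i + 1) s⁆ * (fy i (r * s))⁻¹) ∨
    (∃ i : ZMod 3, ∃ r s : R, w = ⁅fy i r, fy (i - 1) s⁆ * (fx i (r * s))⁻¹) ∨
    (∃ i : ZMod 3, ∃ r s : R, w = (fx i r * fy i s) * (fy i s * fx i r)⁻¹) ∨
    (∃ i : ZMod 3, ∃ r s : R, w = (fx i r * fy (i - 1) s) * (fy (i - 1) s * fx i r)⁻¹)}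

/-- the Steinberg group `St₃(R)` -/
abbrev St (R : Type) [CommRing R] : Type := PresentedGroup (rels R)

namespace St

variable {R : Type} [CommRing R]

/-- generator -/
def x (i : ZMod 3) (r : R) : St R := PresentedGroup.of (Gen.x i r)
/-- generator -/
def y (i : ZMod 3) (r : R) : St R := PresentedGroup.of (Gen.y i r)

lemma eq_of_rel {a b : FreeGroup (Gen R)} (h : a * b⁻¹ ∈ rels R) :
    PresentedGroup.mk (rels R) a = PresentedGroup.mk (rels R) b := by
  have h1 : PresentedGroup.mk (rels R) (a * b⁻¹) = 1 :=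
    PresentedGroup.one_of_mem h
  rw [map_mul, map_inv] at h1
  exact mul_inv_eq_one.1 h1

lemma sys : Sys (x : ZMod 3 → R → St R) y where
  addX i r s := eq_of_rel (a := fx i (r + s)) (b := fx i r * fx i s)
    (Or.inl ⟨i, r, s, rfl⟩)
  addY i r s := eq_of_rel (a := fy i (r + s)) (b := fy i r * fy i s)
    (Or.inr (Or.inl ⟨i, r, s, rfl⟩))
  xx i r s := eq_of_rel (a := ⁅fx i r, fx (i + 1) s⁆) (b := fy i (r * s))
    (Or.inr (Or.inr (Or.inl ⟨i, r, s, rfl⟩)))
  yy i r s := eq_of_rel (a := ⁅fy i r, fy (i - 1) s⁆) (b := fx i (r * s))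
    (Or.inr (Or.inr (Or.inr (Or.inl ⟨i, r, s, rfl⟩))))
  xy i r s := eq_of_rel (a := fx i r * fy i s) (b := fy i s * fx i r)
    (Or.inr (Or.inr (Or.inr (Or.inr (Or.inl ⟨i, r, s, rfl⟩)))))
  xy' i r s := eq_of_rel (a := fx i r * fy (i - 1) s) (b := fy (i - 1) s * fx i r)
    (Or.inr (Or.inr (Or.inr (Or.inr (Or.inr ⟨i, r, s, rfl⟩)))))

variable {Q : Type} [Group Q]

/-- function on generators -/
def genFun (X Y : ZMod 3 → R → Q) : Gen R → Q
  | Gen.x i r => X i r
  | Gen.y i r => Y i r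

lemma lift_aux {X Y : ZMod 3 → R → Q} (h : Sys X Y) :
    ∀ w ∈ rels R, FreeGroup.lift (genFun X Y) w = 1 := by
  rintro w (⟨i, r, s, rfl⟩ | ⟨i, r, s, rfl⟩ | ⟨i, r, s, rfl⟩ | ⟨i, r, s, rfl⟩ | ⟨i, r, s, rfl⟩ |
    ⟨i, r, s, rfl⟩)
  · rw [map_mul, map_inv, mul_inv_eq_one, map_mul]
    simp only [FreeGroup.lift_apply_of, genFun]
    exact h.addX i r s
  · rw [map_mul, map_inv, mul_inv_eq_one, map_mul]
    simp only [FreeGroup.lift_apply_of, genFun]
    exact h.addY i r s
  · rw [map_mul, map_inv, mul_inv_eq_one, map_commutatorElement]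
    simp only [FreeGroup.lift_apply_of, genFun]
    exact h.xx i r s
  · rw [map_mul, map_inv, mul_inv_eq_one, map_commutatorElement]
    simp only [FreeGroup.lift_apply_of, genFun]
    exact h.yy i r s
  · rw [map_mul, map_inv, mul_inv_eq_one, map_mul, map_mul]
    simp only [FreeGroup.lift_apply_of, genFun]
    exact h.xy i r s
  · rw [map_mul, map_inv, mul_inv_eq_one, map_mul, map_mul]
    simp only [FreeGroup.lift_apply_of, genFun]
    exact h.xy' i r s

/-- the universal property -/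
def lift {X Y : ZMod 3 → R → Q} (h : Sys X Y) : St R →* Q :=
  PresentedGroup.toGroup (f := genFun X Y) (lift_aux h)

@[simp] lemma lift_x {X Y : ZMod 3 → R → Q} (h : Sys X Y) (i : ZMod 3) (r : R) :
    lift h (x i r) = X i r := PresentedGroup.toGroup.of (lift_aux h)

@[simp] lemma lift_y {X Y : ZMod 3 → R → Q} (h : Sys X Y) (i : ZMod 3) (r : R) :
    lift h (y i r) = Y i r := PresentedGroup.toGroup.of (lift_aux h)

/-- a subgroup containing the generators is everything -/
lemma eq_top_of_gen (K : Subgroup (St R)) (hx : ∀ i r, x i r ∈ K) (hy : ∀ i r, y i r ∈ K) :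
    K = ⊤ := by
  rw [eq_top_iff, ← PresentedGroup.closure_range_of (rels R), Subgroup.closure_le]
  rintro _ ⟨g, rfl⟩
  cases g with
  | x i r => exact hx i r
  | y i r => exact hy i r

lemma hom_ext {f g : St R →* Q} (hx : ∀ i r, f (x i r) = g (x i r))
    (hy : ∀ i r, f (y i r) = g (y i r)) : f = g := by
  have h := eq_top_of_gen (f.eqLocus g) hx hy
  ext w
  have : (PresentedGroup.of w : St R) ∈ f.eqLocus g := by rw [h]; trivial
  exact this

end St

namespace Sys

variable {R : Type} [CommRing R] {Q : Type} [Group Q] {X Y : ZMod 3 → R → Q}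

lemma map {P : Type} [Group P] (h : Sys X Y) (f : Q →* P) :
    Sys (fun i r => f (X i r)) (fun i r => f (Y i r)) where
  addX i r s := by rw [h.addX, map_mul]
  addY i r s := by rw [h.addY, map_mul]
  xx i r s := by rw [← map_commutatorElement, h.xx]
  yy i r s := by rw [← map_commutatorElement, h.yy]
  xy i r s := by rw [← map_mul, h.xy, map_mul]
  xy' i r s := by rw [← map_mul, h.xy', map_mul]

lemma comp {S : Type} [CommRing S] (h : Sys X Y) (ι : S →+* R) :
    Sys (fun i r => X i (ι r)) (fun i r => Y i (ι r)) where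
  addX i r s := by rw [map_add, h.addX]
  addY i r s := by rw [map_add, h.addY]
  xx i r s := by rw [map_mul, h.xx]
  yy i r s := by rw [map_mul, h.yy]
  xy i r s := h.xy _ _ _
  xy' i r s := h.xy' _ _ _

variable (h : Sys X Y)

include h

lemma X_zero (i : ZMod 3) : X i 0 = 1 := by
  have := h.addX i 0 0
  rw [add_zero] at this
  exact left_eq_mul.1 this

lemma Y_zero (i : ZMod 3) : Y i 0 = 1 := by
  have := h.addY i 0 0
  rw [add_zero] at this
  exact left_eq_mul.1 this

lemma X_neg (i : ZMod 3) (r : R) : X i (-r) = (X i r)⁻¹ := by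
  rw [eq_inv_iff_mul_eq_one, ← h.addX, neg_add_cancel, h.X_zero]

lemma Y_neg (i : ZMod 3) (r : R) : Y i (-r) = (Y i r)⁻¹ := by
  rw [eq_inv_iff_mul_eq_one, ← h.addY, neg_add_cancel, h.Y_zero]

lemma X_sub (i : ZMod 3) (r s : R) : X i (r - s) = X i r * (X i s)⁻¹ := by
  rw [sub_eq_add_neg, h.addX, h.X_neg]

lemma Y_sub (i : ZMod 3) (r s : R) : Y i (r - s) = Y i r * (Y i s)⁻¹ := by
  rw [sub_eq_add_neg, h.addY, h.Y_neg]

lemma Y_of_X {i : ZMod 3} {r : R} (hr : X i r = 1) (s : R) : Y i (r * s) = 1 := by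
  rw [← h.xx, hr, commutatorElement_one_left]

lemma Y_of_X' {i : ZMod 3} {s : R} (hr : X (i + 1) s = 1) (r : R) : Y i (r * s) = 1 := by
  rw [← h.xx, hr, commutatorElement_one_right]

lemma X_of_Y {i : ZMod 3} {r : R} (hr : Y i r = 1) (s : R) : X i (r * s) = 1 := by
  rw [← h.yy, hr, commutatorElement_one_left]

lemma X_mul {i : ZMod 3} {r : R} (hr : X i r = 1) (s : R) : X i (r * s) = 1 := by
  have h1 := h.Y_of_X hr s
  have h2 := h.X_of_Y h1 1
  rwa [mul_one] at h2

lemma X_pred {i : ZMod 3} {r : R} (hr : X (i + 1) r = 1) : X i r = 1 := by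
  have h1 := h.Y_of_X' hr 1
  have h2 := h.X_of_Y h1 1
  rwa [mul_one, one_mul] at h2

/-- the kernel of one root subgroup kills all root subgroups, and is an ideal -/
lemma kill {r : R} (hr : X 0 r = 1) (i : ZMod 3) (s : R) : X i (r * s) = 1 ∧ Y i (r * s) = 1 := by
  have h2 : X 2 r = 1 := h.X_pred (i := 2) hr
  have h1 : X 1 r = 1 := h.X_pred (i := 1) h2
  have h3 : X i r = 1 := by
    fin_cases i
    · exact hr
    · exact h1
    · exact h2
  exact ⟨h.X_mul h3 s, h.Y_of_X h3 s⟩

end Sys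

section dense

variable {S R : Type} [CommRing S] [CommRing R] (ι : S →+* R)

/-- the hypothesis that `S → R` induces an isomorphism on quotients by principal ideals -/
structure Dense : Prop where
  inf : Infinite S
  surj : ∀ f : S, f ≠ 0 → ∀ r : R, ∃ (s : S) (r' : R), r = ι s + ι f * r'
  div : ∀ f : S, f ≠ 0 → ∀ (s : S) (r' : R), ι s = ι f * r' → f ∣ s

/-- functoriality -/
def phi : St S →* St R := St.lift (St.sys.comp ι)

@[simp] lemma phi_x (i : ZMod 3) (s : S) : phi ι (St.x i s) = St.x i (ι s) := St.lift_x _ i s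
@[simp] lemma phi_y (i : ZMod 3) (s : S) : phi ι (St.y i s) = St.y i (ι s) := St.lift_y _ i s

variable {ι}

/-- a finite quotient kills a nonzero element of `S` -/
lemma exists_kill {Q : Type} [Group Q] [Finite Q] [Infinite S] {X Y : ZMod 3 → S → Q}
    (h : Sys X Y) : ∃ f : S, f ≠ 0 ∧ X 0 f = 1 := by
  have hni : ¬ Function.Injective (X 0) := not_injective_infinite_finite (X 0)
  simp only [Function.Injective, not_forall] at hni
  obtain ⟨s, s', he, hne⟩ := hni
  refine ⟨s - s', sub_ne_zero.2 hne, ?_⟩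
  rw [h.X_sub, he, mul_inv_cancel]

/-- every finite quotient of `St₃(S)` extends to `St₃(R)` -/
lemma extend (hd : Dense ι) {Q : Type} [Group Q] [Finite Q] (p : St S →* Q) :
    ∃ q : St R →* Q, q.comp (phi ι) = p := by
  have := hd.inf
  let X : ZMod 3 → S → Q := fun i s => p (St.x i s)
  let Y : ZMod 3 → S → Q := fun i s => p (St.y i s)
  have h : Sys X Y := St.sys.map p
  obtain ⟨f, hf0, hf⟩ := exists_kill h
  have hkX : ∀ i s, X i (f * s) = 1 := fun i s => (h.kill hf i s).1
  have hkY : ∀ i s, Y i (f * s) = 1 := fun i s => (h.kill hf i s).2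
  choose σ ρ hσ using hd.surj f hf0
  have hwX : ∀ i (s s' : S) (r : R), ι s = ι s' + ι f * r → X i s = X i s' := by
    intro i s s' r hr
    obtain ⟨u, hu⟩ := hd.div f hf0 (s - s') r (by rw [map_sub, hr]; ring)
    have h1 : s = s' + f * u := by rw [← hu]; ring
    rw [h1, h.addX, hkX, mul_one]
  have hwY : ∀ i (s s' : S) (r : R), ι s = ι s' + ι f * r → Y i s = Y i s' := by
    intro i s s' r hr
    obtain ⟨u, hu⟩ := hd.div f hf0 (s - s') r (by rw [map_sub, hr]; ring)
    have h1 : s = s' + f * u := by rw [← hu]; ring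
    rw [h1, h.addY, hkY, mul_one]
  have hadd : ∀ r s : R, ι (σ (r + s)) = ι (σ r + σ s) + ι f * (ρ r + ρ s - ρ (r + s)) := by
    intro r s
    have h1 := hσ r
    have h2 := hσ s
    have h3 := hσ (r + s)
    rw [map_add]
    linear_combination h1 + h2 - h3
  have hmul : ∀ r s : R, ι (σ (r * s)) = ι (σ r * σ s) +
      ι f * (ι (σ r) * ρ s + ρ r * ι (σ s) + ι f * ρ r * ρ s - ρ (r * s)) := by
    intro r s
    have h1 := hσ r
    have h2 := hσ s
    have h3 := hσ (r * s)
    rw [map_mul]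
    linear_combination s * h1 + (ι (σ r) + ι f * ρ r) * h2 - h3
  have h' : Sys (fun i r => X i (σ r)) (fun i r => Y i (σ r)) := by
    constructor
    · intro i r s
      rw [← h.addX]
      exact hwX i _ _ _ (hadd r s)
    · intro i r s
      rw [← h.addY]
      exact hwY i _ _ _ (hadd r s)
    · intro i r s
      rw [h.xx]
      exact (hwY i _ _ _ (hmul r s)).symm
    · intro i r s
      rw [h.yy]
      exact (hwX i _ _ _ (hmul r s)).symm
    · intro i r s
      exact h.xy _ _ _
    · intro i r s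
      exact h.xy' _ _ _
  refine ⟨St.lift h', ?_⟩
  apply St.hom_ext
  · intro i s
    rw [MonoidHom.comp_apply, phi_x, St.lift_x]
    exact (hwX i s (σ (ι s)) _ (hσ (ι s))).symm
  · intro i s
    rw [MonoidHom.comp_apply, phi_y, St.lift_y]
    exact (hwY i s (σ (ι s)) _ (hσ (ι s))).symm

/-- `St₃(S)` is dense in `St₃(R)` -/
lemma dense_range (hd : Dense ι) {Q : Type} [Group Q] [Finite Q] (q : St R →* Q)
    (hq : Function.Surjective q) : Function.Surjective (q.comp (phi ι)) := by
  have := hd.inf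
  let X : ZMod 3 → R → Q := fun i s => q (St.x i s)
  let Y : ZMod 3 → R → Q := fun i s => q (St.y i s)
  have h : Sys X Y := St.sys.map q
  have hS : Sys (fun i s => X i (ι s)) (fun i s => Y i (ι s)) := h.comp ι
  obtain ⟨f, hf0, hf⟩ := exists_kill hS
  have hK : ((q.comp (phi ι)).range).comap q = ⊤ := by
    apply St.eq_top_of_gen
    · intro i r
      obtain ⟨s, r', hr⟩ := hd.surj f hf0 r
      refine ⟨St.x i s, ?_⟩
      rw [MonoidHom.comp_apply, phi_x]
      change X i (ι s) = X i r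
      rw [hr, h.addX, (h.kill hf i r').1, mul_one]
    · intro i r
      obtain ⟨s, r', hr⟩ := hd.surj f hf0 r
      refine ⟨St.y i s, ?_⟩
      rw [MonoidHom.comp_apply, phi_y]
      change Y i (ι s) = Y i r
      rw [hr, h.addY, (h.kill hf i r').2, mul_one]
  intro c
  obtain ⟨w, rfl⟩ := hq c
  have : w ∈ ((q.comp (phi ι)).range).comap q := by rw [hK]; trivial
  exact this

end dense

end Pool.Agent.L7h64.FA
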