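import Mathlib

/-!
# The tree of an increasing union of proper subgroups

If a group `H` is the union of an increasing sequence of proper subgroups, then `H` acts without
inversions and without a global fixed vertex on a tree.
-/

set_option autoImplicit false

namespace Pool.Agent.L7h64.FA

open SimpleGraph

section parentTree

variable {V : Type} (parent : V → V) (level : V → ℕ)

/-- the graph of a parent function -/
def parentGraph (hlev : ∀ x, level (parent x) = level x + 1) : SimpleGraph V where
  Adj x y := parent x = y ∨ parent y = x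
  symm := ⟨fun _ _ h => h.symm⟩
  loopless := ⟨fun x h => by
    have h1 := hlev x
    rcases h with h | h <;> · rw [h] at h1; omega⟩

variable (hlev : ∀ x, level (parent x) = level x + 1)

lemma parentGraph_adj_iff (x y : V) :
    (parentGraph parent level hlev).Adj x y ↔ parent x = y ∨ parent y = x := Iff.rfl

lemma parentGraph_reach (x : V) (k : ℕ) :
    (parentGraph parent level hlev).Reachable x (parent^[k] x) := by
  induction k with
  | zero => exact Reachable.refl _
  | succ k ih =>
    rw [Function.iterate_succ_apply']
    refine ih.trans (Adj.reachable ?_)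
    exact Or.inl rfl

lemma parentGraph_isTree [Nonempty V]
    (hjoin : ∀ x y, ∃ k l, parent^[k] x = parent^[l] y) :
    (parentGraph parent level hlev).IsTree := by
  classical
  refine ⟨?_, ?_⟩
  · have hpre : (parentGraph parent level hlev).Preconnected := by
      intro x y
      obtain ⟨k, l, h⟩ := hjoin x y
      have h1 := parentGraph_reach parent level hlev x k
      have h2 := parentGraph_reach parent level hlev y l
      rw [h] at h1
      exact h1.trans h2.symm
    exact { preconnected := hpre, nonempty := inferInstance }
  · intro v c hc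
    -- a vertex of minimal level
    obtain ⟨u, hu, hmin⟩ : ∃ u ∈ c.support, ∀ w ∈ c.support, level u ≤ level w := by
      have hne : c.support.toFinset.Nonempty := ⟨v, by simp⟩
      obtain ⟨u, hu, h⟩ := Finset.exists_min_image c.support.toFinset level hne
      exact ⟨u, by simpa using hu, fun w hw => h w (by simpa using hw)⟩
    have hc' : (c.rotate u hu).IsCycle := hc.rotate hu
    have hsupp : ∀ w ∈ (c.rotate u hu).support, w ∈ c.support := by
      intro w hw
      exact (c.mem_support_rotate_iff u hu).1 hw
    have key : ∀ w ∈ (c.rotate u hu).support,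
        (parentGraph parent level hlev).Adj u w → w = parent u := by
      intro w hw hadj
      have h1 := hmin w (hsupp w hw)
      rcases hadj with h | h
      · exact h.symm
      · have := hlev w
        rw [h] at this
        omega
    have hnil := hc'.not_nil
    have h1 := key _ (Walk.getVert_mem_support _ 1) (Walk.adj_snd hnil)
    have h2 := key _ (Walk.getVert_mem_support _ _) (Walk.adj_penultimate hnil).symm
    exact hc'.snd_ne_penultimate (h1.trans h2.symm)

end parentTree

section union

variable {H : Type} [Group H] (D : ℕ → Subgroup H) (hmono : Monotone D)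

/-- the vertices: cosets of the `D n` -/
abbrev Vtx : Type := Σ n : ℕ, H ⧸ D n

/-- the parent of a coset of `D n` is the coset of `D (n+1)` containing it -/
def par (x : Vtx D) : Vtx D :=
  ⟨x.1 + 1, Subgroup.quotientMapOfLE (hmono (Nat.le_succ x.1)) x.2⟩

lemma par_mk (n : ℕ) (g : H) :
    par D hmono ⟨n, (QuotientGroup.mk g : H ⧸ D n)⟩ = ⟨n + 1, (QuotientGroup.mk g : H ⧸ D (n + 1))⟩ :=
  rfl

lemma par_iterate (n k : ℕ) (g : H) :
    (par D hmono)^[k] ⟨n, (QuotientGroup.mk g : H ⧸ D n)⟩ =
      ⟨n + k, (QuotientGroup.mk g : H ⧸ D (n + k))⟩ := by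
  induction k with
  | zero => rfl
  | succ k ih => rw [Function.iterate_succ_apply', ih, par_mk]; rfl

lemma par_smul (h : H) (x : Vtx D) : par D hmono (h • x) = h • par D hmono x := by
  obtain ⟨n, c⟩ := x
  induction c using QuotientGroup.induction_on with
  | H g => rfl

include hmono in
theorem no_fix_union (hunion : ∀ h, ∃ n, h ∈ D n) (hproper : ∀ n, D n ≠ ⊤) :
    ∃ (V : Type) (_ : MulAction H V) (T : SimpleGraph V), T.IsTree ∧
      (∀ h : H, ∀ x y : V, T.Adj x y → T.Adj (h • x) (h • y)) ∧
      (∀ h : H, ∀ x y : V, T.Adj x y → ¬ (h • x = y ∧ h • y = x)) ∧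
      ¬ ∃ v : V, ∀ h : H, h • v = v := by
  have hlev : ∀ x : Vtx D, (par D hmono x).1 = x.1 + 1 := fun x => rfl
  have hne : Nonempty (Vtx D) := ⟨⟨0, (QuotientGroup.mk 1 : H ⧸ D 0)⟩⟩
  refine ⟨Vtx D, inferInstance, parentGraph (par D hmono) (fun x => x.1) hlev, ?_, ?_, ?_, ?_⟩
  · apply parentGraph_isTree
    rintro ⟨n, c⟩ ⟨m, d⟩
    induction c using QuotientGroup.induction_on with
    | H g =>
      induction d using QuotientGroup.induction_on with
      | H g' =>
        obtain ⟨N, hN⟩ := hunion (g⁻¹ * g')
        refine ⟨m + N, n + N, ?_⟩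
        rw [par_iterate, par_iterate]
        have hidx : n + (m + N) = m + (n + N) := by omega
        have hmem : g⁻¹ * g' ∈ D (m + (n + N)) := hmono (by omega) hN
        rw [hidx]
        congr 1
        rw [QuotientGroup.eq]
        exact hmem
  · intro h x y hxy
    rcases hxy with hxy | hxy
    · left
      rw [par_smul, hxy]
    · right
      rw [par_smul, hxy]
  · rintro h x y hxy ⟨h1, h2⟩
    have hl : ∀ x : Vtx D, (h • x).1 = x.1 := fun x => rfl
    have e1 : x.1 = y.1 := by rw [← hl x, h1]
    rcases hxy with hxy | hxy
    · have := hlev x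
      rw [hxy] at this
      omega
    · have := hlev y
      rw [hxy] at this
      omega
  · rintro ⟨⟨n, c⟩, hv⟩
    induction c using QuotientGroup.induction_on with
    | H g =>
      apply hproper n
      rw [eq_top_iff]
      intro h _
      have h1 := hv (g * h * g⁻¹)
      have h2 : (QuotientGroup.mk (g * h * g⁻¹ * g) : H ⧸ D n) = QuotientGroup.mk g := by
        have h3 : (⟨n, QuotientGroup.mk (g * h * g⁻¹ * g)⟩ : Vtx D) = ⟨n, QuotientGroup.mk g⟩ := h1
        exact eq_of_heq (Sigma.mk.inj h3).2
      rw [QuotientGroup.eq] at h2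
      have h3 : (g * h * g⁻¹ * g)⁻¹ * g = h⁻¹ := by group
      rw [h3] at h2
      exact (Subgroup.inv_mem_iff _).1 h2

end union

end Pool.Agent.L7h64.FA
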