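import Mathlib
import Pool.Agent.L7h64.FASt
import Pool.Agent.L7h64.FAUnion

/-!
# The matrix representation of `St₃(R)` and proper increasing chains
-/

set_option autoImplicit false

open scoped commutatorElement
open Matrix

namespace Pool.Agent.L7h64.FA

section mat

variable {R : Type} [CommRing R]

/-- the group `GL₃(R)` with index set `ZMod 3` -/
abbrev GLL (R : Type) [CommRing R] : Type := (Matrix (ZMod 3) (ZMod 3) R)ˣ

/-- elementary matrix as a unit -/
def EE (i j : ZMod 3) (h : i ≠ j) (r : R) : GLL R where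
  val := transvection i j r
  inv := transvection i j (-r)
  val_inv := by rw [transvection_mul_transvection_same _ _ h, add_neg_cancel, transvection_zero]
  inv_val := by rw [transvection_mul_transvection_same _ _ h, neg_add_cancel, transvection_zero]

lemma EE_add (i j : ZMod 3) (h : i ≠ j) (r s : R) : EE i j h (r + s) = EE i j h r * EE i j h s := by
  apply Units.ext
  rw [Units.val_mul]
  exact (transvection_mul_transvection_same _ _ h r s).symm

lemma smz {i j k l : ZMod 3} (h : j ≠ k) (c d : R) : single i j c * single k l d = 0 :=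
  single_mul_single_of_ne _ _ _ _ h _

lemma tr_comm (i j k : ZMod 3) (_hij : i ≠ j) (hjk : j ≠ k) (hik : i ≠ k) (r s : R) :
    transvection i j r * transvection j k s =
      transvection i k (r * s) * (transvection j k s * transvection i j r) := by
  simp only [transvection, mul_add, add_mul, one_mul, mul_one, single_mul_single_same,
    smz hjk.symm, smz hik.symm, add_zero, mul_zero]
  abel

lemma EE_comm (i j k : ZMod 3) (hij : i ≠ j) (hjk : j ≠ k) (hik : i ≠ k) (r s : R) :
    ⁅EE i j hij r, EE j k hjk s⁆ = EE i k hik (r * s) := by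
  rw [commutatorElement_def, mul_inv_eq_iff_eq_mul, mul_inv_eq_iff_eq_mul]
  apply Units.ext
  rw [Units.val_mul, Units.val_mul, Units.val_mul, mul_assoc]
  exact tr_comm i j k hij hjk hik r s

lemma EE_row (i j k : ZMod 3) (hij : i ≠ j) (hik : i ≠ k) (r s : R) :
    EE i j hij r * EE i k hik s = EE i k hik s * EE i j hij r := by
  apply Units.ext
  rw [Units.val_mul, Units.val_mul]
  change transvection i j r * transvection i k s = transvection i k s * transvection i j r
  simp only [transvection, mul_add, add_mul, one_mul, mul_one,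
    smz hij.symm, smz hik.symm, add_zero]
  abel

lemma EE_col (i j k : ZMod 3) (hik : i ≠ k) (hjk : j ≠ k) (r s : R) :
    EE i k hik r * EE j k hjk s = EE j k hjk s * EE i k hik r := by
  apply Units.ext
  rw [Units.val_mul, Units.val_mul]
  change transvection i k r * transvection j k s = transvection j k s * transvection i k r
  simp only [transvection, mul_add, add_mul, one_mul, mul_one,
    smz hik.symm, smz hjk.symm, add_zero]
  abel

lemma z3a : ∀ i : ZMod 3, i + 2 = i - 1 := by decide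
lemma z3b : ∀ i : ZMod 3, i + 2 + 2 = i - 1 + 2 := by decide
lemma z3c : ∀ i : ZMod 3, i + 2 + 2 = i + 1 := by decide
lemma ne1 : ∀ i : ZMod 3, i ≠ i + 1 := by decide
lemma ne2 : ∀ i : ZMod 3, i ≠ i + 2 := by decide

/-- `x i r` as a matrix -/
def MX (i : ZMod 3) (r : R) : GLL R := EE i (i + 1) (ne1 i) r
/-- `y i r` as a matrix -/
def MY (i : ZMod 3) (r : R) : GLL R := EE i (i + 2) (ne2 i) r

lemma EE_congr {i j i' j' : ZMod 3} (h : i ≠ j) (h' : i' ≠ j') (hi : i = i') (hj : j = j') (r : R) :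
    EE i j h r = EE i' j' h' r := by
  subst hi; subst hj; rfl

lemma MSys : Sys (MX : ZMod 3 → R → GLL R) MY where
  addX i r s := EE_add _ _ _ r s
  addY i r s := EE_add _ _ _ r s
  xx i r s := by
    have h := EE_comm i (i + 1) (i + 1 + 1) (ne1 i) (ne1 (i + 1)) (by revert i; decide) r s
    exact h.trans (EE_congr _ _ rfl (by ring) _)
  yy i r s := by
    have h := EE_comm i (i + 2) (i + 2 + 2) (ne2 i) (ne2 (i + 2)) (by revert i; decide) r s
    have h1 : EE (i + 2) (i + 2 + 2) (ne2 (i + 2)) s = MY (i - 1) s :=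
      EE_congr _ _ (z3a i) (z3b i) _
    rw [h1] at h
    exact h.trans (EE_congr _ _ rfl (z3c i) _)
  xy i r s := EE_row _ _ _ _ _ r s
  xy' i r s := by
    have h1 : MY (i - 1) s = EE (i - 1) (i + 1) (by revert i; decide) s :=
      EE_congr _ _ rfl (by revert i; decide) _
    rw [h1]
    exact EE_col _ _ _ _ _ r s

/-- the matrix representation -/
def mu (R : Type) [CommRing R] : St R →* GLL R := St.lift MSys

lemma mu_x_entry (r : R) : ((mu R (St.x 0 r) : GLL R) : Matrix (ZMod 3) (ZMod 3) R) 0 1 = r := by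
  rw [mu, St.lift_x]
  change (transvection (0 : ZMod 3) (0 + 1) r) 0 1 = r
  simp [transvection]

/-- the matrices over a subring, as a subgroup -/
def GLsub (A : Subring R) : Subgroup (GLL R) where
  carrier := {g | (∀ i j, (g : Matrix (ZMod 3) (ZMod 3) R) i j ∈ A) ∧
    ∀ i j, ((g⁻¹ : GLL R) : Matrix (ZMod 3) (ZMod 3) R) i j ∈ A}
  mul_mem' := by
    rintro a b ⟨ha, ha'⟩ ⟨hb, hb'⟩
    refine ⟨fun i j => ?_, fun i j => ?_⟩
    · rw [Units.val_mul, Matrix.mul_apply]
      exact Subring.sum_mem _ fun k _ => Subring.mul_mem _ (ha i k) (hb k j)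
    · rw [_root_.mul_inv_rev, Units.val_mul, Matrix.mul_apply]
      exact Subring.sum_mem _ fun k _ => Subring.mul_mem _ (hb' i k) (ha' k j)
  one_mem' := by
    refine ⟨fun i j => ?_, fun i j => ?_⟩
    · rw [Units.val_one, Matrix.one_apply]
      split_ifs
      · exact Subring.one_mem _
      · exact Subring.zero_mem _
    · rw [inv_one, Units.val_one, Matrix.one_apply]
      split_ifs
      · exact Subring.one_mem _
      · exact Subring.zero_mem _
  inv_mem' := by
    rintro a ⟨ha, ha'⟩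
    exact ⟨ha', by rwa [inv_inv]⟩

lemma GLsub_mono {A B : Subring R} (h : A ≤ B) : GLsub A ≤ GLsub B := by
  rintro g ⟨hg, hg'⟩
  exact ⟨fun i j => h (hg i j), fun i j => h (hg' i j)⟩

lemma GLsub_union (A : ℕ → Subring R) (hA : Monotone A) (hu : ∀ r, ∃ n, r ∈ A n) (g : GLL R) :
    ∃ n, g ∈ GLsub (A n) := by
  choose e he using hu
  let N : ℕ := (Finset.univ.sup fun i : ZMod 3 => Finset.univ.sup fun j : ZMod 3 =>
    e ((g : Matrix (ZMod 3) (ZMod 3) R) i j)) ⊔
    (Finset.univ.sup fun i : ZMod 3 => Finset.univ.sup fun j : ZMod 3 =>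
    e (((g⁻¹ : GLL R) : Matrix (ZMod 3) (ZMod 3) R) i j))
  refine ⟨N, fun i j => ?_, fun i j => ?_⟩
  · refine hA ?_ (he _)
    refine le_trans ?_ le_sup_left
    refine le_trans ?_ (Finset.le_sup (Finset.mem_univ i))
    exact Finset.le_sup (f := fun j => e ((g : Matrix (ZMod 3) (ZMod 3) R) i j)) (Finset.mem_univ j)
  · refine hA ?_ (he _)
    refine le_trans ?_ le_sup_right
    refine le_trans ?_ (Finset.le_sup (Finset.mem_univ i))
    exact Finset.le_sup (f := fun j => e (((g⁻¹ : GLL R) : Matrix (ZMod 3) (ZMod 3) R) i j))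
      (Finset.mem_univ j)

end mat

section core

/-- the intersection of the normal subgroups of finite index -/
def core (Γ : Type) [Group Γ] : Subgroup Γ :=
  ⨅ (N : Subgroup Γ) (_ : N.Normal) (_ : N.index ≠ 0), N

variable {Γ : Type} [Group Γ]

lemma mem_core (g : Γ) : g ∈ core Γ ↔ ∀ N : Subgroup Γ, N.Normal → N.index ≠ 0 → g ∈ N := by
  simp only [core, Subgroup.mem_iInf]

instance : (core Γ).Normal := by
  constructor
  intro n hn g
  rw [mem_core] at *
  intro N hN hi
  exact hN.conj_mem _ (hn N hN hi) g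

/-- the largest residually finite quotient -/
abbrev RF (Γ : Type) [Group Γ] : Type := Γ ⧸ core Γ

lemma core_le {N : Subgroup Γ} (hN : N.Normal) (hi : N.index ≠ 0) : core Γ ≤ N := by
  intro g hg
  exact (mem_core g).1 hg N hN hi

lemma comap_map_mk {N : Subgroup Γ} (hN : core Γ ≤ N) :
    (N.map (QuotientGroup.mk' (core Γ))).comap (QuotientGroup.mk' (core Γ)) = N := by
  rw [Subgroup.comap_map_eq_self]
  rwa [QuotientGroup.ker_mk']

lemma map_mk_index {N : Subgroup Γ} (hN : core Γ ≤ N) (hi : N.index ≠ 0) :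
    (N.map (QuotientGroup.mk' (core Γ))).index ≠ 0 := by
  rw [← comap_map_mk hN, Subgroup.index_comap_of_surjective _ (QuotientGroup.mk'_surjective _)] at hi
  exact hi

lemma map_mk_normal {N : Subgroup Γ} (hN : N.Normal) :
    (N.map (QuotientGroup.mk' (core Γ))).Normal :=
  hN.map _ (QuotientGroup.mk'_surjective _)

lemma RF_rf (g : RF Γ) (hg : g ≠ 1) :
    ∃ N : Subgroup (RF Γ), N.Normal ∧ N.index ≠ 0 ∧ g ∉ N := by
  obtain ⟨γ, rfl⟩ := QuotientGroup.mk'_surjective _ g
  have h1 : γ ∉ core Γ := by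
    intro h
    exact hg ((QuotientGroup.eq_one_iff γ).2 h)
  rw [mem_core] at h1
  push Not at h1
  obtain ⟨N, hN, hi, hγ⟩ := h1
  refine ⟨N.map (QuotientGroup.mk' (core Γ)), map_mk_normal hN, map_mk_index (core_le hN hi) hi, ?_⟩
  intro h
  apply hγ
  have h2 : γ ∈ (N.map (QuotientGroup.mk' (core Γ))).comap (QuotientGroup.mk' (core Γ)) := h
  rwa [comap_map_mk (core_le hN hi)] at h2

variable {Δ : Type} [Group Δ] (φ : Γ →* Δ)

lemma core_le_comap : core Γ ≤ (core Δ).comap φ := by
  intro g hg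
  rw [Subgroup.mem_comap, mem_core]
  intro M hM hi
  have h1 : (M.comap φ).Normal := hM.comap φ
  have h2 : (M.comap φ).index ≠ 0 := by
    intro h0
    have h3 : M.relIndex φ.range = 0 := by rw [← Subgroup.index_comap]; exact h0
    exact hi (Subgroup.index_eq_zero_of_relIndex_eq_zero h3)
  exact (mem_core g).1 hg _ h1 h2

/-- the induced map -/
def uu : RF Γ →* RF Δ := QuotientGroup.map (core Γ) (core Δ) φ (core_le_comap φ)

lemma uu_mk (g : Γ) : uu φ (QuotientGroup.mk' _ g) = QuotientGroup.mk' _ (φ g) := rfl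

variable {φ}

lemma uu_inj (ha : ∀ N : Subgroup Γ, N.Normal → N.index ≠ 0 →
    ∃ M : Subgroup Δ, M.Normal ∧ M.index ≠ 0 ∧ M.comap φ ≤ N) : Function.Injective (uu φ) := by
  rw [injective_iff_map_eq_one]
  intro g hg
  obtain ⟨γ, rfl⟩ := QuotientGroup.mk'_surjective _ g
  rw [uu_mk] at hg
  have h1 : φ γ ∈ core Δ := (QuotientGroup.eq_one_iff _).1 hg
  apply (QuotientGroup.eq_one_iff _).2
  rw [mem_core]
  intro N hN hi
  obtain ⟨M, hM, hMi, hle⟩ := ha N hN hi
  exact hle ((mem_core _).1 h1 M hM hMi)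

lemma uu_a (ha : ∀ N : Subgroup Γ, N.Normal → N.index ≠ 0 →
    ∃ M : Subgroup Δ, M.Normal ∧ M.index ≠ 0 ∧ M.comap φ ≤ N)
    (N : Subgroup (RF Γ)) (hN : N.Normal) (hi : N.index ≠ 0) :
    ∃ M : Subgroup (RF Δ), M.Normal ∧ M.index ≠ 0 ∧ M.comap (uu φ) ≤ N := by
  have h1 : (N.comap (QuotientGroup.mk' (core Γ))).Normal := hN.comap _
  have h2 : (N.comap (QuotientGroup.mk' (core Γ))).index ≠ 0 := by
    rwa [Subgroup.index_comap_of_surjective _ (QuotientGroup.mk'_surjective _)]
  obtain ⟨M, hM, hMi, hle⟩ := ha _ h1 h2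
  refine ⟨M.map (QuotientGroup.mk' (core Δ)), map_mk_normal hM, map_mk_index (core_le hM hMi) hMi, ?_⟩
  intro g hg
  obtain ⟨γ, rfl⟩ := QuotientGroup.mk'_surjective _ g
  rw [Subgroup.mem_comap, uu_mk] at hg
  have h3 : φ γ ∈ (M.map (QuotientGroup.mk' (core Δ))).comap (QuotientGroup.mk' (core Δ)) := hg
  rw [comap_map_mk (core_le hM hMi)] at h3
  exact hle h3

lemma uu_b (hb : ∀ M : Subgroup Δ, M.Normal → M.index ≠ 0 →
    ∀ h : Δ, ∃ g : Γ, ∃ m ∈ M, h = φ g * m)
    (M : Subgroup (RF Δ)) (hM : M.Normal) (hi : M.index ≠ 0) (h : RF Δ) :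
    ∃ g : RF Γ, ∃ m ∈ M, h = uu φ g * m := by
  have h1 : (M.comap (QuotientGroup.mk' (core Δ))).Normal := hM.comap _
  have h2 : (M.comap (QuotientGroup.mk' (core Δ))).index ≠ 0 := by
    rwa [Subgroup.index_comap_of_surjective _ (QuotientGroup.mk'_surjective _)]
  obtain ⟨δ, rfl⟩ := QuotientGroup.mk'_surjective _ h
  obtain ⟨g, m, hm, hd⟩ := hb _ h1 h2 δ
  refine ⟨QuotientGroup.mk' _ g, QuotientGroup.mk' _ m, hm, ?_⟩
  rw [uu_mk, hd, map_mul]

end core

end Pool.Agent.L7h64.FA
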