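import Mathlib

/-!
# Fixed points of groups acting on trees
-/

set_option autoImplicit false

namespace Pool.Agent.L7h64.FA

open SimpleGraph

section tree
variable {V : Type} {T : SimpleGraph V}

/-- `m` is between `x` and `y` -/
def Btw (T : SimpleGraph V) (x m y : V) : Prop := T.dist x m + T.dist m y = T.dist x y

lemma Btw.symm {x m y : V} (h : Btw T x m y) : Btw T y m x := by
  unfold Btw at *
  rw [T.dist_comm (u := y) (v := m), T.dist_comm (u := m) (v := x), T.dist_comm (u := y) (v := x)]
  omega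

lemma btw_unique (hT : T.IsTree) {x y m m' : V} (h : Btw T x m y) (h' : Btw T x m' y)
    (hd : T.dist x m = T.dist x m') : m = m' := by
  have hc := hT.connected
  obtain ⟨p, hp⟩ := hc.exists_walk_length_eq_dist x m
  obtain ⟨q, hq⟩ := hc.exists_walk_length_eq_dist m y
  obtain ⟨p', hp'⟩ := hc.exists_walk_length_eq_dist x m'
  obtain ⟨q', hq'⟩ := hc.exists_walk_length_eq_dist m' y
  have h1 : (p.append q).IsPath := by
    apply Walk.isPath_of_length_eq_dist
    rw [Walk.length_append, hp, hq]; exact h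
  have h2 : (p'.append q').IsPath := by
    apply Walk.isPath_of_length_eq_dist
    rw [Walk.length_append, hp', hq']; exact h'
  have h3 := congrArg Subtype.val ((hT.isAcyclic.subsingleton_path x y).elim ⟨_, h1⟩ ⟨_, h2⟩)
  simp only at h3
  have e1 : (p.append q).getVert p.length = m := by
    rw [Walk.getVert_append, if_neg (lt_irrefl _), Nat.sub_self, Walk.getVert_zero]
  have e2 : (p'.append q').getVert p'.length = m' := by
    rw [Walk.getVert_append, if_neg (lt_irrefl _), Nat.sub_self, Walk.getVert_zero]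
  rw [← e1, ← e2, h3, hp, hp', hd]

/-- a neighbour of `b` closer to `a` -/
lemma exists_closer (hT : T.IsTree) {a b : V} (hab : a ≠ b) :
    ∃ b', ∃ h : T.Adj b b', ∃ w : T.Walk b' a, w.length = T.dist b' a ∧
      T.dist b a = T.dist b' a + 1 := by
  have hc := hT.connected
  obtain ⟨p, hp⟩ := hc.exists_walk_length_eq_dist b a
  cases p with
  | nil => exact absurd rfl hab
  | @cons _ b' _ h w =>
    rw [Walk.length_cons] at hp
    have h1 : T.dist b' a ≤ w.length := T.dist_le w
    have h2 : T.dist b a ≤ T.dist b b' + T.dist b' a := hc.dist_triangle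
    have h3 : T.dist b b' = 1 := dist_eq_one_iff_adj.2 h
    exact ⟨b', h, w, by omega, by omega⟩

lemma exists_median (hT : T.IsTree) : ∀ (n : ℕ) (a b c : V), T.dist a b = n →
    ∃ m, Btw T a m b ∧ Btw T b m c ∧ Btw T a m c := by
  have hc := hT.connected
  intro n
  induction n with
  | zero =>
    intro a b c h
    have : a = b := hc.dist_eq_zero_iff.1 h
    subst this
    exact ⟨a, by simp [Btw], by simp [Btw], by simp [Btw]⟩
  | succ n ih =>
    intro a b c h
    by_cases hbc : b = c
    · subst hbc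
      exact ⟨b, by simp [Btw], by simp [Btw], by simp [Btw]⟩
    have hab : a ≠ b := by
      rintro rfl
      simp at h
    obtain ⟨b', h1, w1, hw1, hd1⟩ := exists_closer hT hab
    obtain ⟨b'', h2, w2, hw2, hd2⟩ := exists_closer hT (Ne.symm hbc)
    by_cases hbb : b' = b''
    · subst hbb
      obtain ⟨m, m1, m2, m3⟩ := ih a b' c (by rw [T.dist_comm] at h; rw [T.dist_comm]; omega)
      have t1 : T.dist b m ≤ T.dist b b' + T.dist b' m := hc.dist_triangle
      have t2 : T.dist b b' = 1 := dist_eq_one_iff_adj.2 h1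
      have t3 : T.dist a b ≤ T.dist a m + T.dist m b := hc.dist_triangle
      have t4 : T.dist b c ≤ T.dist b m + T.dist m c := hc.dist_triangle
      unfold Btw at *
      have c1 := T.dist_comm (u := a) (v := b)
      have c2 := T.dist_comm (u := a) (v := b')
      have c3 := T.dist_comm (u := m) (v := b)
      have c4 := T.dist_comm (u := m) (v := b')
      refine ⟨m, ?_, ?_, m3⟩ <;> omega
    · refine ⟨b, by simp [Btw], by simp [Btw], ?_⟩
      have p1 : (Walk.cons h1 w1).IsPath := by
        apply Walk.isPath_of_length_eq_dist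
        rw [Walk.length_cons, hw1, hd1]
      have p2 : (Walk.cons h2 w2).IsPath := by
        apply Walk.isPath_of_length_eq_dist
        rw [Walk.length_cons, hw2, hd2]
      have hA := hT.isAcyclic
      have key : ((Walk.cons h1 w1).reverse.append (Walk.cons h2 w2)).IsPath := by
        rw [hA.isPath_iff_isChain, Walk.edges_append, List.isChain_append]
        refine ⟨(hA.isPath_iff_isChain _).1 p1.reverse, (hA.isPath_iff_isChain _).1 p2, ?_⟩
        intro x hx y hy
        rw [Walk.edges_reverse, Walk.edges_cons, List.reverse_cons, List.getLast?_append] at hx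
        rw [Walk.edges_cons] at hy
        simp at hx hy
        rw [← hx, ← hy]
        intro h
        rw [Sym2.eq_iff] at h
        rcases h with ⟨-, h⟩ | ⟨h, h'⟩
        · exact hbb h
        · exact hbb (h'.trans h)
      obtain ⟨r, hr⟩ := hc.exists_walk_length_eq_dist a c
      have hr' : r.IsPath := Walk.isPath_of_length_eq_dist r hr
      have h3 := congrArg Subtype.val ((hA.subsingleton_path a c).elim ⟨_, key⟩ ⟨_, hr'⟩)
      simp only at h3
      have h4 := congrArg Walk.length h3
      rw [Walk.length_append, Walk.length_reverse, Walk.length_cons, Walk.length_cons, hr, hw1, hw2]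
        at h4
      unfold Btw
      rw [T.dist_comm (u := a) (v := b)]
      omega

/-- points at prescribed distance on a geodesic -/
lemma exists_btw_dist (hT : T.IsTree) : ∀ (n : ℕ) (x y : V) (k : ℕ), T.dist x y = n → k ≤ n →
    ∃ m, Btw T x m y ∧ T.dist x m = k := by
  have hc := hT.connected
  intro n
  induction n with
  | zero =>
    intro x y k h hk
    exact ⟨x, by simp [Btw], by simp; omega⟩
  | succ n ih =>
    intro x y k h hk
    rcases Nat.lt_or_ge n k with hk' | hk'
    · exact ⟨y, by simp [Btw], by omega⟩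
    · have hxy : x ≠ y := by
        rintro rfl
        simp at h
      obtain ⟨y', h1, -, -, hd1⟩ := exists_closer hT hxy
      obtain ⟨m, m1, m2⟩ := ih x y' k (by rw [T.dist_comm] at h; rw [T.dist_comm]; omega) hk'
      have t1 : T.dist m y ≤ T.dist m y' + T.dist y' y := hc.dist_triangle
      have t2 : T.dist y' y = 1 := dist_eq_one_iff_adj.2 h1.symm
      have t3 : T.dist x y ≤ T.dist x m + T.dist m y := hc.dist_triangle
      have c1 := T.dist_comm (u := x) (v := y)
      have c2 := T.dist_comm (u := x) (v := y')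
      refine ⟨m, ?_, m2⟩
      unfold Btw at *
      omega

lemma btw_of_le (hT : T.IsTree) {x y m q : V} (hm : Btw T x m y) (hq : Btw T x q y)
    (hle : T.dist x m ≤ T.dist x q) : Btw T x m q := by
  have hc := hT.connected
  obtain ⟨m', h1, h2⟩ := exists_btw_dist hT _ x q _ rfl hle
  have h3 : Btw T x m' y := by
    have t1 : T.dist m' y ≤ T.dist m' q + T.dist q y := hc.dist_triangle
    have t2 : T.dist x y ≤ T.dist x m' + T.dist m' y := hc.dist_triangle
    unfold Btw at *
    omega
  have h4 : m = m' := btw_unique hT hm h3 h2.symm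
  rw [h4]; exact h1

lemma strict_convex (hT : T.IsTree) {x y m : V} (hm : Btw T x m y) (hx : m ≠ x) (hy : m ≠ y)
    (p : V) : T.dist p m < max (T.dist p x) (T.dist p y) := by
  have hc := hT.connected
  obtain ⟨q, q1, q2, q3⟩ := exists_median hT _ x y p rfl
  have px : 0 < T.dist m x := hc.pos_dist_of_ne hx
  have py : 0 < T.dist m y := hc.pos_dist_of_ne hy
  have t : T.dist p m ≤ T.dist p q + T.dist q m := hc.dist_triangle
  have c1 := T.dist_comm (u := x) (v := m)
  have c2 := T.dist_comm (u := y) (v := m)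
  have c3 := T.dist_comm (u := q) (v := m)
  have c4 := T.dist_comm (u := q) (v := p)
  have c5 := T.dist_comm (u := x) (v := p)
  have c6 := T.dist_comm (u := y) (v := p)
  have c7 := T.dist_comm (u := x) (v := q)
  have c8 := T.dist_comm (u := y) (v := q)
  have c9 := T.dist_comm (u := x) (v := y)
  rcases le_total (T.dist x m) (T.dist x q) with h | h
  · have h1 := btw_of_le hT hm q1 h
    apply lt_max_of_lt_left
    unfold Btw at *
    omega
  · have h1 := btw_of_le hT hm.symm q1.symm (by unfold Btw at *; omega)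
    apply lt_max_of_lt_right
    unfold Btw at *
    omega

end tree

section action
variable {Γ V : Type} [Group Γ] [MulAction Γ V] {T : SimpleGraph V}

lemma dist_smul_le (hc : T.Connected) (hadj : ∀ g : Γ, ∀ x y : V, T.Adj x y → T.Adj (g • x) (g • y))
    (g : Γ) (x y : V) : T.dist (g • x) (g • y) ≤ T.dist x y := by
  obtain ⟨p, hp⟩ := hc.exists_walk_length_eq_dist x y
  let f : T →g T := ⟨fun x => g • x, fun h => hadj g _ _ h⟩
  have := T.dist_le (p.map f)
  rw [Walk.length_map, hp] at this
  exact this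

lemma dist_smul (hc : T.Connected) (hadj : ∀ g : Γ, ∀ x y : V, T.Adj x y → T.Adj (g • x) (g • y))
    (g : Γ) (x y : V) : T.dist (g • x) (g • y) = T.dist x y := by
  apply le_antisymm (dist_smul_le hc hadj g x y)
  have := dist_smul_le hc hadj g⁻¹ (g • x) (g • y)
  rwa [inv_smul_smul, inv_smul_smul] at this

lemma fix_btw (hT : T.IsTree) (hadj : ∀ g : Γ, ∀ x y : V, T.Adj x y → T.Adj (g • x) (g • y))
    (g : Γ) {x y m : V} (hx : g • x = x) (hy : g • y = y) (hm : Btw T x m y) : g • m = m := by
  have hd := dist_smul hT.connected hadj g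
  have h1 : Btw T x (g • m) y := by
    have a := hd x m
    have b := hd m y
    have c := hd x y
    rw [hx] at a c
    rw [hy] at b c
    unfold Btw at *
    rw [a, b]
    exact hm
  have h2 : T.dist x (g • m) = T.dist x m := by
    have a := hd x m
    rwa [hx] at a
  exact btw_unique hT h1 hm h2

/-- a finite group acting on a tree without inversions fixes a vertex -/
lemma fix_finite (hT : T.IsTree) (hadj : ∀ g : Γ, ∀ x y : V, T.Adj x y → T.Adj (g • x) (g • y))
    (hinv : ∀ g : Γ, ∀ x y : V, T.Adj x y → ¬ (g • x = y ∧ g • y = x))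
    (F : Subgroup Γ) [Finite F] : ∃ v : V, ∀ g ∈ F, g • v = v := by
  classical
  have hc := hT.connected
  obtain ⟨p₀⟩ := hc.nonempty
  have : Fintype F := Fintype.ofFinite F
  let e : V → ℕ := fun v => Finset.univ.sup fun g : F => T.dist ((g : Γ) • p₀) v
  have he : ∀ (g : Γ), g ∈ F → ∀ v, e (g • v) ≤ e v := by
    intro g hg v
    apply Finset.sup_le
    intro h _
    have h1 : T.dist ((h : Γ) • p₀) (g • v) = T.dist ((g⁻¹ * h : Γ) • p₀) v := by
      rw [← dist_smul hc hadj g⁻¹, smul_smul, inv_smul_smul]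
    rw [h1]
    exact Finset.le_sup (f := fun g : F => T.dist ((g : Γ) • p₀) v)
      (Finset.mem_univ (⟨g⁻¹ * h, F.mul_mem (F.inv_mem hg) h.2⟩ : F))
  obtain ⟨v, hv⟩ : ∃ v, ∀ w, e v ≤ e w := by
    have : Nonempty V := ⟨p₀⟩
    exact ⟨Function.argmin e, fun w => Function.argmin_le e w⟩
  refine ⟨v, fun g hg => ?_⟩
  by_contra hne
  have hmin : ∀ w, e w ≤ e v → w ≠ v → T.Adj v w := by
    intro w hw hwv
    by_contra hadj'
    have h2 : 1 < T.dist v w := by
      have h0 : 0 < T.dist v w := hc.pos_dist_of_ne (Ne.symm hwv)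
      have h1 : T.dist v w ≠ 1 := fun h => hadj' (dist_eq_one_iff_adj.1 h)
      omega
    obtain ⟨m, m1, m2⟩ := exists_btw_dist hT _ v w 1 rfl h2.le
    have hmv : m ≠ v := by rintro rfl; simp at m2
    have hmw : m ≠ w := by rintro rfl; omega
    have h3 : e m < e v := by
      have hpos : 0 < e v := by
        by_contra h0
        have := strict_convex hT m1 hmv hmw ((1 : Γ) • p₀)
        have a1 : T.dist ((1 : Γ) • p₀) v ≤ e v :=
          Finset.le_sup (f := fun g : F => T.dist ((g : Γ) • p₀) v) (Finset.mem_univ (1 : F))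
        have a2 : T.dist ((1 : Γ) • p₀) w ≤ e w :=
          Finset.le_sup (f := fun g : F => T.dist ((g : Γ) • p₀) w) (Finset.mem_univ (1 : F))
        omega
      rw [Finset.sup_lt_iff (by simpa using hpos)]
      intro h _
      have := strict_convex hT m1 hmv hmw ((h : Γ) • p₀)
      have a1 : T.dist ((h : Γ) • p₀) v ≤ e v :=
        Finset.le_sup (f := fun g : F => T.dist ((g : Γ) • p₀) v) (Finset.mem_univ h)
      have a2 : T.dist ((h : Γ) • p₀) w ≤ e w :=
        Finset.le_sup (f := fun g : F => T.dist ((g : Γ) • p₀) w) (Finset.mem_univ h)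
      omega
    exact absurd (hv m) (not_le.2 h3)
  have h1 : T.Adj v (g • v) := hmin _ (he g hg v) hne
  have h2 : T.Adj (g • v) (g • g • v) := hadj g _ _ h1
  by_cases h3 : g • g • v = v
  · exact hinv g _ _ h1 ⟨rfl, h3⟩
  · have h4 : T.Adj v (g • g • v) := hmin _ ((he g hg _).trans (he g hg v)) h3
    have := hT.dist_ne_of_adj v h2
    rw [dist_eq_one_iff_adj.2 h1, dist_eq_one_iff_adj.2 h4] at this
    exact this rfl

/-- **Fixed points for triangles of finite groups.** -/
theorem fix_triangle (hT : T.IsTree)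
    (hadj : ∀ g : Γ, ∀ x y : V, T.Adj x y → T.Adj (g • x) (g • y))
    (hinv : ∀ g : Γ, ∀ x y : V, T.Adj x y → ¬ (g • x = y ∧ g • y = x))
    (F₀ F₁ F₂ : Subgroup Γ) [Finite F₀] [Finite F₁] [Finite F₂]
    (htop : (F₂ ⊓ F₀) ⊔ (F₀ ⊓ F₁) ⊔ (F₁ ⊓ F₂) = ⊤) : ∃ v : V, ∀ g : Γ, g • v = v := by
  obtain ⟨v₀, h₀⟩ := fix_finite hT hadj hinv F₀
  obtain ⟨v₁, h₁⟩ := fix_finite hT hadj hinv F₁
  obtain ⟨v₂, h₂⟩ := fix_finite hT hadj hinv F₂
  obtain ⟨m, m01, m12, m02⟩ := exists_median hT _ v₀ v₁ v₂ rfl
  refine ⟨m, fun g => ?_⟩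
  have hle : (F₂ ⊓ F₀) ⊔ (F₀ ⊓ F₁) ⊔ (F₁ ⊓ F₂) ≤ MulAction.stabilizer Γ m := by
    refine sup_le (sup_le ?_ ?_) ?_
    · rintro g ⟨hg2, hg0⟩
      exact fix_btw hT hadj g (h₀ g hg0) (h₂ g hg2) m02
    · rintro g ⟨hg0, hg1⟩
      exact fix_btw hT hadj g (h₀ g hg0) (h₁ g hg1) m01
    · rintro g ⟨hg1, hg2⟩
      exact fix_btw hT hadj g (h₁ g hg1) (h₂ g hg2) m12
  rw [htop] at hle
  exact hle (Subgroup.mem_top g)

end action

end Pool.Agent.L7h64.FA
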