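import Mathlib
import Pool.Agent.L7h64.FASt
import Pool.Agent.L7h64.FATree

/-!
# `St₃(𝔽₂[t])` is generated by a triangle of finite groups
-/

set_option autoImplicit false

open scoped commutatorElement
open Polynomial

namespace Pool.Agent.L7h64.FA

/-- `𝔽₂[t]` -/
abbrev PS : Type := Polynomial (ZMod 2)

lemma finite_degreeLT (n : ℕ) : Finite (degreeLT (ZMod 2) n) := by
  have e := degreeLTEquiv (ZMod 2) n
  exact Finite.of_equiv _ e.symm.toEquiv

lemma mul_mem_degLT {a b : PS} (ha : a ∈ degreeLT (ZMod 2) 2) (hb : b ∈ degreeLT (ZMod 2) 2) :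
    a * b ∈ degreeLT (ZMod 2) 3 := by
  rw [mem_degreeLT] at *
  by_cases ha0 : a = 0
  · rw [ha0, zero_mul, degree_zero]; exact WithBot.bot_lt_coe _
  by_cases hb0 : b = 0
  · rw [hb0, mul_zero, degree_zero]; exact WithBot.bot_lt_coe _
  rw [degree_mul, degree_eq_natDegree ha0, degree_eq_natDegree hb0] at *
  norm_cast at *
  omega

section tri

variable {Q : Type} [Group Q] {X Y : ZMod 3 → PS → Q} (h : Sys X Y)

include h

lemma swap (i : ZMod 3) (a b : PS) : X (i + 1) b * X i a = Y i (-(a * b)) * (X i a * X (i + 1) b) := by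
  rw [h.Y_neg, ← h.xx, commutatorElement_def]
  group

lemma yx' (i : ZMod 3) (c b : PS) : Y i c * X (i + 1) b = X (i + 1) b * Y i c := by
  have := h.xy' (i + 1) b c
  rw [add_sub_cancel_right] at this
  exact this.symm

/-- product formula -/
lemma tri_mul (i : ZMod 3) (a b c a' b' c' : PS) :
    (X i a * X (i + 1) b * Y i c) * (X i a' * X (i + 1) b' * Y i c') =
      X i (a + a') * X (i + 1) (b + b') * Y i (c + c' - a' * b) := by
  have e1 : Y i c * (X i a' * X (i + 1) b' * Y i c') = X i a' * X (i + 1) b' * (Y i c * Y i c') := by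
    rw [← mul_assoc, ← mul_assoc, ← h.xy, mul_assoc (X i a'), yx' h]
    group
  calc (X i a * X (i + 1) b * Y i c) * (X i a' * X (i + 1) b' * Y i c')
      = X i a * X (i + 1) b * (Y i c * (X i a' * X (i + 1) b' * Y i c')) := by group
    _ = X i a * (X (i + 1) b * X i a') * X (i + 1) b' * (Y i c * Y i c') := by rw [e1]; group
    _ = X i a * (Y i (-(a' * b)) * (X i a' * X (i + 1) b)) * X (i + 1) b' * (Y i c * Y i c') := by
        rw [swap h]
    _ = (X i a * Y i (-(a' * b))) * X i a' * X (i + 1) b * X (i + 1) b' * (Y i c * Y i c') := by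
        group
    _ = Y i (-(a' * b)) * (X i a * X i a') * (X (i + 1) b * X (i + 1) b') * (Y i c * Y i c') := by
        rw [h.xy]; group
    _ = Y i (-(a' * b)) * X i (a + a') * X (i + 1) (b + b') * Y i (c + c') := by
        rw [← h.addX, ← h.addX, ← h.addY]
    _ = X i (a + a') * (Y i (-(a' * b)) * X (i + 1) (b + b')) * Y i (c + c') := by
        rw [← h.xy]; group
    _ = X i (a + a') * X (i + 1) (b + b') * (Y i (-(a' * b)) * Y i (c + c')) := by
        rw [yx' h]; group
    _ = X i (a + a') * X (i + 1) (b + b') * Y i (c + c' - a' * b) := by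
        rw [← h.addY]
        congr 2
        ring

end tri

/-- the vertex groups of the triangle -/
def FF (i : ZMod 3) : Subgroup (St PS) where
  carrier := {g | ∃ a ∈ degreeLT (ZMod 2) 2, ∃ b ∈ degreeLT (ZMod 2) 2, ∃ c ∈ degreeLT (ZMod 2) 3,
    g = St.x i a * St.x (i + 1) b * St.y i c}
  mul_mem' := by
    rintro _ _ ⟨a, ha, b, hb, c, hc, rfl⟩ ⟨a', ha', b', hb', c', hc', rfl⟩
    refine ⟨a + a', Submodule.add_mem _ ha ha', b + b', Submodule.add_mem _ hb hb',
      c + c' - a' * b, Submodule.sub_mem _ (Submodule.add_mem _ hc hc') (mul_mem_degLT ha' hb), ?_⟩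
    exact tri_mul St.sys i a b c a' b' c'
  one_mem' := ⟨0, Submodule.zero_mem _, 0, Submodule.zero_mem _, 0, Submodule.zero_mem _, by
    rw [St.sys.X_zero, St.sys.X_zero, St.sys.Y_zero]; simp⟩
  inv_mem' := by
    rintro _ ⟨a, ha, b, hb, c, hc, rfl⟩
    refine ⟨-a, Submodule.neg_mem _ ha, -b, Submodule.neg_mem _ hb, -c - a * b,
      Submodule.sub_mem _ (Submodule.neg_mem _ hc) (mul_mem_degLT ha hb), ?_⟩
    rw [inv_eq_iff_mul_eq_one, tri_mul St.sys]
    have e1 : a + -a = 0 := by ring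
    have e2 : b + -b = 0 := by ring
    have e3 : c + (-c - a * b) - -a * b = 0 := by ring
    rw [e1, e2, e3, St.sys.X_zero, St.sys.X_zero, St.sys.Y_zero]; simp

instance (i : ZMod 3) : Finite (FF i) := by
  have := finite_degreeLT 2
  have := finite_degreeLT 3
  let f : (degreeLT (ZMod 2) 2 × degreeLT (ZMod 2) 2 × degreeLT (ZMod 2) 3) → St PS :=
    fun p => St.x i p.1.1 * St.x (i + 1) p.2.1.1 * St.y i p.2.2.1
  have hf : (Set.range f).Finite := Set.finite_range f
  apply Set.Finite.subset hf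
  rintro _ ⟨a, ha, b, hb, c, hc, rfl⟩
  exact ⟨(⟨a, ha⟩, ⟨b, hb⟩, ⟨c, hc⟩), rfl⟩

lemma x_mem_FF (i : ZMod 3) {a : PS} (ha : a ∈ degreeLT (ZMod 2) 2) : St.x i a ∈ FF i :=
  ⟨a, ha, 0, Submodule.zero_mem _, 0, Submodule.zero_mem _, by
    rw [St.sys.X_zero, St.sys.Y_zero]; simp⟩

lemma x_mem_FF' (i : ZMod 3) {a : PS} (ha : a ∈ degreeLT (ZMod 2) 2) :
    St.x (i + 1) a ∈ FF i :=
  ⟨0, Submodule.zero_mem _, a, ha, 0, Submodule.zero_mem _, by
    rw [St.sys.X_zero, St.sys.Y_zero]; simp⟩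

lemma zmod2_cases (c : ZMod 2) : c = 0 ∨ c = 1 := by
  revert c; decide

lemma FF_top : (FF 2 ⊓ FF 0) ⊔ (FF 0 ⊓ FF 1) ⊔ (FF 1 ⊓ FF 2) = ⊤ := by
  set K : Subgroup (St PS) := (FF 2 ⊓ FF 0) ⊔ (FF 0 ⊓ FF 1) ⊔ (FF 1 ⊓ FF 2) with hK
  have hx : ∀ i (a : PS), a ∈ degreeLT (ZMod 2) 2 → St.x i a ∈ K := by
    intro i a ha
    have h0 : St.x 0 a ∈ K :=
      Subgroup.mem_sup_left (Subgroup.mem_sup_left ⟨x_mem_FF' 2 ha, x_mem_FF 0 ha⟩)
    have h1 : St.x 1 a ∈ K :=
      Subgroup.mem_sup_left (Subgroup.mem_sup_right ⟨x_mem_FF' 0 ha, x_mem_FF 1 ha⟩)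
    have h2 : St.x 2 a ∈ K :=
      Subgroup.mem_sup_right ⟨x_mem_FF' 1 ha, x_mem_FF 2 ha⟩
    fin_cases i
    · exact h0
    · exact h1
    · exact h2
  have h1 : (1 : PS) ∈ degreeLT (ZMod 2) 2 := by
    rw [mem_degreeLT, degree_one]; norm_num
  have hX : (Polynomial.X : PS) ∈ degreeLT (ZMod 2) 2 := by
    rw [mem_degreeLT, degree_X]; norm_num
  have hcomm : ∀ a b : St PS, a ∈ K → b ∈ K → ⁅a, b⁆ ∈ K := by
    intro a b ha hb
    rw [commutatorElement_def]
    exact K.mul_mem (K.mul_mem (K.mul_mem ha hb) (K.inv_mem ha)) (K.inv_mem hb)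
  have hyX : ∀ i, St.y i (Polynomial.X : PS) ∈ K := by
    intro i
    have := St.sys.xx i (Polynomial.X : PS) 1
    rw [mul_one] at this
    rw [← this]
    exact hcomm _ _ (hx _ _ hX) (hx _ _ h1)
  have hpow : ∀ k : ℕ, ∀ i, St.x i ((Polynomial.X : PS) ^ k) ∈ K ∧
      St.y i ((Polynomial.X : PS) ^ k) ∈ K := by
    intro k
    have hxy : (∀ i, St.x i ((Polynomial.X : PS) ^ k) ∈ K) →
        ∀ i, St.y i ((Polynomial.X : PS) ^ k) ∈ K := by
      intro hk i
      have := St.sys.xx i ((Polynomial.X : PS) ^ k) 1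
      rw [mul_one] at this
      rw [← this]
      exact hcomm _ _ (hk i) (hx _ _ h1)
    induction k with
    | zero =>
      have h0 : ∀ i, St.x i ((Polynomial.X : PS) ^ 0) ∈ K := by
        intro i
        rw [pow_zero]
        exact hx i 1 h1
      exact fun i => ⟨h0 i, hxy h0 i⟩
    | succ k ih =>
      have h0 : ∀ i, St.x i ((Polynomial.X : PS) ^ (k + 1)) ∈ K := by
        intro i
        have hk : ∀ i, St.x i ((Polynomial.X : PS) ^ k) ∈ K ∧
            St.y i ((Polynomial.X : PS) ^ k) ∈ K := by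
          apply ih
          intro hk i
          have := St.sys.xx i ((Polynomial.X : PS) ^ k) 1
          rw [mul_one] at this
          rw [← this]
          exact hcomm _ _ (hk i) (hx _ _ h1)
        rw [pow_succ, ← St.sys.yy]
        exact hcomm _ _ (hk i).2 (hyX _)
      exact fun i => ⟨h0 i, hxy h0 i⟩
  have hall : ∀ (p : PS) (i : ZMod 3), St.x i p ∈ K ∧ St.y i p ∈ K := by
    intro p
    induction p using Polynomial.induction_on' with
    | add p q hp hq =>
      intro i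
      rw [St.sys.addX, St.sys.addY]
      exact ⟨K.mul_mem (hp i).1 (hq i).1, K.mul_mem (hp i).2 (hq i).2⟩
    | monomial n a =>
      intro i
      rcases zmod2_cases a with rfl | rfl
      · rw [monomial_zero_right, St.sys.X_zero, St.sys.Y_zero]
        exact ⟨K.one_mem, K.one_mem⟩
      · rw [← X_pow_eq_monomial]
        exact hpow n i
  exact St.eq_top_of_gen K (fun i r => (hall r i).1) (fun i r => (hall r i).2)

/-- every action of `St₃(𝔽₂[t])` on a tree without inversions has a fixed vertex -/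
theorem fa_St (V : Type) [MulAction (St PS) V] (T : SimpleGraph V) (hT : T.IsTree)
    (hadj : ∀ g : St PS, ∀ x y : V, T.Adj x y → T.Adj (g • x) (g • y))
    (hinv : ∀ g : St PS, ∀ x y : V, T.Adj x y → ¬ (g • x = y ∧ g • y = x)) :
    ∃ v : V, ∀ g : St PS, g • v = v :=
  fix_triangle hT hadj hinv (FF 0) (FF 1) (FF 2) FF_top

end Pool.Agent.L7h64.FA
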