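import Mathlib
import Pool.Agent.L7h64.FAPoly

/-!
# A dense overring of `𝔽₂[t]` with the same finite quotients, a strictly increasing union of subrings
-/

set_option autoImplicit false

open Polynomial

namespace Pool.Agent.L7h64.FA

/-- the monic irreducible polynomials over `𝔽₂` -/
abbrev PP : Type := {p : PS // p.Monic ∧ Irreducible p}

/-- `𝔽₂(t)` -/
abbrev KK : Type := FractionRing PS

/-- coercion -/
noncomputable abbrev al : PS →+* KK := algebraMap PS KK

lemma al_inj : Function.Injective al := IsFractionRing.injective PS KK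

lemma al_ne {f : PS} (hf : f ≠ 0) : al f ≠ 0 := fun h => hf (al_inj (by rw [h, map_zero]))

lemma monic_of_ne {f : PS} (hf : f ≠ 0) : f.Monic := by
  rcases zmod2_cases f.leadingCoeff with h | h
  · exact absurd (leadingCoeff_eq_zero.1 h) hf
  · exact h

/-- `x` is integral at `π` -/
def Itg (p : PS) (x : KK) : Prop := ∃ a b : PS, ¬ p ∣ b ∧ x * al b = al a

lemma PP.prime (p : PP) : Prime p.1 := p.2.2.prime

lemma Itg.add {p : PP} {x y : KK} (hx : Itg p.1 x) (hy : Itg p.1 y) : Itg p.1 (x + y) := by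
  obtain ⟨a, b, hb, h⟩ := hx
  obtain ⟨c, d, hd, h'⟩ := hy
  refine ⟨a * d + c * b, b * d, fun hh => ?_, ?_⟩
  · rcases p.prime.dvd_or_dvd hh with h1 | h1
    · exact hb h1
    · exact hd h1
  · rw [map_mul, map_add, map_mul, map_mul, ← h, ← h']
    ring

lemma Itg.mul {p : PP} {x y : KK} (hx : Itg p.1 x) (hy : Itg p.1 y) : Itg p.1 (x * y) := by
  obtain ⟨a, b, hb, h⟩ := hx
  obtain ⟨c, d, hd, h'⟩ := hy
  refine ⟨a * c, b * d, fun hh => ?_, ?_⟩
  · rcases p.prime.dvd_or_dvd hh with h1 | h1
    · exact hb h1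
    · exact hd h1
  · rw [map_mul, map_mul, ← h, ← h']
    ring

lemma Itg.neg {p : PP} {x : KK} (hx : Itg p.1 x) : Itg p.1 (-x) := by
  obtain ⟨a, b, hb, h⟩ := hx
  exact ⟨-a, b, hb, by rw [map_neg, ← h]; ring⟩

lemma itg_al (p : PP) (s : PS) : Itg p.1 (al s) :=
  ⟨s, 1, fun h => p.prime.not_isUnit (isUnit_of_dvd_one h), by rw [map_one, mul_one]⟩

lemma itg_zero (p : PP) : Itg p.1 0 := by
  have := itg_al p 0
  rwa [map_zero] at this

lemma itg_one (p : PP) : Itg p.1 1 := by
  have := itg_al p 1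
  rwa [map_one] at this

/-- the ring `R` -/
def RR : Subring (PP → KK) where
  carrier := {x | (∀ p : PP, Itg p.1 (x p)) ∧ ∃ (n : ℕ) (c : KK), ∀ p : PP, n < p.1.natDegree → x p = c}
  mul_mem' := by
    rintro x y ⟨hx, n, c, h⟩ ⟨hy, m, d, h'⟩
    exact ⟨fun p => (hx p).mul (hy p), max n m, c * d, fun p hp => by
      rw [Pi.mul_apply, h p (lt_of_le_of_lt (le_max_left _ _) hp),
        h' p (lt_of_le_of_lt (le_max_right _ _) hp)]⟩
  one_mem' := ⟨fun p => itg_one p, 0, 1, fun p _ => rfl⟩
  add_mem' := by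
    rintro x y ⟨hx, n, c, h⟩ ⟨hy, m, d, h'⟩
    exact ⟨fun p => (hx p).add (hy p), max n m, c + d, fun p hp => by
      rw [Pi.add_apply, h p (lt_of_le_of_lt (le_max_left _ _) hp),
        h' p (lt_of_le_of_lt (le_max_right _ _) hp)]⟩
  zero_mem' := ⟨fun p => itg_zero p, 0, 0, fun p _ => rfl⟩
  neg_mem' := by
    rintro x ⟨hx, n, c, h⟩
    exact ⟨fun p => (hx p).neg, n, -c, fun p hp => by rw [Pi.neg_apply, h p hp]⟩

/-- the chain of subrings -/
def Rn (n : ℕ) : Subring RR where
  carrier := {x | ∃ c : KK, ∀ p : PP, n < p.1.natDegree → x.1 p = c}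
  mul_mem' := by
    rintro x y ⟨c, h⟩ ⟨d, h'⟩
    exact ⟨c * d, fun p hp => by
      have : (x * y).1 p = x.1 p * y.1 p := rfl
      rw [this, h p hp, h' p hp]⟩
  one_mem' := ⟨1, fun p _ => rfl⟩
  add_mem' := by
    rintro x y ⟨c, h⟩ ⟨d, h'⟩
    exact ⟨c + d, fun p hp => by
      have : (x + y).1 p = x.1 p + y.1 p := rfl
      rw [this, h p hp, h' p hp]⟩
  zero_mem' := ⟨0, fun p _ => rfl⟩
  neg_mem' := by
    rintro x ⟨c, h⟩
    exact ⟨-c, fun p hp => by
      have : (-x).1 p = -(x.1 p) := rfl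
      rw [this, h p hp]⟩

lemma Rn_mono : Monotone Rn := by
  rintro n m hnm x ⟨c, h⟩
  exact ⟨c, fun p hp => h p (lt_of_le_of_lt hnm hp)⟩

lemma Rn_union (x : RR) : ∃ n, x ∈ Rn n := by
  obtain ⟨n, c, h⟩ := x.2.2
  exact ⟨n, c, h⟩

/-- there are irreducible polynomials of large degree -/
lemma exists_large (n : ℕ) : ∃ p : PP, n < p.1.natDegree := by
  classical
  have hfin := finite_degreeLT (n + 1)
  have : Fintype (degreeLT (ZMod 2) (n + 1)) := Fintype.ofFinite _
  let q : PS := ∏ f : degreeLT (ZMod 2) (n + 1), if f.1 = 0 then 1 else f.1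
  have hq : q ≠ 0 := by
    apply Finset.prod_ne_zero_iff.2
    intro f _
    split_ifs with h
    · exact one_ne_zero
    · exact h
  let P : PS := 1 + Polynomial.X * q
  have hdeg : 0 < natDegree (Polynomial.X * q : PS) := by
    rw [natDegree_X_mul hq]; omega
  have hP : natDegree P = natDegree (Polynomial.X * q : PS) := by
    apply natDegree_add_eq_right_of_natDegree_lt
    rw [natDegree_one]
    exact hdeg
  have hnu : ¬ IsUnit P := by
    intro h
    have := natDegree_eq_zero_of_isUnit h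
    omega
  have hP0 : P ≠ 0 := by
    intro h
    rw [h, natDegree_zero] at hP
    omega
  obtain ⟨p, hp, hdvd⟩ := WfDvdMonoid.exists_irreducible_factor hnu hP0
  refine ⟨⟨p, monic_of_ne hp.ne_zero, hp⟩, ?_⟩
  by_contra hle
  push Not at hle
  have hmem : p ∈ degreeLT (ZMod 2) (n + 1) := by
    rw [mem_degreeLT, degree_eq_natDegree hp.ne_zero]
    have : p.natDegree ≤ n := hle
    norm_cast
    omega
  have hdq : p ∣ q := by
    have h1 : (if (⟨p, hmem⟩ : degreeLT (ZMod 2) (n + 1)).1 = 0 then 1 else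
        (⟨p, hmem⟩ : degreeLT (ZMod 2) (n + 1)).1) ∣ q :=
      Finset.dvd_prod_of_mem (fun f : degreeLT (ZMod 2) (n + 1) => if f.1 = 0 then 1 else f.1)
        (Finset.mem_univ _)
    rwa [if_neg hp.ne_zero] at h1
  have h1 : p ∣ 1 := by
    have h2 : p ∣ Polynomial.X * q := Dvd.dvd.mul_left hdq _
    have h3 := dvd_sub hdvd h2
    have h4 : P - Polynomial.X * q = 1 := by
      change 1 + Polynomial.X * q - Polynomial.X * q = 1
      ring
    rwa [h4] at h3
  exact hp.not_isUnit (isUnit_of_dvd_one h1)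

lemma Rn_ne_top (n : ℕ) : ∃ r : RR, r ∉ Rn n := by
  classical
  obtain ⟨p, hp⟩ := exists_large n
  obtain ⟨q, hq⟩ := exists_large p.1.natDegree
  have hqp : q ≠ p := by rintro rfl; exact lt_irrefl _ hq
  let x : PP → KK := fun r => if r = p then 1 else 0
  have hx : x ∈ RR := by
    refine ⟨fun r => ?_, p.1.natDegree, 0, fun r hr => ?_⟩
    · change Itg r.1 (if r = p then 1 else 0)
      split_ifs
      · exact itg_one r
      · exact itg_zero r
    · change (if r = p then (1 : KK) else 0) = 0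
      rw [if_neg]
      rintro rfl
      exact lt_irrefl _ hr
  refine ⟨⟨x, hx⟩, ?_⟩
  rintro ⟨c, hc⟩
  have h1 := hc p hp
  have h2 := hc q (lt_trans hp hq)
  have h3 : x p = 1 := if_pos rfl
  have h4 : x q = 0 := if_neg hqp
  have h5 : (1 : KK) = 0 := by rw [← h3, ← h4]; exact h1.trans h2.symm
  exact one_ne_zero h5

/-- the embedding of constants -/
noncomputable def io : PS →+* RR where
  toFun s := ⟨fun _ => al s, fun p => itg_al p s, 0, al s, fun _ _ => rfl⟩
  map_one' := by apply Subtype.ext; funext p; exact map_one _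
  map_mul' a b := by apply Subtype.ext; funext p; exact map_mul _ _ _
  map_zero' := by apply Subtype.ext; funext p; exact map_zero _
  map_add' a b := by apply Subtype.ext; funext p; exact map_add _ _ _

lemma io_apply (s : PS) (p : PP) : (io s).1 p = al s := rfl

lemma mul_apply' (x y : RR) (p : PP) : (x * y).1 p = x.1 p * y.1 p := rfl
lemma add_apply' (x y : RR) (p : PP) : (x + y).1 p = x.1 p + y.1 p := rfl

lemma step (p : PP) (x : RR) : ∃ (s : PS) (z : RR), x = io s + io p.1 * z := by
  obtain ⟨a, b, hb, hx⟩ := x.2.1 p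
  have hcop : IsCoprime p.1 b := (p.2.2.coprime_iff_not_dvd).2 hb
  obtain ⟨u, v, huv⟩ := hcop
  have hp0 : al p.1 ≠ 0 := al_ne p.2.2.ne_zero
  let z : PP → KK := fun r => (x.1 r - al (a * v)) / al p.1
  have hz : z ∈ RR := by
    constructor
    · intro r
      by_cases hr : r = p
      · subst hr
        refine ⟨a * u, b, hb, ?_⟩
        change (x.1 r - al (a * v)) / al r.1 * al b = al (a * u)
        have h1 : al (u * r.1 + v * b) = 1 := by rw [huv, map_one]
        rw [map_add, map_mul, map_mul] at h1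
        rw [map_mul, map_mul, div_mul_eq_mul_div, div_eq_iff hp0]
        have h2 : al a * (al u * al r.1 + al v * al b) = al a := by rw [h1, mul_one]
        linear_combination hx - h2
      · obtain ⟨c, d, hd, h⟩ := ((x.2.1 r).add (itg_al r (a * v)).neg)
        refine ⟨c, d * p.1, ?_, ?_⟩
        · intro hdvd
          rcases r.prime.dvd_or_dvd hdvd with h1 | h1
          · exact hd h1
          · apply hr
            apply Subtype.ext
            exact eq_of_monic_of_associated r.2.1 p.2.1 (r.2.2.associated_of_dvd p.2.2 h1)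
        · change (x.1 r - al (a * v)) / al p.1 * al (d * p.1) = al c
          rw [← h, map_mul al d, div_mul_eq_mul_div, div_eq_iff hp0]
          ring
    · obtain ⟨n, c, hc⟩ := x.2.2
      exact ⟨n, (c - al (a * v)) / al p.1, fun r hr => by
        change (x.1 r - al (a * v)) / al p.1 = _
        rw [hc r hr]⟩
  refine ⟨a * v, ⟨z, hz⟩, ?_⟩
  apply Subtype.ext
  funext r
  rw [add_apply', mul_apply', io_apply, io_apply]
  change x.1 r = al (a * v) + al p.1 * ((x.1 r - al (a * v)) / al p.1)
  field_simp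
  ring

lemma io_surj (f : PS) : f ≠ 0 → ∀ r : RR, ∃ (s : PS) (r' : RR), r = io s + io f * r' := by
  induction f using WfDvdMonoid.induction_on_irreducible with
  | zero => intro h; exact absurd rfl h
  | unit u hu =>
    intro _ r
    obtain ⟨v, hv⟩ := hu.exists_right_inv
    refine ⟨0, io v * r, ?_⟩
    rw [← mul_assoc, ← map_mul, hv, map_one, one_mul, map_zero, zero_add]
  | mul a i ha hi ih =>
    intro _ r
    obtain ⟨s, r', h1⟩ := step ⟨i, monic_of_ne hi.ne_zero, hi⟩ r
    obtain ⟨s', r'', h2⟩ := ih ha r'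
    refine ⟨s + i * s', r'', ?_⟩
    rw [h1, h2]
    simp only [map_add, map_mul]
    ring

lemma io_div (f : PS) : f ≠ 0 → ∀ (s : PS) (r : RR), io s = io f * r → f ∣ s := by
  induction f using WfDvdMonoid.induction_on_irreducible with
  | zero => intro h; exact absurd rfl h
  | unit u hu => intro _ s r _; exact hu.dvd
  | mul a i ha hi ih =>
    intro _ s r h
    let p : PP := ⟨i, monic_of_ne hi.ne_zero, hi⟩
    have h1 : al s = al (i * a) * r.1 p := congrArg (fun z : RR => z.1 p) h
    obtain ⟨c, b, hb, hr⟩ := r.2.1 p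
    have h2 : s * b = i * (a * c) := by
      apply al_inj
      rw [map_mul, map_mul, map_mul, ← hr, h1, map_mul]
      ring
    have h3 : i ∣ s := by
      rcases hi.prime.dvd_or_dvd (Dvd.intro _ h2.symm) with h3 | h3
      · exact h3
      · exact absurd h3 hb
    obtain ⟨s', rfl⟩ := h3
    apply mul_dvd_mul_left
    apply ih ha s' r
    apply Subtype.ext
    funext q
    have h4 : al (i * s') = al (i * a) * r.1 q := congrArg (fun z : RR => z.1 q) h
    rw [mul_apply', io_apply, io_apply]
    rw [map_mul, map_mul, mul_assoc] at h4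
    exact mul_left_cancel₀ (al_ne hi.ne_zero) h4

lemma io_dense : Dense io where
  inf := inferInstance
  surj := io_surj
  div := io_div

lemma io_finite (f : PS) (hf : f ≠ 0) : Finite (RR ⧸ Ideal.span {io f}) := by
  have := finite_degreeLT f.natDegree
  let F : degreeLT (ZMod 2) f.natDegree → RR ⧸ Ideal.span {io f} :=
    fun s => Ideal.Quotient.mk _ (io s.1)
  have hF : Function.Surjective F := by
    intro c
    obtain ⟨r, rfl⟩ := Ideal.Quotient.mk_surjective c
    obtain ⟨s, r', h⟩ := io_surj f hf r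
    refine ⟨⟨s % f, ?_⟩, ?_⟩
    · rw [mem_degreeLT, ← degree_eq_natDegree hf]
      exact EuclideanDomain.mod_lt s hf
    · change Ideal.Quotient.mk _ (io (s % f)) = Ideal.Quotient.mk _ r
      rw [Ideal.Quotient.eq, Ideal.mem_span_singleton]
      have h1 : io s = io f * io (s / f) + io (s % f) := by
        rw [← map_mul, ← map_add, EuclideanDomain.div_add_mod]
      refine ⟨-io (s / f) - r', ?_⟩
      rw [h, h1]
      ring
  exact Finite.of_surjective F hF

lemma io_res (r : RR) (hr : r ≠ 0) : ∃ f : PS, f ≠ 0 ∧ r ∉ Ideal.span {io f} := by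
  obtain ⟨p, hp⟩ : ∃ p : PP, r.1 p ≠ 0 := by
    by_contra h
    push Not at h
    exact hr (Subtype.ext (funext h))
  obtain ⟨a, b, hb, h⟩ := r.2.1 p
  have ha : a ≠ 0 := by
    rintro rfl
    rw [map_zero] at h
    rcases mul_eq_zero.1 h with h1 | h1
    · exact hp h1
    · apply hb
      have : b = 0 := al_inj (by rw [h1, map_zero])
      rw [this]
      exact dvd_zero _
  refine ⟨p.1 * a, mul_ne_zero p.2.2.ne_zero ha, ?_⟩
  rw [Ideal.mem_span_singleton]
  rintro ⟨z, hz⟩
  obtain ⟨c, d, hd, hz'⟩ := z.2.1 p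
  have h1 : r.1 p = al (p.1 * a) * z.1 p := congrArg (fun z : RR => z.1 p) hz
  rw [h1] at h
  apply hd
  refine ⟨c * b, ?_⟩
  apply al_inj
  rw [map_mul, map_mul, ← hz']
  rw [map_mul] at h
  have h2 : al a * (al p.1 * z.1 p * al b) = al a * 1 := by
    rw [mul_one]
    linear_combination h
  have h3 := mul_left_cancel₀ (al_ne ha) h2
  linear_combination (-al d) * h3

end Pool.Agent.L7h64.FA
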